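import Pool.Agent.Helper30.FG.Defs
import Mathlib.Analysis.Complex.PhragmenLindelof

set_option autoImplicit false

namespace Pool.Agent.Helper30.FG

open Complex MeasureTheory Set Filter Topology
open Pool.Agent.Helper78.Bern Pool.Agent.Helper45.Bern

private theorem pl_upper {a C M : ℝ} {f : ℂ → ℂ} (hf : Differentiable ℂ f)
    (h : ∀ z : ℂ, ‖f z‖ ≤ C * Real.exp (a * |z.im|)) (hr : ∀ x : ℝ, ‖f (x : ℂ)‖ ≤ M)
    (z : ℂ) (hz : 0 ≤ z.im) : ‖f z‖ ≤ M * Real.exp (a * z.im) := by
  set F : ℂ → ℂ := fun w => f (I * w) * Complex.exp (-(a : ℂ) * w) with hF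
  have hFd : Differentiable ℂ F := by
    refine (hf.comp (differentiable_id.const_mul I)).mul ?_
    exact (differentiable_id.const_mul (-(a : ℂ))).cexp
  have hn : ∀ w : ℂ, ‖F w‖ = ‖f (I * w)‖ * Real.exp (-a * w.re) := by
    intro w
    have h1 : (-(a : ℂ) * w).re = -a * w.re := by
      rw [← Complex.ofReal_neg, Complex.re_ofReal_mul]
    rw [hF]
    simp only [norm_mul, Complex.norm_exp, h1]
  have hb : ∀ w : ℂ, 0 ≤ w.re → ‖F w‖ ≤ C := by
    intro w hw
    have h1 : (I * w).im = w.re := by simp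
    have h2 := h (I * w)
    rw [h1, abs_of_nonneg hw] at h2
    rw [hn]
    calc ‖f (I * w)‖ * Real.exp (-a * w.re)
        ≤ (C * Real.exp (a * w.re)) * Real.exp (-a * w.re) :=
          mul_le_mul_of_nonneg_right h2 (Real.exp_pos _).le
      _ = C := by rw [mul_assoc, ← Real.exp_add]; simp
  have key : ‖F (-I * z)‖ ≤ M := by
    refine PhragmenLindelof.right_half_plane_of_bounded_on_real (C := M)
      (hFd.diffContOnCl) ?_ ?_ ?_ ?_
    · refine ⟨0, by norm_num, 0, ?_⟩
      refine Asymptotics.IsBigO.of_bound C ?_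
      refine eventually_inf_principal.2 (Eventually.of_forall fun w hw => ?_)
      have h1 : (0 : ℝ) ≤ w.re := le_of_lt hw
      simpa using hb w h1
    · refine ⟨C, ?_⟩
      simp only [eventually_map]
      filter_upwards [eventually_ge_atTop (0 : ℝ)] with x hx
      exact hb (x : ℂ) (by simpa using hx)
    · intro x
      rw [hn]
      have h1 : I * ((x : ℂ) * I) = ((-x : ℝ) : ℂ) := by
        push_cast
        linear_combination (x : ℂ) * Complex.I_mul_I
      have h2 : ((x : ℂ) * I).re = 0 := by simp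
      rw [h1, h2]
      simpa using hr (-x)
    · simpa using hz
  rw [hn] at key
  have h1 : I * (-I * z) = z := by linear_combination (-z) * Complex.I_mul_I
  have h2 : (-I * z).re = z.im := by simp
  rw [h1, h2] at key
  calc ‖f z‖ = (‖f z‖ * Real.exp (-a * z.im)) * Real.exp (a * z.im) := by
        rw [mul_assoc, ← Real.exp_add]; simp
    _ ≤ M * Real.exp (a * z.im) := mul_le_mul_of_nonneg_right key (Real.exp_pos _).le

/-- **A1** (Phragmen-Lindelof). -/
theorem pl_bound {a C M : ℝ} {f : ℂ → ℂ} (ha : 0 ≤ a) (hf : Differentiable ℂ f)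
    (h : ∀ z : ℂ, ‖f z‖ ≤ C * Real.exp (a * |z.im|)) (hr : ∀ x : ℝ, ‖f (x : ℂ)‖ ≤ M) :
    IsB a M f := by
  refine ⟨hf, fun z => ?_⟩
  rcases le_total 0 z.im with hz | hz
  · rw [abs_of_nonneg hz]
    exact pl_upper hf h hr z hz
  · have h1 := pl_upper (a := a) (C := C) (M := M) (f := fun w => f (-w))
      (hf.comp differentiable_neg) (fun w => by simpa using h (-w))
      (fun x => by simpa using hr (-x)) (-z) (by simpa using hz)
    rw [abs_of_nonpos hz]
    simpa using h1

end Pool.Agent.Helper30.FG
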