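import Pool.Agent.Helper78.BernUpper

/-!
# Project FG (MP_1b8a6f_an): definitions

`IsB a M f`: entire functions with `|f z| ≤ M exp (a |Im z|)`; `IsE a M f`: those that are even and
real on the real axis. `Lf α` is the functional with symbol `(1-|ξ|)^α` (through the admissible
series of Helper78), `Lr α` its integral form, `J α s = 1 - 2 L(s²)`.
-/

set_option autoImplicit false

namespace Pool.Agent.Helper30.FG

open Complex MeasureTheory Set Filter Topology
open Pool.Agent.Helper78.Bern Pool.Agent.Helper45.Bern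

/-- entire functions with `|f z| ≤ M exp (a |Im z|)` -/
structure IsB (a M : ℝ) (f : ℂ → ℂ) : Prop where
  diff : Differentiable ℂ f
  bd : ∀ z : ℂ, ‖f z‖ ≤ M * Real.exp (a * |z.im|)

/-- even functions in `IsB a M`, real on the real axis -/
structure IsE (a M : ℝ) (f : ℂ → ℂ) : Prop where
  b : IsB a M f
  even : ∀ z : ℂ, f (-z) = f z
  real : ∀ x : ℝ, (f (x : ℂ)).im = 0

/-- trigonometric sums with frequencies in `[-a, a]` -/
def IsTrig (a : ℝ) (T : ℂ → ℂ) : Prop :=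
  ∃ (F : Finset ℝ) (c : ℝ → ℂ), (∀ ω ∈ F, |ω| ≤ a) ∧
    ∀ z, T z = ∑ ω ∈ F, c ω * Complex.exp (I * (ω : ℂ) * z)

/-- the functional with symbol `(1-|ξ|)^α` -/
noncomputable def Lf (α : ℝ) (g : ℂ → ℂ) : ℝ :=
  ∑' k : ℤ, gcos α (wf k) * (g ((wf k : ℝ) : ℂ)).re

noncomputable def J (α : ℝ) (s : ℂ → ℂ) : ℝ := 1 - 2 * Lf α (fun z => s z ^ 2)

/-- Poisson integral at height `t` over `0` -/
noncomputable def Pois (t : ℝ) (g : ℂ → ℂ) : ℝ :=
  (1 / Real.pi) * ∫ x : ℝ, t / (x ^ 2 + t ^ 2) * (g (x : ℂ)).re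

noncomputable def brk (g : ℂ → ℂ) (t : ℝ) : ℝ :=
  (g 0).re - 2 * Real.exp (-t) * (g ((t : ℂ) * I)).re + Real.exp (-t) * Pois t g

/-- the integral form of the functional -/
noncomputable def Lr (α : ℝ) (g : ℂ → ℂ) : ℝ :=
  α / Real.Gamma (1 - α) * ∫ t in Ioi (0 : ℝ), t ^ (-α - 1) * brk g t

/-- the Fejer kernel -/
noncomputable def Fk (t : ℝ) : ℝ := Real.sinc (Real.pi * t) ^ 2

/-- `s` on the imaginary axis -/
noncomputable def Sv (s : ℂ → ℂ) (t : ℝ) : ℝ := (s ((t : ℂ) * I)).re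

noncomputable def rho (s : ℂ → ℂ) (t : ℝ) : ℝ := Real.exp (-t) * Sv s t ^ 2

/-- the growth condition of part D -/
def HG (α C : ℝ) (s : ℂ → ℂ) (k : ℝ) : Prop :=
  ∫ t in Ioi (1 : ℝ), t ^ (-α) * rho s t / (t ^ 2 + k ^ 2) ≤ C * (1 + Real.log k) / k ^ 2

/-! ### Basic facts -/

section basic

variable {a b M N : ℝ} {f g : ℂ → ℂ}

theorem IsB.nonneg (hf : IsB a M f) : 0 ≤ M := by
  have h := hf.bd 0
  simp only [Complex.zero_im, abs_zero, mul_zero, Real.exp_zero, mul_one] at h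
  exact (norm_nonneg _).trans h

theorem IsB.real_le (hf : IsB a M f) (x : ℝ) : ‖f (x : ℂ)‖ ≤ M := by
  have h := hf.bd (x : ℂ)
  simpa using h

theorem IsB.imag_le (hf : IsB a M f) {t : ℝ} (ht : 0 ≤ t) :
    ‖f ((t : ℂ) * I)‖ ≤ M * Real.exp (a * t) := by
  have h := hf.bd ((t : ℂ) * I)
  simpa [abs_of_nonneg ht] using h

theorem IsB.mono_M (hf : IsB a M f) (h : M ≤ N) : IsB a N f :=
  ⟨hf.diff, fun z => (hf.bd z).trans (mul_le_mul_of_nonneg_right h (Real.exp_pos _).le)⟩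

theorem IsB.mono_a (hf : IsB a M f) (h : a ≤ b) : IsB b M f :=
  ⟨hf.diff, fun z => (hf.bd z).trans (mul_le_mul_of_nonneg_left
    (Real.exp_le_exp.2 (mul_le_mul_of_nonneg_right h (abs_nonneg _))) hf.nonneg)⟩

theorem IsB.add (hf : IsB a M f) (hg : IsB a N g) : IsB a (M + N) (fun z => f z + g z) :=
  ⟨hf.diff.add hg.diff, fun z => (norm_add_le _ _).trans (by
    rw [add_mul]; exact add_le_add (hf.bd z) (hg.bd z))⟩

theorem IsB.const_mul (hf : IsB a M f) (c : ℂ) : IsB a (‖c‖ * M) (fun z => c * f z) :=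
  ⟨hf.diff.const_mul c, fun z => by
    rw [norm_mul, mul_assoc]; exact mul_le_mul_of_nonneg_left (hf.bd z) (norm_nonneg _)⟩

theorem IsB.mul (hf : IsB a M f) (hg : IsB b N g) : IsB (a + b) (M * N) (fun z => f z * g z) :=
  ⟨hf.diff.mul hg.diff, fun z => by
    rw [norm_mul, add_mul, Real.exp_add]
    calc ‖f z‖ * ‖g z‖ ≤ (M * Real.exp (a * |z.im|)) * (N * Real.exp (b * |z.im|)) :=
          mul_le_mul (hf.bd z) (hg.bd z) (norm_nonneg _)
            (mul_nonneg hf.nonneg (Real.exp_pos _).le)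
      _ = M * N * (Real.exp (a * |z.im|) * Real.exp (b * |z.im|)) := by ring⟩

theorem isB_const (ha : 0 ≤ a) (c : ℂ) : IsB a ‖c‖ (fun _ => c) :=
  ⟨differentiable_const c, fun z => by
    have : 1 ≤ Real.exp (a * |z.im|) := Real.one_le_exp (mul_nonneg ha (abs_nonneg _))
    exact le_mul_of_one_le_right (norm_nonneg _) this⟩

theorem IsE.add (hf : IsE a M f) (hg : IsE a N g) : IsE a (M + N) (fun z => f z + g z) :=
  ⟨hf.b.add hg.b, fun z => by simp only [hf.even, hg.even], fun x => by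
    rw [Complex.add_im, hf.real, hg.real, add_zero]⟩

theorem IsE.const_mul (hf : IsE a M f) (c : ℝ) : IsE a (|c| * M) (fun z => (c : ℂ) * f z) :=
  ⟨by simpa using hf.b.const_mul (c : ℂ), fun z => by simp only [hf.even], fun x => by
    rw [Complex.mul_im, hf.real, Complex.ofReal_im, mul_zero, zero_mul, add_zero]⟩

end basic

end Pool.Agent.Helper30.FG
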