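import Pool.Agent.Helper30.FG.D4a

set_option autoImplicit false

namespace Pool.Agent.Helper30.FG

open Complex MeasureTheory Set Filter Topology
open Pool.Agent.Helper78.Bern Pool.Agent.Helper45.Bern

namespace D4b

private theorem sinh_le_cube {y : ℝ} (h0 : 0 < y) (h1 : y ≤ 1) :
    Real.sinh y ≤ y + 2 / 9 * y ^ 3 := by
  have hy : |y| ≤ 1 := by rw [abs_of_pos h0]; exact h1
  have e1 := Real.exp_bound hy (n := 3) (by norm_num)
  have hy' : |(-y)| ≤ 1 := by rw [abs_neg]; exact hy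
  have e2 := Real.exp_bound hy' (n := 3) (by norm_num)
  simp only [Finset.sum_range_succ, Finset.sum_range_zero, Nat.factorial, abs_neg,
    abs_of_pos h0] at e1 e2
  rw [abs_le] at e1 e2
  norm_num at e1 e2
  rw [Real.sinh_eq]
  nlinarith [e1.1, e1.2, e2.1, e2.2]

private theorem wh_sub_le {y : ℝ} (h0 : 0 < y) (h1 : y ≤ 1) : Wh y - 1 ≤ y ^ 2 := by
  have h := sinh_le_cube h0 h1
  have hs : Real.sinh y / y ≤ 1 + 2 / 9 * y ^ 2 := by
    rw [div_le_iff₀ h0]
    nlinarith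
  have hs0 : 0 ≤ Real.sinh y / y := div_nonneg (Real.sinh_nonneg_iff.2 h0.le) h0.le
  have hy2 : y ^ 2 ≤ 1 := pow_le_one₀ h0.le h1
  have h2 : (Real.sinh y / y) ^ 2 ≤ (1 + 2 / 9 * y ^ 2) ^ 2 :=
    pow_le_pow_left₀ hs0 hs 2
  unfold Wh
  nlinarith [sq_nonneg y]

private theorem one_lt_wh {y : ℝ} (h0 : 0 < y) : 1 < Wh y := by
  unfold Wh
  have : 1 < Real.sinh y / y := by
    rw [lt_div_iff₀ h0, one_mul]
    exact Real.self_lt_sinh_iff.2 h0
  exact one_lt_pow₀ this (by norm_num)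

private theorem exp_wh_le {y : ℝ} (h1 : 1 < y) :
    Real.exp (-(4 * y)) * (Wh y - 1) ^ 2 ≤ 1 := by
  have h0 : 0 < y := by linarith
  have hw := one_lt_wh h0
  have hs0 : 0 ≤ Real.sinh y := Real.sinh_nonneg_iff.2 h0.le
  have hs : Real.sinh y / y ≤ Real.exp y := by
    rw [div_le_iff₀ h0]
    have e1 : Real.sinh y ≤ Real.exp y := by
      rw [Real.sinh_eq]
      have := Real.exp_pos y
      have := Real.exp_pos (-y)
      linarith
    nlinarith [Real.exp_pos y]
  have hW : Wh y ≤ Real.exp (2 * y) := by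
    unfold Wh
    calc (Real.sinh y / y) ^ 2 ≤ Real.exp y ^ 2 := pow_le_pow_left₀ (div_nonneg hs0 h0.le) hs 2
      _ = Real.exp (2 * y) := by rw [← Real.exp_nat_mul]; norm_num
  have h2 : (Wh y - 1) ^ 2 ≤ Real.exp (2 * y) ^ 2 :=
    pow_le_pow_left₀ (by linarith) (by linarith) 2
  calc Real.exp (-(4 * y)) * (Wh y - 1) ^ 2 ≤ Real.exp (-(4 * y)) * Real.exp (2 * y) ^ 2 :=
        mul_le_mul_of_nonneg_left h2 (Real.exp_pos _).le
    _ = 1 := by
        rw [← Real.exp_nat_mul, ← Real.exp_add]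
        norm_num
        ring

/-- the scaled integrand -/
private noncomputable def G (α y : ℝ) : ℝ :=
  y ^ (-α - 1) * (Real.exp (-(4 * y)) * (Wh y - 1) ^ 2)

private theorem G_pos {α y : ℝ} (h : 0 < y) : 0 < G α y := by
  unfold G
  have := one_lt_wh h
  have h2 : 0 < Wh y - 1 := by linarith
  have h3 := Real.rpow_pos_of_pos h (-α - 1)
  positivity

private theorem continuousOn_G (α : ℝ) : ContinuousOn (G α) (Ioi 0) := by
  unfold G Wh
  have h1 : ContinuousOn (fun y : ℝ => y ^ (-α - 1)) (Ioi 0) := by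
    intro y hy
    exact (Real.continuousAt_rpow_const y _ (Or.inl (ne_of_gt hy))).continuousWithinAt
  have h2 : ContinuousOn (fun y : ℝ => Real.sinh y / y) (Ioi 0) :=
    Real.continuous_sinh.continuousOn.div continuousOn_id (fun y hy => ne_of_gt hy)
  have h3 : ContinuousOn (fun y : ℝ => Real.exp (-(4 * y))) (Ioi 0) := by fun_prop
  exact h1.mul (h3.mul (((h2.pow 2).sub continuousOn_const).pow 2))

private theorem integrableOn_G {α : ℝ} (h0 : 0 < α) (h1 : α < 1) :
    IntegrableOn (G α) (Ioi 0) := by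
  rw [← Ioc_union_Ioi_eq_Ioi (zero_le_one' ℝ), integrableOn_union]
  constructor
  · have hm : AEStronglyMeasurable (G α) (volume.restrict (Ioc (0 : ℝ) 1)) :=
      ((continuousOn_G α).mono Ioc_subset_Ioi_self).aestronglyMeasurable measurableSet_Ioc
    refine Integrable.mono' (g := fun _ => (1 : ℝ)) ?_ hm ?_
    · exact integrableOn_const (by simp)
    · refine (ae_restrict_iff' measurableSet_Ioc).2 (Eventually.of_forall fun y hy => ?_)
      have hy0 : 0 < y := hy.1
      rw [Real.norm_of_nonneg (G_pos hy0).le]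
      unfold G
      have e1 : Real.exp (-(4 * y)) ≤ 1 := Real.exp_le_one_iff.2 (by linarith)
      have e2 : (Wh y - 1) ^ 2 ≤ (y ^ 2) ^ 2 :=
        pow_le_pow_left₀ (by linarith [one_lt_wh hy0]) (wh_sub_le hy0 hy.2) 2
      have e3 : y ^ (-α - 1) * (y ^ 2) ^ 2 = y ^ (3 - α) := by
        rw [← pow_mul, ← Real.rpow_natCast, ← Real.rpow_add hy0]
        norm_num
        ring_nf
      calc y ^ (-α - 1) * (Real.exp (-(4 * y)) * (Wh y - 1) ^ 2)
          ≤ y ^ (-α - 1) * (1 * (y ^ 2) ^ 2) := by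
            refine mul_le_mul_of_nonneg_left ?_ (Real.rpow_pos_of_pos hy0 _).le
            exact mul_le_mul e1 e2 (sq_nonneg _) zero_le_one
        _ = y ^ (3 - α) := by rw [one_mul, e3]
        _ ≤ 1 := Real.rpow_le_one hy0.le hy.2 (by linarith)
  · have hm : AEStronglyMeasurable (G α) (volume.restrict (Ioi (1 : ℝ))) :=
      ((continuousOn_G α).mono (Ioi_subset_Ioi zero_le_one)).aestronglyMeasurable
        measurableSet_Ioi
    refine Integrable.mono' (g := fun y : ℝ => y ^ (-α - 1)) ?_ hm ?_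
    · exact integrableOn_Ioi_rpow_of_lt (by linarith) zero_lt_one
    · refine (ae_restrict_iff' measurableSet_Ioi).2 (Eventually.of_forall fun y hy => ?_)
      have hy1 : 1 < y := hy
      have hy0 : 0 < y := by linarith
      rw [Real.norm_of_nonneg (G_pos hy0).le]
      unfold G
      exact mul_le_of_le_one_right (Real.rpow_pos_of_pos hy0 _).le (exp_wh_le hy1)

private theorem integral_G_pos {α : ℝ} (h0 : 0 < α) (h1 : α < 1) :
    0 < ∫ y in Ioi (0 : ℝ), G α y := by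
  rw [setIntegral_pos_iff_support_of_nonneg_ae _ (integrableOn_G h0 h1)]
  · have : Ioi (0 : ℝ) ⊆ Function.support (G α) ∩ Ioi 0 := fun y hy =>
      ⟨(G_pos hy).ne', hy⟩
    refine lt_of_lt_of_le ?_ (measure_mono this)
    simp
  · exact (ae_restrict_iff' measurableSet_Ioi).2
      (Eventually.of_forall fun y hy => (G_pos hy).le)

private theorem scale {α ε t : ℝ} (hε : 0 < ε) (ht : 0 < t) :
    t ^ (-α - 1) * (Real.exp (-(4 * (ε * t))) * (Wh (ε * t) - 1) ^ 2) =
      ε ^ (α + 1) * G α (ε * t) := by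
  unfold G
  rw [Real.mul_rpow hε.le ht.le]
  have : ε ^ (α + 1) * ε ^ (-α - 1) = 1 := by
    rw [← Real.rpow_add hε]
    norm_num
  calc t ^ (-α - 1) * (Real.exp (-(4 * (ε * t))) * (Wh (ε * t) - 1) ^ 2)
      = (ε ^ (α + 1) * ε ^ (-α - 1)) *
        (t ^ (-α - 1) * (Real.exp (-(4 * (ε * t))) * (Wh (ε * t) - 1) ^ 2)) := by
        rw [this, one_mul]
    _ = _ := by ring

end D4b

/-- **D4b** (the gain). -/
theorem gain {α : ℝ} (h0 : 0 < α) (h1 : α < 1) :
    ∃ K1 : ℝ, 0 < K1 ∧ ∀ ε : ℝ, 0 < ε →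
      IntegrableOn (fun t : ℝ => t ^ (-α - 1) *
        (Real.exp (-(4 * (ε * t))) * (Wh (ε * t) - 1) ^ 2)) (Ioi 0) ∧
      ∫ t in Ioi (0 : ℝ), t ^ (-α - 1) *
        (Real.exp (-(4 * (ε * t))) * (Wh (ε * t) - 1) ^ 2) = K1 * ε ^ α := by
  refine ⟨∫ y in Ioi (0 : ℝ), D4b.G α y, D4b.integral_G_pos h0 h1, fun ε hε => ⟨?_, ?_⟩⟩
  · have hi : IntegrableOn (fun t : ℝ => D4b.G α (ε * t)) (Ioi 0) := by
      rw [integrableOn_Ioi_comp_mul_left_iff _ _ hε, mul_zero]
      exact D4b.integrableOn_G h0 h1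
    refine IntegrableOn.congr_fun (hi.const_mul (ε ^ (α + 1))) ?_ measurableSet_Ioi
    intro t ht
    exact (D4b.scale hε ht).symm
  · rw [setIntegral_congr_fun measurableSet_Ioi
      (g := fun t => ε ^ (α + 1) * D4b.G α (ε * t)) (fun t ht => D4b.scale hε ht),
      integral_const_mul, integral_comp_mul_left_Ioi _ _ hε, mul_zero, smul_eq_mul]
    have : ε ^ (α + 1) * ε⁻¹ = ε ^ α := by
      rw [Real.rpow_add hε, Real.rpow_one, mul_assoc, mul_inv_cancel₀ hε.ne', mul_one]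
    rw [← mul_assoc, this, mul_comm]

end Pool.Agent.Helper30.FG
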