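import Pool.Agent.Helper30.FG.B1

set_option autoImplicit false

namespace Pool.Agent.Helper30.FG

open Complex MeasureTheory Set Filter Topology
open Pool.Agent.Helper78.Bern Pool.Agent.Helper45.Bern

namespace D3b

/-- Schwarz symmetry of entire functions real on the real axis -/
theorem conj_symm {s : ℂ → ℂ} (hd : Differentiable ℂ s) (hreal : ∀ x : ℝ, (s (x : ℂ)).im = 0)
    (z : ℂ) : (starRingEnd ℂ) (s ((starRingEnd ℂ) z)) = s z := by
  have hf : Differentiable ℂ ((starRingEnd ℂ) ∘ s ∘ (starRingEnd ℂ)) := fun w =>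
    differentiableAt_conj_conj_iff.2 (hd _)
  have h : (starRingEnd ℂ) ∘ s ∘ (starRingEnd ℂ) = s := by
    refine AnalyticOnNhd.eq_of_frequently_eq (𝕜 := ℂ) (z₀ := 0) (fun z _ => hf.analyticAt z)
      (fun z _ => hd.analyticAt z) ?_
    have h1 : Tendsto (fun x : ℝ => (x : ℂ)) (𝓝[≠] 0) (𝓝[≠] 0) := by
      refine tendsto_nhdsWithin_iff.2 ⟨?_, ?_⟩
      · have : Tendsto (fun x : ℝ => (x : ℂ)) (𝓝 0) (𝓝 ((0 : ℝ) : ℂ)) :=
          Complex.continuous_ofReal.tendsto 0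
        rw [Complex.ofReal_zero] at this
        exact this.mono_left nhdsWithin_le_nhds
      · filter_upwards [self_mem_nhdsWithin] with x hx
        simpa using hx
    refine h1.frequently (Frequently.of_forall fun x => ?_)
    simp only [Function.comp, Complex.conj_ofReal]
    exact Complex.conj_eq_iff_im.2 (hreal x)
  exact congrFun h z

/-- on the imaginary axis the function is real -/
theorem imag_real {s : ℂ → ℂ} (hs : IsE (1 / 2) 1 s) (t : ℝ) :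
    s ((t : ℂ) * I) = (Sv s t : ℂ) := by
  have h1 := conj_symm hs.b.diff hs.real ((t : ℂ) * I)
  have h2 : (starRingEnd ℂ) ((t : ℂ) * I) = -((t : ℂ) * I) := by
    rw [map_mul, Complex.conj_ofReal, Complex.conj_I]
    ring
  rw [h2, hs.even] at h1
  have h3 : (s ((t : ℂ) * I)).im = 0 := Complex.conj_eq_iff_im.1 h1
  apply Complex.ext
  · rw [Complex.ofReal_re, Sv]
  · rw [Complex.ofReal_im, h3]

theorem hasDeriv_imag {s : ℂ → ℂ} (hd : Differentiable ℂ s) (t : ℝ) :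
    HasDerivAt (fun u : ℝ => s ((u : ℂ) * I)) (deriv s ((t : ℂ) * I) * I) t := by
  have h1 : HasDerivAt (fun z : ℂ => z * I) I (t : ℂ) := by
    simpa using (hasDerivAt_id (t : ℂ)).mul_const I
  have h2 : HasDerivAt (fun z : ℂ => s (z * I)) (deriv s ((t : ℂ) * I) * I) (t : ℂ) :=
    HasDerivAt.comp (t : ℂ) (hd ((t : ℂ) * I)).hasDerivAt h1
  exact h2.comp_ofReal

theorem hasDeriv_Sv {s : ℂ → ℂ} (hd : Differentiable ℂ s) (t : ℝ) :
    HasDerivAt (Sv s) (deriv s ((t : ℂ) * I) * I).re t :=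
  Complex.reCLM.hasFDerivAt.comp_hasDerivAt t (hasDeriv_imag hd t)

theorem deriv_imag {s : ℂ → ℂ} (hs : IsE (1 / 2) 1 s) (t : ℝ) :
    deriv s ((t : ℂ) * I) * I = ((deriv (Sv s) t : ℝ) : ℂ) := by
  have h1 := hasDeriv_imag hs.b.diff t
  have h2 : HasDerivAt (fun u : ℝ => (Sv s u : ℂ)) ((deriv (Sv s) t : ℝ) : ℂ) t :=
    (hasDeriv_Sv hs.b.diff t).differentiableAt.hasDerivAt.ofReal_comp
  have h3 : (fun u : ℝ => s ((u : ℂ) * I)) = fun u : ℝ => (Sv s u : ℂ) := funext (imag_real hs)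
  rw [h3] at h1
  exact h1.unique h2

theorem differentiable_deriv {s : ℂ → ℂ} (hd : Differentiable ℂ s) :
    Differentiable ℂ (deriv s) := by
  have h2 : ContDiff ℂ 2 s := hd.contDiff
  exact h2.differentiable_deriv_two

theorem Sv_abs {s : ℂ → ℂ} (hs : IsE (1 / 2) 1 s) {t : ℝ} (ht : 0 ≤ t) :
    |Sv s t| ≤ Real.exp (t / 2) := by
  have h := hs.b.imag_le ht
  rw [imag_real hs, Complex.norm_real, Real.norm_eq_abs, one_mul] at h
  rwa [show 1 / 2 * t = t / 2 by ring] at h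

theorem dSv_abs {s : ℂ → ℂ} (hs : IsE (1 / 2) 1 s) {t : ℝ} (ht : 0 ≤ t) :
    |deriv (Sv s) t| ≤ Real.exp (t / 2) := by
  have hB : IsB (1 / 2) (1 / 2 * 1) (deriv s) := bernstein (by norm_num) hs.b
  have h := hB.imag_le ht
  have h1 : ‖deriv s ((t : ℂ) * I)‖ = |deriv (Sv s) t| := by
    have h2 := congrArg norm (deriv_imag hs t)
    rwa [norm_mul, Complex.norm_I, mul_one, Complex.norm_real, Real.norm_eq_abs] at h2
  rw [h1, show 1 / 2 * t = t / 2 by ring] at h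
  have h3 := Real.exp_pos (t / 2)
  linarith

theorem exp_half_le : Real.exp (1 / 2) ≤ 2 := by
  have h1 : Real.exp (1 / 2) * Real.exp (1 / 2) = Real.exp 1 := by
    rw [← Real.exp_add]; norm_num
  have h2 := Real.exp_one_lt_d9
  have h3 := Real.exp_pos (1 / 2)
  nlinarith

/-- quadratic behaviour at the origin -/
theorem Sv_quad {s : ℂ → ℂ} (hs : IsE (1 / 2) 1 s) {t : ℝ} (ht : 0 ≤ t) (ht1 : t ≤ 1) :
    |Sv s t - Sv s 0| ≤ t ^ 2 := by
  have hB : IsB (1 / 2) (1 / 2 * 1) (deriv s) := bernstein (by norm_num) hs.b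
  have hB2 : IsB (1 / 2) (1 / 2 * (1 / 2 * 1)) (deriv (deriv s)) := bernstein (by norm_num) hB
  have hd1 := differentiable_deriv hs.b.diff
  have h2 : ∀ z ∈ Metric.closedBall (0 : ℂ) 1, ‖deriv (deriv s) z‖ ≤ 1 := by
    intro z hz
    have hz1 : ‖z‖ ≤ 1 := by simpa using hz
    have him : |z.im| ≤ 1 := (Complex.abs_im_le_norm z).trans hz1
    refine (hB2.bd z).trans ?_
    have h3 : Real.exp (1 / 2 * |z.im|) ≤ Real.exp (1 / 2) :=
      Real.exp_le_exp.2 (by linarith)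
    have h4 := exp_half_le
    linarith
  have h0 : deriv s 0 = 0 := by
    have h := deriv_odd hs.b.diff hs.even 0
    rw [neg_zero] at h
    have h5 : (2 : ℂ) * deriv s 0 = 0 := by linear_combination h
    exact (mul_eq_zero.1 h5).resolve_left two_ne_zero
  have h3 : ∀ z ∈ Metric.closedBall (0 : ℂ) t, ‖deriv s z‖ ≤ t := by
    intro z hz
    have hz1 : ‖z‖ ≤ t := by simpa using hz
    have h := Convex.norm_image_sub_le_of_norm_deriv_le (𝕜 := ℂ) (f := deriv s) (C := 1)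
      (s := Metric.closedBall (0 : ℂ) 1) (x := 0) (y := z) (fun w _ => hd1 w) h2
      (convex_closedBall _ _) (Metric.mem_closedBall_self zero_le_one)
      (Metric.closedBall_subset_closedBall ht1 hz)
    rw [h0, sub_zero, sub_zero, one_mul] at h
    exact h.trans hz1
  have htI : ‖(t : ℂ) * I‖ = t := by
    rw [norm_mul, Complex.norm_I, mul_one, Complex.norm_real, Real.norm_eq_abs, abs_of_nonneg ht]
  have h4 := Convex.norm_image_sub_le_of_norm_deriv_le (𝕜 := ℂ) (f := s) (C := t)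
      (s := Metric.closedBall (0 : ℂ) t) (x := 0) (y := (t : ℂ) * I) (fun w _ => hs.b.diff w) h3
      (convex_closedBall _ _) (Metric.mem_closedBall_self ht)
      (by rw [mem_closedBall_zero_iff, htI])
  rw [sub_zero, htI] at h4
  have h5 : s ((t : ℂ) * I) - s 0 = ((Sv s t - Sv s 0 : ℝ) : ℂ) := by
    have h6 := imag_real hs 0
    rw [Complex.ofReal_zero, zero_mul] at h6
    rw [imag_real hs, h6]
    push_cast
    rfl
  rw [h5, Complex.norm_real, Real.norm_eq_abs] at h4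
  calc |Sv s t - Sv s 0| ≤ t * t := h4
    _ = t ^ 2 := by ring

theorem rho_le {s : ℂ → ℂ} (hs : IsE (1 / 2) 1 s) {t : ℝ} (ht : 0 ≤ t) :
    Real.exp (-t) * Sv s t ^ 2 ≤ 1 := by
  have h1 : Sv s t ^ 2 ≤ Real.exp (t / 2) ^ 2 := by
    rw [← sq_abs]
    exact pow_le_pow_left₀ (abs_nonneg _) (Sv_abs hs ht) 2
  have h2 : Real.exp (-t) * Real.exp (t / 2) ^ 2 = 1 := by
    rw [← Real.exp_nat_mul, ← Real.exp_add]
    norm_num
    ring
  rw [← h2]
  exact mul_le_mul_of_nonneg_left h1 (Real.exp_pos _).le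

theorem dens_le {s : ℂ → ℂ} (hs : IsE (1 / 2) 1 s) {t : ℝ} (ht : 0 ≤ t) :
    |Real.exp (-t) * (2 * Sv s t * deriv (Sv s) t)| ≤ 2 := by
  have h1 : |Sv s t| * |deriv (Sv s) t| ≤ Real.exp (t / 2) * Real.exp (t / 2) :=
    mul_le_mul (Sv_abs hs ht) (dSv_abs hs ht) (abs_nonneg _) (Real.exp_pos _).le
  have h2 : Real.exp (-t) * (Real.exp (t / 2) * Real.exp (t / 2)) = 1 := by
    rw [← Real.exp_add, ← Real.exp_add]
    have : -t + (t / 2 + t / 2) = 0 := by ring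
    rw [this, Real.exp_zero]
  rw [abs_mul, abs_of_pos (Real.exp_pos _), abs_mul, abs_mul, abs_two]
  calc Real.exp (-t) * (2 * |Sv s t| * |deriv (Sv s) t|)
      = 2 * (Real.exp (-t) * (|Sv s t| * |deriv (Sv s) t|)) := by ring
    _ ≤ 2 * (Real.exp (-t) * (Real.exp (t / 2) * Real.exp (t / 2))) := by
        refine mul_le_mul_of_nonneg_left ?_ (by norm_num)
        exact mul_le_mul_of_nonneg_left h1 (Real.exp_pos _).le
    _ = 2 := by rw [h2, mul_one]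

theorem Sv_contDiff {s : ℂ → ℂ} (hs : IsE (1 / 2) 1 s) : ContDiff ℝ 1 (Sv s) := by
  rw [contDiff_one_iff_deriv]
  refine ⟨fun t => (hasDeriv_Sv hs.b.diff t).differentiableAt, ?_⟩
  have h1 : deriv (Sv s) = fun t : ℝ => (deriv s ((t : ℂ) * I) * I).re :=
    funext fun t => (hasDeriv_Sv hs.b.diff t).deriv
  rw [h1]
  have h2 := (differentiable_deriv hs.b.diff).continuous
  fun_prop

end D3b

/-- bounds for `s` on the imaginary axis -/
theorem Sv_facts {s : ℂ → ℂ} (hs : IsE (1 / 2) 1 s) :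
    ContDiff ℝ 1 (Sv s) ∧ (∀ t : ℝ, 0 ≤ t → |Sv s t| ≤ Real.exp (t / 2)) ∧
      (∀ t : ℝ, 0 ≤ t → |deriv (Sv s) t| ≤ Real.exp (t / 2)) ∧
      (∀ t : ℝ, s ((t : ℂ) * I) = (Sv s t : ℂ)) ∧
      (∀ t : ℝ, (t : ℂ) * I * deriv s ((t : ℂ) * I) = ((t * deriv (Sv s) t : ℝ) : ℂ)) ∧
      ∃ C : ℝ, 0 < C ∧ ∀ t : ℝ, 0 ≤ t → t ≤ 1 → |Sv s t ^ 2 - Sv s 0 ^ 2| ≤ C * t ^ 2 := by
  refine ⟨D3b.Sv_contDiff hs, fun t ht => D3b.Sv_abs hs ht, fun t ht => D3b.dSv_abs hs ht,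
    fun t => D3b.imag_real hs t, fun t => ?_, 4, by norm_num, fun t ht ht1 => ?_⟩
  · have h := D3b.deriv_imag hs t
    push_cast
    rw [← h]
    ring
  · have h1 := D3b.Sv_quad hs ht ht1
    have h2 : |Sv s t + Sv s 0| ≤ 4 := by
      have h3 := D3b.Sv_abs hs ht
      have h4 := D3b.Sv_abs hs (le_refl (0 : ℝ))
      have h5 : Real.exp (t / 2) ≤ Real.exp (1 / 2) := Real.exp_le_exp.2 (by linarith)
      have h6 : Real.exp (0 / 2) = 1 := by rw [zero_div, Real.exp_zero]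
      have h7 := D3b.exp_half_le
      refine (abs_add_le _ _).trans ?_
      linarith
    have h3 : Sv s t ^ 2 - Sv s 0 ^ 2 = (Sv s t + Sv s 0) * (Sv s t - Sv s 0) := by ring
    rw [h3, abs_mul]
    exact mul_le_mul h2 h1 (abs_nonneg _) (by norm_num)

namespace D3b

variable {α k : ℝ} {s : ℂ → ℂ}

theorem hasDeriv_F (hs : IsE (1 / 2) 1 s) (hk : 1 ≤ k) {t : ℝ} (ht : 0 < t) :
    HasDerivAt (fun t : ℝ => t ^ (-α) * rho s t / (t ^ 2 + k ^ 2))
      (t ^ (-α) * Real.exp (-t) * (2 * Sv s t * deriv (Sv s) t) / (t ^ 2 + k ^ 2) -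
        t ^ (-α) * rho s t / (t ^ 2 + k ^ 2) * (α / t + 1 + 2 * t / (t ^ 2 + k ^ 2))) t := by
  have hd : HasDerivAt (Sv s) (deriv (Sv s) t) t :=
    (hasDeriv_Sv hs.b.diff t).differentiableAt.hasDerivAt
  have h1 : HasDerivAt (fun t : ℝ => t ^ (-α)) (-α * t ^ (-α - 1)) t :=
    Real.hasDerivAt_rpow_const (Or.inl ht.ne')
  have h2 : HasDerivAt (fun t : ℝ => Real.exp (-t)) (Real.exp (-t) * (-1)) t :=
    (hasDerivAt_neg t).exp
  have h3 : HasDerivAt (fun t : ℝ => Sv s t ^ 2) (2 * Sv s t * deriv (Sv s) t) t := by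
    refine (hd.pow 2).congr_deriv ?_
    norm_num
  have h4 : HasDerivAt (fun t : ℝ => t ^ 2 + k ^ 2) (2 * t) t := by
    have := ((hasDerivAt_id t).pow 2).add_const (k ^ 2)
    simpa using this
  have hpos : 0 < t ^ 2 + k ^ 2 := by positivity
  have h5 := (h1.mul (h2.mul h3)).div h4 hpos.ne'
  have h6 : t ^ (-α - 1) = t ^ (-α) / t := by
    rw [Real.rpow_sub ht, Real.rpow_one]
  refine h5.congr_deriv ?_
  simp only [rho, Pi.mul_apply]
  rw [h6]
  field_simp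
  ring

theorem rpow_le_one' (h0 : 0 < α) {t : ℝ} (ht : 1 ≤ t) : t ^ (-α) ≤ 1 :=
  Real.rpow_le_one_of_one_le_of_nonpos ht (by linarith)

theorem inv_le (hk : 1 ≤ k) {t : ℝ} (ht : 1 ≤ t) : 1 / (t ^ 2 + k ^ 2) ≤ t ^ (-2 : ℝ) := by
  rw [Real.rpow_neg (by linarith), Real.rpow_two, ← one_div]
  exact one_div_le_one_div_of_le (by positivity) (by nlinarith)

theorem f1_le (h0 : 0 < α) (hs : IsE (1 / 2) 1 s) (hk : 1 ≤ k) {t : ℝ} (ht : 1 ≤ t) :
    t ^ (-α) * rho s t / (t ^ 2 + k ^ 2) ≤ t ^ (-2 : ℝ) := by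
  have hr : rho s t ≤ 1 := rho_le hs (by linarith)
  have hr0 : 0 ≤ rho s t := mul_nonneg (Real.exp_pos _).le (sq_nonneg _)
  have h1 : t ^ (-α) * rho s t ≤ 1 := mul_le_one₀ (rpow_le_one' h0 ht) hr0 hr
  refine le_trans ?_ (inv_le hk ht)
  exact div_le_div_of_nonneg_right h1 (by positivity)

theorem f1_nonneg {t : ℝ} (ht : 0 ≤ t) :
    0 ≤ t ^ (-α) * rho s t / (t ^ 2 + k ^ 2) :=
  div_nonneg (mul_nonneg (Real.rpow_nonneg ht _) (mul_nonneg (Real.exp_pos _).le (sq_nonneg _)))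
    (by positivity)

theorem f2_abs (hs : IsE (1 / 2) 1 s) {t : ℝ} (ht : 0 ≤ t) :
    |t ^ (-α) * Real.exp (-t) * (2 * Sv s t * deriv (Sv s) t) / (t ^ 2 + k ^ 2)| ≤
      2 * t ^ (-α) / (t ^ 2 + k ^ 2) := by
  have hp : 0 ≤ t ^ (-α) := Real.rpow_nonneg ht _
  have hq : 0 ≤ t ^ 2 + k ^ 2 := by positivity
  rw [abs_div, mul_assoc, abs_mul, abs_of_nonneg hp, abs_of_nonneg hq]
  refine div_le_div_of_nonneg_right ?_ hq
  exact (mul_le_mul_of_nonneg_left (dens_le hs ht) hp).trans_eq (mul_comm _ _)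

theorem fac_le (h0 : 0 < α) (h1 : α < 1) (hk : 1 ≤ k) {t : ℝ} (ht : 1 ≤ t) :
    1 ≤ α / t + 1 + 2 * t / (t ^ 2 + k ^ 2) ∧ α / t + 1 + 2 * t / (t ^ 2 + k ^ 2) ≤ 4 := by
  have ht0 : 0 < t := by linarith
  have h2 : 0 ≤ α / t := by positivity
  have h3 : 0 ≤ 2 * t / (t ^ 2 + k ^ 2) := by positivity
  have h4 : α / t ≤ 1 := by rw [div_le_one ht0]; linarith
  have h5 : 2 * t / (t ^ 2 + k ^ 2) ≤ 2 := by
    rw [div_le_iff₀ (by positivity)]
    nlinarith
  constructor <;> linarith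

theorem cont_f1 (hs : IsE (1 / 2) 1 s) (hk : 1 ≤ k) :
    ContinuousOn (fun t : ℝ => t ^ (-α) * rho s t / (t ^ 2 + k ^ 2)) (Ioi 0) := fun t ht =>
  (hasDeriv_F hs hk (mem_Ioi.1 ht)).continuousAt.continuousWithinAt

theorem cont_f2 (hs : IsE (1 / 2) 1 s) (hk : 1 ≤ k) :
    ContinuousOn (fun t : ℝ => t ^ (-α) * Real.exp (-t) * (2 * Sv s t * deriv (Sv s) t) /
      (t ^ 2 + k ^ 2)) (Ioi 0) := by
  have hc := Sv_contDiff hs
  have h1 : Continuous (Sv s) := hc.continuous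
  have h2 : Continuous (deriv (Sv s)) := hc.continuous_deriv le_rfl
  have h3 : ContinuousOn (fun t : ℝ => t ^ (-α)) (Ioi 0) := fun t ht =>
    (Real.continuousAt_rpow_const _ _ (Or.inl (mem_Ioi.1 ht).ne')).continuousWithinAt
  refine ContinuousOn.div ((h3.mul (by fun_prop)).mul (by fun_prop)) (by fun_prop) ?_
  intro t _
  positivity

theorem cont_g (hs : IsE (1 / 2) 1 s) (hk : 1 ≤ k) :
    ContinuousOn (fun t : ℝ => t ^ (-α) * rho s t / (t ^ 2 + k ^ 2) *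
      (α / t + 1 + 2 * t / (t ^ 2 + k ^ 2))) (Ioi 0) := by
  refine (cont_f1 hs hk).mul ?_
  refine ContinuousOn.add (ContinuousOn.add ?_ continuousOn_const) ?_
  · exact continuousOn_const.div continuousOn_id fun t ht => (mem_Ioi.1 ht).ne'
  · refine ContinuousOn.div (by fun_prop) (by fun_prop) ?_
    intro t _
    positivity

theorem dom : IntegrableOn (fun t : ℝ => t ^ (-2 : ℝ)) (Ioi 1) :=
  integrableOn_Ioi_rpow_of_lt (by norm_num) one_pos

theorem int_of_le {f : ℝ → ℝ} (hc : ContinuousOn f (Ioi 0)) {c : ℝ}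
    (hb : ∀ t : ℝ, 1 < t → |f t| ≤ c * t ^ (-2 : ℝ)) : IntegrableOn f (Ioi 1) := by
  refine Integrable.mono' (dom.const_mul c)
    ((hc.mono (Ioi_subset_Ioi zero_le_one)).aestronglyMeasurable measurableSet_Ioi) ?_
  rw [ae_restrict_iff' measurableSet_Ioi]
  exact Eventually.of_forall fun t ht => hb t ht

theorem int_f1 (h0 : 0 < α) (hs : IsE (1 / 2) 1 s) (hk : 1 ≤ k) :
    IntegrableOn (fun t : ℝ => t ^ (-α) * rho s t / (t ^ 2 + k ^ 2)) (Ioi 1) :=
  int_of_le (cont_f1 hs hk) (c := 1) fun t ht => by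
    rw [abs_of_nonneg (f1_nonneg (by linarith)), one_mul]
    exact f1_le h0 hs hk ht.le

theorem int_f2 (h0 : 0 < α) (hs : IsE (1 / 2) 1 s) (hk : 1 ≤ k) :
    IntegrableOn (fun t : ℝ => t ^ (-α) * Real.exp (-t) * (2 * Sv s t * deriv (Sv s) t) /
      (t ^ 2 + k ^ 2)) (Ioi 1) :=
  int_of_le (cont_f2 hs hk) (c := 2) fun t ht => by
    refine (f2_abs hs (by linarith)).trans ?_
    have h1 : 2 * t ^ (-α) / (t ^ 2 + k ^ 2) ≤ 2 * 1 / (t ^ 2 + k ^ 2) :=
      div_le_div_of_nonneg_right (mul_le_mul_of_nonneg_left (rpow_le_one' h0 ht.le)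
        (by norm_num)) (by positivity)
    refine h1.trans ?_
    have h2 := inv_le hk ht.le
    rw [mul_div_assoc]
    exact mul_le_mul_of_nonneg_left h2 (by norm_num)

theorem int_g (h0 : 0 < α) (h1 : α < 1) (hs : IsE (1 / 2) 1 s) (hk : 1 ≤ k) :
    IntegrableOn (fun t : ℝ => t ^ (-α) * rho s t / (t ^ 2 + k ^ 2) *
      (α / t + 1 + 2 * t / (t ^ 2 + k ^ 2))) (Ioi 1) :=
  int_of_le (cont_g hs hk) (c := 4) fun t ht => by
    have h2 : 0 ≤ t ^ (-α) * rho s t / (t ^ 2 + k ^ 2) := f1_nonneg (by linarith)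
    obtain ⟨h3, h4⟩ := fac_le h0 h1 hk ht.le
    rw [abs_of_nonneg (mul_nonneg h2 (by linarith)), mul_comm 4]
    exact mul_le_mul (f1_le h0 hs hk ht.le) h4 (by linarith)
      (Real.rpow_nonneg (by linarith) _)

/-- the part at infinity -/
theorem tail_bound (h0 : 0 < α) (h1 : α < 1) (hs : IsE (1 / 2) 1 s) (hk : 1 ≤ k) :
    ∫ t in Ioi (1 : ℝ), t ^ (-α) * rho s t / (t ^ 2 + k ^ 2) ≤
      (∫ t in Ioi (1 : ℝ), t ^ (-α) * Real.exp (-t) * (2 * Sv s t * deriv (Sv s) t) /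
        (t ^ 2 + k ^ 2)) + 1 / k ^ 2 := by
  have i1 := int_f1 h0 hs hk
  have i2 := int_f2 h0 hs hk
  have i3 := int_g h0 h1 hs hk
  have hlim : Tendsto (fun t : ℝ => t ^ (-α) * rho s t / (t ^ 2 + k ^ 2)) atTop (𝓝 0) := by
    refine squeeze_zero' ?_ ?_ (tendsto_rpow_neg_atTop (y := 2) (by norm_num))
    · filter_upwards [eventually_ge_atTop (0 : ℝ)] with t ht
      exact f1_nonneg ht
    · filter_upwards [eventually_ge_atTop (1 : ℝ)] with t ht
      exact f1_le h0 hs hk ht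
  have hF := integral_Ioi_of_hasDerivAt_of_tendsto' (a := (1 : ℝ))
    (fun t ht => hasDeriv_F (α := α) hs hk (lt_of_lt_of_le one_pos (mem_Ici.1 ht)))
    (i2.sub i3) hlim
  rw [integral_sub i2 i3] at hF
  have hle : ∫ t in Ioi (1 : ℝ), t ^ (-α) * rho s t / (t ^ 2 + k ^ 2) ≤
      ∫ t in Ioi (1 : ℝ), t ^ (-α) * rho s t / (t ^ 2 + k ^ 2) *
        (α / t + 1 + 2 * t / (t ^ 2 + k ^ 2)) := by
    refine setIntegral_mono_on i1 i3 measurableSet_Ioi fun t ht => ?_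
    have ht1 : 1 < t := ht
    exact le_mul_of_one_le_right (f1_nonneg (by linarith)) (fac_le h0 h1 hk ht1.le).1
  have h1' : (1 : ℝ) ^ (-α) * rho s 1 / (1 ^ 2 + k ^ 2) ≤ 1 / k ^ 2 := by
    have hr : rho s 1 ≤ 1 := rho_le hs zero_le_one
    rw [Real.one_rpow, one_mul]
    exact div_le_div₀ zero_le_one hr (by positivity) (by linarith)
  linarith

/-- the part near zero -/
theorem head_bound (h0 : 0 < α) (h1 : α < 1) (hs : IsE (1 / 2) 1 s) (hk : 1 ≤ k) :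
    IntegrableOn (fun t : ℝ => t ^ (-α) * Real.exp (-t) * (2 * Sv s t * deriv (Sv s) t) /
      (t ^ 2 + k ^ 2)) (Ioc 0 1) ∧
    -(2 / (1 - α) / k ^ 2) ≤
      ∫ t in Ioc (0 : ℝ) 1, t ^ (-α) * Real.exp (-t) * (2 * Sv s t * deriv (Sv s) t) /
        (t ^ 2 + k ^ 2) := by
  have hI : IntegrableOn (fun t : ℝ => t ^ (-α)) (Ioc 0 1) := by
    rw [← intervalIntegrable_iff_integrableOn_Ioc_of_le zero_le_one]
    exact intervalIntegral.intervalIntegrable_rpow' (by linarith)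
  have hI2 : IntegrableOn (fun t : ℝ => 2 / k ^ 2 * t ^ (-α)) (Ioc 0 1) := hI.const_mul _
  have hb : ∀ t ∈ Ioc (0 : ℝ) 1,
      |t ^ (-α) * Real.exp (-t) * (2 * Sv s t * deriv (Sv s) t) / (t ^ 2 + k ^ 2)| ≤
        2 / k ^ 2 * t ^ (-α) := by
    intro t ht
    refine (f2_abs hs ht.1.le).trans ?_
    have hp : 0 ≤ t ^ (-α) := Real.rpow_nonneg ht.1.le _
    rw [div_mul_eq_mul_div]
    exact div_le_div_of_nonneg_left (by positivity) (by positivity) (by nlinarith [sq_nonneg t])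
  have hint : IntegrableOn (fun t : ℝ => t ^ (-α) * Real.exp (-t) *
      (2 * Sv s t * deriv (Sv s) t) / (t ^ 2 + k ^ 2)) (Ioc 0 1) := by
    refine Integrable.mono' hI2
      (((cont_f2 hs hk).mono fun t ht => ht.1).aestronglyMeasurable measurableSet_Ioc) ?_
    rw [ae_restrict_iff' measurableSet_Ioc]
    exact Eventually.of_forall fun t ht => hb t ht
  refine ⟨hint, ?_⟩
  have hval : ∫ t in Ioc (0 : ℝ) 1, 2 / k ^ 2 * t ^ (-α) = 2 / (1 - α) / k ^ 2 := by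
    rw [integral_const_mul, ← intervalIntegral.integral_of_le zero_le_one,
      integral_rpow (Or.inl (by linarith)), Real.one_rpow, Real.zero_rpow (by linarith)]
    have h3 : (1 - α) ≠ 0 := by linarith
    have h4 : (-α + 1) ≠ 0 := by linarith
    have h5 : k ≠ 0 := by linarith
    field_simp
    ring
  rw [← hval, ← integral_neg]
  refine setIntegral_mono_on hI2.neg hint measurableSet_Ioc fun t ht => ?_
  exact (abs_le.1 (hb t ht)).1

end D3b

/-- **D3b** (integration by parts). -/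
theorem parts_bound {α : ℝ} (h0 : 0 < α) (h1 : α < 1) {s : ℂ → ℂ} (hs : IsE (1 / 2) 1 s) :
    ∃ C : ℝ, 0 < C ∧ ∀ k : ℝ, 1 ≤ k →
      ∫ t in Ioi (1 : ℝ), t ^ (-α) * rho s t / (t ^ 2 + k ^ 2) ≤
        (∫ t in Ioi (0 : ℝ), t ^ (-α) * Real.exp (-t) * (2 * Sv s t * deriv (Sv s) t) /
          (t ^ 2 + k ^ 2)) + C / k ^ 2 := by
  have h2 : 0 < 1 - α := by linarith
  refine ⟨1 + 2 / (1 - α), by positivity, fun k hk => ?_⟩
  have ht := D3b.tail_bound h0 h1 hs hk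
  obtain ⟨hi, hh⟩ := D3b.head_bound h0 h1 hs hk
  rw [← Ioc_union_Ioi_eq_Ioi (zero_le_one (α := ℝ)),
    setIntegral_union (by
      rw [Set.disjoint_left]
      intro x hx hx2
      exact absurd hx.2 (not_le.2 hx2)) measurableSet_Ioi hi (D3b.int_f2 h0 hs hk)]
  have h3 : (1 + 2 / (1 - α)) / k ^ 2 = 1 / k ^ 2 + 2 / (1 - α) / k ^ 2 := by rw [add_div]
  rw [h3]
  linarith

end Pool.Agent.Helper30.FG
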