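import Pool.Agent.Helper30.FG.A1
import Pool.Agent.Helper30.FG.D3b

set_option autoImplicit false

namespace Pool.Agent.Helper30.FG

open Complex MeasureTheory Set Filter Topology
open Pool.Agent.Helper78.Bern Pool.Agent.Helper45.Bern

/-- `(sin z / z)²` as an entire function -/
noncomputable def wc (z : ℂ) : ℂ := (dslope Complex.sin 0 z) ^ 2

/-- the competitor -/
noncomputable def snew (s : ℂ → ℂ) (ε : ℝ) (z : ℂ) : ℂ :=
  s (((1 - 4 * ε : ℝ) : ℂ) * z) * wc ((ε : ℂ) * z) +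
    Complex.cos (((1 - 4 * ε : ℝ) : ℂ) * z / 2) * (1 - wc ((ε : ℂ) * z))

/-- `(sinh y / y)²` -/
noncomputable def Wh (y : ℝ) : ℝ := (Real.sinh y / y) ^ 2

theorem one_le_Wh {y : ℝ} (hy : 0 < y) : 1 ≤ Wh y := by
  unfold Wh
  have h1 : y ≤ Real.sinh y := Real.self_le_sinh_iff.2 hy.le
  have h2 : 1 ≤ Real.sinh y / y := (one_le_div hy).2 h1
  nlinarith

private theorem d4a_ds_zero : dslope Complex.sin 0 0 = 1 := by
  rw [dslope_same, (Complex.hasDerivAt_sin 0).deriv, Complex.cos_zero]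

private theorem d4a_ds_ne {z : ℂ} (hz : z ≠ 0) : dslope Complex.sin 0 z = Complex.sin z / z := by
  rw [dslope_of_ne _ hz, slope_def_field, Complex.sin_zero, sub_zero, sub_zero]

private theorem d4a_ds_diff : Differentiable ℂ (dslope Complex.sin 0) := by
  have h := (Complex.differentiableOn_dslope (f := Complex.sin) (s := univ) (c := 0)
    Filter.univ_mem).2 Complex.differentiable_sin.differentiableOn
  exact fun z => (h z (mem_univ z)).differentiableAt Filter.univ_mem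

private theorem d4a_wc_diff : Differentiable ℂ wc := fun z => (d4a_ds_diff z).pow 2

private theorem d4a_wc_zero : wc 0 = 1 := by
  unfold wc; rw [d4a_ds_zero, one_pow]

private theorem d4a_wc_ne {z : ℂ} (hz : z ≠ 0) : wc z = (Complex.sin z / z) ^ 2 := by
  unfold wc; rw [d4a_ds_ne hz]

private theorem d4a_wc_neg (z : ℂ) : wc (-z) = wc z := by
  rcases eq_or_ne z 0 with rfl | hz
  · rw [neg_zero]
  · rw [d4a_wc_ne hz, d4a_wc_ne (neg_ne_zero.2 hz), Complex.sin_neg, neg_div_neg_eq]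

private theorem d4a_wc_real (x : ℝ) : wc (x : ℂ) = ((Real.sinc x ^ 2 : ℝ) : ℂ) := by
  rcases eq_or_ne x 0 with rfl | hx
  · rw [Complex.ofReal_zero, d4a_wc_zero, Real.sinc_zero]; norm_num
  · rw [d4a_wc_ne (Complex.ofReal_ne_zero.2 hx), Real.sinc_of_ne_zero hx]
    push_cast
    ring

private theorem d4a_wc_imag {y : ℝ} (hy : y ≠ 0) : wc ((y : ℂ) * I) = ((Wh y : ℝ) : ℂ) := by
  have hne : (y : ℂ) * I ≠ 0 := mul_ne_zero (Complex.ofReal_ne_zero.2 hy) Complex.I_ne_zero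
  have hy' : (y : ℂ) ≠ 0 := Complex.ofReal_ne_zero.2 hy
  rw [d4a_wc_ne hne, Complex.sin_mul_I]
  unfold Wh
  push_cast
  rw [mul_div_mul_right _ _ Complex.I_ne_zero]

private theorem d4a_norm_sin (z : ℂ) : ‖Complex.sin z‖ ≤ Real.exp |z.im| := by
  have h1 : ‖Complex.exp (-z * I)‖ ≤ Real.exp |z.im| := by
    rw [Complex.norm_exp]
    refine Real.exp_le_exp.2 ?_
    simp only [Complex.mul_re, Complex.neg_re, Complex.I_re, mul_zero, Complex.neg_im,
      Complex.I_im, mul_one, zero_sub, neg_neg]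
    exact le_abs_self _
  have h2 : ‖Complex.exp (z * I)‖ ≤ Real.exp |z.im| := by
    rw [Complex.norm_exp]
    refine Real.exp_le_exp.2 ?_
    simp only [Complex.mul_re, Complex.I_re, mul_zero, Complex.I_im, mul_one, zero_sub]
    exact neg_le_abs _
  have h3 : ‖(Complex.exp (-z * I) - Complex.exp (z * I)) * I / 2‖ ≤ Real.exp |z.im| := by
    rw [norm_div, norm_mul, Complex.norm_I, mul_one, Complex.norm_ofNat]
    have h4 := norm_sub_le (Complex.exp (-z * I)) (Complex.exp (z * I))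
    linarith
  exact h3

private theorem d4a_norm_cos (z : ℂ) : ‖Complex.cos z‖ ≤ Real.exp |z.im| := by
  have h1 : ‖Complex.exp (-z * I)‖ ≤ Real.exp |z.im| := by
    rw [Complex.norm_exp]
    refine Real.exp_le_exp.2 ?_
    simp only [Complex.mul_re, Complex.neg_re, Complex.I_re, mul_zero, Complex.neg_im,
      Complex.I_im, mul_one, zero_sub, neg_neg]
    exact le_abs_self _
  have h2 : ‖Complex.exp (z * I)‖ ≤ Real.exp |z.im| := by
    rw [Complex.norm_exp]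
    refine Real.exp_le_exp.2 ?_
    simp only [Complex.mul_re, Complex.I_re, mul_zero, Complex.I_im, mul_one, zero_sub]
    exact neg_le_abs _
  have h3 : ‖(Complex.exp (z * I) + Complex.exp (-z * I)) / 2‖ ≤ Real.exp |z.im| := by
    rw [norm_div, Complex.norm_ofNat]
    have h4 := norm_add_le (Complex.exp (z * I)) (Complex.exp (-z * I))
    linarith
  exact h3

private theorem d4a_wc_bd : ∃ K : ℝ, 1 ≤ K ∧ ∀ z : ℂ, ‖wc z‖ ≤ K * Real.exp (2 * |z.im|) := by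
  have hc : ContinuousOn (fun z => ‖wc z‖) (Metric.closedBall (0 : ℂ) 1) :=
    (d4a_wc_diff.continuous.norm).continuousOn
  obtain ⟨K, hK⟩ := (isCompact_closedBall (0 : ℂ) 1).bddAbove_image hc
  refine ⟨max K 1, le_max_right _ _, fun z => ?_⟩
  have he : 1 ≤ Real.exp (2 * |z.im|) := Real.one_le_exp (by positivity)
  by_cases hz : ‖z‖ ≤ 1
  · have h1 : ‖wc z‖ ≤ K := hK ⟨z, by simpa using hz, rfl⟩
    calc ‖wc z‖ ≤ max K 1 := h1.trans (le_max_left _ _)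
      _ ≤ max K 1 * Real.exp (2 * |z.im|) :=
        le_mul_of_one_le_right (zero_le_one.trans (le_max_right _ _)) he
  · rw [not_le] at hz
    have hne : z ≠ 0 := by
      rintro rfl
      simp at hz
      linarith
    rw [d4a_wc_ne hne, norm_pow, norm_div]
    have h1 := d4a_norm_sin z
    have h2 : ‖Complex.sin z‖ / ‖z‖ ≤ Real.exp |z.im| :=
      (div_le_self (norm_nonneg _) hz.le).trans h1
    calc (‖Complex.sin z‖ / ‖z‖) ^ 2 ≤ (Real.exp |z.im|) ^ 2 :=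
          pow_le_pow_left₀ (by positivity) h2 2
      _ = Real.exp (2 * |z.im|) := by rw [sq, ← Real.exp_add]; ring_nf
      _ ≤ max K 1 * Real.exp (2 * |z.im|) :=
          le_mul_of_one_le_left (Real.exp_pos _).le (le_max_right _ _)

private theorem d4a_re_eq {s : ℂ → ℂ} (hs : IsE (1 / 2) 1 s) (y : ℝ) :
    s (y : ℂ) = ((s (y : ℂ)).re : ℂ) :=
  Complex.ext (Complex.ofReal_re _).symm (by rw [hs.real, Complex.ofReal_im])

private theorem d4a_real_val {s : ℂ → ℂ} (hs : IsE (1 / 2) 1 s) (ε x : ℝ) :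
    snew s ε (x : ℂ) = (((s (((1 - 4 * ε) * x : ℝ) : ℂ)).re * Real.sinc (ε * x) ^ 2 +
      Real.cos ((1 - 4 * ε) * x / 2) * (1 - Real.sinc (ε * x) ^ 2) : ℝ) : ℂ) := by
  have h1 : ((1 - 4 * ε : ℝ) : ℂ) * (x : ℂ) = (((1 - 4 * ε) * x : ℝ) : ℂ) := by push_cast; ring
  have h2 : (ε : ℂ) * (x : ℂ) = ((ε * x : ℝ) : ℂ) := by push_cast; ring
  have h3 : s (((1 - 4 * ε) * x : ℝ) : ℂ) = ((s (((1 - 4 * ε) * x : ℝ) : ℂ)).re : ℂ) :=
    d4a_re_eq hs _
  have h4 : Complex.cos ((((1 - 4 * ε) * x : ℝ) : ℂ) / 2) =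
      ((Real.cos ((1 - 4 * ε) * x / 2) : ℝ) : ℂ) := by
    rw [Complex.ofReal_cos]; push_cast; ring_nf
  unfold snew
  rw [h1, h2, d4a_wc_real, h4, h3]
  simp only [Complex.ofReal_re]
  push_cast
  ring

private theorem d4a_sinc_sq_mem (x : ℝ) : 0 ≤ Real.sinc x ^ 2 ∧ Real.sinc x ^ 2 ≤ 1 := by
  refine ⟨sq_nonneg _, ?_⟩
  have := Real.abs_sinc_le_one x
  rw [← sq_abs]
  exact pow_le_one₀ (abs_nonneg _) this

private theorem d4a_real_le {s : ℂ → ℂ} (hs : IsE (1 / 2) 1 s) (ε x : ℝ) :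
    ‖snew s ε (x : ℂ)‖ ≤ 1 := by
  rw [d4a_real_val hs, Complex.norm_real, Real.norm_eq_abs]
  have h1 : |(s (((1 - 4 * ε) * x : ℝ) : ℂ)).re| ≤ 1 :=
    (Complex.abs_re_le_norm _).trans (hs.b.real_le _)
  have h2 := Real.abs_cos_le_one ((1 - 4 * ε) * x / 2)
  obtain ⟨h3, h4⟩ := d4a_sinc_sq_mem (ε * x)
  rw [abs_le] at h1 h2 ⊢
  constructor <;> nlinarith

/-- **D4a** -/
theorem isE_snew {s : ℂ → ℂ} (hs : IsE (1 / 2) 1 s) {ε : ℝ} (h0 : 0 < ε) (h1 : ε ≤ 1 / 8) :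
    IsE (1 / 2) 1 (snew s ε) := by
  obtain ⟨K, hK1, hK⟩ := d4a_wc_bd
  have hν : 0 ≤ 1 - 4 * ε := by linarith
  have hd : Differentiable ℂ (snew s ε) := by
    have e1 : Differentiable ℂ (fun z : ℂ => ((1 - 4 * ε : ℝ) : ℂ) * z) :=
      differentiable_id.const_mul _
    have e2 : Differentiable ℂ (fun z : ℂ => (ε : ℂ) * z) := differentiable_id.const_mul _
    have e3 : Differentiable ℂ (fun z : ℂ => s (((1 - 4 * ε : ℝ) : ℂ) * z)) :=
      hs.b.diff.comp e1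
    have e4 : Differentiable ℂ (fun z : ℂ => wc ((ε : ℂ) * z)) := d4a_wc_diff.comp e2
    have e5 : Differentiable ℂ (fun z : ℂ => Complex.cos (((1 - 4 * ε : ℝ) : ℂ) * z / 2)) :=
      Complex.differentiable_cos.comp (e1.div_const 2)
    exact (e3.mul e4).add (e5.mul ((differentiable_const _).sub e4))
  have him : ∀ (r : ℝ) (z : ℂ), ((r : ℂ) * z).im = r * z.im := fun r z => by simp
  have hbd : ∀ z : ℂ, ‖snew s ε z‖ ≤ (K + (1 + K)) * Real.exp (1 / 2 * |z.im|) := by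
    intro z
    have a1 : ‖s (((1 - 4 * ε : ℝ) : ℂ) * z)‖ ≤ Real.exp ((1 - 4 * ε) / 2 * |z.im|) := by
      have := hs.b.bd (((1 - 4 * ε : ℝ) : ℂ) * z)
      rw [him, abs_mul, abs_of_nonneg hν, one_mul] at this
      refine this.trans (le_of_eq ?_)
      ring_nf
    have a2 : ‖wc ((ε : ℂ) * z)‖ ≤ K * Real.exp (2 * ε * |z.im|) := by
      have := hK ((ε : ℂ) * z)
      rw [him, abs_mul, abs_of_pos h0, ← mul_assoc] at this
      exact this
    have a3 : ‖Complex.cos (((1 - 4 * ε : ℝ) : ℂ) * z / 2)‖ ≤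
        Real.exp ((1 - 4 * ε) / 2 * |z.im|) := by
      have := d4a_norm_cos (((1 - 4 * ε : ℝ) : ℂ) * z / 2)
      have e : (((1 - 4 * ε : ℝ) : ℂ) * z / 2).im = (1 - 4 * ε) / 2 * z.im := by
        have e' : ((1 - 4 * ε : ℝ) : ℂ) * z / 2 = (((1 - 4 * ε) / 2 : ℝ) : ℂ) * z := by
          push_cast; ring
        rw [e', him]
      rw [e, abs_mul, abs_of_nonneg (by linarith : 0 ≤ (1 - 4 * ε) / 2)] at this
      exact this
    have a4 : ‖1 - wc ((ε : ℂ) * z)‖ ≤ (1 + K) * Real.exp (2 * ε * |z.im|) := by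
      have b1 : (1 : ℝ) ≤ Real.exp (2 * ε * |z.im|) := Real.one_le_exp (by positivity)
      have b2 := norm_sub_le (1 : ℂ) (wc ((ε : ℂ) * z))
      rw [norm_one] at b2
      nlinarith
    have a5 : Real.exp ((1 - 4 * ε) / 2 * |z.im|) * Real.exp (2 * ε * |z.im|) =
        Real.exp (1 / 2 * |z.im|) := by
      rw [← Real.exp_add]; ring_nf
    unfold snew
    calc ‖s (((1 - 4 * ε : ℝ) : ℂ) * z) * wc ((ε : ℂ) * z) +
          Complex.cos (((1 - 4 * ε : ℝ) : ℂ) * z / 2) * (1 - wc ((ε : ℂ) * z))‖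
        ≤ ‖s (((1 - 4 * ε : ℝ) : ℂ) * z)‖ * ‖wc ((ε : ℂ) * z)‖ +
          ‖Complex.cos (((1 - 4 * ε : ℝ) : ℂ) * z / 2)‖ * ‖1 - wc ((ε : ℂ) * z)‖ := by
          refine (norm_add_le _ _).trans ?_
          rw [norm_mul, norm_mul]
      _ ≤ Real.exp ((1 - 4 * ε) / 2 * |z.im|) * (K * Real.exp (2 * ε * |z.im|)) +
          Real.exp ((1 - 4 * ε) / 2 * |z.im|) * ((1 + K) * Real.exp (2 * ε * |z.im|)) :=
          add_le_add (mul_le_mul a1 a2 (norm_nonneg _) (Real.exp_pos _).le)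
            (mul_le_mul a3 a4 (norm_nonneg _) (Real.exp_pos _).le)
      _ = (K + (1 + K)) * (Real.exp ((1 - 4 * ε) / 2 * |z.im|) *
            Real.exp (2 * ε * |z.im|)) := by ring
      _ = (K + (1 + K)) * Real.exp (1 / 2 * |z.im|) := by rw [a5]
  refine ⟨pl_bound (by norm_num) hd hbd (d4a_real_le hs ε), fun z => ?_, fun x => ?_⟩
  · unfold snew
    have e1 : ((1 - 4 * ε : ℝ) : ℂ) * -z = -(((1 - 4 * ε : ℝ) : ℂ) * z) := by ring
    have e2 : (ε : ℂ) * -z = -((ε : ℂ) * z) := by ring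
    have e3 : -(((1 - 4 * ε : ℝ) : ℂ) * z) / 2 = -(((1 - 4 * ε : ℝ) : ℂ) * z / 2) := by ring
    rw [e1, e2, e3, hs.even, d4a_wc_neg, Complex.cos_neg]
  · rw [d4a_real_val hs, Complex.ofReal_im]

theorem snew_zero (s : ℂ → ℂ) (ε : ℝ) : snew s ε 0 = s 0 := by
  unfold snew
  rw [mul_zero, mul_zero, zero_div, d4a_wc_zero]
  ring

theorem snew_imag {s : ℂ → ℂ} {ε t : ℝ} (h0 : 0 < ε) (ht : 0 < t) :
    Sv (snew s ε) t = Sv s ((1 - 4 * ε) * t) * Wh (ε * t) -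
      Real.cosh ((1 - 4 * ε) * t / 2) * (Wh (ε * t) - 1) := by
  have h1 : ((1 - 4 * ε : ℝ) : ℂ) * ((t : ℂ) * I) = (((1 - 4 * ε) * t : ℝ) : ℂ) * I := by
    push_cast; ring
  have h2 : (ε : ℂ) * ((t : ℂ) * I) = ((ε * t : ℝ) : ℂ) * I := by push_cast; ring
  have h3 : Complex.cos ((((1 - 4 * ε) * t : ℝ) : ℂ) * I / 2) =
      ((Real.cosh ((1 - 4 * ε) * t / 2) : ℝ) : ℂ) := by
    have e : (((1 - 4 * ε) * t : ℝ) : ℂ) * I / 2 = (((1 - 4 * ε) * t / 2 : ℝ) : ℂ) * I := by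
      push_cast; ring
    rw [e, Complex.cos_mul_I, Complex.ofReal_cosh]
  have h4 : (ε * t) ≠ 0 := (mul_pos h0 ht).ne'
  unfold Sv snew
  rw [h1, h2, h3, d4a_wc_imag h4]
  have h5 : (1 : ℂ) - ((Wh (ε * t) : ℝ) : ℂ) = ((1 - Wh (ε * t) : ℝ) : ℂ) := by push_cast; ring
  rw [h5, Complex.add_re, Complex.re_mul_ofReal, ← Complex.ofReal_mul, Complex.ofReal_re]
  ring

private theorem d4a_lip {s : ℂ → ℂ} (hs : IsE (1 / 2) 1 s) (x y : ℝ) :
    ‖s (x : ℂ) - s (y : ℂ)‖ ≤ 2 * |x - y| := by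
  have hder : ∀ u : ℝ, ‖deriv s (u : ℂ)‖ ≤ 2 := by
    intro u
    have h := Complex.norm_deriv_le_of_forall_mem_sphere_norm_le (c := (u : ℂ)) (R := 1)
      (C := 2) (f := s) one_pos hs.b.diff.diffContOnCl (fun z hz => ?_)
    · simpa using h
    · have h1 : |z.im| ≤ 1 := by
        have h2 : ‖z - (u : ℂ)‖ = 1 := by simpa [dist_eq_norm] using hz
        have h3 := Complex.abs_im_le_norm (z - (u : ℂ))
        rw [h2] at h3
        simpa using h3
      refine (hs.b.bd z).trans ?_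
      rw [one_mul]
      have h4 : Real.exp (1 / 2 * |z.im|) ≤ Real.exp (1 / 2) :=
        Real.exp_le_exp.2 (by linarith)
      refine h4.trans ?_
      have h5 : Real.exp (1 / 2) ^ 2 = Real.exp 1 := by
        rw [sq, ← Real.exp_add]; norm_num
      have h6 := Real.exp_one_lt_d9
      nlinarith [Real.exp_pos (1 / 2 : ℝ)]
  have hd : ∀ u ∈ (univ : Set ℝ), HasDerivWithinAt (fun v : ℝ => s (v : ℂ))
      (deriv s (u : ℂ)) univ u := fun u _ =>
    ((hs.b.diff (u : ℂ)).hasDerivAt.comp_ofReal).hasDerivWithinAt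
  have h := Convex.norm_image_sub_le_of_norm_hasDerivWithin_le hd (fun u _ => hder u)
    convex_univ (mem_univ y) (mem_univ x)
  rw [Real.norm_eq_abs] at h
  exact h

private theorem d4a_sinc_low {u : ℝ} (h0 : 0 ≤ u) (h1 : u ≤ 1) :
    1 - Real.sinc u ^ 2 ≤ u := by
  rcases h0.eq_or_lt with rfl | hu
  · rw [Real.sinc_zero]; norm_num
  · have h2 := Real.sin_gt_sub_cube hu
    have h3 : 1 - u ^ 2 / 6 ≤ Real.sinc u := by
      rw [Real.sinc_of_ne_zero hu.ne', le_div_iff₀ hu]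
      nlinarith
    have h4 : 0 ≤ 1 - u ^ 2 / 6 := by nlinarith
    nlinarith [mul_self_le_mul_self h4 h3, mul_nonneg h0 (sub_nonneg.2 h1)]

theorem snew_sub_le {s : ℂ → ℂ} (hs : IsE (1 / 2) 1 s) :
    ∃ C : ℝ, 0 < C ∧ ∀ ε : ℝ, 0 < ε → ε ≤ 1 / 8 → ∀ x : ℝ,
      |(snew s ε (x : ℂ) ^ 2 - s (x : ℂ) ^ 2).re| ≤ C * min 1 (ε * |x|) := by
  refine ⟨20, by norm_num, fun ε h0 h1 x => ?_⟩
  have hp : ‖snew s ε (x : ℂ)‖ ≤ 1 := d4a_real_le hs ε x
  have hq : ‖s (x : ℂ)‖ ≤ 1 := hs.b.real_le x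
  have hre := Complex.abs_re_le_norm (snew s ε (x : ℂ) ^ 2 - s (x : ℂ) ^ 2)
  have hfac : snew s ε (x : ℂ) ^ 2 - s (x : ℂ) ^ 2 =
      (snew s ε (x : ℂ) + s (x : ℂ)) * (snew s ε (x : ℂ) - s (x : ℂ)) := by ring
  have hsum : ‖snew s ε (x : ℂ) + s (x : ℂ)‖ ≤ 2 := by
    refine (norm_add_le _ _).trans ?_; linarith
  have hdiff2 : ‖snew s ε (x : ℂ) - s (x : ℂ)‖ ≤ 2 := by
    refine (norm_sub_le _ _).trans ?_; linarith
  have hprod : ‖snew s ε (x : ℂ) ^ 2 - s (x : ℂ) ^ 2‖ ≤ 2 * ‖snew s ε (x : ℂ) - s (x : ℂ)‖ := by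
    rw [hfac, norm_mul]
    exact mul_le_mul_of_nonneg_right hsum (norm_nonneg _)
  set u : ℝ := ε * |x| with hu
  have hu0 : 0 ≤ u := by positivity
  rcases le_total u 1 with hu1 | hu1
  · rw [min_eq_right hu1]
    have e1 : Real.sinc (ε * x) = Real.sinc u := by
      rcases le_total 0 x with hx | hx
      · rw [hu, abs_of_nonneg hx]
      · rw [hu, abs_of_nonpos hx, mul_neg, Real.sinc_neg]
    have e2 : snew s ε (x : ℂ) - s (x : ℂ) =
        (s (((1 - 4 * ε) * x : ℝ) : ℂ) - s (x : ℂ)) * ((Real.sinc u ^ 2 : ℝ) : ℂ) +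
        (((Real.cos ((1 - 4 * ε) * x / 2) : ℝ) : ℂ) - s (x : ℂ)) *
          ((1 - Real.sinc u ^ 2 : ℝ) : ℂ) := by
      rw [d4a_real_val hs, e1]
      have h3 : s (((1 - 4 * ε) * x : ℝ) : ℂ) = ((s (((1 - 4 * ε) * x : ℝ) : ℂ)).re : ℂ) :=
        d4a_re_eq hs _
      rw [h3]
      simp only [Complex.ofReal_re]
      push_cast
      ring
    obtain ⟨w0, w1⟩ := d4a_sinc_sq_mem u
    have e3 : ‖s (((1 - 4 * ε) * x : ℝ) : ℂ) - s (x : ℂ)‖ ≤ 8 * u := by
      refine (d4a_lip hs _ _).trans ?_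
      have : (1 - 4 * ε) * x - x = -(4 * (ε * x)) := by ring
      rw [this, abs_neg, abs_mul, abs_mul, abs_of_pos h0, ← hu]
      norm_num
      linarith
    have e4 : ‖((Real.cos ((1 - 4 * ε) * x / 2) : ℝ) : ℂ) - s (x : ℂ)‖ ≤ 2 := by
      refine (norm_sub_le _ _).trans ?_
      rw [Complex.norm_real, Real.norm_eq_abs]
      have := Real.abs_cos_le_one ((1 - 4 * ε) * x / 2)
      linarith
    have e5 : ‖snew s ε (x : ℂ) - s (x : ℂ)‖ ≤ 10 * u := by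
      rw [e2]
      refine (norm_add_le _ _).trans ?_
      rw [norm_mul, norm_mul, Complex.norm_real, Complex.norm_real, Real.norm_eq_abs,
        Real.norm_eq_abs, abs_of_nonneg w0, abs_of_nonneg (by linarith : 0 ≤ 1 - Real.sinc u ^ 2)]
      have f1 : ‖s (((1 - 4 * ε) * x : ℝ) : ℂ) - s (x : ℂ)‖ * Real.sinc u ^ 2 ≤ 8 * u * 1 :=
        mul_le_mul e3 w1 w0 (by positivity)
      have f2 : ‖((Real.cos ((1 - 4 * ε) * x / 2) : ℝ) : ℂ) - s (x : ℂ)‖ *
          (1 - Real.sinc u ^ 2) ≤ 2 * u :=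
        mul_le_mul e4 (d4a_sinc_low hu0 hu1) (by linarith) (by norm_num)
      linarith
    linarith
  · rw [min_eq_left hu1]
    linarith

end Pool.Agent.Helper30.FG
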