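import Pool.Agent.Helper30.FG.D4a
import Pool.Agent.Helper39.FG.Use

set_option autoImplicit false

namespace Pool.Agent.Helper30.FG

open Complex MeasureTheory Set Filter Topology
open Pool.Agent.Helper78.Bern Pool.Agent.Helper45.Bern

/-- **D4c** (the cross term), `ε = 1/k`. -/
theorem cross {α : ℝ} (h0 : 0 < α) (h1 : α < 1) {s : ℂ → ℂ} (hs : IsE (1 / 2) 1 s)
    {C c : ℝ} (hC : 0 < C) (hc : 0 < c) :
    ∃ k0 : ℝ, 8 ≤ k0 ∧ ∀ k : ℝ, k0 ≤ k → HG α C s k →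
      IntegrableOn (fun t : ℝ => t ^ (-α - 1) * (Real.sqrt (rho s ((1 - 4 * (1 / k)) * t)) *
        (Real.exp (-(4 * (1 / k * t))) * Wh (1 / k * t) * (Wh (1 / k * t) - 1)))) (Ioi 0) ∧
      ∫ t in Ioi (0 : ℝ), t ^ (-α - 1) * (Real.sqrt (rho s ((1 - 4 * (1 / k)) * t)) *
        (Real.exp (-(4 * (1 / k * t))) * Wh (1 / k * t) * (Wh (1 / k * t) - 1))) ≤
          c * k ^ (-α) :=
  Pool.Agent.Helper39.FG.cross h0 h1 hs hC hc

end Pool.Agent.Helper30.FG
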