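import Pool.Agent.Helper30.FG.D4a

set_option autoImplicit false

namespace Pool.Agent.Helper30.FG

open Complex MeasureTheory Set Filter Topology
open Pool.Agent.Helper78.Bern Pool.Agent.Helper45.Bern

namespace D4d

/-- integrability of `t ^ (-α - 1) * (w t * h t)` -/
theorem integ {α C1 : ℝ} (h0 : 0 < α) (h1 : α < 1) (hC1 : 0 ≤ C1) {w h : ℝ → ℝ}
    (hw : ContinuousOn w (Ioi 0)) (hh : ContinuousOn h (Ioi 0))
    (hwb : ∀ t, 0 < t → |w t| ≤ Real.exp (-t))
    (hh0 : ∀ t, 0 < t → t ≤ 1 → |h t| ≤ C1 * t ^ 2)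
    (hh1 : ∀ t, 1 < t → |h t| ≤ Real.exp t) :
    IntegrableOn (fun t : ℝ => t ^ (-α - 1) * (w t * h t)) (Ioi 0) := by
  have hcont : ContinuousOn (fun t : ℝ => t ^ (-α - 1) * (w t * h t)) (Ioi 0) := by
    refine ContinuousOn.mul ?_ (hw.mul hh)
    exact fun t ht => (Real.continuousAt_rpow_const t _ (Or.inl (ne_of_gt ht))).continuousWithinAt
  have hmeas : AEStronglyMeasurable (fun t : ℝ => t ^ (-α - 1) * (w t * h t))
      (volume.restrict (Ioi 0)) :=
    hcont.aestronglyMeasurable measurableSet_Ioi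
  rw [← Ioc_union_Ioi_eq_Ioi (zero_le_one' ℝ)]
  refine IntegrableOn.union ?_ ?_
  · refine Integrable.mono' (integrableOn_const (by simp : volume (Ioc (0 : ℝ) 1) ≠ ⊤) :
      IntegrableOn (fun _ : ℝ => C1) (Ioc 0 1) volume) ?_ ?_
    · exact hmeas.mono_measure (Measure.restrict_mono Ioc_subset_Ioi_self le_rfl)
    · refine (ae_restrict_iff' measurableSet_Ioc).2 (Eventually.of_forall fun t ht => ?_)
      obtain ⟨ht0, ht1⟩ := ht
      rw [norm_mul, norm_mul, Real.norm_of_nonneg (Real.rpow_nonneg ht0.le _), Real.norm_eq_abs,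
        Real.norm_eq_abs]
      have e1 : t ^ (-α - 1) * t ^ (2 : ℕ) = t ^ (1 - α) := by
        rw [← Real.rpow_natCast t 2, ← Real.rpow_add ht0]; congr 1; push_cast; ring
      have e2 : t ^ (1 - α) ≤ 1 := Real.rpow_le_one ht0.le ht1 (by linarith)
      have e3 : |w t| ≤ 1 := (hwb t ht0).trans (Real.exp_le_one_iff.2 (by linarith))
      have e4 : |w t| * |h t| ≤ 1 * (C1 * t ^ 2) :=
        mul_le_mul e3 (hh0 t ht0 ht1) (abs_nonneg _) zero_le_one
      calc t ^ (-α - 1) * (|w t| * |h t|) ≤ t ^ (-α - 1) * (1 * (C1 * t ^ 2)) :=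
            mul_le_mul_of_nonneg_left e4 (Real.rpow_nonneg ht0.le _)
        _ = C1 * (t ^ (-α - 1) * t ^ (2 : ℕ)) := by ring
        _ ≤ C1 * 1 := by rw [e1]; exact mul_le_mul_of_nonneg_left e2 hC1
        _ = C1 := mul_one _
  · refine Integrable.mono' (integrableOn_Ioi_rpow_of_lt (by linarith : -α - 1 < -1) one_pos)
      (hmeas.mono_measure (Measure.restrict_mono (Ioi_subset_Ioi zero_le_one) le_rfl)) ?_
    refine (ae_restrict_iff' measurableSet_Ioi).2 (Eventually.of_forall fun t ht => ?_)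
    have ht' : (1 : ℝ) < t := ht
    have ht0 : (0 : ℝ) < t := by linarith
    rw [norm_mul, norm_mul, Real.norm_of_nonneg (Real.rpow_nonneg ht0.le _), Real.norm_eq_abs,
      Real.norm_eq_abs]
    have e4 : |w t| * |h t| ≤ Real.exp (-t) * Real.exp t :=
      mul_le_mul (hwb t ht0) (hh1 t ht') (abs_nonneg _) (Real.exp_pos _).le
    rw [← Real.exp_add, neg_add_cancel, Real.exp_zero] at e4
    calc t ^ (-α - 1) * (|w t| * |h t|) ≤ t ^ (-α - 1) * 1 :=
          mul_le_mul_of_nonneg_left e4 (Real.rpow_nonneg ht0.le _)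
      _ = t ^ (-α - 1) := mul_one _

/-- the bracket -/
noncomputable def Br (α ν t : ℝ) : ℝ := Real.exp (-t) - ν ^ α * Real.exp (-(t / ν))

theorem Br_nonneg {α ν t : ℝ} (h0 : 0 < α) (hν0 : 0 < ν) (hν1 : ν ≤ 1) (ht : 0 ≤ t) :
    0 ≤ Br α ν t := by
  have e1 : ν ^ α ≤ 1 := Real.rpow_le_one hν0.le hν1 h0.le
  have e2 : Real.exp (-(t / ν)) ≤ Real.exp (-t) := by
    apply Real.exp_le_exp.2
    have : t ≤ t / ν := by rw [le_div_iff₀ hν0]; nlinarith
    linarith
  have e3 : ν ^ α * Real.exp (-(t / ν)) ≤ 1 * Real.exp (-t) :=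
    mul_le_mul e1 e2 (Real.exp_pos _).le zero_le_one
  unfold Br; linarith

theorem Br_le {α ν t : ℝ} (hν0 : 0 < ν) : Br α ν t ≤ Real.exp (-t) := by
  have : 0 ≤ ν ^ α * Real.exp (-(t / ν)) := mul_nonneg (Real.rpow_nonneg hν0.le _)
    (Real.exp_pos _).le
  unfold Br; linarith

theorem Br_le' {α ε t : ℝ} (h1 : α < 1) (hε0 : 0 < ε) (hε1 : ε ≤ 1 / 8) (ht : 0 ≤ t) :
    Br α (1 - 4 * ε) t ≤ 8 * ε * (1 + t) * Real.exp (-t) := by
  have hν0 : 0 < 1 - 4 * ε := by linarith
  have hν1 : 1 - 4 * ε ≤ 1 := by linarith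
  set ν := 1 - 4 * ε with hν
  have e1 : ν ≤ ν ^ α := by
    have := Real.rpow_le_rpow_of_exponent_ge hν0 hν1 h1.le
    simpa using this
  have e1' : ν ^ α * Real.exp (-(t / ν)) ≥ ν * Real.exp (-(t / ν)) :=
    mul_le_mul_of_nonneg_right e1 (Real.exp_pos _).le
  have e2 : Real.exp (-(t / ν)) = Real.exp (-t) * Real.exp (-(t / ν - t)) := by
    rw [← Real.exp_add]; congr 1; ring
  have e3 : 1 - (t / ν - t) ≤ Real.exp (-(t / ν - t)) := by
    have := Real.add_one_le_exp (-(t / ν - t)); linarith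
  have e4 : t / ν - t ≤ 8 * ε * t := by
    have : t / ν ≤ (1 + 8 * ε) * t := by
      rw [div_le_iff₀ hν0, hν]
      nlinarith [mul_nonneg hε0.le ht, mul_nonneg (mul_nonneg hε0.le ht) (by linarith : 0 ≤ 1 - 8 * ε)]
    linarith
  have e5 : 1 - 8 * ε * (1 + t) ≤ ν * Real.exp (-(t / ν - t)) := by
    have e6 : ν * (1 - 8 * ε * t) ≤ ν * Real.exp (-(t / ν - t)) :=
      mul_le_mul_of_nonneg_left (by linarith) hν0.le
    have e7 : 1 - 8 * ε * (1 + t) ≤ ν * (1 - 8 * ε * t) := by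
      rw [hν]; nlinarith [mul_nonneg hε0.le ht, mul_nonneg hε0.le (mul_nonneg hε0.le ht)]
    linarith
  have e8 : Real.exp (-t) * (1 - 8 * ε * (1 + t)) ≤ Real.exp (-t) * (ν * Real.exp (-(t / ν - t))) :=
    mul_le_mul_of_nonneg_left e5 (Real.exp_pos _).le
  unfold Br
  rw [e2] at e1' ⊢
  nlinarith [e8, e1']

/-- choice of the constants -/
theorem choice {α c A D : ℝ} (h1 : α < 1) (hc : 0 < c) (hD : 0 < D) :
    ∃ k1 : ℝ, ∀ k : ℝ, k1 ≤ k → (A + D * Real.log k) / k ≤ c * k ^ (-α) := by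
  have hr : 0 < 1 - α := by linarith
  have t1 : ∀ᶠ k : ℝ in atTop, ‖Real.log k‖ ≤ c / (2 * D) * ‖k ^ (1 - α)‖ :=
    (isLittleO_log_rpow_atTop hr).def (by positivity)
  have t2 : ∀ᶠ k : ℝ in atTop, 2 * A / c ≤ k ^ (1 - α) :=
    (tendsto_rpow_atTop hr).eventually_ge_atTop _
  obtain ⟨k1, hk1⟩ := eventually_atTop.1 (t1.and (t2.and (eventually_ge_atTop (1 : ℝ))))
  refine ⟨k1, fun k hk => ?_⟩
  obtain ⟨a1, a2, a3⟩ := hk1 k hk
  have hk0 : 0 < k := by linarith
  have hp : 0 < k ^ (1 - α) := Real.rpow_pos_of_pos hk0 _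
  rw [Real.norm_eq_abs, Real.norm_of_nonneg hp.le] at a1
  have b1 : Real.log k ≤ c / (2 * D) * k ^ (1 - α) := (le_abs_self _).trans a1
  have b2 : D * Real.log k ≤ c / 2 * k ^ (1 - α) := by
    have := mul_le_mul_of_nonneg_left b1 hD.le
    have e : D * (c / (2 * D) * k ^ (1 - α)) = c / 2 * k ^ (1 - α) := by
      field_simp
    rwa [e] at this
  have b3 : A ≤ c / 2 * k ^ (1 - α) := by
    rw [div_le_iff₀ hc] at a2
    nlinarith
  have b4 : k ^ (-α) = k ^ (1 - α) / k := by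
    rw [← Real.rpow_sub_one hk0.ne']; congr 1; ring
  rw [b4, ← mul_div_assoc]
  gcongr
  linarith

end D4d

open D4d in
/-- **D4d** (the dilation term), `ε = 1/k`. -/
theorem dilation {α : ℝ} (h0 : 0 < α) (h1 : α < 1) {s : ℂ → ℂ} (hs : IsE (1 / 2) 1 s)
    {C c : ℝ} (hC : 0 < C) (hc : 0 < c) :
    ∃ k0 : ℝ, 8 ≤ k0 ∧ ∀ k : ℝ, k0 ≤ k → HG α C s k →
      IntegrableOn (fun t : ℝ => t ^ (-α - 1) *
        (Real.exp (-t) * (Sv s t ^ 2 - Sv s ((1 - 4 * (1 / k)) * t) ^ 2))) (Ioi 0) ∧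
      ∫ t in Ioi (0 : ℝ), t ^ (-α - 1) *
        (Real.exp (-t) * (Sv s t ^ 2 - Sv s ((1 - 4 * (1 / k)) * t) ^ 2)) ≤ c * k ^ (-α) := by
  obtain ⟨hS1, hS2, -, -, -, C1, hC1, hS3⟩ := Sv_facts hs
  have hSc : Continuous (Sv s) := hS1.continuous
  set h : ℝ → ℝ := fun t => Sv s t ^ 2 - Sv s 0 ^ 2 with hh
  have hhc : Continuous h := (hSc.pow 2).sub continuous_const
  have hf0 : ∀ t, 0 ≤ t → Sv s t ^ 2 ≤ Real.exp t := by
    intro t ht
    have := hS2 t ht
    rw [← sq_abs]
    calc |Sv s t| ^ 2 ≤ Real.exp (t / 2) ^ 2 := by gcongr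
      _ = Real.exp t := by rw [← Real.exp_nat_mul]; congr 1; push_cast; ring
  have hhb : ∀ t, 0 ≤ t → |h t| ≤ Real.exp t := by
    intro t ht
    have a1 := hf0 t ht
    have a2 := hf0 0 le_rfl
    rw [Real.exp_zero] at a2
    have a3 : 1 ≤ Real.exp t := Real.one_le_exp ht
    have a4 := sq_nonneg (Sv s t)
    have a5 := sq_nonneg (Sv s 0)
    rw [abs_le]; simp only [hh]; constructor <;> linarith
  have hh2 : ∀ t, 0 < t → t ≤ 1 → |h t| ≤ C1 * t ^ 2 := fun t ht ht1 => hS3 t ht.le ht1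
  -- choice of K
  obtain ⟨K, hK1, hK⟩ : ∃ K : ℝ, 1 ≤ K ∧ K ^ (-α) / α ≤ c / 2 := by
    have t1 : Tendsto (fun K : ℝ => K ^ (-α)) atTop (𝓝 0) := tendsto_rpow_neg_atTop h0
    have t2 : ∀ᶠ K : ℝ in atTop, K ^ (-α) < c / 2 * α :=
      t1.eventually_lt_const (by positivity)
    obtain ⟨K, a1, a2⟩ := (t2.and (eventually_ge_atTop (1 : ℝ))).exists
    exact ⟨K, a2, by rw [div_le_iff₀ h0]; exact a1.le⟩
  have hK0 : 0 < K := by linarith
  obtain ⟨k1, hk1⟩ := choice (α := α) (c := c / 2) (A := 16 * C1 + 32 * K * C) (D := 32 * K * C)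
    h1 (by positivity) (by positivity)
  refine ⟨max 8 k1, le_max_left _ _, fun k hk hG => ?_⟩
  have hk8 : 8 ≤ k := (le_max_left _ _).trans hk
  have hkk := hk1 k ((le_max_right _ _).trans hk)
  have hk0 : 0 < k := by linarith
  have hε0 : 0 < 1 / k := by positivity
  have hε1 : 1 / k ≤ 1 / 8 := one_div_le_one_div_of_le (by norm_num) hk8
  set ε := 1 / k with hε
  have hν0 : 0 < 1 - 4 * ε := by linarith
  have hν1 : 1 - 4 * ε ≤ 1 := by linarith
  set ν := 1 - 4 * ε with hν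
  -- the three integrable functions
  have i1 : IntegrableOn (fun t : ℝ => t ^ (-α - 1) * (Real.exp (-t) * h t)) (Ioi 0) :=
    integ h0 h1 hC1.le (by fun_prop) hhc.continuousOn
      (fun t _ => by rw [abs_of_pos (Real.exp_pos _)]) hh2 (fun t ht => hhb t (by linarith))
  have i2 : IntegrableOn (fun t : ℝ => t ^ (-α - 1) * (Real.exp (-t) * h (ν * t))) (Ioi 0) := by
    refine integ h0 h1 hC1.le (h := fun t => h (ν * t)) (by fun_prop)
      (hhc.comp (continuous_const.mul continuous_id)).continuousOn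
      (fun t _ => by rw [abs_of_pos (Real.exp_pos _)]) ?_ ?_
    · intro t ht ht1
      have a1 : ν * t ≤ t := by nlinarith
      have a2 := hh2 (ν * t) (by positivity) (by linarith)
      refine a2.trans ?_
      gcongr
    · intro t ht
      have a1 : ν * t ≤ t := by nlinarith
      exact (hhb (ν * t) (by positivity)).trans (Real.exp_le_exp.2 a1)
  have i3 : IntegrableOn (fun t : ℝ => t ^ (-α - 1) * (Real.exp (-(t / ν)) * h t)) (Ioi 0) := by
    refine integ h0 h1 hC1.le (by fun_prop) hhc.continuousOn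
      (fun t ht => ?_) hh2 (fun t ht => hhb t (by linarith))
    rw [abs_of_pos (Real.exp_pos _)]
    apply Real.exp_le_exp.2
    have : t ≤ t / ν := by rw [le_div_iff₀ hν0]; nlinarith
    linarith
  have i3' : IntegrableOn (fun t : ℝ => ν ^ α * (t ^ (-α - 1) * (Real.exp (-(t / ν)) * h t)))
      (Ioi 0) := i3.const_mul _
  have e0 : (fun t : ℝ => t ^ (-α - 1) *
        (Real.exp (-t) * (Sv s t ^ 2 - Sv s (ν * t) ^ 2))) =
      fun t : ℝ => t ^ (-α - 1) * (Real.exp (-t) * h t) -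
        t ^ (-α - 1) * (Real.exp (-t) * h (ν * t)) := by
    funext t; simp only [hh]; ring
  refine ⟨by rw [e0]; exact i1.sub i2, ?_⟩
  -- substitution
  have e1 : ∫ t in Ioi (0 : ℝ), t ^ (-α - 1) * (Real.exp (-t) * h (ν * t)) =
      ∫ t in Ioi (0 : ℝ), ν ^ α * (t ^ (-α - 1) * (Real.exp (-(t / ν)) * h t)) := by
    have a := integral_comp_mul_left_Ioi
      (fun u : ℝ => ν ^ (α + 1) * (u ^ (-α - 1) * (Real.exp (-(u / ν)) * h u))) 0 hν0
    rw [mul_zero] at a
    calc ∫ t in Ioi (0 : ℝ), t ^ (-α - 1) * (Real.exp (-t) * h (ν * t))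
        = ∫ t in Ioi (0 : ℝ), (fun u : ℝ => ν ^ (α + 1) * (u ^ (-α - 1) *
            (Real.exp (-(u / ν)) * h u))) (ν * t) := by
          refine setIntegral_congr_fun measurableSet_Ioi fun t ht => ?_
          have ht0 : (0 : ℝ) < t := ht
          have b1 : (ν * t) ^ (-α - 1) = ν ^ (-α - 1) * t ^ (-α - 1) :=
            Real.mul_rpow hν0.le ht0.le
          have b2 : ν ^ (α + 1) * ν ^ (-α - 1) = 1 := by
            rw [← Real.rpow_add hν0]; simp
          have b3 : ν * t / ν = t := by field_simp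
          simp only [b1, b3]
          have b4 : ν ^ (α + 1) * (ν ^ (-α - 1) * t ^ (-α - 1) * (Real.exp (-t) * h (ν * t))) =
              ν ^ (α + 1) * ν ^ (-α - 1) * (t ^ (-α - 1) * (Real.exp (-t) * h (ν * t))) := by
            rw [mul_assoc, mul_assoc]
          rw [b4, b2, one_mul]
      _ = ν⁻¹ • ∫ u in Ioi (0 : ℝ), ν ^ (α + 1) * (u ^ (-α - 1) *
            (Real.exp (-(u / ν)) * h u)) := a
      _ = ∫ t in Ioi (0 : ℝ), ν ^ α * (t ^ (-α - 1) * (Real.exp (-(t / ν)) * h t)) := by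
          rw [smul_eq_mul, integral_const_mul, integral_const_mul, ← mul_assoc]
          congr 1
          rw [Real.rpow_add_one hν0.ne']
          field_simp
  have e2 : ∫ t in Ioi (0 : ℝ), t ^ (-α - 1) *
        (Real.exp (-t) * (Sv s t ^ 2 - Sv s (ν * t) ^ 2)) =
      ∫ t in Ioi (0 : ℝ), t ^ (-α - 1) * (h t * Br α ν t) := by
    rw [e0, integral_sub i1 i2, e1, ← integral_sub i1 i3']
    refine integral_congr_ae (Eventually.of_forall fun t => ?_)
    simp only [Br]; ring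
  have i4 : IntegrableOn (fun t : ℝ => t ^ (-α - 1) * (h t * Br α ν t)) (Ioi 0) := by
    have : (fun t : ℝ => t ^ (-α - 1) * (h t * Br α ν t)) =
        fun t : ℝ => t ^ (-α - 1) * (Real.exp (-t) * h t) -
          ν ^ α * (t ^ (-α - 1) * (Real.exp (-(t / ν)) * h t)) := by
      funext t; simp only [Br]; ring
    rw [this]; exact i1.sub i3'
  rw [e2]
  have hKk : 1 ≤ K * k := by nlinarith
  have s1 : ∫ t in Ioi (0 : ℝ), t ^ (-α - 1) * (h t * Br α ν t) =
      (∫ t in Ioc (0 : ℝ) 1, t ^ (-α - 1) * (h t * Br α ν t)) +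
      ((∫ t in Ioc (1 : ℝ) (K * k), t ^ (-α - 1) * (h t * Br α ν t)) +
        ∫ t in Ioi (K * k), t ^ (-α - 1) * (h t * Br α ν t)) := by
    rw [← setIntegral_union (Ioc_disjoint_Ioi le_rfl) measurableSet_Ioi
      (i4.mono_set (fun t ht => lt_trans zero_lt_one ht.1))
      (i4.mono_set (Ioi_subset_Ioi (by linarith))), Ioc_union_Ioi_eq_Ioi hKk,
      ← setIntegral_union (Ioc_disjoint_Ioi le_rfl) measurableSet_Ioi
      (i4.mono_set Ioc_subset_Ioi_self)
      (i4.mono_set (Ioi_subset_Ioi zero_le_one)), Ioc_union_Ioi_eq_Ioi zero_le_one]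
  -- (0,1]
  have p1 : ∫ t in Ioc (0 : ℝ) 1, t ^ (-α - 1) * (h t * Br α ν t) ≤ 16 * C1 / k := by
    have hb : ∀ t ∈ Ioc (0 : ℝ) 1, t ^ (-α - 1) * (h t * Br α ν t) ≤ 16 * C1 / k := by
      rintro t ⟨ht0, ht1⟩
      have a1 : t ^ (-α - 1) * t ^ (2 : ℕ) = t ^ (1 - α) := by
        rw [← Real.rpow_natCast t 2, ← Real.rpow_add ht0]; congr 1; push_cast; ring
      have a2 : t ^ (1 - α) ≤ 1 := Real.rpow_le_one ht0.le ht1 (by linarith)
      have a3 : h t ≤ C1 * t ^ 2 := (le_abs_self _).trans (hh2 t ht0 ht1)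
      have a4 : 0 ≤ Br α ν t := Br_nonneg h0 hν0 hν1 ht0.le
      have a5 : Br α ν t ≤ 16 * ε := by
        have b1 := Br_le' (α := α) h1 hε0 hε1 ht0.le
        have b2 : Real.exp (-t) ≤ 1 := Real.exp_le_one_iff.2 (by linarith)
        have b3 : 8 * ε * (1 + t) * Real.exp (-t) ≤ 8 * ε * 2 * 1 := by
          gcongr
          linarith
        linarith
      calc t ^ (-α - 1) * (h t * Br α ν t) ≤ t ^ (-α - 1) * ((C1 * t ^ 2) * (16 * ε)) := by
            apply mul_le_mul_of_nonneg_left _ (Real.rpow_nonneg ht0.le _)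
            calc h t * Br α ν t ≤ C1 * t ^ 2 * Br α ν t := mul_le_mul_of_nonneg_right a3 a4
              _ ≤ _ := mul_le_mul_of_nonneg_left a5 (by positivity)
        _ = C1 * (16 * ε) * (t ^ (-α - 1) * t ^ (2 : ℕ)) := by ring
        _ ≤ C1 * (16 * ε) * 1 := by
            rw [a1]; exact mul_le_mul_of_nonneg_left a2 (by positivity)
        _ = 16 * C1 / k := by rw [hε]; ring
    have := setIntegral_mono_on (i4.mono_set Ioc_subset_Ioi_self)
      (integrableOn_const (by simp : volume (Ioc (0 : ℝ) 1) ≠ ⊤) : IntegrableOn (fun _ : ℝ => 16 * C1 / k) (Ioc 0 1) volume)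
      measurableSet_Ioc hb
    simpa using this
  -- pointwise bound for t > 1
  have q0 : ∀ t : ℝ, 1 < t → t ^ (-α - 1) * (h t * Br α ν t) ≤
      t ^ (-α - 1) * (Sv s t ^ 2 * Br α ν t) := by
    intro t ht
    have ht0 : 0 < t := by linarith
    apply mul_le_mul_of_nonneg_left _ (Real.rpow_nonneg ht0.le _)
    apply mul_le_mul_of_nonneg_right _ (Br_nonneg h0 hν0 hν1 ht0.le)
    have := sq_nonneg (Sv s 0)
    simp only [hh]; linarith
  have q1 : ∀ t : ℝ, 1 < t → t ^ (-α - 1) * (h t * Br α ν t) ≤ t ^ (-α - 1) := by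
    intro t ht
    have ht0 : 0 < t := by linarith
    refine (q0 t ht).trans ?_
    calc t ^ (-α - 1) * (Sv s t ^ 2 * Br α ν t) ≤ t ^ (-α - 1) * (Real.exp t * Real.exp (-t)) := by
          apply mul_le_mul_of_nonneg_left _ (Real.rpow_nonneg ht0.le _)
          exact mul_le_mul (hf0 t ht0.le) (Br_le hν0) (Br_nonneg h0 hν0 hν1 ht0.le)
            (Real.exp_pos _).le
      _ = t ^ (-α - 1) := by rw [← Real.exp_add, add_neg_cancel, Real.exp_zero, mul_one]
  have q2 : ∀ t : ℝ, 1 < t → t ≤ K * k → t ^ (-α - 1) * (h t * Br α ν t) ≤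
      32 * K * k * (t ^ (-α) * rho s t / (t ^ 2 + k ^ 2)) := by
    intro t ht ht2
    have ht0 : 0 < t := by linarith
    refine (q0 t ht).trans ?_
    have hpa : 0 < t ^ (-α) := Real.rpow_pos_of_pos ht0 _
    have hpa1 : t ^ (-α - 1) = t ^ (-α) / t := Real.rpow_sub_one ht0.ne' _
    have hρ : 0 ≤ rho s t := mul_nonneg (Real.exp_pos _).le (sq_nonneg _)
    have hsum : 0 < t ^ 2 + k ^ 2 := by positivity
    rcases le_total t k with htk | htk
    · -- t ≤ k
      have b1 := Br_le' (α := α) h1 hε0 hε1 ht0.le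
      have b2 : Sv s t ^ 2 * Br α ν t ≤ 16 * ε * t * rho s t := by
        calc Sv s t ^ 2 * Br α ν t ≤ Sv s t ^ 2 * (8 * ε * (1 + t) * Real.exp (-t)) :=
              mul_le_mul_of_nonneg_left b1 (sq_nonneg _)
          _ = 8 * ε * (1 + t) * rho s t := by unfold rho; ring
          _ ≤ 8 * ε * (2 * t) * rho s t := by
              apply mul_le_mul_of_nonneg_right _ hρ
              apply mul_le_mul_of_nonneg_left _ (by positivity)
              linarith
          _ = _ := by ring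
      calc t ^ (-α - 1) * (Sv s t ^ 2 * Br α ν t)
          ≤ t ^ (-α - 1) * (16 * ε * t * rho s t) :=
            mul_le_mul_of_nonneg_left b2 (Real.rpow_nonneg ht0.le _)
        _ = 16 * ε * (t ^ (-α) * rho s t) := by rw [hpa1]; field_simp
        _ ≤ 32 * K * k / (t ^ 2 + k ^ 2) * (t ^ (-α) * rho s t) := by
            apply mul_le_mul_of_nonneg_right _ (by positivity)
            rw [le_div_iff₀ hsum, hε]
            have c1 : t ^ 2 + k ^ 2 ≤ 2 * k ^ 2 := by
              have := pow_le_pow_left₀ ht0.le htk 2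
              linarith
            calc 16 * (1 / k) * (t ^ 2 + k ^ 2) ≤ 16 * (1 / k) * (2 * k ^ 2) := by gcongr
              _ = 32 * k := by field_simp; ring
              _ ≤ 32 * K * k := by
                have : k ≤ K * k := le_mul_of_one_le_left hk0.le hK1
                linarith
        _ = _ := by ring
    · -- k ≤ t ≤ K k
      have b2 : Sv s t ^ 2 * Br α ν t ≤ rho s t := by
        calc Sv s t ^ 2 * Br α ν t ≤ Sv s t ^ 2 * Real.exp (-t) :=
              mul_le_mul_of_nonneg_left (Br_le hν0) (sq_nonneg _)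
          _ = rho s t := by unfold rho; ring
      calc t ^ (-α - 1) * (Sv s t ^ 2 * Br α ν t)
          ≤ t ^ (-α - 1) * rho s t :=
            mul_le_mul_of_nonneg_left b2 (Real.rpow_nonneg ht0.le _)
        _ = 1 / t * (t ^ (-α) * rho s t) := by rw [hpa1]; ring
        _ ≤ 32 * K * k / (t ^ 2 + k ^ 2) * (t ^ (-α) * rho s t) := by
            apply mul_le_mul_of_nonneg_right _ (by positivity)
            rw [le_div_iff₀ hsum, div_mul_eq_mul_div, one_mul, div_le_iff₀ ht0]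
            have c1 : k ^ 2 ≤ t ^ 2 := pow_le_pow_left₀ hk0.le htk 2
            have c2 : t ^ 2 ≤ K * k * t := by
              rw [sq]; exact mul_le_mul_of_nonneg_right ht2 ht0.le
            have c3 : 0 ≤ K * k * t := by positivity
            linarith
        _ = _ := by ring
  -- integrability of the majorant
  have i5 : IntegrableOn (fun t : ℝ => t ^ (-α) * rho s t / (t ^ 2 + k ^ 2)) (Ioi 1) := by
    refine Integrable.mono' (integrableOn_Ioi_rpow_of_lt (by linarith : -α - 1 < -1) one_pos)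
      ?_ ?_
    · have c1 : ContinuousOn (fun t : ℝ => t ^ (-α)) (Ioi 1) := fun t ht =>
        (Real.continuousAt_rpow_const t _
          (Or.inl (ne_of_gt (lt_trans zero_lt_one ht)))).continuousWithinAt
      have c2 : Continuous (rho s) := by
        have : rho s = fun t => Real.exp (-t) * Sv s t ^ 2 := rfl
        rw [this]
        exact (Real.continuous_exp.comp continuous_neg).mul (hSc.pow 2)
      have c3 : Continuous (fun t : ℝ => t ^ 2 + k ^ 2) := by fun_prop
      have c4 : ContinuousOn (fun t : ℝ => t ^ (-α) * rho s t / (t ^ 2 + k ^ 2)) (Ioi 1) :=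
        (c1.mul c2.continuousOn).div c3.continuousOn (fun t _ => by positivity)
      exact c4.aestronglyMeasurable measurableSet_Ioi
    · refine (ae_restrict_iff' measurableSet_Ioi).2 (Eventually.of_forall fun t ht => ?_)
      have ht' : (1 : ℝ) < t := ht
      have ht0 : (0 : ℝ) < t := by linarith
      have hρ : 0 ≤ rho s t := mul_nonneg (Real.exp_pos _).le (sq_nonneg _)
      have hρ1 : rho s t ≤ 1 := by
        unfold rho
        calc Real.exp (-t) * Sv s t ^ 2 ≤ Real.exp (-t) * Real.exp t :=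
              mul_le_mul_of_nonneg_left (hf0 t ht0.le) (Real.exp_pos _).le
          _ = 1 := by rw [← Real.exp_add, neg_add_cancel, Real.exp_zero]
      have hpa : 0 < t ^ (-α) := Real.rpow_pos_of_pos ht0 _
      rw [Real.norm_of_nonneg (by positivity), Real.rpow_sub_one ht0.ne']
      refine div_le_div₀ hpa.le (mul_le_of_le_one_right hpa.le hρ1) ht0 ?_
      have d1 : t ≤ t ^ 2 := by rw [sq]; exact le_mul_of_one_le_left ht0.le ht'.le
      have d2 := sq_nonneg k
      linarith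
  have p2 : ∫ t in Ioc (1 : ℝ) (K * k), t ^ (-α - 1) * (h t * Br α ν t) ≤
      32 * K * k * (C * (1 + Real.log k) / k ^ 2) := by
    calc ∫ t in Ioc (1 : ℝ) (K * k), t ^ (-α - 1) * (h t * Br α ν t)
        ≤ ∫ t in Ioc (1 : ℝ) (K * k), 32 * K * k * (t ^ (-α) * rho s t / (t ^ 2 + k ^ 2)) := by
          refine setIntegral_mono_on (i4.mono_set (fun t ht => lt_trans zero_lt_one ht.1))
            ((i5.mono_set Ioc_subset_Ioi_self).const_mul _) measurableSet_Ioc ?_
          intro t ht; exact q2 t ht.1 ht.2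
      _ ≤ ∫ t in Ioi (1 : ℝ), 32 * K * k * (t ^ (-α) * rho s t / (t ^ 2 + k ^ 2)) := by
          refine setIntegral_mono_set (i5.const_mul _) ?_
            (Eventually.of_forall (fun t ht => ht.1))
          refine (ae_restrict_iff' measurableSet_Ioi).2 (Eventually.of_forall fun t ht => ?_)
          have ht0 : (0 : ℝ) < t := lt_trans zero_lt_one ht
          have hρ : 0 ≤ rho s t := mul_nonneg (Real.exp_pos _).le (sq_nonneg _)
          have hpa : 0 < t ^ (-α) := Real.rpow_pos_of_pos ht0 _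
          simp only [Pi.zero_apply]; positivity
      _ = 32 * K * k * ∫ t in Ioi (1 : ℝ), (t ^ (-α) * rho s t / (t ^ 2 + k ^ 2)) := by
          rw [integral_const_mul]
      _ ≤ _ := mul_le_mul_of_nonneg_left hG (by positivity)
  have p3 : ∫ t in Ioi (K * k), t ^ (-α - 1) * (h t * Br α ν t) ≤ (K * k) ^ (-α) / α := by
    have a1 : ∫ t in Ioi (K * k), t ^ (-α - 1) * (h t * Br α ν t) ≤
        ∫ t in Ioi (K * k), t ^ (-α - 1) := by
      refine setIntegral_mono_on (i4.mono_set (Ioi_subset_Ioi (by linarith)))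
        (integrableOn_Ioi_rpow_of_lt (by linarith : -α - 1 < -1) (by linarith)) measurableSet_Ioi ?_
      intro t ht; exact q1 t (lt_of_le_of_lt hKk ht)
    rw [integral_Ioi_rpow_of_lt (by linarith : -α - 1 < -1) (by linarith : 0 < K * k)] at a1
    have a2 : -(K * k) ^ (-α - 1 + 1) / (-α - 1 + 1) = (K * k) ^ (-α) / α := by
      rw [show -α - 1 + 1 = -α by ring, neg_div_neg_eq]
    rwa [a2] at a1
  rw [s1]
  have f1 : 16 * C1 / k + 32 * K * k * (C * (1 + Real.log k) / k ^ 2) =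
      (16 * C1 + 32 * K * C + 32 * K * C * Real.log k) / k := by
    field_simp
    ring
  have f2 : (K * k) ^ (-α) / α ≤ c / 2 * k ^ (-α) := by
    rw [Real.mul_rpow hK0.le hk0.le, mul_comm (K ^ (-α)), mul_div_assoc, mul_comm]
    exact mul_le_mul_of_nonneg_right hK (Real.rpow_nonneg hk0.le _)
  linarith

end Pool.Agent.Helper30.FG
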