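import Pool.Agent.Helper30.FG.A5
import Mathlib.Analysis.SpecialFunctions.JapaneseBracket
import Mathlib.Analysis.SpecialFunctions.Gamma.Basic

set_option autoImplicit false

namespace Pool.Agent.Helper30.FG

open Complex MeasureTheory Set Filter Topology
open Pool.Agent.Helper78.Bern Pool.Agent.Helper45.Bern

namespace D4e

private theorem min_le_rpow {u β : ℝ} (hu : 0 ≤ u) (hβ : 0 < β) (hβ1 : β < 1) :
    min 1 u ≤ u ^ β := by
  rcases le_total u 1 with h | h
  · rw [min_eq_right h]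
    rcases hu.eq_or_lt with rfl | hu'
    · rw [Real.zero_rpow hβ.ne']
    · calc u = u ^ (1 : ℝ) := (Real.rpow_one u).symm
        _ ≤ u ^ β := Real.rpow_le_rpow_of_exponent_ge hu' h hβ1.le
  · rw [min_eq_left h]
    exact Real.one_le_rpow h hβ.le

private noncomputable def kf (β y : ℝ) : ℝ := |y| ^ β / (y ^ 2 + 1)

private theorem kf_nonneg (β y : ℝ) : 0 ≤ kf β y := by
  unfold kf; positivity

private theorem kf_integrable {β : ℝ} (hβ : 0 < β) (hβ1 : β < 1) :
    Integrable (kf β) := by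
  have h1 : Integrable (fun x : ℝ => ((1 : ℝ) + ‖x‖ ^ 2) ^ (-(2 - β) / 2)) := by
    apply integrable_rpow_neg_one_add_norm_sq
    simp only [Module.finrank_self, Nat.cast_one]
    linarith
  refine h1.mono' ?_ ?_
  · have hc : Continuous (kf β) := by
      unfold kf
      refine Continuous.div ?_ (by fun_prop) (fun y => by positivity)
      exact continuous_abs.rpow_const (fun y => Or.inr hβ.le)
    exact hc.aestronglyMeasurable
  · refine Eventually.of_forall fun y => ?_
    rw [Real.norm_of_nonneg (kf_nonneg β y)]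
    have e1 : -(2 - β) / 2 = β / 2 - 1 := by ring
    have hp : (0 : ℝ) < 1 + ‖y‖ ^ 2 := by positivity
    have hn : ‖y‖ ^ 2 = y ^ 2 := by rw [Real.norm_eq_abs, sq_abs]
    rw [e1, Real.rpow_sub hp, Real.rpow_one, hn]
    unfold kf
    rw [add_comm (y ^ 2) 1]
    apply div_le_div_of_nonneg_right _ (by positivity)
    calc |y| ^ β = (|y| ^ (2 : ℕ)) ^ (β / 2) := by
          rw [← Real.rpow_natCast, ← Real.rpow_mul (abs_nonneg y)]
          congr 1
          push_cast
          ring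
      _ ≤ (1 + y ^ 2) ^ (β / 2) := by
          apply Real.rpow_le_rpow (by positivity) _ (by linarith)
          rw [sq_abs]
          linarith

private noncomputable def pf (β t x : ℝ) : ℝ := t / (x ^ 2 + t ^ 2) * |x| ^ β

private theorem pf_mul {β t : ℝ} (ht : 0 < t) (y : ℝ) :
    pf β t (t * y) = t ^ (β - 1) * kf β y := by
  unfold pf kf
  rw [abs_mul, abs_of_pos ht, Real.mul_rpow ht.le (abs_nonneg y), Real.rpow_sub ht, Real.rpow_one]
  have h1 : (t * y) ^ 2 + t ^ 2 = t ^ 2 * (y ^ 2 + 1) := by ring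
  have h2 : (0 : ℝ) < y ^ 2 + 1 := by positivity
  rw [h1]
  field_simp

private theorem pf_integrable {β t : ℝ} (hβ : 0 < β) (hβ1 : β < 1) (ht : 0 < t) :
    Integrable (pf β t) := by
  rw [← integrable_comp_mul_left_iff (pf β t) ht.ne']
  simp only [pf_mul ht]
  exact (kf_integrable hβ hβ1).const_mul _

private theorem pf_integral {β t : ℝ} (ht : 0 < t) :
    ∫ x, pf β t x = t ^ β * ∫ y, kf β y := by
  have h := Measure.integral_comp_mul_left (pf β t) t
  simp only [pf_mul ht] at h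
  rw [integral_const_mul, abs_of_pos (inv_pos.2 ht), smul_eq_mul] at h
  have h2 : ∫ x, pf β t x = t * (t ^ (β - 1) * ∫ y, kf β y) := by
    rw [h]; field_simp
  rw [h2, Real.rpow_sub ht, Real.rpow_one]
  field_simp

private theorem pois_le {β C k t : ℝ} (hβ : 0 < β) (hβ1 : β < 1) (hC : 0 < C) (hk : 0 < k)
    (ht : 0 < t) {g : ℂ → ℂ} (hg : ∀ x : ℝ, |(g (x : ℂ)).re| ≤ C * min 1 (1 / k * |x|)) :
    |Pois t g| ≤ (1 / Real.pi) * (C * k ^ (-β) * (t ^ β * ∫ y, kf β y)) := by
  unfold Pois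
  rw [abs_mul, abs_of_pos (by positivity : (0 : ℝ) < 1 / Real.pi)]
  apply mul_le_mul_of_nonneg_left _ (by positivity)
  rw [← pf_integral ht, ← integral_const_mul, ← Real.norm_eq_abs]
  refine norm_integral_le_of_norm_le ((pf_integrable hβ hβ1 ht).const_mul _) ?_
  refine Eventually.of_forall fun x => ?_
  have h0 : (0 : ℝ) < x ^ 2 + t ^ 2 := by positivity
  rw [norm_mul, Real.norm_of_nonneg (by positivity : (0 : ℝ) ≤ t / (x ^ 2 + t ^ 2)),
    Real.norm_eq_abs]
  have h1 : |(g (x : ℂ)).re| ≤ C * (k ^ (-β) * |x| ^ β) := by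
    refine (hg x).trans (mul_le_mul_of_nonneg_left ?_ hC.le)
    refine (min_le_rpow (by positivity) hβ hβ1).trans (le_of_eq ?_)
    rw [Real.mul_rpow (by positivity) (abs_nonneg x), Real.rpow_neg hk.le, one_div,
      Real.inv_rpow hk.le]
  calc t / (x ^ 2 + t ^ 2) * |(g (x : ℂ)).re|
      ≤ t / (x ^ 2 + t ^ 2) * (C * (k ^ (-β) * |x| ^ β)) :=
        mul_le_mul_of_nonneg_left h1 (by positivity)
    _ = C * k ^ (-β) * pf β t x := by unfold pf; ring

private theorem continuousOn_pois {M : ℝ} {g : ℂ → ℂ} (hg : IsE 1 M g) :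
    ContinuousOn (fun t : ℝ => Pois t g) (Ioi 0) := by
  have h1 := continuousOn_brk hg
  have h2 : Continuous (fun t : ℝ => Real.exp t *
      (-(g 0).re + 2 * Real.exp (-t) * (g ((t : ℂ) * I)).re)) := by
    have := hg.b.diff.continuous
    fun_prop
  have h3 : ContinuousOn (fun t : ℝ => Real.exp t * brk g t + Real.exp t *
      (-(g 0).re + 2 * Real.exp (-t) * (g ((t : ℂ) * I)).re)) (Ioi 0) :=
    (Real.continuous_exp.continuousOn.mul h1).add h2.continuousOn
  refine h3.congr fun t _ => ?_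
  unfold brk
  have e : Real.exp t * Real.exp (-t) = 1 := by rw [← Real.exp_add, add_neg_cancel, Real.exp_zero]
  linear_combination (-(Pois t g)) * e

end D4e

open D4e in
/-- **D4e** (the Poisson term), `ε = 1/k`. -/
theorem pois_small {α : ℝ} (h0 : 0 < α) (h1 : α < 1) {C c : ℝ} (hC : 0 < C) (hc : 0 < c) :
    ∃ k0 : ℝ, 8 ≤ k0 ∧ ∀ k : ℝ, k0 ≤ k → ∀ (M : ℝ) (g : ℂ → ℂ), IsE 1 M g →
      (∀ x : ℝ, |(g (x : ℂ)).re| ≤ C * min 1 (1 / k * |x|)) →
      IntegrableOn (fun t : ℝ => t ^ (-α - 1) * (Real.exp (-t) * |Pois t g|)) (Ioi 0) ∧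
      ∫ t in Ioi (0 : ℝ), t ^ (-α - 1) * (Real.exp (-t) * |Pois t g|) ≤ c * k ^ (-α) := by
  obtain ⟨β, hβdef⟩ : ∃ β : ℝ, β = (1 + α) / 2 := ⟨_, rfl⟩
  have hβ : 0 < β := by rw [hβdef]; linarith
  have hβ1 : β < 1 := by rw [hβdef]; linarith
  have hab : 0 < β - α := by rw [hβdef]; linarith
  obtain ⟨K, hK⟩ : ∃ K : ℝ, K = ∫ y, kf β y := ⟨_, rfl⟩
  have hK0 : 0 ≤ K := by rw [hK]; exact integral_nonneg (kf_nonneg β)
  -- the constant
  obtain ⟨A, hA⟩ : ∃ A : ℝ, A = 1 / Real.pi * (C * K) * Real.Gamma (β - α) := ⟨_, rfl⟩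
  have hA0 : 0 ≤ A := by
    rw [hA]
    have := Real.Gamma_pos_of_pos hab
    positivity
  have hlim : Tendsto (fun k : ℝ => k ^ (β - α)) atTop atTop := tendsto_rpow_atTop hab
  obtain ⟨k1, hk1⟩ := (eventually_atTop.1 (hlim.eventually (eventually_ge_atTop (A / c))))
  refine ⟨max 8 k1, le_max_left _ _, fun k hk M g hgE hg => ?_⟩
  have hk8 : 8 ≤ k := (le_max_left _ _).trans hk
  have hkpos : 0 < k := by linarith
  have hkk := hk1 k ((le_max_right _ _).trans hk)
  have hmaj : IntegrableOn (fun t : ℝ => 1 / Real.pi * (C * k ^ (-β) * K) *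
      (Real.exp (-t) * t ^ (β - α - 1))) (Ioi 0) :=
    (Real.GammaIntegral_convergent hab).const_mul _
  have hpt : ∀ t ∈ Ioi (0 : ℝ), t ^ (-α - 1) * (Real.exp (-t) * |Pois t g|) ≤
      1 / Real.pi * (C * k ^ (-β) * K) * (Real.exp (-t) * t ^ (β - α - 1)) := by
    intro t ht
    have ht0 : (0 : ℝ) < t := ht
    have h := pois_le hβ hβ1 hC hkpos ht0 hg
    rw [← hK] at h
    have e1 : t ^ (β - α - 1) = t ^ (-α - 1) * t ^ β := by
      rw [← Real.rpow_add ht0]; congr 1; ring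
    calc t ^ (-α - 1) * (Real.exp (-t) * |Pois t g|)
        ≤ t ^ (-α - 1) * (Real.exp (-t) * (1 / Real.pi * (C * k ^ (-β) * (t ^ β * K)))) := by
          gcongr
      _ = _ := by rw [e1]; ring
  have hnn : ∀ t ∈ Ioi (0 : ℝ), 0 ≤ t ^ (-α - 1) * (Real.exp (-t) * |Pois t g|) := by
    intro t ht
    have ht0 : (0 : ℝ) < t := ht
    positivity
  have hint : IntegrableOn (fun t : ℝ => t ^ (-α - 1) * (Real.exp (-t) * |Pois t g|)) (Ioi 0) := by
    refine Integrable.mono' hmaj ?_ ?_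
    · refine ContinuousOn.aestronglyMeasurable ?_ measurableSet_Ioi
      refine ContinuousOn.mul ?_ (ContinuousOn.mul (by fun_prop) (continuousOn_pois hgE).abs)
      exact continuousOn_id.rpow_const (fun t ht => Or.inl (ne_of_gt ht))
    · rw [ae_restrict_iff' measurableSet_Ioi]
      refine Eventually.of_forall fun t ht => ?_
      rw [Real.norm_of_nonneg (hnn t ht)]
      exact hpt t ht
  refine ⟨hint, ?_⟩
  calc ∫ t in Ioi (0 : ℝ), t ^ (-α - 1) * (Real.exp (-t) * |Pois t g|)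
      ≤ ∫ t in Ioi (0 : ℝ), 1 / Real.pi * (C * k ^ (-β) * K) *
          (Real.exp (-t) * t ^ (β - α - 1)) :=
        setIntegral_mono_on hint hmaj measurableSet_Ioi hpt
    _ = 1 / Real.pi * (C * k ^ (-β) * K) * Real.Gamma (β - α) := by
        rw [integral_const_mul, Real.Gamma_eq_integral hab]
    _ = A * k ^ (-β) := by rw [hA]; ring
    _ ≤ c * k ^ (-α) := by
        have e2 : k ^ (-α) = k ^ (β - α) * k ^ (-β) := by
          rw [← Real.rpow_add hkpos]; congr 1; ring
        have h3 : A ≤ c * k ^ (β - α) := by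
          rw [div_le_iff₀ hc] at hkk
          linarith
        rw [e2, ← mul_assoc]
        exact mul_le_mul_of_nonneg_right h3 (Real.rpow_nonneg hkpos.le _)

end Pool.Agent.Helper30.FG
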