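import Pool.Agent.Helper30.FG.A6
import Pool.Agent.Helper30.FG.D4b
import Pool.Agent.Helper30.FG.D4c
import Pool.Agent.Helper30.FG.D4d
import Pool.Agent.Helper30.FG.D4e

set_option autoImplicit false

namespace Pool.Agent.Helper30.FG

open Complex MeasureTheory Set Filter Topology
open Pool.Agent.Helper78.Bern Pool.Agent.Helper45.Bern

namespace D4

/-- the square of a function of type `1/2` -/
private theorem isE_sq {s : ℂ → ℂ} (hs : IsE (1 / 2) 1 s) : IsE 1 1 (fun z => s z ^ 2) := by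
  have hb : IsB 1 1 (fun z => s z ^ 2) := by
    have h := hs.b.mul hs.b
    have e : (fun z => s z * s z) = fun z => s z ^ 2 := by
      funext z; ring
    rw [e] at h
    have e1 : (1 / 2 + 1 / 2 : ℝ) = 1 := by norm_num
    have e2 : (1 * 1 : ℝ) = 1 := by norm_num
    rw [e1, e2] at h
    exact h
  refine ⟨hb, fun z => by simp only [hs.even], fun x => ?_⟩
  have h := hs.real x
  rw [pow_two, Complex.mul_im, h]
  ring

private theorem integrable_pois {t : ℝ} (ht : 0 < t) {M : ℝ} {g : ℂ → ℂ} (hg : IsE 1 M g) :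
    Integrable (fun x : ℝ => t / (x ^ 2 + t ^ 2) * (g (x : ℂ)).re) := by
  refine (integrable_poisson ht).mul_bdd (c := M) ?_ ?_
  · have hc : Continuous fun x : ℝ => (g (x : ℂ)).re :=
      Complex.continuous_re.comp (hg.b.diff.continuous.comp Complex.continuous_ofReal)
    exact hc.aestronglyMeasurable
  · refine Filter.Eventually.of_forall fun x => ?_
    rw [Real.norm_eq_abs]
    exact (Complex.abs_re_le_norm _).trans (hg.b.real_le x)

private theorem pois_sub {t : ℝ} (ht : 0 < t) {M N : ℝ} {f g : ℂ → ℂ} (hf : IsE 1 M f)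
    (hg : IsE 1 N g) : Pois t (fun z => f z - g z) = Pois t f - Pois t g := by
  unfold Pois
  rw [← mul_sub, ← integral_sub (integrable_pois ht hf) (integrable_pois ht hg)]
  congr 1
  refine integral_congr_ae (Filter.Eventually.of_forall fun x => ?_)
  simp only [Complex.sub_re]
  ring

private theorem isE_sub {M N : ℝ} {f g : ℂ → ℂ} (hf : IsE 1 M f) (hg : IsE 1 N g) :
    IsE 1 (M + N) (fun z => f z - g z) := by
  have h := hf.add (hg.const_mul (-1))
  have e : (fun z => f z + ((-1 : ℝ) : ℂ) * g z) = fun z => f z - g z := by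
    funext z; push_cast; ring
  rw [e] at h
  have e2 : |(-1 : ℝ)| * N = N := by rw [abs_neg, abs_one, one_mul]
  rw [e2] at h
  exact h

private theorem brk_sq {s : ℂ → ℂ} (hs : IsE (1 / 2) 1 s) (t : ℝ) :
    brk (fun z => s z ^ 2) t =
      (s 0 ^ 2).re - 2 * Real.exp (-t) * Sv s t ^ 2 + Real.exp (-t) * Pois t (fun z => s z ^ 2) := by
  obtain ⟨-, -, -, h4, -, -⟩ := Sv_facts hs
  unfold brk
  have e : (s ((t : ℂ) * I) ^ 2).re = Sv s t ^ 2 := by
    rw [h4 t, ← Complex.ofReal_pow, Complex.ofReal_re]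
  simp only [e]

/-- elementary: the pointwise bound -/
private theorem pointwise_alg {S0 S c W E q r : ℝ} (hW : 1 ≤ W) (hE : 0 ≤ E)
    (h1 : q / 4 ≤ E * c ^ 2) (h2 : E * (|S| * c) ≤ r) (hc : 0 ≤ c) :
    1 / 2 * (q * (W - 1) ^ 2) - 4 * (r * (W * (W - 1))) - 2 * (E * (S0 ^ 2 - S ^ 2)) ≤
      2 * E * ((S * W - c * (W - 1)) ^ 2 - S0 ^ 2) := by
  have hW1 : 0 ≤ W - 1 := by linarith
  have hS : S * c ≤ |S| * c := mul_le_mul_of_nonneg_right (le_abs_self S) hc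
  have a1 : q / 4 * (W - 1) ^ 2 ≤ E * c ^ 2 * (W - 1) ^ 2 :=
    mul_le_mul_of_nonneg_right h1 (sq_nonneg _)
  have a2 : E * (S * c) * (W * (W - 1)) ≤ r * (W * (W - 1)) := by
    refine mul_le_mul_of_nonneg_right ((mul_le_mul_of_nonneg_left hS hE).trans h2) ?_
    exact mul_nonneg (by linarith) hW1
  have a3 : E * S ^ 2 ≤ E * S ^ 2 * W ^ 2 := by
    have : 1 ≤ W ^ 2 := one_le_pow₀ hW
    exact le_mul_of_one_le_right (mul_nonneg hE (sq_nonneg _)) this
  have key : 2 * E * ((S * W - c * (W - 1)) ^ 2 - S0 ^ 2) =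
      2 * (E * S ^ 2 * W ^ 2) - 4 * (E * (S * c) * (W * (W - 1))) +
        2 * (E * c ^ 2 * (W - 1) ^ 2) - 2 * (E * S0 ^ 2) := by ring
  rw [key]
  have key2 : 1 / 2 * (q * (W - 1) ^ 2) = 2 * (q / 4 * (W - 1) ^ 2) := by ring
  have key3 : 2 * (E * (S0 ^ 2 - S ^ 2)) = 2 * (E * S0 ^ 2) - 2 * (E * S ^ 2) := by ring
  rw [key2, key3]
  linarith

/-- the pointwise bound for the difference of the brackets -/
private theorem pointwise {s : ℂ → ℂ} (hs : IsE (1 / 2) 1 s) {ε t : ℝ} (h0 : 0 < ε)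
    (h1 : ε ≤ 1 / 8) (ht : 0 < t) :
    1 / 2 * (Real.exp (-(4 * (ε * t))) * (Wh (ε * t) - 1) ^ 2) -
      4 * (Real.sqrt (rho s ((1 - 4 * ε) * t)) *
        (Real.exp (-(4 * (ε * t))) * Wh (ε * t) * (Wh (ε * t) - 1))) -
      2 * (Real.exp (-t) * (Sv s t ^ 2 - Sv s ((1 - 4 * ε) * t) ^ 2)) -
      Real.exp (-t) * |Pois t (fun z => snew s ε z ^ 2 - s z ^ 2)| ≤
    brk (fun z => s z ^ 2) t - brk (fun z => snew s ε z ^ 2) t := by
  have hs' := isE_snew hs h0 h1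
  rw [brk_sq hs, brk_sq hs', snew_zero, snew_imag h0 ht,
    pois_sub ht (isE_sq hs') (isE_sq hs)]
  set y := ε * t with hy
  set ν := (1 - 4 * ε) * t with hν
  set E := Real.exp (-t) with hE
  set A := Pois t (fun z => snew s ε z ^ 2) with hA
  set B := Pois t (fun z => s z ^ 2) with hB
  have hy0 : 0 < y := mul_pos h0 ht
  have hW : 1 ≤ Wh y := one_le_Wh hy0
  have hν0 : 0 ≤ ν := mul_nonneg (by linarith) ht.le
  have hEp : 0 < E := Real.exp_pos _
  have ecosh : (1 - 4 * ε) * t / 2 = ν / 2 := rfl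
  have hexp : E * Real.exp ν = Real.exp (-(4 * y)) := by
    rw [hE, ← Real.exp_add]
    congr 1
    rw [hν, hy]; ring
  have hc0 : 0 ≤ Real.cosh (ν / 2) := (Real.cosh_pos _).le
  have hsq : Real.exp (ν / 2) ^ 2 = Real.exp ν := by
    rw [← Real.exp_nat_mul]; congr 1; push_cast; ring
  have hc1 : Real.exp (ν / 2) / 2 ≤ Real.cosh (ν / 2) := by
    rw [Real.cosh_eq]
    have := Real.exp_pos (-(ν / 2))
    linarith
  have hc2 : Real.cosh (ν / 2) ≤ Real.exp (ν / 2) := by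
    rw [Real.cosh_eq]
    have : Real.exp (-(ν / 2)) ≤ Real.exp (ν / 2) := Real.exp_le_exp.2 (by linarith)
    linarith
  have b1 : Real.exp (-(4 * y)) / 4 ≤ E * Real.cosh (ν / 2) ^ 2 := by
    have : (Real.exp (ν / 2) / 2) ^ 2 ≤ Real.cosh (ν / 2) ^ 2 :=
      pow_le_pow_left₀ (by positivity) hc1 2
    have e : (Real.exp (ν / 2) / 2) ^ 2 = Real.exp ν / 4 := by rw [div_pow, hsq]; norm_num
    rw [e] at this
    calc Real.exp (-(4 * y)) / 4 = E * (Real.exp ν / 4) := by rw [← hexp]; ring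
      _ ≤ _ := mul_le_mul_of_nonneg_left this hEp.le
  have hr : Real.sqrt (rho s ν) = Real.exp (-(ν / 2)) * |Sv s ν| := by
    unfold rho
    rw [Real.sqrt_mul (Real.exp_pos _).le, Real.sqrt_sq_eq_abs]
    congr 1
    have e : Real.exp (-ν) = Real.exp (-(ν / 2)) ^ 2 := by
      rw [← Real.exp_nat_mul]; congr 1; push_cast; ring
    rw [e, Real.sqrt_sq (Real.exp_pos _).le]
  have b2 : E * (|Sv s ν| * Real.cosh (ν / 2)) ≤
      Real.sqrt (rho s ν) * Real.exp (-(4 * y)) := by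
    rw [hr, ← hexp]
    have e : Real.exp (-(ν / 2)) * |Sv s ν| * (E * Real.exp ν) =
        E * (|Sv s ν| * Real.exp (ν / 2)) := by
      have : Real.exp (-(ν / 2)) * Real.exp ν = Real.exp (ν / 2) := by
        rw [← Real.exp_add]; congr 1; ring
      calc Real.exp (-(ν / 2)) * |Sv s ν| * (E * Real.exp ν) =
          E * (|Sv s ν| * (Real.exp (-(ν / 2)) * Real.exp ν)) := by ring
        _ = _ := by rw [this]
    rw [e]
    exact mul_le_mul_of_nonneg_left (mul_le_mul_of_nonneg_left hc2 (abs_nonneg _)) hEp.le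
  have main := pointwise_alg (S0 := Sv s t) (S := Sv s ν) hW hEp.le b1 b2 hc0
  have hP : E * (A - B) ≤ E * |A - B| := mul_le_mul_of_nonneg_left (le_abs_self _) hEp.le
  rw [ecosh]
  have e3 : Real.sqrt (rho s ν) * Real.exp (-(4 * y)) * (Wh y * (Wh y - 1)) =
      Real.sqrt (rho s ν) * (Real.exp (-(4 * y)) * Wh y * (Wh y - 1)) := by ring
  rw [e3] at main
  have e4 : (s 0 ^ 2).re - 2 * E * Sv s t ^ 2 + E * B -
      ((s 0 ^ 2).re - 2 * E * (Sv s ν * Wh y - Real.cosh (ν / 2) * (Wh y - 1)) ^ 2 + E * A) =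
      2 * E * ((Sv s ν * Wh y - Real.cosh (ν / 2) * (Wh y - 1)) ^ 2 - Sv s t ^ 2) -
        E * (A - B) := by ring
  rw [e4]
  linarith

private theorem int_aux {f1 f2 f3 f4 g1 g2 : ℝ → ℝ} (i1 : IntegrableOn f1 (Ioi 0))
    (i2 : IntegrableOn f2 (Ioi 0)) (i3 : IntegrableOn f3 (Ioi 0)) (i4 : IntegrableOn f4 (Ioi 0))
    (j1 : IntegrableOn g1 (Ioi 0)) (j2 : IntegrableOn g2 (Ioi 0))
    (h : ∀ t ∈ Ioi (0 : ℝ), 1 / 2 * f1 t - 4 * f2 t - 2 * f3 t - f4 t ≤ g1 t - g2 t) :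
    1 / 2 * (∫ t in Ioi (0 : ℝ), f1 t) - 4 * (∫ t in Ioi (0 : ℝ), f2 t) -
      2 * (∫ t in Ioi (0 : ℝ), f3 t) - (∫ t in Ioi (0 : ℝ), f4 t) ≤
    (∫ t in Ioi (0 : ℝ), g1 t) - ∫ t in Ioi (0 : ℝ), g2 t := by
  have k1 : Integrable (fun t => 1 / 2 * f1 t) (volume.restrict (Ioi (0 : ℝ))) :=
    Integrable.const_mul i1 _
  have k2 : Integrable (fun t => 4 * f2 t) (volume.restrict (Ioi (0 : ℝ))) :=
    Integrable.const_mul i2 _
  have k3 : Integrable (fun t => 2 * f3 t) (volume.restrict (Ioi (0 : ℝ))) :=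
    Integrable.const_mul i3 _
  have k12 : Integrable (fun t => 1 / 2 * f1 t - 4 * f2 t) (volume.restrict (Ioi (0 : ℝ))) :=
    k1.sub k2
  have k123 : Integrable (fun t => 1 / 2 * f1 t - 4 * f2 t - 2 * f3 t)
      (volume.restrict (Ioi (0 : ℝ))) := k12.sub k3
  have k4 : Integrable (fun t => 1 / 2 * f1 t - 4 * f2 t - 2 * f3 t - f4 t)
      (volume.restrict (Ioi (0 : ℝ))) := k123.sub i4
  have jj : Integrable (fun t => g1 t - g2 t) (volume.restrict (Ioi (0 : ℝ))) := j1.sub j2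
  have e1 : ∫ t in Ioi (0 : ℝ), (1 / 2 * f1 t - 4 * f2 t - 2 * f3 t - f4 t) =
      1 / 2 * (∫ t in Ioi (0 : ℝ), f1 t) - 4 * (∫ t in Ioi (0 : ℝ), f2 t) -
        2 * (∫ t in Ioi (0 : ℝ), f3 t) - (∫ t in Ioi (0 : ℝ), f4 t) := by
    rw [integral_sub k123 i4, integral_sub k12 k3, integral_sub k1 k2, integral_const_mul,
      integral_const_mul, integral_const_mul]
  have e2 : ∫ t in Ioi (0 : ℝ), (g1 t - g2 t) =
      (∫ t in Ioi (0 : ℝ), g1 t) - ∫ t in Ioi (0 : ℝ), g2 t := integral_sub j1 j2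
  rw [← e1, ← e2]
  exact setIntegral_mono_on k4 jj measurableSet_Ioi h

end D4

/-- **D4** -/
theorem competitor {α : ℝ} (h0 : 0 < α) (h1 : α < 1) {s : ℂ → ℂ} (hs : IsE (1 / 2) 1 s)
    {C : ℝ} (hC : 0 < C) (h : ∀ K : ℝ, ∃ k : ℝ, K ≤ k ∧ HG α C s k) :
    ∃ s' : ℂ → ℂ, IsE (1 / 2) 1 s' ∧ J α s < J α s' := by
  obtain ⟨K1, hK1, hgain⟩ := gain h0 h1
  obtain ⟨C2, hC2, hsub⟩ := snew_sub_le hs
  have hc : 0 < K1 / 28 := by positivity
  obtain ⟨ka, hka8, hka⟩ := cross h0 h1 hs hC hc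
  obtain ⟨kb, -, hkb⟩ := dilation h0 h1 hs hC hc
  obtain ⟨kd, -, hkd⟩ := pois_small h0 h1 hC2 hc
  obtain ⟨k, hkle, hHG⟩ := h (max ka (max kb kd))
  have hk1 : ka ≤ k := (le_max_left _ _).trans hkle
  have hk2 : kb ≤ k := ((le_max_left _ _).trans (le_max_right _ _)).trans hkle
  have hk3 : kd ≤ k := ((le_max_right _ _).trans (le_max_right _ _)).trans hkle
  have hk8 : 8 ≤ k := hka8.trans hk1
  have hk0 : 0 < k := by linarith
  have hε0 : 0 < 1 / k := by positivity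
  have hε1 : 1 / k ≤ 1 / 8 := one_div_le_one_div_of_le (by norm_num) hk8
  have hs' := isE_snew hs hε0 hε1
  have hsq := D4.isE_sq hs
  have hsq' := D4.isE_sq hs'
  refine ⟨snew s (1 / k), hs', ?_⟩
  obtain ⟨i1, v1⟩ := hgain (1 / k) hε0
  obtain ⟨i2, v2⟩ := hka k hk1 hHG
  obtain ⟨i3, v3⟩ := hkb k hk2 hHG
  have hg := D4.isE_sub hsq' hsq
  obtain ⟨i4, v4⟩ := hkd k hk3 _ _ hg (fun x => hsub (1 / k) hε0 hε1 x)
  have hpow : (1 / k) ^ α = k ^ (-α) := by
    rw [one_div, Real.inv_rpow hk0.le, Real.rpow_neg hk0.le]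
  rw [hpow] at v1
  have j1 := integrableOn_brk h0 h1 hsq
  have j2 := integrableOn_brk h0 h1 hsq'
  have hmain : K1 / 4 * k ^ (-α) ≤
      (∫ t in Ioi (0 : ℝ), t ^ (-α - 1) * brk (fun z => s z ^ 2) t) -
        ∫ t in Ioi (0 : ℝ), t ^ (-α - 1) * brk (fun z => snew s (1 / k) z ^ 2) t := by
    have hle := D4.int_aux i1 i2 i3 i4 j1 j2 (fun t ht => by
      have ht' : (0 : ℝ) < t := ht
      have hp := D4.pointwise hs hε0 hε1 ht'
      have hw : 0 ≤ t ^ (-α - 1) := Real.rpow_nonneg ht'.le _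
      have hq := mul_le_mul_of_nonneg_left hp hw
      refine le_trans (le_of_eq ?_) (hq.trans (le_of_eq ?_))
      · ring
      · ring)
    rw [v1] at hle
    have hkp : 0 < k ^ (-α) := Real.rpow_pos_of_pos hk0 _
    linarith
  have hG : 0 < α / Real.Gamma (1 - α) := div_pos h0 (Real.Gamma_pos_of_pos (by linarith))
  have hpos : 0 < K1 / 4 * k ^ (-α) := mul_pos (by positivity) (Real.rpow_pos_of_pos hk0 _)
  have hL : Lf α (fun z => snew s (1 / k) z ^ 2) < Lf α (fun z => s z ^ 2) := by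
    rw [Lf_eq_Lr h0 h1 hsq, Lf_eq_Lr h0 h1 hsq']
    unfold Lr
    refine mul_lt_mul_of_pos_left ?_ hG
    linarith
  unfold J
  linarith

/-- constants satisfy the growth condition -/
theorem HG_const {α : ℝ} (h0 : 0 < α) (h1 : α < 1) (c : ℂ) :
    ∃ C : ℝ, 0 < C ∧ ∀ k : ℝ, 1 ≤ k → HG α C (fun _ => c) k := by
  refine ⟨c.re ^ 2 + 1, by positivity, fun k hk => ?_⟩
  unfold HG
  have hk0 : 0 < k := by linarith
  have hint : IntegrableOn (fun t : ℝ => c.re ^ 2 / k ^ 2 * Real.exp (-t)) (Ioi 1) :=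
    (integrableOn_exp_neg_Ioi 1).const_mul _
  have hle : ∫ t in Ioi (1 : ℝ), t ^ (-α) * rho (fun _ => c) t / (t ^ 2 + k ^ 2) ≤
      ∫ t in Ioi (1 : ℝ), c.re ^ 2 / k ^ 2 * Real.exp (-t) := by
    refine integral_mono_of_nonneg ?_ hint ?_
    · refine (ae_restrict_iff' measurableSet_Ioi).2 (Filter.Eventually.of_forall fun t ht => ?_)
      have ht' : (1 : ℝ) < t := ht
      have : 0 ≤ t ^ (-α) := Real.rpow_nonneg (by linarith) _
      simp only [Pi.zero_apply]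
      unfold rho
      positivity
    · refine (ae_restrict_iff' measurableSet_Ioi).2 (Filter.Eventually.of_forall fun t ht => ?_)
      have ht' : (1 : ℝ) < t := ht
      have e1 : t ^ (-α) ≤ 1 := Real.rpow_le_one_of_one_le_of_nonpos ht'.le (by linarith)
      have e0 : 0 ≤ t ^ (-α) := Real.rpow_nonneg (by linarith) _
      have hr : rho (fun _ => c) t = Real.exp (-t) * c.re ^ 2 := rfl
      show t ^ (-α) * rho (fun _ => c) t / (t ^ 2 + k ^ 2) ≤ c.re ^ 2 / k ^ 2 * Real.exp (-t)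
      rw [hr]
      have e2 : t ^ (-α) * (Real.exp (-t) * c.re ^ 2) ≤ 1 * (Real.exp (-t) * c.re ^ 2) :=
        mul_le_mul_of_nonneg_right e1 (by positivity)
      calc t ^ (-α) * (Real.exp (-t) * c.re ^ 2) / (t ^ 2 + k ^ 2)
          ≤ 1 * (Real.exp (-t) * c.re ^ 2) / k ^ 2 := by
            refine div_le_div₀ (by positivity) e2 (by positivity) ?_
            nlinarith [sq_nonneg t]
        _ = c.re ^ 2 / k ^ 2 * Real.exp (-t) := by ring
  refine hle.trans ?_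
  rw [integral_const_mul, integral_exp_neg_Ioi]
  have hlog : 0 ≤ Real.log k := Real.log_nonneg hk
  have he : Real.exp (-1) ≤ 1 := by
    rw [← Real.exp_zero]; exact Real.exp_le_exp.2 (by norm_num)
  have he0 : 0 < Real.exp (-1) := Real.exp_pos _
  calc c.re ^ 2 / k ^ 2 * Real.exp (-1) ≤ c.re ^ 2 / k ^ 2 * 1 :=
        mul_le_mul_of_nonneg_left he (by positivity)
    _ = c.re ^ 2 / k ^ 2 := by ring
    _ ≤ (c.re ^ 2 + 1) * (1 + Real.log k) / k ^ 2 := by
        refine div_le_div_of_nonneg_right ?_ (by positivity)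
        nlinarith [sq_nonneg c.re, hlog]

end Pool.Agent.Helper30.FG
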