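import Pool.Agent.Helper30.FG.Defs

set_option autoImplicit false

namespace Pool.Agent.Helper30.FG

open Complex MeasureTheory Set Filter Topology
open Pool.Agent.Helper78.Bern Pool.Agent.Helper45.Bern

private theorem B2_gen {a K : ℝ} (ha : 0 ≤ a) (k : ℕ) {F : ℂ → ℂ} (hd : Differentiable ℂ F)
    (hb : ∀ z : ℂ, ‖F z‖ ≤ K * Real.exp (a * |z.im|) / (1 + ‖z‖) ^ k) {ζ : ℂ} (h0 : F ζ = 0) :
    ∃ g : ℂ → ℂ, Differentiable ℂ g ∧ (∀ z, F z = (z - ζ) * g z) ∧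
      ∃ C : ℝ, 0 ≤ C ∧ ∀ z : ℂ,
        ‖g z‖ ≤ C * Real.exp (a * |z.im|) / (1 + ‖z‖) ^ (k + 1) := by
  have hgd : Differentiable ℂ (dslope F ζ) := by
    rw [← differentiableOn_univ]
    exact (Complex.differentiableOn_dslope univ_mem).2 hd.differentiableOn
  have heq : ∀ z, F z = (z - ζ) * dslope F ζ z := by
    intro z
    have h := sub_smul_dslope F ζ z
    rw [h0, sub_zero, smul_eq_mul] at h
    exact h.symm
  refine ⟨dslope F ζ, hgd, heq, ?_⟩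
  obtain ⟨B, hB⟩ := (isCompact_closedBall ζ 1).exists_bound_of_continuousOn
    hgd.continuous.continuousOn
  have hB0 : 0 ≤ B := (norm_nonneg _).trans (hB ζ (Metric.mem_closedBall_self zero_le_one))
  have hK0 : 0 ≤ K := by
    have h := hb 0
    simp only [Complex.zero_im, abs_zero, mul_zero, Real.exp_zero, mul_one, norm_zero, add_zero,
      one_pow, div_one] at h
    exact (norm_nonneg _).trans h
  have hζ : 0 ≤ ‖ζ‖ := norm_nonneg ζ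
  have hR : (0 : ℝ) < 2 + ‖ζ‖ := by linarith
  refine ⟨K * (2 + ‖ζ‖) + B * (2 + ‖ζ‖) ^ (k + 1), by positivity, ?_⟩
  intro z
  have hz : 0 ≤ ‖z‖ := norm_nonneg z
  have hp : (0 : ℝ) < 1 + ‖z‖ := by linarith
  have hpk : (0 : ℝ) < (1 + ‖z‖) ^ (k + 1) := pow_pos hp _
  have hE : 1 ≤ Real.exp (a * |z.im|) := Real.one_le_exp (by positivity)
  have hE0 : 0 < Real.exp (a * |z.im|) := Real.exp_pos _
  rw [le_div_iff₀ hpk]
  by_cases hc : ‖z - ζ‖ ≤ 1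
  · have h1 : ‖dslope F ζ z‖ ≤ B := hB z (by rw [Metric.mem_closedBall, dist_eq_norm]; exact hc)
    have h2 : 1 + ‖z‖ ≤ 2 + ‖ζ‖ := by
      have h3 : ‖z‖ ≤ ‖z - ζ‖ + ‖ζ‖ := by
        have h4 := norm_add_le (z - ζ) ζ
        rwa [sub_add_cancel] at h4
      linarith
    have h5 : (1 + ‖z‖) ^ (k + 1) ≤ (2 + ‖ζ‖) ^ (k + 1) := pow_le_pow_left₀ hp.le h2 _
    calc ‖dslope F ζ z‖ * (1 + ‖z‖) ^ (k + 1) ≤ B * (2 + ‖ζ‖) ^ (k + 1) :=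
          mul_le_mul h1 h5 hpk.le hB0
      _ ≤ (K * (2 + ‖ζ‖) + B * (2 + ‖ζ‖) ^ (k + 1)) * 1 := by
          have h6 : 0 ≤ K * (2 + ‖ζ‖) := by positivity
          linarith
      _ ≤ (K * (2 + ‖ζ‖) + B * (2 + ‖ζ‖) ^ (k + 1)) * Real.exp (a * |z.im|) :=
          mul_le_mul_of_nonneg_left hE (by positivity)
  · have hc' : 1 < ‖z - ζ‖ := not_le.1 hc
    have h1 : ‖F z‖ = ‖z - ζ‖ * ‖dslope F ζ z‖ := by
      rw [heq z, norm_mul]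
    have h2 : ‖z - ζ‖ * ‖dslope F ζ z‖ * (1 + ‖z‖) ^ k ≤ K * Real.exp (a * |z.im|) := by
      have h3 := hb z
      rw [le_div_iff₀ (pow_pos hp k)] at h3
      rw [← h1]
      exact h3
    have h4 : 1 + ‖z‖ ≤ (2 + ‖ζ‖) * ‖z - ζ‖ := by
      have h5 : ‖z‖ ≤ ‖z - ζ‖ + ‖ζ‖ := by
        have h6 := norm_add_le (z - ζ) ζ
        rwa [sub_add_cancel] at h6
      nlinarith
    have hg0 : 0 ≤ ‖dslope F ζ z‖ := norm_nonneg _
    calc ‖dslope F ζ z‖ * (1 + ‖z‖) ^ (k + 1)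
        = ‖dslope F ζ z‖ * (1 + ‖z‖) ^ k * (1 + ‖z‖) := by ring
      _ ≤ ‖dslope F ζ z‖ * (1 + ‖z‖) ^ k * ((2 + ‖ζ‖) * ‖z - ζ‖) :=
          mul_le_mul_of_nonneg_left h4 (by positivity)
      _ = (2 + ‖ζ‖) * (‖z - ζ‖ * ‖dslope F ζ z‖ * (1 + ‖z‖) ^ k) := by ring
      _ ≤ (2 + ‖ζ‖) * (K * Real.exp (a * |z.im|)) := mul_le_mul_of_nonneg_left h2 hR.le
      _ ≤ (K * (2 + ‖ζ‖) + B * (2 + ‖ζ‖) ^ (k + 1)) * Real.exp (a * |z.im|) := by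
          have h7 : 0 ≤ B * (2 + ‖ζ‖) ^ (k + 1) * Real.exp (a * |z.im|) := by positivity
          nlinarith

/-- **B2** (division by a linear factor). -/
theorem exists_div {a M : ℝ} (ha : 0 ≤ a) {f : ℂ → ℂ} (hf : IsB a M f) {ζ : ℂ} (h0 : f ζ = 0) :
    ∃ g : ℂ → ℂ, Differentiable ℂ g ∧ (∀ z, f z = (z - ζ) * g z) ∧
      ∃ C : ℝ, 0 ≤ C ∧ ∀ z : ℂ, ‖g z‖ ≤ C * Real.exp (a * |z.im|) / (1 + ‖z‖) := by
  obtain ⟨g, h1, h2, C, hC, h3⟩ := B2_gen ha 0 hf.diff (fun z => by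
    rw [pow_zero, div_one]; exact hf.bd z) h0
  refine ⟨g, h1, h2, C, hC, fun z => ?_⟩
  have h := h3 z
  rwa [zero_add, pow_one] at h

/-- Division by `z² - ζ²`, numerator `z f(z)` or `f(z)`. -/
theorem exists_div_sq {a M : ℝ} (ha : 0 ≤ a) {f : ℂ → ℂ} (hf : IsB a M f) {ζ : ℂ} (hζ : ζ ≠ 0)
    (h0 : f ζ = 0) (h1 : f (-ζ) = 0) :
    ∃ g : ℂ → ℂ, Differentiable ℂ g ∧ (∀ z, f z = (z ^ 2 - ζ ^ 2) * g z) ∧
      ∃ C : ℝ, 0 ≤ C ∧ ∀ z : ℂ, ‖g z‖ ≤ C * Real.exp (a * |z.im|) / (1 + ‖z‖) ^ 2 := by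
  obtain ⟨g, hg1, hg2, C, hC, hg3⟩ := exists_div ha hf h0
  have hz : g (-ζ) = 0 := by
    have h := hg2 (-ζ)
    rw [h1] at h
    have h' : (-ζ - ζ) ≠ 0 := by
      intro h4
      apply hζ
      have h5 : (2 : ℂ) * ζ = 0 := by linear_combination -h4
      exact (mul_eq_zero.1 h5).resolve_left two_ne_zero
    exact (mul_eq_zero.1 h.symm).resolve_left h'
  obtain ⟨g2, k1, k2, C2, hC2, k3⟩ := B2_gen ha 1 hg1 (fun z => by
    rw [pow_one]; exact hg3 z) hz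
  refine ⟨g2, k1, fun z => ?_, C2, hC2, fun z => k3 z⟩
  rw [hg2 z, k2 z]
  ring

end Pool.Agent.Helper30.FG
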