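import Pool.Agent.Helper30.FG.A6

set_option autoImplicit false

namespace Pool.Agent.Helper30.FG

open Complex MeasureTheory Set Filter Topology
open Pool.Agent.Helper78.Bern Pool.Agent.Helper45.Bern

/-- **C0** -/
theorem Lf_le {α : ℝ} (h0 : 0 < α) (h1 : α < 1) {g : ℂ → ℂ} (hg : IsE 1 1 g) :
    Lf α g ≤ bernsteinNorm α := by
  refine le_bernsteinNorm_of_test (admissible_nonempty h0 h1) (f := fun x : ℝ => g (x : ℂ))
    (fun x => hg.b.real_le x) ?_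
  intro m h hm hh hrep
  rw [transfer h0 h1 hg hh hrep, Complex.norm_real, Real.norm_eq_abs]
  exact le_abs_self _

/-- on the real axis an element of `IsE a 1` is a real number of absolute value at most one -/
private theorem C0.real_val {a : ℝ} {s : ℂ → ℂ} (hs : IsE a 1 s) (x : ℝ) :
    ∃ r : ℝ, |r| ≤ 1 ∧ s (x : ℂ) = (r : ℂ) := by
  refine ⟨(s (x : ℂ)).re, ?_, ?_⟩
  · exact (Complex.abs_re_le_norm _).trans (hs.b.real_le x)
  · apply Complex.ext
    · simp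
    · simpa using hs.real x

private theorem C0.isE_sq {s : ℂ → ℂ} (hs : IsE (1 / 2) 1 s) :
    IsE 1 1 (fun z => 1 - 2 * s z ^ 2) := by
  refine ⟨?_, ?_, ?_⟩
  · refine pl_bound (C := 3) zero_le_one ?_ ?_ ?_
    · exact (differentiable_const _).sub ((hs.b.diff.pow 2).const_mul 2)
    · intro z
      have h1 : ‖s z‖ ≤ Real.exp (1 / 2 * |z.im|) := by simpa using hs.b.bd z
      have h2 : ‖s z‖ ^ 2 ≤ Real.exp (1 * |z.im|) := by
        calc ‖s z‖ ^ 2 ≤ Real.exp (1 / 2 * |z.im|) ^ 2 :=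
              pow_le_pow_left₀ (norm_nonneg _) h1 2
          _ = Real.exp (1 * |z.im|) := by
              rw [← Real.exp_nat_mul]; congr 1; push_cast; ring
      have h3 : (1 : ℝ) ≤ Real.exp (1 * |z.im|) :=
        Real.one_le_exp (by rw [one_mul]; exact abs_nonneg _)
      calc ‖1 - 2 * s z ^ 2‖ ≤ ‖(1 : ℂ)‖ + ‖2 * s z ^ 2‖ := norm_sub_le _ _
        _ = 1 + 2 * ‖s z‖ ^ 2 := by rw [norm_one, norm_mul, norm_pow]; norm_num
        _ ≤ 3 * Real.exp (1 * |z.im|) := by linarith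
    · intro x
      obtain ⟨r, hr, hx⟩ := C0.real_val hs x
      have h1 : r ^ 2 ≤ 1 := by
        have := pow_le_pow_left₀ (abs_nonneg r) hr 2
        simpa [sq_abs] using this
      have h2 : (1 : ℂ) - 2 * s (x : ℂ) ^ 2 = ((1 - 2 * r ^ 2 : ℝ) : ℂ) := by
        rw [hx]; push_cast; ring
      rw [h2, Complex.norm_real, Real.norm_eq_abs, abs_le]
      constructor <;> nlinarith [sq_nonneg r]
  · intro z
    simp only [hs.even]
  · intro x
    obtain ⟨r, hr, hx⟩ := C0.real_val hs x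
    have h2 : (1 : ℂ) - 2 * s (x : ℂ) ^ 2 = ((1 - 2 * r ^ 2 : ℝ) : ℂ) := by
      rw [hx]; push_cast; ring
    simp only [h2, Complex.ofReal_im]

theorem J_eq {α : ℝ} (h0 : 0 < α) (h1 : α < 1) {s : ℂ → ℂ} (hs : IsE (1 / 2) 1 s) :
    IsE 1 1 (fun z => 1 - 2 * s z ^ 2) ∧ Lf α (fun z => 1 - 2 * s z ^ 2) = J α s := by
  refine ⟨C0.isE_sq hs, ?_⟩
  have hsq : ∀ x : ℝ, ‖s (x : ℂ) ^ 2‖ ≤ 1 := fun x => by
    rw [norm_pow]
    exact pow_le_one₀ (norm_nonneg _) (hs.b.real_le x)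
  have e1 : (fun z : ℂ => 1 - 2 * s z ^ 2) =
      fun z => (fun _ : ℂ => (1 : ℂ)) z + (fun z : ℂ => ((-2 : ℝ) : ℂ) * s z ^ 2) z := by
    funext z; push_cast; ring
  rw [e1, Lf_add h0 h1 (M := 1) (N := 2) (fun x => by simp) (fun x => by
    have h2 : ‖(-2 : ℝ)‖ = 2 := by norm_num
    rw [norm_mul, Complex.norm_real, h2]
    linarith [hsq x])]
  rw [Lf_one h0 h1]
  have e2 := Lf_const_mul (α := α) (-2) (fun z : ℂ => s z ^ 2)
  rw [e2]
  unfold J
  ring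

theorem J_le {α : ℝ} (h0 : 0 < α) (h1 : α < 1) {s : ℂ → ℂ} (hs : IsE (1 / 2) 1 s) :
    J α s ≤ bernsteinNorm α := by
  obtain ⟨h, hJ⟩ := J_eq h0 h1 hs
  rw [← hJ]
  exact Lf_le h0 h1 h

/-- the value `J s` is the integral of `1 - 2 s²` against every admissible measure -/
theorem integral_eq_J {α : ℝ} (h0 : 0 < α) (h1 : α < 1) {s : ℂ → ℂ} (hs : IsE (1 / 2) 1 s)
    {μ : ComplexMeasure ℝ} (hμ : Admissible α μ) :
    VectorMeasure.integral μ (fun x : ℝ => 1 - 2 * s (x : ℂ) ^ 2) (ContinuousLinearMap.mul ℝ ℂ) =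
      ((J α s : ℝ) : ℂ) := by
  obtain ⟨hE, hJ⟩ := J_eq h0 h1 hs
  obtain ⟨h, ih, hμh, -⟩ := exists_density μ
  have hcont : Continuous (fun x : ℝ => 1 - 2 * s (x : ℂ) ^ 2) :=
    hE.b.diff.continuous.comp Complex.continuous_ofReal
  have hrep : ∀ ξ : ℝ, |ξ| ≤ 1 →
      ∫ x, Complex.exp (-(Complex.I * ((x * ξ : ℝ) : ℂ))) * h x ∂μ.variation =
        (((1 - |ξ|) ^ α : ℝ) : ℂ) := by
    intro ξ hξ
    rw [← fourierStieltjes_withDensityV ih, ← hμh]
    exact hμ ξ hξ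
  have hbd : ∀ x : ℝ, ‖1 - 2 * s (x : ℂ) ^ 2‖ ≤ 1 := fun x => hE.b.real_le x
  have key := integral_withDensityV ih (f := fun x : ℝ => 1 - 2 * s (x : ℂ) ^ 2)
    hcont.stronglyMeasurable hbd
  rw [← hμh] at key
  rw [key, ← hJ]
  exact transfer h0 h1 hE ih hrep

end Pool.Agent.Helper30.FG
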