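import Pool.Agent.Helper30.FG.B1a

set_option autoImplicit false

namespace Pool.Agent.Helper30.FG

open Complex MeasureTheory Set Filter Topology
open Pool.Agent.Helper78.Bern Pool.Agent.Helper45.Bern

private theorem norm_boas_le {M : ℝ} {g : ℂ → ℂ} (hg : IsB 1 M g) {b : ℝ} (hb : Real.sin b ≠ 0)
    (x : ℝ) : ‖deriv g (x : ℂ) * Real.sin b - g (x : ℂ) * Real.cos b‖ ≤ M := by
  have h1 := boas hg hb x
  have h2 : HasSum (fun n : ℤ => Real.sin b ^ 2 / (n * Real.pi - b) ^ 2 * M) (1 * M) :=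
    (boas_weights hb).mul_right M
  rw [one_mul] at h2
  rw [← h1.tsum_eq]
  refine tsum_of_norm_bounded h2 ?_
  intro n
  rw [norm_mul]
  have h3 : ‖(((-1 : ℝ) ^ (n - 1) * Real.sin b ^ 2 / (n * Real.pi - b) ^ 2 : ℝ) : ℂ)‖
      = Real.sin b ^ 2 / (n * Real.pi - b) ^ 2 := by
    rw [Complex.norm_real, Real.norm_eq_abs, abs_div, abs_mul, abs_zpow, abs_neg, abs_one,
      one_zpow, one_mul, abs_of_nonneg (sq_nonneg (Real.sin b)),
      abs_of_nonneg (sq_nonneg ((n : ℝ) * Real.pi - b))]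
  rw [h3]
  exact mul_le_mul_of_nonneg_left (hg.real_le _) (by positivity)

private theorem bernstein_one {M : ℝ} {g : ℂ → ℂ} (hg : IsB 1 M g) (x : ℝ) :
    ‖deriv g (x : ℂ)‖ ≤ M := by
  have hb : Real.sin (Real.pi / 2) ≠ 0 := by rw [Real.sin_pi_div_two]; exact one_ne_zero
  have h := norm_boas_le hg hb x
  rw [Real.sin_pi_div_two, Real.cos_pi_div_two] at h
  simpa using h

private theorem scale_isB {a M c : ℝ} {g : ℂ → ℂ} (hg : IsB a M g) (hc : 0 ≤ c) :
    IsB (a * c) M (fun z => g ((c : ℂ) * z)) := by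
  refine ⟨hg.diff.comp (differentiable_id.const_mul (c : ℂ)), fun z => ?_⟩
  have h := hg.bd ((c : ℂ) * z)
  have him : ((c : ℂ) * z).im = c * z.im := by simp
  rw [him, abs_mul, abs_of_nonneg hc, ← mul_assoc] at h
  exact h

private theorem deriv_scale {g : ℂ → ℂ} (hg : Differentiable ℂ g) (c z : ℂ) :
    deriv (fun z => g (c * z)) z = c * deriv g (c * z) := by
  have h1 : HasDerivAt (fun z : ℂ => c * z) c z := by
    simpa using (hasDerivAt_id z).const_mul c
  have h2 := (hg (c * z)).hasDerivAt.comp z h1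
  rw [mul_comm]
  exact h2.deriv

/-- **B1** (Bernstein). -/
theorem bernstein {a M : ℝ} (ha : 0 < a) {g : ℂ → ℂ} (hg : IsB a M g) :
    IsB a (a * M) (deriv g) := by
  have hd : Differentiable ℂ (deriv g) := by
    have h2 : ContDiff ℂ 2 g := hg.diff.contDiff
    exact h2.differentiable_deriv_two
  have hM := hg.nonneg
  refine pl_bound (C := M * Real.exp a) ha.le hd ?_ ?_
  · intro z
    have h := Complex.norm_deriv_le_of_forall_mem_sphere_norm_le (c := z) (R := 1)
      (C := M * Real.exp (a * (|z.im| + 1))) (f := g) one_pos hg.diff.diffContOnCl (by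
        intro w hw
        refine (hg.bd w).trans (mul_le_mul_of_nonneg_left (Real.exp_le_exp.2
          (mul_le_mul_of_nonneg_left ?_ ha.le)) hM)
        have h1 : ‖w - z‖ = 1 := by simpa [dist_eq_norm] using hw
        have h2 : |(w - z).im| ≤ 1 := h1 ▸ Complex.abs_im_le_norm (w - z)
        have h3 : w.im = z.im + (w - z).im := by simp
        rw [h3]
        exact (abs_add_le _ _).trans (by linarith))
    rw [div_one] at h
    refine h.trans (le_of_eq ?_)
    rw [mul_add, mul_one, Real.exp_add]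
    ring
  · intro x
    have h1 : IsB 1 M (fun z => g (((a⁻¹ : ℝ) : ℂ) * z)) := by
      have := scale_isB hg (inv_nonneg.2 ha.le)
      rwa [mul_inv_cancel₀ ha.ne'] at this
    have h2 := bernstein_one h1 (a * x)
    rw [deriv_scale hg.diff, norm_mul] at h2
    have h3 : (((a⁻¹ : ℝ) : ℂ) * ((a * x : ℝ) : ℂ)) = (x : ℂ) := by
      rw [← Complex.ofReal_mul, ← mul_assoc, inv_mul_cancel₀ ha.ne', one_mul]
    rw [h3, Complex.norm_real, Real.norm_eq_abs, abs_of_pos (inv_pos.2 ha)] at h2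
    calc ‖deriv g (x : ℂ)‖ = a * (a⁻¹ * ‖deriv g (x : ℂ)‖) := by
          rw [← mul_assoc, mul_inv_cancel₀ ha.ne', one_mul]
      _ ≤ a * M := mul_le_mul_of_nonneg_left h2 ha.le

theorem deriv_real {s : ℂ → ℂ} (hd : Differentiable ℂ s) (hreal : ∀ x : ℝ, (s (x : ℂ)).im = 0)
    (x : ℝ) : (deriv s (x : ℂ)).im = 0 := by
  have h1 : HasDerivAt (fun y : ℝ => s (y : ℂ)) (deriv s (x : ℂ)) x :=
    (hd (x : ℂ)).hasDerivAt.comp_ofReal
  have h2 : HasDerivAt (fun y : ℝ => (s (y : ℂ)).im) (deriv s (x : ℂ)).im x := by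
    exact Complex.imCLM.hasFDerivAt.comp_hasDerivAt x h1
  have h3 : (fun y : ℝ => (s (y : ℂ)).im) = fun _ => 0 := funext hreal
  rw [h3] at h2
  exact h2.unique (hasDerivAt_const x (0 : ℝ))

theorem deriv_odd {s : ℂ → ℂ} (hd : Differentiable ℂ s) (heven : ∀ z : ℂ, s (-z) = s z) (z : ℂ) :
    deriv s (-z) = -deriv s z := by
  have h1 : (fun w : ℂ => s (-w)) = s := funext heven
  have h2 := deriv_comp_neg s z
  rw [h1] at h2
  rw [h2, neg_neg]

/-- **B1** (Bernstein-Szegoe). -/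
theorem bern_szego {s : ℂ → ℂ} (hs : IsB (1 / 2) 1 s) (hreal : ∀ x : ℝ, (s (x : ℂ)).im = 0)
    (x : ℝ) : 4 * (deriv s (x : ℂ)).re ^ 2 + (s (x : ℂ)).re ^ 2 ≤ 1 := by
  have hg : IsB 1 1 (fun z => s (((2 : ℝ) : ℂ) * z)) := by
    have := scale_isB hs (c := 2) (by norm_num)
    norm_num at this ⊢
    exact this
  set A : ℝ := 2 * (deriv s (x : ℂ)).re with hA
  set B : ℝ := (s (x : ℂ)).re with hB
  have hx : (((2 : ℝ) : ℂ) * ((x / 2 : ℝ) : ℂ)) = (x : ℂ) := by
    rw [← Complex.ofReal_mul]; congr 1; ring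
  have hsx : s (x : ℂ) = (B : ℂ) := by
    apply Complex.ext
    · simp [hB]
    · simp [hreal x]
  have hdx : deriv s (x : ℂ) = ((deriv s (x : ℂ)).re : ℂ) := by
    apply Complex.ext
    · simp
    · simp [deriv_real hs.diff hreal x]
  have key : ∀ b : ℝ, Real.sin b ≠ 0 → A * Real.sin b - B * Real.cos b ≤ 1 := by
    intro b hb
    have h := norm_boas_le hg hb (x / 2)
    rw [deriv_scale hs.diff, hx, hsx, hdx] at h
    have h4 : (((2 : ℝ) : ℂ) * ((deriv s (x : ℂ)).re : ℂ) * (Real.sin b : ℂ)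
        - (B : ℂ) * (Real.cos b : ℂ)) = ((A * Real.sin b - B * Real.cos b : ℝ) : ℂ) := by
      push_cast [hA]; ring
    rw [h4, Complex.norm_real, Real.norm_eq_abs] at h
    exact (le_abs_self _).trans h
  have hB1 : B ^ 2 ≤ 1 := by
    have h := hs.real_le x
    rw [hsx, Complex.norm_real, Real.norm_eq_abs] at h
    rw [← sq_abs]
    nlinarith [abs_nonneg B]
  have hgoal : A ^ 2 + B ^ 2 ≤ 1 := by
    by_cases hA0 : A = 0
    · rw [hA0]; simpa using hB1
    · set w : ℂ := ⟨-B, A⟩ with hw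
      have hw0 : w ≠ 0 := by
        intro h
        exact hA0 (by simpa [hw] using congrArg Complex.im h)
      have hwn : 0 < ‖w‖ := norm_pos_iff.2 hw0
      have hcos : Real.cos w.arg = -B / ‖w‖ := by
        rw [Complex.cos_arg hw0]
      have hsin : Real.sin w.arg = A / ‖w‖ := by
        rw [Complex.sin_arg]
      have hn : ‖w‖ ^ 2 = A ^ 2 + B ^ 2 := by
        rw [Complex.sq_norm, Complex.normSq_apply]; simp [hw]; ring
      have h := key w.arg (by rw [hsin]; exact div_ne_zero hA0 hwn.ne')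
      rw [hcos, hsin] at h
      have h5 : A * (A / ‖w‖) - B * (-B / ‖w‖) = ‖w‖ := by
        field_simp
        linarith [hn]
      rw [h5] at h
      nlinarith
  nlinarith [hgoal, hA]

end Pool.Agent.Helper30.FG
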