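import Pool.Agent.Helper30.FG.C2
import Pool.Agent.Helper30.FG.B1

set_option autoImplicit false

namespace Pool.Agent.Helper30.FG

open Complex MeasureTheory Set Filter Topology
open Pool.Agent.Helper78.Bern Pool.Agent.Helper45.Bern

namespace C3

/-- Hahn-Banach for a functional bounded through a linear map. -/
theorem hb {C E : Type*} [AddCommGroup C] [Module ℝ C] [NormedAddCommGroup E] [NormedSpace ℝ E]
    (Φ : C →ₗ[ℝ] E) (Λ : C →ₗ[ℝ] ℝ) {K : ℝ} (hK : 0 ≤ K) (h : ∀ c, |Λ c| ≤ K * ‖Φ c‖) :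
    ∃ g : E →L[ℝ] ℝ, (∀ c, g (Φ c) = Λ c) ∧ ‖g‖ ≤ K := by
  have hker : LinearMap.ker Φ ≤ LinearMap.ker Λ := by
    intro c hc
    rw [LinearMap.mem_ker] at hc ⊢
    have := h c
    rw [hc, norm_zero, mul_zero] at this
    exact abs_eq_zero.1 (le_antisymm this (abs_nonneg _))
  let f0 : LinearMap.range Φ →ₗ[ℝ] ℝ :=
    ((LinearMap.ker Φ).liftQ Λ hker).comp (Φ.quotKerEquivRange.symm : _ →ₗ[ℝ] _)
  have hf0 : ∀ c, f0 ⟨Φ c, LinearMap.mem_range_self Φ c⟩ = Λ c := by
    intro c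
    have e : Φ.quotKerEquivRange.symm ⟨Φ c, LinearMap.mem_range_self Φ c⟩ =
        (LinearMap.ker Φ).mkQ c := by
      rw [LinearEquiv.symm_apply_eq]
      rfl
    show ((LinearMap.ker Φ).liftQ Λ hker) (Φ.quotKerEquivRange.symm
      ⟨Φ c, LinearMap.mem_range_self Φ c⟩) = Λ c
    rw [e]
    rfl
  let f : LinearMap.range Φ →L[ℝ] ℝ := f0.mkContinuous K (by
    rintro ⟨_, c, rfl⟩
    rw [hf0 c]
    exact h c)
  obtain ⟨g, hg, hn⟩ := exists_extension_norm_eq (𝕜 := ℝ) (LinearMap.range Φ) f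
  refine ⟨g, fun c => ?_, ?_⟩
  · have := hg ⟨Φ c, LinearMap.mem_range_self Φ c⟩
    rw [show g (Φ c) = g ((⟨Φ c, LinearMap.mem_range_self Φ c⟩ : LinearMap.range Φ) : E) from rfl,
      this]
    exact hf0 c
  · rw [hn]
    exact LinearMap.mkContinuous_norm_le _ hK _

theorem weights {N : ℕ} (g : (Fin N → ℝ) →L[ℝ] ℝ) {K : ℝ} (hK : 0 ≤ K) (hg : ‖g‖ ≤ K) :
    ∃ w : Fin N → ℝ, (∀ v : Fin N → ℝ, g v = ∑ j, w j * v j) ∧ ∑ j, |w j| ≤ K := by
  classical
  have hv : ∀ v : Fin N → ℝ, g v = ∑ j, g (Pi.single j 1) * v j := by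
    intro v
    have e : v = ∑ j, v j • (Pi.single j (1 : ℝ) : Fin N → ℝ) := by
      ext i
      simp [Finset.sum_apply, Pi.single_apply]
    conv_lhs => rw [e]
    rw [map_sum]
    refine Finset.sum_congr rfl fun j _ => ?_
    rw [map_smul, smul_eq_mul, mul_comm]
  refine ⟨fun j => g (Pi.single j 1), hv, ?_⟩
  set s : Fin N → ℝ := fun j => SignType.sign (g (Pi.single j 1)) with hs
  have h1 : ∑ j, |g (Pi.single j 1)| = g s := by
    rw [hv s]
    refine Finset.sum_congr rfl fun j _ => ?_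
    rw [hs]
    simp only
    rw [mul_comm, sign_mul_self]
  have h2 : ‖s‖ ≤ 1 := by
    refine (pi_norm_le_iff_of_nonneg zero_le_one).2 fun j => ?_
    rw [hs]
    simp only
    rcases lt_trichotomy (g (Pi.single j 1)) 0 with h | h | h
    · rw [sign_neg h]; simp
    · rw [h]; simp
    · rw [sign_pos h]; simp
  rw [h1]
  calc g s ≤ ‖g s‖ := Real.le_norm_self _
    _ ≤ ‖g‖ * ‖s‖ := g.le_opNorm s
    _ ≤ K * 1 := mul_le_mul hg h2 (norm_nonneg _) hK
    _ = K := mul_one K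

theorem norm_cos_le (w : ℂ) : ‖Complex.cos w‖ ≤ Real.exp |w.im| := by
  have h1 : ‖Complex.exp (w * I)‖ ≤ Real.exp |w.im| := by
    rw [Complex.norm_exp]
    apply Real.exp_le_exp.2
    simp only [Complex.mul_re, Complex.I_re, Complex.I_im, mul_zero, mul_one, zero_sub]
    exact neg_le_abs _
  have h2 : ‖Complex.exp (-w * I)‖ ≤ Real.exp |w.im| := by
    rw [Complex.norm_exp]
    apply Real.exp_le_exp.2
    simp only [Complex.mul_re, Complex.I_re, Complex.I_im, mul_zero, mul_one, zero_sub,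
      Complex.neg_re, Complex.neg_im, neg_neg]
    exact le_abs_self _
  rw [Complex.cos, norm_div, Complex.norm_ofNat]
  rw [div_le_iff₀ (by norm_num)]
  calc ‖Complex.exp (w * I) + Complex.exp (-w * I)‖
      ≤ ‖Complex.exp (w * I)‖ + ‖Complex.exp (-w * I)‖ := norm_add_le _ _
    _ ≤ Real.exp |w.im| + Real.exp |w.im| := add_le_add h1 h2
    _ = Real.exp |w.im| * 2 := by ring

theorem Lf_zero {α : ℝ} : Lf α (fun _ => 0) = 0 := by
  simp [Lf]

theorem norm_cos_real_le (x : ℝ) : ‖Complex.cos (x : ℂ)‖ ≤ 1 := by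
  rw [← Complex.ofReal_cos, Complex.norm_real, Real.norm_eq_abs]
  exact Real.abs_cos_le_one x

theorem Lf_sum {α : ℝ} (h0 : 0 < α) (h1 : α < 1) (s : Finset ℕ) (c ω : ℕ → ℝ)
    (hω : ∀ k ∈ s, |ω k| ≤ 1) :
    Lf α (fun z => ∑ k ∈ s, (c k : ℂ) * Complex.cos ((ω k : ℂ) * z)) =
      ∑ k ∈ s, c k * (1 - |ω k|) ^ α := by
  classical
  induction s using Finset.induction_on with
  | empty => simpa using Lf_zero (α := α)
  | insert a s ha ih =>
    have e : (fun z : ℂ => ∑ k ∈ insert a s, (c k : ℂ) * Complex.cos ((ω k : ℂ) * z)) =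
        fun z => (c a : ℂ) * Complex.cos ((ω a : ℂ) * z) +
          ∑ k ∈ s, (c k : ℂ) * Complex.cos ((ω k : ℂ) * z) := by
      funext z
      rw [Finset.sum_insert ha]
    rw [e, Lf_add h0 h1 (M := |c a|) (N := ∑ k ∈ s, |c k|), Lf_const_mul,
      Lf_cos h0 h1 (hω a (Finset.mem_insert_self _ _)),
      ih (fun k hk => hω k (Finset.mem_insert_of_mem hk)), Finset.sum_insert ha]
    · intro x
      rw [norm_mul, Complex.norm_real, Real.norm_eq_abs, ← Complex.ofReal_mul]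
      exact mul_le_of_le_one_right (abs_nonneg _) (norm_cos_real_le _)
    · intro x
      refine (norm_sum_le _ _).trans (Finset.sum_le_sum fun k _ => ?_)
      rw [norm_mul, Complex.norm_real, Real.norm_eq_abs, ← Complex.ofReal_mul]
      exact mul_le_of_le_one_right (abs_nonneg _) (norm_cos_real_le _)

open Polynomial in
/-- the polynomial with Chebyshev coefficients `c` -/
noncomputable def pc (n : ℕ) (c : ℕ → ℝ) : ℝ[X] :=
  ∑ k ∈ Finset.range (n + 1), Polynomial.C (c k) * Polynomial.Chebyshev.T ℝ (k : ℤ)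

theorem pc_natDegree (n : ℕ) (c : ℕ → ℝ) : (pc n c).natDegree ≤ n := by
  refine Polynomial.natDegree_sum_le_of_forall_le _ _ fun k hk => ?_
  refine (Polynomial.natDegree_C_mul_le _ _).trans ?_
  rw [Polynomial.Chebyshev.natDegree_T, Int.natAbs_natCast]
  exact Nat.lt_succ_iff.1 (Finset.mem_range.1 hk)

theorem pc_eval (n : ℕ) (c : ℕ → ℝ) (θ : ℝ) :
    (pc n c).eval (Real.cos θ) = ∑ k ∈ Finset.range (n + 1), c k * Real.cos (k * θ) := by
  rw [pc, Polynomial.eval_finsetSum]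
  refine Finset.sum_congr rfl fun k _ => ?_
  rw [Polynomial.eval_mul, Polynomial.eval_C, Polynomial.Chebyshev.T_real_cos]
  norm_cast

theorem pc_aeval (n : ℕ) (c : ℕ → ℝ) (w : ℂ) :
    Polynomial.aeval (Complex.cos w) (pc n c) =
      ∑ k ∈ Finset.range (n + 1), (c k : ℂ) * Complex.cos (k * w) := by
  rw [pc, map_sum]
  refine Finset.sum_congr rfl fun k _ => ?_
  rw [map_mul, Polynomial.aeval_C, Polynomial.Chebyshev.aeval_T,
    Polynomial.Chebyshev.T_complex_cos]
  norm_cast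

/-- the trigonometric sum -/
noncomputable def Tc (n : ℕ) (c : ℕ → ℝ) (z : ℂ) : ℂ :=
  ∑ k ∈ Finset.range (n + 1), (c k : ℂ) * Complex.cos ((((k : ℝ) / n : ℝ) : ℂ) * z)

theorem Tc_eq (n : ℕ) (c : ℕ → ℝ) (z : ℂ) :
    Tc n c z = Polynomial.aeval (Complex.cos (z / (n : ℂ))) (pc n c) := by
  rw [pc_aeval, Tc]
  refine Finset.sum_congr rfl fun k _ => ?_
  congr 2
  push_cast
  ring

theorem Tc_real (n : ℕ) (c : ℕ → ℝ) (x : ℝ) :
    Tc n c (x : ℂ) = (((pc n c).eval (Real.cos (x / n)) : ℝ) : ℂ) := by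
  rw [pc_eval, Tc]
  push_cast
  refine Finset.sum_congr rfl fun k _ => ?_
  congr 2
  ring

theorem Tc_isB {n : ℕ} (hn : 0 < n) (c : ℕ → ℝ) {S : ℝ}
    (hS : ∀ x ∈ Icc (-1 : ℝ) 1, |(pc n c).eval x| ≤ S) : IsB 1 S (Tc n c) := by
  have hnR : (0 : ℝ) < n := by exact_mod_cast hn
  refine pl_bound (C := ∑ k ∈ Finset.range (n + 1), |c k|) zero_le_one ?_ ?_ ?_
  · unfold Tc
    fun_prop
  · intro z
    unfold Tc
    refine (norm_sum_le _ _).trans ?_
    rw [Finset.sum_mul]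
    refine Finset.sum_le_sum fun k hk => ?_
    rw [norm_mul, Complex.norm_real, Real.norm_eq_abs]
    refine mul_le_mul_of_nonneg_left ((norm_cos_le _).trans ?_) (abs_nonneg _)
    apply Real.exp_le_exp.2
    have hk' : (k : ℝ) ≤ n := by
      exact_mod_cast Nat.lt_succ_iff.1 (Finset.mem_range.1 hk)
    rw [Complex.im_ofReal_mul, abs_mul, one_mul]
    have h1 : |(k : ℝ) / n| ≤ 1 := by
      rw [abs_of_nonneg (by positivity), div_le_one hnR]
      exact hk'
    exact mul_le_of_le_one_left (abs_nonneg _) h1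
  · intro x
    rw [Tc_real, Complex.norm_real, Real.norm_eq_abs]
    exact hS _ ⟨Real.neg_one_le_cos _, Real.cos_le_one _⟩

/-- The maximum is controlled by the grid. -/
theorem sup_le {n N : ℕ} (hn : 0 < n) (hN2 : 2 ≤ N) (c : ℕ → ℝ) {S V : ℝ}
    (hS : ∀ x ∈ Icc (-1 : ℝ) 1, |(pc n c).eval x| ≤ S)
    (hV : ∀ j : Fin N, |(pc n c).eval (Real.cos (2 * Real.pi * j / N))| ≤ V) {x0 : ℝ}
    (hx0 : x0 ∈ Icc (-1 : ℝ) 1) : |(pc n c).eval x0| ≤ V + Real.pi * n / N * S := by
  have hnR : (0 : ℝ) < n := by exact_mod_cast hn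
  have hNR : (2 : ℝ) ≤ N := by exact_mod_cast hN2
  have hNp : (0 : ℝ) < N := by linarith
  have hpi := Real.pi_pos
  have hB := bernstein one_pos (Tc_isB hn c hS)
  set θ := Real.arccos x0 with hθ
  have hc0 : Real.cos θ = x0 := Real.cos_arccos hx0.1 hx0.2
  have hθ0 : 0 ≤ θ := Real.arccos_nonneg x0
  have hθ1 : θ ≤ Real.pi := Real.arccos_le_pi x0
  set t : ℝ := θ * N / (2 * Real.pi) with ht
  have ht0 : 0 ≤ t := by positivity
  have ht1 : t ≤ N / 2 := by
    rw [ht, div_le_div_iff₀ (by positivity) (by norm_num)]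
    nlinarith
  set j : ℕ := ⌊t + 1 / 2⌋₊ with hj
  have hj1 : (j : ℝ) ≤ t + 1 / 2 := Nat.floor_le (by positivity)
  have hj2 : t + 1 / 2 < j + 1 := Nat.lt_floor_add_one _
  have hjN : j < N := by
    have : (j : ℝ) < N := by linarith
    exact_mod_cast this
  have hdist : |θ - 2 * Real.pi * j / N| ≤ Real.pi / N := by
    have e : θ = 2 * Real.pi * t / N := by
      rw [ht]
      field_simp
    rw [e]
    have e2 : 2 * Real.pi * t / N - 2 * Real.pi * j / N = (Real.pi / N) * (2 * (t - j)) := by ring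
    rw [e2, abs_mul, abs_of_pos (by positivity : (0 : ℝ) < Real.pi / N)]
    have h3 : |2 * (t - (j : ℝ))| ≤ 1 := by
      rw [abs_le]
      constructor <;> linarith
    exact mul_le_of_le_one_right (by positivity) h3
  have hder : ∀ x : ℝ, HasDerivAt (fun y : ℝ => Tc n c (y : ℂ)) (deriv (Tc n c) (x : ℂ)) x :=
    fun x => ((Tc_isB hn c hS).diff (x : ℂ)).hasDerivAt.comp_ofReal
  have hmv := Convex.norm_image_sub_le_of_norm_hasDerivWithin_le
    (f := fun y : ℝ => Tc n c (y : ℂ)) (f' := fun x : ℝ => deriv (Tc n c) (x : ℂ)) (C := 1 * S)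
    (s := Set.univ) (x := (n : ℝ) * (2 * Real.pi * j / N)) (y := (n : ℝ) * θ)
    (fun x _ => (hder x).hasDerivWithinAt) (fun x _ => hB.real_le x) convex_univ
    (Set.mem_univ _) (Set.mem_univ _)
  have ev : ∀ φ : ℝ, Tc n c (((n : ℝ) * φ : ℝ) : ℂ) = (((pc n c).eval (Real.cos φ) : ℝ) : ℂ) := by
    intro φ
    rw [Tc_real]
    congr 4
    field_simp
  simp only [ev] at hmv
  rw [← Complex.ofReal_sub, Complex.norm_real, Real.norm_eq_abs, Real.norm_eq_abs, hc0,
    ← mul_sub, abs_mul, abs_of_pos hnR, one_mul] at hmv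
  have hS0 : 0 ≤ S := (abs_nonneg _).trans (hS x0 hx0)
  have h4 : S * ((n : ℝ) * |θ - 2 * Real.pi * j / N|) ≤ Real.pi * n / N * S := by
    calc S * ((n : ℝ) * |θ - 2 * Real.pi * j / N|) ≤ S * ((n : ℝ) * (Real.pi / N)) := by gcongr
      _ = Real.pi * n / N * S := by ring
  have h5 := hV ⟨j, hjN⟩
  simp only at h5
  have h6 := abs_sub_abs_le_abs_sub ((pc n c).eval x0)
    ((pc n c).eval (Real.cos (2 * Real.pi * j / N)))
  linarith

end C3

open C3 in
/-- **C3** -/
theorem grid {α Jst : ℝ} (h0 : 0 < α) (h1 : α < 1)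
    (hJ : ∀ s : ℂ → ℂ, IsE (1 / 2) 1 s → J α s ≤ Jst) {m N : ℕ} (hm : 0 < m)
    (hN : 2 * Real.pi * (2 * m) < N) :
    ∃ w : Fin N → ℝ, (∀ k : ℕ, k ≤ 2 * m →
        ∑ j, w j * Real.cos (2 * Real.pi * j * k / N) = (1 - (k : ℝ) / (2 * m)) ^ α) ∧
      ∑ j, |w j| ≤ Jst / (1 - Real.pi * (2 * m) / N) := by
  classical
  have hmR : (1 : ℝ) ≤ m := by exact_mod_cast hm
  have hpi := Real.pi_gt_three
  have hNR : (2 : ℝ) < N := by nlinarith
  have hNp : (0 : ℝ) < N := by linarith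
  have hN2 : 2 ≤ N := by exact_mod_cast hNR.le
  set n : ℕ := 2 * m with hn
  have hn0 : 0 < n := by omega
  have hnR : ((n : ℕ) : ℝ) = 2 * m := by rw [hn]; push_cast; ring
  have hq : Real.pi * (2 * m) / N < 1 / 2 := by
    rw [div_lt_iff₀ hNp]
    linarith
  have hq0 : 0 < 1 - Real.pi * (2 * m) / N := by linarith
  have hJ0 : 0 ≤ Jst := by
    have := poly_bound h0 h1 hJ hm (p := 0) (by simp) one_pos (by simp)
    simp only [map_zero] at this
    rw [Lf_zero, mul_one] at this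
    exact this
  set K : ℝ := Jst / (1 - Real.pi * (2 * m) / N) with hK
  have hK0 : 0 ≤ K := div_nonneg hJ0 hq0.le
  let Φ : (ℕ → ℝ) →ₗ[ℝ] (Fin N → ℝ) :=
    { toFun := fun c j => ∑ k ∈ Finset.range (n + 1), c k * Real.cos (2 * Real.pi * j * k / N)
      map_add' := by
        intro c c'
        funext j
        simp only [Pi.add_apply, add_mul, Finset.sum_add_distrib]
      map_smul' := by
        intro r c
        funext j
        simp only [Pi.smul_apply, smul_eq_mul, RingHom.id_apply, Finset.mul_sum, mul_assoc] }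
  let Λ : (ℕ → ℝ) →ₗ[ℝ] ℝ :=
    { toFun := fun c => ∑ k ∈ Finset.range (n + 1), c k * (1 - (k : ℝ) / (2 * m)) ^ α
      map_add' := by
        intro c c'
        simp only [Pi.add_apply, add_mul, Finset.sum_add_distrib]
      map_smul' := by
        intro r c
        simp only [Pi.smul_apply, smul_eq_mul, RingHom.id_apply, Finset.mul_sum, mul_assoc] }
  have hΛ : ∀ c : ℕ → ℝ,
      Lf α (fun z => Polynomial.aeval (Complex.cos (z / ((2 * m : ℕ) : ℂ))) (pc n c)) = Λ c := by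
    intro c
    have e : (fun z : ℂ => Polynomial.aeval (Complex.cos (z / ((2 * m : ℕ) : ℂ))) (pc n c)) =
        fun z => ∑ k ∈ Finset.range (n + 1), (c k : ℂ) *
          Complex.cos ((((k : ℝ) / n : ℝ) : ℂ) * z) := by
      funext z
      have := Tc_eq n c z
      rw [Tc] at this
      rw [this]
    rw [e, Lf_sum h0 h1 (Finset.range (n + 1)) c (fun k => (k : ℝ) / n)]
    · show _ = ∑ k ∈ Finset.range (n + 1), c k * (1 - (k : ℝ) / (2 * m)) ^ α
      refine Finset.sum_congr rfl fun k _ => ?_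
      rw [abs_of_nonneg (by positivity), hnR]
    · intro k hk
      have hk' : (k : ℝ) ≤ n := by
        exact_mod_cast Nat.lt_succ_iff.1 (Finset.mem_range.1 hk)
      have hnp : (0 : ℝ) < n := by exact_mod_cast hn0
      rw [abs_of_nonneg (by positivity), div_le_one hnp]
      exact hk'
  have hΛle : ∀ (c : ℕ → ℝ) (A : ℝ), 0 < A →
      (∀ x ∈ Icc (-1 : ℝ) 1, |(pc n c).eval x| ≤ A) → Λ c ≤ Jst * A := by
    intro c A hA hc
    have := poly_bound h0 h1 hJ hm (pc_natDegree n c) hA hc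
    rw [hΛ c] at this
    exact this
  have hneg : ∀ c : ℕ → ℝ, ∀ x : ℝ, (pc n (-c)).eval x = -(pc n c).eval x := by
    intro c x
    simp only [pc, Polynomial.eval_finsetSum, Polynomial.eval_mul, Polynomial.eval_C,
      Pi.neg_apply, neg_mul, Finset.sum_neg_distrib]
  have hbound : ∀ c : ℕ → ℝ, |Λ c| ≤ K * ‖Φ c‖ := by
    intro c
    obtain ⟨x0, hx0, hmax⟩ := (isCompact_Icc (a := (-1 : ℝ)) (b := 1)).exists_isMaxOn
      ⟨0, by norm_num, by norm_num⟩ (f := fun x => |(pc n c).eval x|)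
      (by fun_prop)
    set S := |(pc n c).eval x0| with hSdef
    have hS : ∀ x ∈ Icc (-1 : ℝ) 1, |(pc n c).eval x| ≤ S := fun x hx => hmax hx
    have hV : ∀ j : Fin N, |(pc n c).eval (Real.cos (2 * Real.pi * j / N))| ≤ ‖Φ c‖ := by
      intro j
      have h2 := norm_le_pi_norm (Φ c) j
      rw [Real.norm_eq_abs] at h2
      have h3 : (pc n c).eval (Real.cos (2 * Real.pi * j / N)) = Φ c j := by
        rw [pc_eval]
        show _ = ∑ k ∈ Finset.range (n + 1), c k * Real.cos (2 * Real.pi * j * k / N)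
        refine Finset.sum_congr rfl fun k _ => ?_
        congr 2
        ring
      rw [h3]
      exact h2
    have h4 := sup_le hn0 hN2 c hS hV hx0
    rw [hnR] at h4
    have h5 : S ≤ ‖Φ c‖ / (1 - Real.pi * (2 * m) / N) := by
      rw [le_div_iff₀ hq0]
      have h6 : S ≤ ‖Φ c‖ + Real.pi * (2 * m) / N * S := h4
      linarith
    have hX0 : 0 ≤ ‖Φ c‖ / (1 - Real.pi * (2 * m) / N) := div_nonneg (norm_nonneg _) hq0.le
    have key : ∀ ε : ℝ, 0 < ε → |Λ c| ≤ Jst * (‖Φ c‖ / (1 - Real.pi * (2 * m) / N) + ε) := by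
      intro ε hε
      have hA : 0 < ‖Φ c‖ / (1 - Real.pi * (2 * m) / N) + ε := by linarith
      rw [abs_le']
      refine ⟨hΛle c _ hA fun x hx => (hS x hx).trans (by linarith), ?_⟩
      have := hΛle (-c) _ hA fun x hx => by
        rw [hneg, abs_neg]
        exact (hS x hx).trans (by linarith)
      rw [map_neg] at this
      exact this
    have h7 : |Λ c| ≤ Jst * (‖Φ c‖ / (1 - Real.pi * (2 * m) / N)) := by
      refine le_of_forall_pos_le_add fun ε hε => ?_
      have h8 := key (ε / (Jst + 1)) (by positivity)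
      have h9 : Jst * (ε / (Jst + 1)) ≤ ε := by
        rw [mul_div_assoc', div_le_iff₀ (by positivity)]
        nlinarith
      linarith
    calc |Λ c| ≤ Jst * (‖Φ c‖ / (1 - Real.pi * (2 * m) / N)) := h7
      _ = K * ‖Φ c‖ := by rw [hK]; ring
  obtain ⟨g, hg1, hg2⟩ := hb Φ Λ hK0 hbound
  obtain ⟨w, hw1, hw2⟩ := weights g hK0 hg2
  refine ⟨w, fun k hk => ?_, hw2⟩
  have h10 := hg1 (Pi.single k 1)
  rw [hw1] at h10
  have hkr : k ∈ Finset.range (n + 1) := Finset.mem_range.2 (by omega)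
  have e1 : ∀ j : Fin N, Φ (Pi.single k 1) j = Real.cos (2 * Real.pi * j * k / N) := by
    intro j
    show ∑ i ∈ Finset.range (n + 1), (Pi.single k (1 : ℝ) : ℕ → ℝ) i *
      Real.cos (2 * Real.pi * j * i / N) = _
    rw [Finset.sum_eq_single k]
    · rw [Pi.single_eq_same, one_mul]
    · intro i _ hi
      rw [Pi.single_eq_of_ne hi, zero_mul]
    · intro h
      exact absurd hkr h
  have e2 : Λ (Pi.single k 1) = (1 - (k : ℝ) / (2 * m)) ^ α := by
    show ∑ i ∈ Finset.range (n + 1), (Pi.single k (1 : ℝ) : ℕ → ℝ) i *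
      (1 - (i : ℝ) / (2 * m)) ^ α = _
    rw [Finset.sum_eq_single k]
    · rw [Pi.single_eq_same, one_mul]
    · intro i _ hi
      rw [Pi.single_eq_of_ne hi, zero_mul]
    · intro h
      exact absurd hkr h
  rw [e2] at h10
  rw [← h10]
  exact Finset.sum_congr rfl fun j _ => by rw [e1 j]

end Pool.Agent.Helper30.FG
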