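import Pool.Agent.Helper30.FG.C5a
import Pool.Agent.Helper30.FG.C3

set_option autoImplicit false

namespace Pool.Agent.Helper30.FG

open Complex MeasureTheory Set Filter Topology
open Pool.Agent.Helper78.Bern Pool.Agent.Helper45.Bern

namespace C5

private theorem Fk_nonneg (t : ℝ) : 0 ≤ Fk t := sq_nonneg _

private theorem Fk_le_one (t : ℝ) : Fk t ≤ 1 := by
  unfold Fk
  have h := Real.abs_sinc_le_one (Real.pi * t)
  rw [← sq_abs]
  exact pow_le_one₀ (abs_nonneg _) h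

private theorem Fk_cont : Continuous Fk := by
  unfold Fk
  exact (Real.continuous_sinc.comp (continuous_const.mul continuous_id)).pow 2

private theorem Fk_zero : Fk 0 = 1 := by
  unfold Fk
  rw [mul_zero, Real.sinc_zero, one_pow]

private theorem rest_tendsto {α : ℝ} (h0 : 0 < α) (h1 : α < 1) :
    Tendsto (fun m : ℕ => 2 * ∑' k : ℤ, |gcos α (wf k)| *
      (1 - Fk (wf k / (2 * Real.pi * (2 * ((m : ℕ) : ℝ)))))) atTop (𝓝 0) := by
  have hs := summable_gcos_int h0 h1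
  have key : Tendsto (fun m : ℕ => ∑' k : ℤ, |gcos α (wf k)| *
      (1 - Fk (wf k / (2 * Real.pi * (2 * ((m : ℕ) : ℝ)))))) atTop
      (𝓝 (∑' _k : ℤ, (0 : ℝ))) := by
    refine tendsto_tsum_of_dominated_convergence (bound := fun k : ℤ => |gcos α (wf k)|) hs ?_ ?_
    · intro k
      have hlin : Tendsto (fun m : ℕ => 2 * Real.pi * (2 * ((m : ℕ) : ℝ))) atTop atTop := by
        have h2 : Tendsto (fun m : ℕ => (2 * Real.pi * 2) * ((m : ℕ) : ℝ)) atTop atTop :=
          tendsto_natCast_atTop_atTop.const_mul_atTop (by positivity)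
        refine h2.congr (fun m => ?_)
        ring
      have hdiv : Tendsto (fun m : ℕ => wf k / (2 * Real.pi * (2 * ((m : ℕ) : ℝ)))) atTop (𝓝 0) :=
        hlin.const_div_atTop _
      have hF : Tendsto (fun m : ℕ => Fk (wf k / (2 * Real.pi * (2 * ((m : ℕ) : ℝ))))) atTop
          (𝓝 (Fk 0)) := (Fk_cont.tendsto 0).comp hdiv
      rw [Fk_zero] at hF
      have h3 := (hF.const_sub 1).const_mul |gcos α (wf k)|
      simpa using h3
    · refine Eventually.of_forall (fun m k => ?_)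
      have a1 := Fk_nonneg (wf k / (2 * Real.pi * (2 * ((m : ℕ) : ℝ))))
      have a2 := Fk_le_one (wf k / (2 * Real.pi * (2 * ((m : ℕ) : ℝ))))
      rw [Real.norm_eq_abs, abs_mul, abs_abs, abs_of_nonneg (sub_nonneg.2 a2)]
      exact mul_le_of_le_one_right (abs_nonneg _) (by linarith)
  rw [tsum_zero] at key
  simpa using key.const_mul 2

private theorem le_fixed {α Jst : ℝ} (h0 : 0 < α) (h1 : α < 1)
    (hJ : ∀ s : ℂ → ℂ, IsE (1 / 2) 1 s → J α s ≤ Jst) {m : ℕ} (hm : 0 < m) :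
    bernsteinNorm α ≤ Jst + 2 * ∑' k : ℤ, |gcos α (wf k)| *
      (1 - Fk (wf k / (2 * Real.pi * (2 * ((m : ℕ) : ℝ))))) := by
  set G := 2 * ∑' k : ℤ, |gcos α (wf k)| *
      (1 - Fk (wf k / (2 * Real.pi * (2 * ((m : ℕ) : ℝ))))) with hG
  have hlim : Tendsto (fun N : ℕ => Jst / (1 - Real.pi * (2 * (m : ℝ)) / (N : ℝ)) + G) atTop
      (𝓝 (Jst + G)) := by
    have h2 : Tendsto (fun N : ℕ => Real.pi * (2 * (m : ℝ)) / (N : ℝ)) atTop (𝓝 0) :=
      tendsto_natCast_atTop_atTop.const_div_atTop _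
    have h3 : Tendsto (fun N : ℕ => Jst / (1 - Real.pi * (2 * (m : ℝ)) / (N : ℝ))) atTop
        (𝓝 (Jst / (1 - 0))) := (tendsto_const_nhds).div (h2.const_sub 1) (by norm_num)
    rw [sub_zero, div_one] at h3
    exact h3.add_const G
  refine ge_of_tendsto hlim ?_
  obtain ⟨N0, hN0⟩ := exists_nat_gt (2 * Real.pi * (2 * (m : ℝ)))
  refine eventually_atTop.2 ⟨N0, fun N hN => ?_⟩
  have hlt : 2 * Real.pi * (2 * (m : ℝ)) < (N : ℝ) :=
    lt_of_lt_of_le hN0 (by exact_mod_cast hN)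
  have hNpos : 0 < N := by
    have : (0 : ℝ) < N := lt_of_le_of_lt (by positivity) hlt
    exact_mod_cast this
  obtain ⟨w, hw1, hw2⟩ := grid h0 h1 hJ hm hlt
  have h4 := norm_le_grid h0 h1 hm hNpos w hw1
  rw [hG]
  linarith

end C5

/-- **C5** -/
theorem norm_le_of_J_le {α Jst : ℝ} (h0 : 0 < α) (h1 : α < 1)
    (hJ : ∀ s : ℂ → ℂ, IsE (1 / 2) 1 s → J α s ≤ Jst) : bernsteinNorm α ≤ Jst := by
  have hlim := (C5.rest_tendsto h0 h1).const_add Jst
  rw [add_zero] at hlim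
  refine ge_of_tendsto hlim ?_
  refine eventually_atTop.2 ⟨1, fun m hm => ?_⟩
  exact C5.le_fixed h0 h1 hJ hm

end Pool.Agent.Helper30.FG
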