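import Pool.Agent.Helper30.FG.A7
import Pool.Agent.Helper30.FG.B2
import Pool.Agent.Helper30.FG.C0
import Pool.Agent.Helper30.FG.C5

set_option autoImplicit false

namespace Pool.Agent.Helper30.FG

open Complex MeasureTheory Set Filter Topology
open Pool.Agent.Helper78.Bern Pool.Agent.Helper45.Bern

namespace D5

private theorem real_bound {C σ w η : ℝ} (hη : 0 ≤ η) (hσ : |σ| ≤ 1) (hw : 0 ≤ w)
    (h : w ^ 2 ≤ C * σ ^ 2) : |1 - 2 * σ ^ 2 + η * w| ≤ 1 + |C| * η ^ 2 := by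
  have hσ2 : σ ^ 2 ≤ 1 := (sq_le_one_iff_abs_le_one σ).2 hσ
  have hC : 0 ≤ |C| := abs_nonneg C
  have h1 : w ^ 2 ≤ |C| * σ ^ 2 :=
    h.trans (mul_le_mul_of_nonneg_right (le_abs_self C) (sq_nonneg _))
  have h2 : |η * w| ≤ 2 * σ ^ 2 + |C| * η ^ 2 := by
    apply abs_le_of_sq_le_sq
    · have h4 : (η * w) ^ 2 ≤ η ^ 2 * (|C| * σ ^ 2) := by
        rw [mul_pow]; exact mul_le_mul_of_nonneg_left h1 (sq_nonneg _)
      nlinarith [sq_nonneg (2 * σ ^ 2 - |C| * η ^ 2),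
        mul_nonneg hC (mul_nonneg (sq_nonneg η) (sq_nonneg σ))]
    · positivity
  have h3 : η * w ≤ 2 * σ ^ 2 + |C| * η ^ 2 := (le_abs_self _).trans h2
  have h5 : 0 ≤ η * w := mul_nonneg hη hw
  have h6 : 0 ≤ |C| * η ^ 2 := by positivity
  rw [abs_le]
  constructor <;> nlinarith [sq_nonneg σ]

private theorem eq_zero_of_finite {h : ℂ → ℂ} (hc : Continuous h) {F : Set ℂ} (hF : F.Finite)
    (hz : ∀ z, z ∉ F → h z = 0) : ∀ z, h z = 0 := by
  have hd : Dense (Set.univ \ F) := dense_univ.sdiff_finite hF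
  have := hc.ext_on hd (continuous_const (y := (0 : ℂ))) (fun z hz' => hz z hz'.2)
  intro z
  exact congrFun this z

private theorem isB_of_div {a C : ℝ} {n : ℕ} {g : ℂ → ℂ} (hd : Differentiable ℂ g) (hC : 0 ≤ C)
    (h : ∀ z : ℂ, ‖g z‖ ≤ C * Real.exp (a * |z.im|) / (1 + ‖z‖) ^ n) : IsB a C g := by
  refine ⟨hd, fun z => (h z).trans ?_⟩
  have h1 : (1 : ℝ) ≤ (1 + ‖z‖) ^ n := one_le_pow₀ (by linarith [norm_nonneg z])
  exact div_le_self (mul_nonneg hC (Real.exp_pos _).le) h1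

/-- the contradiction behind both parts of `zeros` -/
private theorem contra {α : ℝ} (h0 : 0 < α) (h1 : α < 1) {s : ℂ → ℂ}
    (hnp : ∀ {M C : ℝ} {W : ℂ → ℂ}, IsE 1 M W → (∀ x : ℝ, 0 ≤ (W (x : ℂ)).re) →
      (∀ x : ℝ, (W (x : ℂ)).re ^ 2 ≤ C * (s (x : ℂ)).re ^ 2) → Lf α W ≤ 0)
    (hreal : ∀ x : ℝ, (s (x : ℂ)).im = 0)
    {M K : ℝ} {v : ℂ → ℂ} (hv : IsB (1 / 2) M v) (hodd : ∀ z, v (-z) = -v z)
    (hne : ∃ z, v z ≠ 0) (hle : ∀ x : ℝ, ‖v (x : ℂ)‖ ^ 2 ≤ K * ‖s (x : ℂ)‖) : False := by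
  have hE := isE_mul_star hv hodd
  have h2 : (2 * (1 / 2) : ℝ) = 1 := by norm_num
  rw [h2] at hE
  have hre : ∀ x : ℝ, (v (x : ℂ) * (starRingEnd ℂ) (v ((starRingEnd ℂ) (x : ℂ)))).re =
      ‖v (x : ℂ)‖ ^ 2 := by
    intro x
    rw [Complex.conj_ofReal, Complex.mul_conj, Complex.ofReal_re, Complex.normSq_eq_norm_sq]
  have hns : ∀ x : ℝ, ‖s (x : ℂ)‖ ^ 2 = (s (x : ℂ)).re ^ 2 := by
    intro x
    rw [← Complex.normSq_eq_norm_sq, Complex.normSq_apply, hreal x]; ring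
  have hle2 : Lf α (fun z => v z * (starRingEnd ℂ) (v ((starRingEnd ℂ) z))) ≤ 0 := by
    apply hnp (C := K ^ 2) hE
    · intro x
      show 0 ≤ (v (x : ℂ) * (starRingEnd ℂ) (v ((starRingEnd ℂ) (x : ℂ)))).re
      rw [hre x]; positivity
    · intro x
      show (v (x : ℂ) * (starRingEnd ℂ) (v ((starRingEnd ℂ) (x : ℂ)))).re ^ 2 ≤ _
      rw [hre x, ← hns x]
      calc (‖v (x : ℂ)‖ ^ 2) ^ 2 ≤ (K * ‖s (x : ℂ)‖) ^ 2 :=
            pow_le_pow_left₀ (by positivity) (hle x) 2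
        _ = K ^ 2 * ‖s (x : ℂ)‖ ^ 2 := by ring
  exact absurd (odd_pos_strict h0 h1 hv hodd hne) (not_lt.2 hle2)

end D5

open D5

/-- **D5** (first order condition for `W ≥ 0`) -/
theorem Lf_nonpos_of_sq_le {α : ℝ} (h0 : 0 < α) (h1 : α < 1) {s : ℂ → ℂ}
    (hs : IsE (1 / 2) 1 s) (hmax : ∀ s' : ℂ → ℂ, IsE (1 / 2) 1 s' → J α s' ≤ J α s)
    {M C : ℝ} {W : ℂ → ℂ} (hW : IsE 1 M W) (hW0 : ∀ x : ℝ, 0 ≤ (W (x : ℂ)).re)
    (hWs : ∀ x : ℝ, (W (x : ℂ)).re ^ 2 ≤ C * (s (x : ℂ)).re ^ 2) : Lf α W ≤ 0 := by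
  obtain ⟨hE1, hJ⟩ := J_eq h0 h1 hs
  have hI : bernsteinNorm α ≤ J α s := norm_le_of_J_le h0 h1 hmax
  have key : ∀ η : ℝ, 0 < η → Lf α W ≤ |C| * η * J α s := by
    intro η hη
    have hK : 0 < 1 + |C| * η ^ 2 := by positivity
    set G : ℂ → ℂ := fun z => (1 - 2 * s z ^ 2) + (η : ℂ) * W z with hG
    have hGE : IsE 1 (1 + |η| * M) G := hE1.add (hW.const_mul η)
    have hGr : ∀ x : ℝ, ‖G (x : ℂ)‖ ≤ 1 + |C| * η ^ 2 := by
      intro x
      have hsx : s (x : ℂ) = (((s (x : ℂ)).re : ℝ) : ℂ) :=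
        Complex.ext (by simp) (by simpa using hs.real x)
      have hWx : W (x : ℂ) = (((W (x : ℂ)).re : ℝ) : ℂ) :=
        Complex.ext (by simp) (by simpa using hW.real x)
      have hval : G (x : ℂ) =
          ((1 - 2 * (s (x : ℂ)).re ^ 2 + η * (W (x : ℂ)).re : ℝ) : ℂ) := by
        rw [hG]
        show (1 - 2 * s (x : ℂ) ^ 2) + (η : ℂ) * W (x : ℂ) = _
        rw [hsx, hWx]; push_cast; simp
      rw [hval, Complex.norm_real, Real.norm_eq_abs]
      refine real_bound hη.le ?_ (hW0 x) (hWs x)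
      have := hs.b.real_le x
      exact (Complex.abs_re_le_norm _).trans this
    have hGB : IsB 1 (1 + |C| * η ^ 2) G := pl_bound zero_le_one hGE.b.diff hGE.b.bd hGr
    have hGE2 : IsE 1 (1 + |C| * η ^ 2) G := ⟨hGB, hGE.even, hGE.real⟩
    set c : ℝ := (1 + |C| * η ^ 2)⁻¹ with hc
    have hc0 : 0 < c := inv_pos.2 hK
    have hE3 := hGE2.const_mul c
    have hc1 : |c| * (1 + |C| * η ^ 2) = 1 := by
      rw [abs_of_pos hc0, hc, inv_mul_cancel₀ hK.ne']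
    rw [hc1] at hE3
    have h3 := Lf_le h0 h1 hE3
    rw [Lf_const_mul] at h3
    have hLG : Lf α G = J α s + η * Lf α W := by
      rw [hG]
      rw [Lf_add (f := fun z => 1 - 2 * s z ^ 2) (g := fun z => (η : ℂ) * W z) h0 h1
        (fun x => hE1.b.real_le x) (fun x => (hW.const_mul η).b.real_le x), Lf_const_mul, hJ]
    rw [hLG] at h3
    have h4 : c * (J α s + η * Lf α W) ≤ J α s := h3.trans hI
    have h5 : J α s + η * Lf α W ≤ (1 + |C| * η ^ 2) * J α s := by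
      have := mul_le_mul_of_nonneg_left h4 hK.le
      rwa [← mul_assoc, hc, mul_inv_cancel₀ hK.ne', one_mul] at this
    have h6 : η * Lf α W ≤ η * (|C| * η * J α s) := by nlinarith
    exact le_of_mul_le_mul_left h6 hη
  have hlim : Tendsto (fun η : ℝ => |C| * η * J α s) (𝓝[>] 0) (𝓝 0) := by
    have : Tendsto (fun η : ℝ => |C| * η * J α s) (𝓝 0) (𝓝 (|C| * 0 * J α s)) := by
      apply Continuous.tendsto
      fun_prop
    simp only [mul_zero, zero_mul] at this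
    exact this.mono_left nhdsWithin_le_nhds
  exact ge_of_tendsto hlim (eventually_nhdsWithin_of_forall fun η hη => key η hη)

/-- all zeros of a maximiser are real and simple, and `s 0 ≠ 0` -/
theorem zeros {α : ℝ} (h0 : 0 < α) (h1 : α < 1) {s : ℂ → ℂ}
    (hs : IsE (1 / 2) 1 s) (hmax : ∀ s' : ℂ → ℂ, IsE (1 / 2) 1 s' → J α s' ≤ J α s)
    (hne : ∃ z, s z ≠ 0) :
    s 0 ≠ 0 ∧ ∀ z : ℂ, s z = 0 → z.im = 0 ∧ deriv s z ≠ 0 := by
  have hnp : ∀ {M C : ℝ} {W : ℂ → ℂ}, IsE 1 M W → (∀ x : ℝ, 0 ≤ (W (x : ℂ)).re) →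
      (∀ x : ℝ, (W (x : ℂ)).re ^ 2 ≤ C * (s (x : ℂ)).re ^ 2) → Lf α W ≤ 0 :=
    fun hW hW0 hWs => Lf_nonpos_of_sq_le h0 h1 hs hmax hW hW0 hWs
  have ha : (0 : ℝ) ≤ 1 / 2 := by norm_num
  have hs0 : s 0 ≠ 0 := by
    intro hz
    obtain ⟨g, hgd, hg, C, hC, hgb⟩ := exists_div ha hs.b hz
    have hg' : ∀ z, s z = z * g z := fun z => by rw [hg z, sub_zero]
    have hodd : ∀ z, g (-z) = -g z := by
      have h2 : ∀ z, g (-z) + g z = 0 := by
        apply eq_zero_of_finite (h := fun z => g (-z) + g z)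
          ((hgd.continuous.comp continuous_neg).add hgd.continuous) (Set.finite_singleton (0 : ℂ))
        intro z hz'
        have hz0 : z ≠ 0 := hz'
        have h3 := hs.even z
        rw [hg' z, hg' (-z)] at h3
        have h4 : z * (g (-z) + g z) = 0 := by linear_combination -h3
        exact (mul_eq_zero.1 h4).resolve_left hz0
      intro z
      exact eq_neg_of_add_eq_zero_left (h2 z)
    have hg0 : g 0 = 0 := by
      have := hodd 0
      rw [neg_zero] at this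
      have h5 : (2 : ℂ) * g 0 = 0 := by linear_combination this
      exact (mul_eq_zero.1 h5).resolve_left two_ne_zero
    have hgB : IsB (1 / 2) C g := isB_of_div (n := 1) hgd hC (by simpa using hgb)
    obtain ⟨h, hhd, hh, C2, hC2, hhb⟩ := exists_div ha hgB hg0
    have hhB : IsB (1 / 2) C2 h := isB_of_div (n := 1) hhd hC2 (by simpa using hhb)
    refine contra h0 h1 hnp hs.real hgB hodd ?_ (K := C2) ?_
    · obtain ⟨z, hz'⟩ := hne
      refine ⟨z, fun h6 => hz' ?_⟩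
      rw [hg' z, h6, mul_zero]
    · intro x
      have h7 : g (x : ℂ) ^ 2 = s (x : ℂ) * h (x : ℂ) := by
        rw [hg' x, hh x]; ring
      have h8 : ‖g (x : ℂ)‖ ^ 2 = ‖s (x : ℂ)‖ * ‖h (x : ℂ)‖ := by
        rw [← norm_pow, h7, norm_mul]
      rw [h8, mul_comm]
      exact mul_le_mul_of_nonneg_right (hhB.real_le x) (norm_nonneg _)
  refine ⟨hs0, ?_⟩
  intro ζ hζ
  have hζ0 : ζ ≠ 0 := fun h => hs0 (h ▸ hζ)
  have hζn : s (-ζ) = 0 := by rw [hs.even, hζ]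
  obtain ⟨g, hgd, hg, C, hC, hgb⟩ := exists_div_sq ha hs.b hζ0 hζ hζn
  have hgB : IsB (1 / 2) C g := isB_of_div hgd hC hgb
  have hgeven : ∀ z, g (-z) = g z := by
    have h2 : ∀ z, g (-z) - g z = 0 := by
      apply eq_zero_of_finite (h := fun z => g (-z) - g z)
        ((hgd.continuous.comp continuous_neg).sub hgd.continuous)
        ((Set.finite_singleton (-ζ)).insert ζ)
      intro z hz'
      have hz1 : z ≠ ζ := fun h => hz' (by simp [h])
      have hz2 : z ≠ -ζ := fun h => hz' (by simp [h])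
      have h3 := hs.even z
      rw [hg z, hg (-z)] at h3
      have h4 : (z - ζ) * ((z + ζ) * (g (-z) - g z)) = 0 := by linear_combination h3
      have h5 := (mul_eq_zero.1 h4).resolve_left (sub_ne_zero.2 hz1)
      exact (mul_eq_zero.1 h5).resolve_left (fun h => hz2 (eq_neg_of_add_eq_zero_left h))
    intro z
    exact sub_eq_zero.1 (h2 z)
  set v : ℂ → ℂ := fun z => z * g z with hv
  have hvB : IsB (1 / 2) C v := by
    refine ⟨differentiable_id.mul hgd, fun z => ?_⟩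
    rw [hv]
    show ‖z * g z‖ ≤ _
    rw [norm_mul]
    have h1' : (0 : ℝ) < 1 + ‖z‖ := by positivity
    have hE : 0 ≤ C * Real.exp (1 / 2 * |z.im|) := mul_nonneg hC (Real.exp_pos _).le
    calc ‖z‖ * ‖g z‖ ≤ ‖z‖ * (C * Real.exp (1 / 2 * |z.im|) / (1 + ‖z‖) ^ 2) :=
          mul_le_mul_of_nonneg_left (hgb z) (norm_nonneg _)
      _ = C * Real.exp (1 / 2 * |z.im|) * (‖z‖ / (1 + ‖z‖) ^ 2) := by ring
      _ ≤ C * Real.exp (1 / 2 * |z.im|) * 1 := by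
          apply mul_le_mul_of_nonneg_left _ hE
          rw [div_le_one (by positivity)]
          nlinarith [norm_nonneg z]
      _ = _ := mul_one _
  have hvodd : ∀ z, v (-z) = -v z := by
    intro z
    simp only [hv, hgeven z]
    ring
  have hvne : ∃ z, v z ≠ 0 := by
    by_contra hcon
    push Not at hcon
    have hg0 : ∀ z, g z = 0 := by
      apply eq_zero_of_finite hgd.continuous (Set.finite_singleton (0 : ℂ))
      intro z hz'
      have := hcon z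
      simp only [hv] at this
      exact (mul_eq_zero.1 this).resolve_left hz'
    obtain ⟨z, hz'⟩ := hne
    exact hz' (by rw [hg z, hg0 z, mul_zero])
  constructor
  · by_contra him
    refine contra h0 h1 hnp hs.real hvB hvodd hvne (K := C / ζ.im ^ 2) ?_
    intro x
    have hx1 : |ζ.im| ≤ ‖(x : ℂ) - ζ‖ := by
      have := Complex.abs_im_le_norm ((x : ℂ) - ζ)
      simpa using this
    have hx2 : |ζ.im| ≤ ‖(x : ℂ) + ζ‖ := by
      have := Complex.abs_im_le_norm ((x : ℂ) + ζ)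
      simpa using this
    have him2 : 0 < ζ.im ^ 2 := by positivity
    have hx3 : ζ.im ^ 2 ≤ ‖(x : ℂ) ^ 2 - ζ ^ 2‖ := by
      have h3 : (x : ℂ) ^ 2 - ζ ^ 2 = ((x : ℂ) - ζ) * ((x : ℂ) + ζ) := by ring
      rw [h3, norm_mul, ← sq_abs, sq]
      exact mul_le_mul hx1 hx2 (abs_nonneg _) (norm_nonneg _)
    have hsn : ‖s (x : ℂ)‖ = ‖(x : ℂ) ^ 2 - ζ ^ 2‖ * ‖g (x : ℂ)‖ := by rw [hg, norm_mul]
    have hxg : ‖(x : ℂ)‖ ^ 2 * ‖g (x : ℂ)‖ ≤ C := by
      have h4 := hgb (x : ℂ)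
      simp only [Complex.ofReal_im, abs_zero, mul_zero, Real.exp_zero, mul_one] at h4
      have h5 : (0 : ℝ) < (1 + ‖(x : ℂ)‖) ^ 2 := by positivity
      rw [le_div_iff₀ h5] at h4
      nlinarith [norm_nonneg (x : ℂ), norm_nonneg (g (x : ℂ)),
        mul_nonneg (norm_nonneg (x : ℂ)) (norm_nonneg (g (x : ℂ)))]
    have hvx : ‖v (x : ℂ)‖ ^ 2 = (‖(x : ℂ)‖ ^ 2 * ‖g (x : ℂ)‖) * ‖g (x : ℂ)‖ := by
      simp only [hv, norm_mul]; ring
    rw [hvx, hsn, div_mul_eq_mul_div, le_div_iff₀ him2]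
    calc (‖(x : ℂ)‖ ^ 2 * ‖g (x : ℂ)‖) * ‖g (x : ℂ)‖ * ζ.im ^ 2
        ≤ C * ‖g (x : ℂ)‖ * ζ.im ^ 2 := by
          apply mul_le_mul_of_nonneg_right _ him2.le
          exact mul_le_mul_of_nonneg_right hxg (norm_nonneg _)
      _ ≤ C * ‖g (x : ℂ)‖ * ‖(x : ℂ) ^ 2 - ζ ^ 2‖ :=
          mul_le_mul_of_nonneg_left hx3 (mul_nonneg hC (norm_nonneg _))
      _ = C * (‖(x : ℂ) ^ 2 - ζ ^ 2‖ * ‖g (x : ℂ)‖) := by ring
  · intro hd
    have hderiv : HasDerivAt s (2 * ζ * g ζ + (ζ ^ 2 - ζ ^ 2) * deriv g ζ) ζ := by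
      have h3 : HasDerivAt (fun z : ℂ => z ^ 2 - ζ ^ 2) (2 * ζ) ζ := by
        have := (hasDerivAt_pow 2 ζ).sub_const (ζ ^ 2)
        simpa using this
      have h4 := h3.mul (hgd ζ).hasDerivAt
      refine h4.congr_of_eventuallyEq (Eventually.of_forall fun z => ?_)
      exact hg z
    have hgζ : g ζ = 0 := by
      have h5 := hderiv.deriv
      rw [hd, sub_self, zero_mul, add_zero] at h5
      have h6 := (mul_eq_zero.1 h5.symm)
      rcases h6 with h6 | h6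
      · exact absurd h6 (mul_ne_zero two_ne_zero hζ0)
      · exact h6
    have hgζn : g (-ζ) = 0 := by rw [hgeven, hgζ]
    obtain ⟨h, hhd, hh, C2, hC2, hhb⟩ := exists_div_sq ha hgB hζ0 hgζ hgζn
    refine contra h0 h1 hnp hs.real hvB hvodd hvne (K := C2) ?_
    intro x
    have h7 : v (x : ℂ) ^ 2 = s (x : ℂ) * ((x : ℂ) ^ 2 * h (x : ℂ)) := by
      simp only [hv]
      rw [hg x, hh x]; ring
    have h8 : ‖v (x : ℂ)‖ ^ 2 = ‖s (x : ℂ)‖ * (‖(x : ℂ)‖ ^ 2 * ‖h (x : ℂ)‖) := by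
      rw [← norm_pow, h7, norm_mul, norm_mul, norm_pow]
    have hxh : ‖(x : ℂ)‖ ^ 2 * ‖h (x : ℂ)‖ ≤ C2 := by
      have h4 := hhb (x : ℂ)
      simp only [Complex.ofReal_im, abs_zero, mul_zero, Real.exp_zero, mul_one] at h4
      have h5 : (0 : ℝ) < (1 + ‖(x : ℂ)‖) ^ 2 := by positivity
      rw [le_div_iff₀ h5] at h4
      nlinarith [norm_nonneg (x : ℂ), norm_nonneg (h (x : ℂ)),
        mul_nonneg (norm_nonneg (x : ℂ)) (norm_nonneg (h (x : ℂ)))]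
    rw [h8, mul_comm]
    exact mul_le_mul_of_nonneg_right hxh (norm_nonneg _)

end Pool.Agent.Helper30.FG
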