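import Pool.Agent.Helper30.FG.A7
import Pool.Agent.Helper30.FG.B2
import Pool.Agent.Helper30.FG.C0
import Pool.Agent.Helper30.FG.C5

/-!
# Uniqueness of the maximiser, part 1

`g = 1 - s₁² - s₂²` is in the unit ball and `L g = I`. If `W ≥ 0`, `W ≤ C (s₁² + s₂²)` on `ℝ`, then
`|g + η W| ≤ 1` for `0 < η`, `η C ≤ 1`, so `L W ≤ 0`. If `s₁ x₀ = 0 ≠ s₂ x₀`, the odd function
`v = z s₁ / (z² - x₀²)` gives `W = v²` with `L W > 0`.
-/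

set_option autoImplicit false

namespace Pool.Agent.Helper30.FG

open Complex MeasureTheory Set Filter Topology
open Pool.Agent.Helper78.Bern Pool.Agent.Helper45.Bern

namespace U1

private theorem eq_zero_of_finite {h : ℂ → ℂ} (hc : Continuous h) {F : Set ℂ} (hF : F.Finite)
    (hz : ∀ z, z ∉ F → h z = 0) : ∀ z, h z = 0 := by
  have hd : Dense (Set.univ \ F) := dense_univ.sdiff_finite hF
  have := hc.ext_on hd (continuous_const (y := (0 : ℂ))) (fun z hz' => hz z hz'.2)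
  intro z
  exact congrFun this z

/-- a real value -/
private theorem eq_re {s : ℂ → ℂ} (h : ∀ x : ℝ, (s (x : ℂ)).im = 0) (x : ℝ) :
    s (x : ℂ) = (((s (x : ℂ)).re : ℝ) : ℂ) :=
  Complex.ext (by simp) (by simpa using h x)

private theorem norm_sq_re {s : ℂ → ℂ} (h : ∀ x : ℝ, (s (x : ℂ)).im = 0) (x : ℝ) :
    ‖s (x : ℂ)‖ ^ 2 = (s (x : ℂ)).re ^ 2 := by
  rw [← Complex.normSq_eq_norm_sq, Complex.normSq_apply, h x]; ring

private theorem re_sq_le {s : ℂ → ℂ} (h : IsE (1 / 2) 1 s) (x : ℝ) :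
    (s (x : ℂ)).re ^ 2 ≤ 1 := by
  rw [← norm_sq_re h.real x]
  exact pow_le_one₀ (norm_nonneg _) (h.b.real_le x)

/-- away from `±y` -/
private theorem away {x y δ : ℝ} (h1 : δ ≤ |x - y|) (h2 : δ ≤ |x + y|) :
    δ * |x| ≤ |x ^ 2 - y ^ 2| := by
  have e : x ^ 2 - y ^ 2 = (x - y) * (x + y) := by ring
  rw [e, abs_mul]
  have h3 : 2 * |x| ≤ |x - y| + |x + y| := by
    have : |(x - y) + (x + y)| ≤ |x - y| + |x + y| := abs_add_le _ _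
    have e2 : (x - y) + (x + y) = 2 * x := by ring
    rwa [e2, abs_mul, abs_two] at this
  rcases le_total |x - y| |x + y| with h | h
  · have h4 : |x| ≤ |x + y| := by linarith
    exact mul_le_mul h1 h4 (abs_nonneg _) (abs_nonneg _)
  · have h4 : |x| ≤ |x - y| := by linarith
    rw [mul_comm |x - y|]
    exact mul_le_mul h2 h4 (abs_nonneg _) (abs_nonneg _)

end U1

open U1

theorem pair_nonpos {α : ℝ} (h0 : 0 < α) (h1 : α < 1) {s₁ s₂ : ℂ → ℂ}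
    (hs₁ : IsE (1 / 2) 1 s₁) (hs₂ : IsE (1 / 2) 1 s₂)
    (hm₁ : ∀ s' : ℂ → ℂ, IsE (1 / 2) 1 s' → J α s' ≤ J α s₁)
    (hm₂ : ∀ s' : ℂ → ℂ, IsE (1 / 2) 1 s' → J α s' ≤ J α s₂)
    {M C : ℝ} {W : ℂ → ℂ} (hW : IsE 1 M W) (hW0 : ∀ x : ℝ, 0 ≤ (W (x : ℂ)).re)
    (hWs : ∀ x : ℝ, (W (x : ℂ)).re ≤ C * ((s₁ (x : ℂ)).re ^ 2 + (s₂ (x : ℂ)).re ^ 2)) :
    Lf α W ≤ 0 := by
  obtain ⟨hE1, hJ1⟩ := J_eq h0 h1 hs₁
  obtain ⟨hE2, hJ2⟩ := J_eq h0 h1 hs₂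
  have hI : bernsteinNorm α ≤ J α s₁ := norm_le_of_J_le h0 h1 hm₁
  have hJJ : J α s₂ = J α s₁ := le_antisymm (hm₁ _ hs₂) (hm₂ _ hs₁)
  have hC1 : 0 < 1 + |C| := by positivity
  set η : ℝ := (1 + |C|)⁻¹ with hη
  have hη0 : 0 < η := inv_pos.2 hC1
  have hηC : η * C ≤ 1 := by
    rw [hη, inv_mul_le_iff₀ hC1]
    linarith [le_abs_self C]
  have hA1 := hE1.const_mul (1 / 2)
  have hA2 := hE2.const_mul (1 / 2)
  have hA := hA1.add hA2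
  have hB := hW.const_mul η
  set G : ℂ → ℂ := fun z => (((1 / 2 : ℝ) : ℂ) * (1 - 2 * s₁ z ^ 2) +
    ((1 / 2 : ℝ) : ℂ) * (1 - 2 * s₂ z ^ 2)) + (η : ℂ) * W z with hG
  have hGE := hA.add hB
  have hGr : ∀ x : ℝ, ‖G (x : ℂ)‖ ≤ 1 := by
    intro x
    have hval : G (x : ℂ) =
        ((1 - ((s₁ (x : ℂ)).re ^ 2 + (s₂ (x : ℂ)).re ^ 2) + η * (W (x : ℂ)).re : ℝ) : ℂ) := by
      rw [hG]
      show (((1 / 2 : ℝ) : ℂ) * (1 - 2 * s₁ (x : ℂ) ^ 2) +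
        ((1 / 2 : ℝ) : ℂ) * (1 - 2 * s₂ (x : ℂ) ^ 2)) + (η : ℂ) * W (x : ℂ) = _
      rw [eq_re hs₁.real x, eq_re hs₂.real x, eq_re hW.real x]
      simp only [Complex.ofReal_re]
      push_cast
      ring
    rw [hval, Complex.norm_real, Real.norm_eq_abs, abs_le]
    have a1 := re_sq_le hs₁ x
    have a2 := re_sq_le hs₂ x
    have b1 : 0 ≤ (s₁ (x : ℂ)).re ^ 2 + (s₂ (x : ℂ)).re ^ 2 := by positivity
    have b2 : 0 ≤ η * (W (x : ℂ)).re := mul_nonneg hη0.le (hW0 x)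
    have b3 : η * (W (x : ℂ)).re ≤ (s₁ (x : ℂ)).re ^ 2 + (s₂ (x : ℂ)).re ^ 2 := by
      calc η * (W (x : ℂ)).re
          ≤ η * (C * ((s₁ (x : ℂ)).re ^ 2 + (s₂ (x : ℂ)).re ^ 2)) :=
            mul_le_mul_of_nonneg_left (hWs x) hη0.le
        _ = (η * C) * ((s₁ (x : ℂ)).re ^ 2 + (s₂ (x : ℂ)).re ^ 2) := by ring
        _ ≤ 1 * ((s₁ (x : ℂ)).re ^ 2 + (s₂ (x : ℂ)).re ^ 2) :=
            mul_le_mul_of_nonneg_right hηC b1
        _ = _ := one_mul _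
    constructor <;> linarith
  have hGB : IsB 1 1 G := pl_bound zero_le_one hGE.b.diff hGE.b.bd hGr
  have h3 := Lf_le h0 h1 (g := G) ⟨hGB, hGE.even, hGE.real⟩
  have hLG : Lf α G = (1 / 2) * J α s₁ + (1 / 2) * J α s₂ + η * Lf α W := by
    rw [hG]
    rw [Lf_add (f := fun z => ((1 / 2 : ℝ) : ℂ) * (1 - 2 * s₁ z ^ 2) +
        ((1 / 2 : ℝ) : ℂ) * (1 - 2 * s₂ z ^ 2)) (g := fun z => (η : ℂ) * W z) h0 h1
      (fun x => hA.b.real_le x) (fun x => hB.b.real_le x), Lf_const_mul,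
      Lf_add (f := fun z => ((1 / 2 : ℝ) : ℂ) * (1 - 2 * s₁ z ^ 2))
        (g := fun z => ((1 / 2 : ℝ) : ℂ) * (1 - 2 * s₂ z ^ 2)) h0 h1
      (fun x => hA1.b.real_le x) (fun x => hA2.b.real_le x), Lf_const_mul, Lf_const_mul, hJ1, hJ2]
  rw [hLG, hJJ] at h3
  have h4 : η * Lf α W ≤ η * 0 := by linarith
  exact le_of_mul_le_mul_left h4 hη0

theorem common_zero {α : ℝ} (h0 : 0 < α) (h1 : α < 1) {s₁ s₂ : ℂ → ℂ}
    (hs₁ : IsE (1 / 2) 1 s₁) (hs₂ : IsE (1 / 2) 1 s₂)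
    (hm₁ : ∀ s' : ℂ → ℂ, IsE (1 / 2) 1 s' → J α s' ≤ J α s₁)
    (hm₂ : ∀ s' : ℂ → ℂ, IsE (1 / 2) 1 s' → J α s' ≤ J α s₂)
    (hne : ∃ z, s₁ z ≠ 0) {x₀ : ℝ} (hx : x₀ ≠ 0) (hz : s₁ (x₀ : ℂ) = 0) : s₂ (x₀ : ℂ) = 0 := by
  by_contra hs2
  have ha : (0 : ℝ) ≤ 1 / 2 := by norm_num
  have hζ0 : (x₀ : ℂ) ≠ 0 := Complex.ofReal_ne_zero.2 hx
  have hζn : s₁ (-(x₀ : ℂ)) = 0 := by rw [hs₁.even, hz]
  obtain ⟨g, hgd, hg, C, hC, hgb⟩ := exists_div_sq ha hs₁.b hζ0 hz hζn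
  have hgeven : ∀ z, g (-z) = g z := by
    have h2 : ∀ z, g (-z) - g z = 0 := by
      apply eq_zero_of_finite (h := fun z => g (-z) - g z)
        ((hgd.continuous.comp continuous_neg).sub hgd.continuous)
        ((Set.finite_singleton (-(x₀ : ℂ))).insert (x₀ : ℂ))
      intro z hz'
      have hz1 : z ≠ (x₀ : ℂ) := fun h => hz' (by simp [h])
      have hz2 : z ≠ -(x₀ : ℂ) := fun h => hz' (by simp [h])
      have h3 := hs₁.even z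
      rw [hg z, hg (-z)] at h3
      have h4 : (z - (x₀ : ℂ)) * ((z + (x₀ : ℂ)) * (g (-z) - g z)) = 0 := by
        linear_combination h3
      have h5 := (mul_eq_zero.1 h4).resolve_left (sub_ne_zero.2 hz1)
      exact (mul_eq_zero.1 h5).resolve_left (fun h => hz2 (eq_neg_of_add_eq_zero_left h))
    intro z
    exact sub_eq_zero.1 (h2 z)
  set v : ℂ → ℂ := fun z => z * g z with hv
  have hvB : IsB (1 / 2) C v := by
    refine ⟨differentiable_id.mul hgd, fun z => ?_⟩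
    rw [hv]
    show ‖z * g z‖ ≤ _
    rw [norm_mul]
    have h1' : (0 : ℝ) < 1 + ‖z‖ := by positivity
    have hE : 0 ≤ C * Real.exp (1 / 2 * |z.im|) := mul_nonneg hC (Real.exp_pos _).le
    calc ‖z‖ * ‖g z‖ ≤ ‖z‖ * (C * Real.exp (1 / 2 * |z.im|) / (1 + ‖z‖) ^ 2) :=
          mul_le_mul_of_nonneg_left (hgb z) (norm_nonneg _)
      _ = C * Real.exp (1 / 2 * |z.im|) * (‖z‖ / (1 + ‖z‖) ^ 2) := by ring
      _ ≤ C * Real.exp (1 / 2 * |z.im|) * 1 := by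
          apply mul_le_mul_of_nonneg_left _ hE
          rw [div_le_one (by positivity)]
          nlinarith [norm_nonneg z]
      _ = _ := mul_one _
  have hvodd : ∀ z, v (-z) = -v z := by
    intro z
    simp only [hv, hgeven z]
    ring
  have hvne : ∃ z, v z ≠ 0 := by
    by_contra hcon
    push Not at hcon
    have hg0 : ∀ z, g z = 0 := by
      apply eq_zero_of_finite hgd.continuous (Set.finite_singleton (0 : ℂ))
      intro z hz'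
      have := hcon z
      simp only [hv] at this
      exact (mul_eq_zero.1 this).resolve_left hz'
    obtain ⟨z, hz'⟩ := hne
    exact hz' (by rw [hg z, hg0 z, mul_zero])
  have hE := isE_mul_star hvB hvodd
  have h2 : (2 * (1 / 2) : ℝ) = 1 := by norm_num
  rw [h2] at hE
  have hre : ∀ x : ℝ, (v (x : ℂ) * (starRingEnd ℂ) (v ((starRingEnd ℂ) (x : ℂ)))).re =
      ‖v (x : ℂ)‖ ^ 2 := by
    intro x
    rw [Complex.conj_ofReal, Complex.mul_conj, Complex.ofReal_re, Complex.normSq_eq_norm_sq]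
  -- a neighbourhood of `x₀` on which `s₂` is large
  set c : ℝ := ‖s₂ (x₀ : ℂ)‖ / 2 with hc
  have hcpos : 0 < c := by
    have : 0 < ‖s₂ (x₀ : ℂ)‖ := norm_pos_iff.2 hs2
    positivity
  have hcont : Continuous fun x : ℝ => ‖s₂ (x : ℂ)‖ :=
    (hs₂.b.diff.continuous.comp Complex.continuous_ofReal).norm
  obtain ⟨δ, hδ, hδc⟩ : ∃ δ > 0, ∀ x : ℝ, |x - x₀| < δ → c ≤ ‖s₂ (x : ℂ)‖ := by
    have h3 : ∀ᶠ x : ℝ in 𝓝 x₀, c < ‖s₂ (x : ℂ)‖ := by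
      refine hcont.continuousAt.eventually (lt_mem_nhds ?_)
      rw [hc]
      have : 0 < ‖s₂ (x₀ : ℂ)‖ := norm_pos_iff.2 hs2
      show ‖s₂ (x₀ : ℂ)‖ / 2 < ‖s₂ (x₀ : ℂ)‖
      linarith
    obtain ⟨δ, hδ, h4⟩ := Metric.eventually_nhds_iff.1 h3
    exact ⟨δ, hδ, fun x hx' => (h4 (by rwa [Real.dist_eq])).le⟩
  have hδc' : ∀ x : ℝ, |x + x₀| < δ → c ≤ ‖s₂ (x : ℂ)‖ := by
    intro x hx'
    have h3 := hδc (-x) (by
      have e : -x - x₀ = -(x + x₀) := by ring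
      rwa [e, abs_neg])
    rwa [Complex.ofReal_neg, hs₂.even] at h3
  have hle : ∀ x : ℝ, ‖v (x : ℂ)‖ ^ 2 ≤
      (C ^ 2 / c ^ 2 + 1 / δ ^ 2) * ((s₁ (x : ℂ)).re ^ 2 + (s₂ (x : ℂ)).re ^ 2) := by
    intro x
    rw [← norm_sq_re hs₁.real x, ← norm_sq_re hs₂.real x]
    have p1 : 0 ≤ ‖s₁ (x : ℂ)‖ ^ 2 := by positivity
    have p2 : 0 ≤ ‖s₂ (x : ℂ)‖ ^ 2 := by positivity
    have q1 : 0 ≤ C ^ 2 / c ^ 2 := by positivity
    have q2 : 0 ≤ 1 / δ ^ 2 := by positivity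
    have near : c ≤ ‖s₂ (x : ℂ)‖ → ‖v (x : ℂ)‖ ^ 2 ≤
        (C ^ 2 / c ^ 2 + 1 / δ ^ 2) * (‖s₁ (x : ℂ)‖ ^ 2 + ‖s₂ (x : ℂ)‖ ^ 2) := by
      intro h
      have h3 : ‖v (x : ℂ)‖ ^ 2 ≤ C ^ 2 :=
        pow_le_pow_left₀ (norm_nonneg _) (hvB.real_le x) 2
      have h4 : c ^ 2 ≤ ‖s₂ (x : ℂ)‖ ^ 2 := pow_le_pow_left₀ hcpos.le h 2
      have h5 : C ^ 2 ≤ C ^ 2 / c ^ 2 * ‖s₂ (x : ℂ)‖ ^ 2 := by
        rw [div_mul_eq_mul_div, le_div_iff₀ (by positivity)]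
        exact mul_le_mul_of_nonneg_left h4 (sq_nonneg _)
      nlinarith [mul_nonneg q1 p1, mul_nonneg q2 p1, mul_nonneg q2 p2]
    by_cases hx1 : |x - x₀| < δ
    · exact near (hδc x hx1)
    by_cases hx2 : |x + x₀| < δ
    · exact near (hδc' x hx2)
    rw [not_lt] at hx1 hx2
    have h3 := away hx1 hx2
    have h4 : ‖s₁ (x : ℂ)‖ = |x ^ 2 - x₀ ^ 2| * ‖g (x : ℂ)‖ := by
      rw [hg, norm_mul]
      congr 1
      rw [← Complex.ofReal_pow, ← Complex.ofReal_pow, ← Complex.ofReal_sub, Complex.norm_real,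
        Real.norm_eq_abs]
    have h5 : ‖v (x : ℂ)‖ = |x| * ‖g (x : ℂ)‖ := by
      simp only [hv, norm_mul, Complex.norm_real, Real.norm_eq_abs]
    have h6 : δ * ‖v (x : ℂ)‖ ≤ ‖s₁ (x : ℂ)‖ := by
      rw [h4, h5, ← mul_assoc]
      exact mul_le_mul_of_nonneg_right h3 (norm_nonneg _)
    have h7 : ‖v (x : ℂ)‖ ^ 2 ≤ 1 / δ ^ 2 * ‖s₁ (x : ℂ)‖ ^ 2 := by
      rw [one_div, ← div_eq_inv_mul, le_div_iff₀ (by positivity)]
      calc ‖v (x : ℂ)‖ ^ 2 * δ ^ 2 = (δ * ‖v (x : ℂ)‖) ^ 2 := by ring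
        _ ≤ ‖s₁ (x : ℂ)‖ ^ 2 :=
          pow_le_pow_left₀ (mul_nonneg hδ.le (norm_nonneg _)) h6 2
    nlinarith [mul_nonneg q1 p1, mul_nonneg q1 p2, mul_nonneg q2 p2]
  have hle2 : Lf α (fun z => v z * (starRingEnd ℂ) (v ((starRingEnd ℂ) z))) ≤ 0 := by
    apply pair_nonpos h0 h1 hs₁ hs₂ hm₁ hm₂ (C := C ^ 2 / c ^ 2 + 1 / δ ^ 2) hE
    · intro x
      show 0 ≤ (v (x : ℂ) * (starRingEnd ℂ) (v ((starRingEnd ℂ) (x : ℂ)))).re
      rw [hre x]; positivity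
    · intro x
      show (v (x : ℂ) * (starRingEnd ℂ) (v ((starRingEnd ℂ) (x : ℂ)))).re ≤ _
      rw [hre x]
      exact hle x
  exact absurd (odd_pos_strict h0 h1 hvB hvodd hvne) (not_lt.2 hle2)

end Pool.Agent.Helper30.FG
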