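import Pool.Agent.Helper30.FG.Defs

set_option autoImplicit false

namespace Pool.Agent.Helper30.FG

open Complex MeasureTheory Set Filter Topology
open Pool.Agent.Helper78.Bern Pool.Agent.Helper45.Bern

/-- **A4b** -/
theorem integrable_poisson {t : ℝ} (ht : 0 < t) :
    Integrable (fun x : ℝ => t / (x ^ 2 + t ^ 2)) := by
  have h1 : Integrable (fun x : ℝ => t⁻¹ * (1 + (x / t) ^ 2)⁻¹) :=
    (integrable_inv_one_add_sq.comp_div ht.ne').const_mul t⁻¹
  refine h1.congr (Eventually.of_forall fun x => ?_)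
  have h2 : x ^ 2 + t ^ 2 ≠ 0 := by positivity
  have h3 : 1 + (x / t) ^ 2 ≠ 0 := by positivity
  simp only
  field_simp
  ring

theorem integral_poisson {t : ℝ} (ht : 0 < t) : ∫ x : ℝ, t / (x ^ 2 + t ^ 2) = Real.pi := by
  have h1 : ∀ x : ℝ, t / (x ^ 2 + t ^ 2) = t⁻¹ * (1 + (x / t) ^ 2)⁻¹ := by
    intro x
    have h2 : x ^ 2 + t ^ 2 ≠ 0 := by positivity
    have h3 : 1 + (x / t) ^ 2 ≠ 0 := by positivity
    field_simp
    ring
  simp_rw [h1]
  rw [integral_const_mul, Measure.integral_comp_div (fun x : ℝ => (1 + x ^ 2)⁻¹) t,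
    integral_univ_inv_one_add_sq, abs_of_pos ht, smul_eq_mul]
  field_simp

namespace A4b

open scoped FourierTransform

noncomputable def ef (t x : ℝ) : ℂ := ((Real.exp (-(t * |x|)) : ℝ) : ℂ)

lemma ef_cont (t : ℝ) : Continuous (ef t) := by
  unfold ef
  fun_prop

lemma key {t : ℝ} (ht : 0 < t) (ξ : ℝ) :
    Integrable (fun v : ℝ => Complex.exp (((-2 * Real.pi * v * ξ : ℝ) : ℂ) * I) • ef t v) ∧
    ∫ v : ℝ, Complex.exp (((-2 * Real.pi * v * ξ : ℝ) : ℂ) * I) • ef t v =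
      ((2 * (t / ((2 * Real.pi * ξ) ^ 2 + t ^ 2)) : ℝ) : ℂ) := by
  set a : ℂ := -(t : ℂ) - (2 * Real.pi * ξ : ℝ) * I with ha
  set b : ℂ := (t : ℂ) - (2 * Real.pi * ξ : ℝ) * I with hb
  have hare : a.re < 0 := by
    rw [ha]; simp [ht]
  have hbre : 0 < b.re := by
    rw [hb]; simp [ht]
  have hcI : ∀ v ∈ Ioi (0 : ℝ), Complex.exp (a * v) =
      Complex.exp (((-2 * Real.pi * v * ξ : ℝ) : ℂ) * I) • ef t v := by
    intro v hv
    unfold ef
    rw [abs_of_pos hv, smul_eq_mul, Complex.ofReal_exp, ← Complex.exp_add]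
    congr 1
    rw [ha]
    push_cast
    ring
  have hcJ : ∀ v ∈ Iic (0 : ℝ), Complex.exp (b * v) =
      Complex.exp (((-2 * Real.pi * v * ξ : ℝ) : ℂ) * I) • ef t v := by
    intro v hv
    unfold ef
    rw [abs_of_nonpos hv, smul_eq_mul, Complex.ofReal_exp, ← Complex.exp_add]
    congr 1
    rw [hb]
    push_cast
    ring
  have hI := (integrableOn_exp_mul_complex_Ioi hare 0).congr_fun hcI measurableSet_Ioi
  have hJ := (integrableOn_exp_mul_complex_Iic hbre 0).congr_fun hcJ measurableSet_Iic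
  have hint : Integrable (fun v : ℝ =>
      Complex.exp (((-2 * Real.pi * v * ξ : ℝ) : ℂ) * I) • ef t v) := by
    rw [← integrableOn_univ, ← Iic_union_Ioi (a := (0 : ℝ))]
    exact hJ.union hI
  refine ⟨hint, ?_⟩
  rw [← intervalIntegral.integral_Iic_add_Ioi hJ hI, ← setIntegral_congr_fun measurableSet_Ioi hcI,
    ← setIntegral_congr_fun measurableSet_Iic hcJ, integral_exp_mul_complex_Ioi hare,
    integral_exp_mul_complex_Iic hbre]
  have ha0 : a ≠ 0 := by
    intro h; rw [h] at hare; simp at hare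
  have hb0 : b ≠ 0 := by
    intro h; rw [h] at hbre; simp at hbre
  have h1 : ((2 * Real.pi * ξ : ℝ) : ℂ) ^ 2 + (t : ℂ) ^ 2 = -(a * b) := by
    rw [ha, hb]
    linear_combination (((2 * Real.pi * ξ : ℝ) : ℂ) ^ 2) * Complex.I_sq
  have h2 : ((2 * (t / ((2 * Real.pi * ξ) ^ 2 + t ^ 2)) : ℝ) : ℂ) =
      2 * ((t : ℂ) / (((2 * Real.pi * ξ : ℝ) : ℂ) ^ 2 + (t : ℂ) ^ 2)) := by
    push_cast
    ring
  rw [h2, h1]
  simp only [Complex.ofReal_zero, mul_zero, Complex.exp_zero]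
  have h3 : b - a = 2 * (t : ℂ) := by
    rw [ha, hb]; ring
  field_simp
  linear_combination -h3

end A4b

open A4b in
theorem poisson_cos {t : ℝ} (ht : 0 < t) (ω : ℝ) :
    (1 / Real.pi) * ∫ x : ℝ, t / (x ^ 2 + t ^ 2) * Real.cos (ω * x) =
      Real.exp (-(t * |ω|)) := by
  have hpi := Real.pi_pos
  have hF : ∀ ξ : ℝ, FourierTransform.fourier (ef t) ξ =
      ((2 * (t / ((2 * Real.pi * ξ) ^ 2 + t ^ 2)) : ℝ) : ℂ) := by
    intro ξ
    rw [Real.fourier_real_eq_integral_exp_smul]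
    exact (key ht ξ).2
  have hfi : Integrable (ef t) := by
    have := (key ht 0).1
    refine this.congr (Eventually.of_forall fun v => ?_)
    simp
  have hgi : Integrable (fun ξ : ℝ => 2 * (t / ((2 * Real.pi * ξ) ^ 2 + t ^ 2))) :=
    ((integrable_poisson ht).comp_mul_left' (by positivity : (2 * Real.pi) ≠ 0)).const_mul 2
  have hFi : Integrable (FourierTransform.fourier (ef t)) := by
    refine (hgi.ofReal (𝕜 := ℂ)).congr (Eventually.of_forall fun ξ => ?_)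
    exact (hF ξ).symm
  have hinv := congrFun ((ef_cont t).fourierInv_fourier_eq hfi hFi) ω
  rw [Real.fourierInv_eq'] at hinv
  have h1 : ∀ v : ℝ, Complex.exp (((2 * Real.pi * inner ℝ v ω : ℝ) : ℂ) * I) •
      FourierTransform.fourier (ef t) v =
      Complex.exp (((ω * (2 * Real.pi * v) : ℝ) : ℂ) * I) *
        ((2 * (t / ((2 * Real.pi * v) ^ 2 + t ^ 2)) : ℝ) : ℂ) := by
    intro v
    rw [hF, smul_eq_mul]
    congr 3
    simp
    ring
  simp_rw [h1] at hinv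
  have hint2 : Integrable (fun v : ℝ => Complex.exp (((ω * (2 * Real.pi * v) : ℝ) : ℂ) * I) *
        ((2 * (t / ((2 * Real.pi * v) ^ 2 + t ^ 2)) : ℝ) : ℂ)) := by
    refine (hgi.ofReal (𝕜 := ℂ)).bdd_mul (c := 1) ?_ ?_
    · apply Continuous.aestronglyMeasurable
      fun_prop
    · refine Eventually.of_forall fun v => ?_
      rw [Complex.norm_exp_ofReal_mul_I]
  have h2 := congrArg Complex.re hinv
  have h3 : (∫ v : ℝ, Complex.exp (((ω * (2 * Real.pi * v) : ℝ) : ℂ) * I) *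
        ((2 * (t / ((2 * Real.pi * v) ^ 2 + t ^ 2)) : ℝ) : ℂ)).re =
      ∫ v : ℝ, (Complex.exp (((ω * (2 * Real.pi * v) : ℝ) : ℂ) * I) *
        ((2 * (t / ((2 * Real.pi * v) ^ 2 + t ^ 2)) : ℝ) : ℂ)).re := by
    have := integral_re (𝕜 := ℂ) hint2
    exact this.symm
  rw [h3] at h2
  have h4 : ∀ v : ℝ, (Complex.exp (((ω * (2 * Real.pi * v) : ℝ) : ℂ) * I) *
        ((2 * (t / ((2 * Real.pi * v) ^ 2 + t ^ 2)) : ℝ) : ℂ)).re =
      2 * (fun x : ℝ => t / (x ^ 2 + t ^ 2) * Real.cos (ω * x)) (2 * Real.pi * v) := by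
    intro v
    rw [Complex.re_mul_ofReal, Complex.exp_ofReal_mul_I_re]
    ring
  simp_rw [h4] at h2
  rw [integral_const_mul, Measure.integral_comp_mul_left
    (fun x : ℝ => t / (x ^ 2 + t ^ 2) * Real.cos (ω * x)) (2 * Real.pi)] at h2
  have h5 : (ef t ω).re = Real.exp (-(t * |ω|)) := by
    unfold ef
    rw [Complex.ofReal_re]
  rw [h5] at h2
  rw [← h2, abs_of_pos (by positivity), smul_eq_mul]
  generalize (∫ x : ℝ, t / (x ^ 2 + t ^ 2) * Real.cos (ω * x)) = J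
  field_simp

end Pool.Agent.Helper30.FG
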