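import Pool.Agent.Helper30.FG.A4a
import Pool.Agent.Helper30.FG.A4b

set_option autoImplicit false

namespace Pool.Agent.Helper30.FG

open Complex MeasureTheory Set Filter Topology
open Pool.Agent.Helper78.Bern Pool.Agent.Helper45.Bern

private theorem a4_cos_re (ω x : ℝ) : (Complex.cos ((ω : ℂ) * (x : ℂ))).re = Real.cos (ω * x) := by
  rw [← Complex.ofReal_mul, ← Complex.ofReal_cos, Complex.ofReal_re]

private theorem a4_term (ω w c : ℝ) :
    (Complex.exp (-(Complex.I * ((-w * ω : ℝ) : ℂ))) * (c : ℂ)).re = c * Real.cos (ω * w) := by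
  rw [Complex.re_mul_ofReal, Complex.exp_re]
  have h1 : (-(Complex.I * ((-w * ω : ℝ) : ℂ))).re = 0 := by
    rw [Complex.neg_re, Complex.re_mul_ofReal, Complex.I_re, zero_mul, neg_zero]
  have h2 : (-(Complex.I * ((-w * ω : ℝ) : ℂ))).im = ω * w := by
    rw [Complex.neg_im, Complex.im_mul_ofReal, Complex.I_im]
    ring
  rw [h1, h2, Real.exp_zero, one_mul, mul_comm]

/-- **A4** -/
theorem Lf_cos {α : ℝ} (h0 : 0 < α) (h1 : α < 1) {ω : ℝ} (hω : |ω| ≤ 1) :
    Lf α (fun z => Complex.cos (ω * z)) = (1 - |ω|) ^ α := by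
  have h := series_rep h0 h1 hω
  have h2 := Complex.reCLM.hasSum h
  have h3 : HasSum (fun k : ℤ => gcos α (wf k) * Real.cos (ω * wf k)) ((1 - |ω|) ^ α) := by
    have h4 : Complex.reCLM (((1 - |ω|) ^ α : ℝ) : ℂ) = (1 - |ω|) ^ α := by simp
    rw [← h4]
    refine h2.congr_fun ?_
    intro k
    simp only [Complex.reCLM_apply]
    rw [a4_term]
  unfold Lf
  have h5 : (fun k : ℤ => gcos α (wf k) * (Complex.cos ((ω : ℂ) * ((wf k : ℝ) : ℂ))).re) =
      fun k : ℤ => gcos α (wf k) * Real.cos (ω * wf k) := by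
    funext k
    rw [a4_cos_re]
  simp only []
  rw [h5]
  exact h3.tsum_eq

theorem brk_cos {ω t : ℝ} (ht : 0 < t) :
    brk (fun z => Complex.cos (ω * z)) t = 1 - Real.exp (-((1 - |ω|) * t)) := by
  unfold brk Pois
  have e1 : (Complex.cos ((ω : ℂ) * 0)).re = 1 := by simp
  have e2 : (Complex.cos ((ω : ℂ) * ((t : ℂ) * I))).re = Real.cosh (ω * t) := by
    rw [← mul_assoc, ← Complex.ofReal_mul, Complex.cos_mul_I, ← Complex.ofReal_cosh,
      Complex.ofReal_re]
  have e3 : (1 / Real.pi) * ∫ x : ℝ, t / (x ^ 2 + t ^ 2) * (Complex.cos ((ω : ℂ) * (x : ℂ))).re =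
      Real.exp (-(t * |ω|)) := by
    rw [← poisson_cos ht ω]
    congr 1
    apply integral_congr_ae
    filter_upwards with x
    rw [a4_cos_re]
  simp only []
  rw [e1, e2, e3]
  have e4 : Real.cosh (ω * t) = (Real.exp (|ω| * t) + Real.exp (-(|ω| * t))) / 2 := by
    rw [← Real.cosh_eq, ← Real.cosh_abs (ω * t), abs_mul, abs_of_pos ht]
  have e5 : Real.exp (-((1 - |ω|) * t)) = Real.exp (-t) * Real.exp (|ω| * t) := by
    rw [← Real.exp_add]
    congr 1
    ring
  have e6 : Real.exp (-(t * |ω|)) = Real.exp (-(|ω| * t)) := by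
    congr 1
    ring
  rw [e4, e5, e6]
  ring

theorem Lr_cos {α : ℝ} (h0 : 0 < α) (h1 : α < 1) {ω : ℝ} (hω : |ω| ≤ 1) :
    Lr α (fun z => Complex.cos (ω * z)) = (1 - |ω|) ^ α := by
  rw [← integral_exp_kernel h0 h1 (c := 1 - |ω|) (by linarith)]
  unfold Lr
  congr 1
  apply setIntegral_congr_fun measurableSet_Ioi
  intro t ht
  simp only []
  rw [brk_cos ht]

/-- summability in the definition of `Lf` -/
theorem summable_Lf {α : ℝ} (h0 : 0 < α) (h1 : α < 1) {M : ℝ} {g : ℂ → ℂ}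
    (hg : ∀ x : ℝ, ‖g (x : ℂ)‖ ≤ M) :
    Summable (fun k : ℤ => gcos α (wf k) * (g ((wf k : ℝ) : ℂ)).re) := by
  apply Summable.of_norm_bounded ((summable_gcos_int h0 h1).mul_right M)
  intro k
  rw [norm_mul, Real.norm_eq_abs, Real.norm_eq_abs]
  exact mul_le_mul_of_nonneg_left ((Complex.abs_re_le_norm _).trans (hg _)) (abs_nonneg _)

end Pool.Agent.Helper30.FG
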