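import Pool.Agent.Helper30.FG.A4b

set_option autoImplicit false

namespace Pool.Agent.Helper30.FG

open Complex MeasureTheory Set Filter Topology
open Pool.Agent.Helper78.Bern Pool.Agent.Helper45.Bern

namespace A5

/-- second order estimate at `0` for an even function -/
lemma near {M : ℝ} {g : ℂ → ℂ} (hg : IsE 1 M g) {z : ℂ} (hz : ‖z‖ ≤ 1) :
    ‖g z - g 0‖ ≤ 2 * Real.exp 1 * M * ‖z‖ ^ 2 := by
  have hM := hg.b.nonneg
  set g1 : ℂ → ℂ := dslope g 0 with hg1
  set g2 : ℂ → ℂ := dslope g1 0 with hg2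
  have d1 : Differentiable ℂ g1 := by
    rw [← differentiableOn_univ]
    exact (Complex.differentiableOn_dslope (by simp)).2 hg.b.diff.differentiableOn
  have d2 : Differentiable ℂ g2 := by
    rw [← differentiableOn_univ]
    exact (Complex.differentiableOn_dslope (by simp)).2 d1.differentiableOn
  have e1 : ∀ w : ℂ, w ≠ 0 → g1 w = (g w - g 0) / w := by
    intro w hw
    rw [hg1, dslope_of_ne _ hw, slope_def_field, sub_zero]
  have odd1 : ∀ w : ℂ, w ≠ 0 → g1 (-w) = - g1 w := by
    intro w hw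
    rw [e1 _ (neg_ne_zero.2 hw), e1 _ hw, hg.even, div_neg]
  have z1 : g1 0 = 0 := by
    have h1 : Tendsto g1 (𝓝[≠] 0) (𝓝 (g1 0)) := d1.continuous.continuousAt.tendsto.mono_left
      nhdsWithin_le_nhds
    have h2 : Tendsto (fun w : ℂ => g1 (-w)) (𝓝[≠] 0) (𝓝 (g1 0)) := by
      have : Tendsto (fun w : ℂ => g1 (-w)) (𝓝 0) (𝓝 (g1 (-0))) :=
        (d1.continuous.comp continuous_neg).continuousAt.tendsto
      rw [neg_zero] at this
      exact this.mono_left nhdsWithin_le_nhds
    have h3 : Tendsto (fun w : ℂ => g1 (-w)) (𝓝[≠] 0) (𝓝 (- g1 0)) := by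
      refine (h1.neg).congr' ?_
      filter_upwards [self_mem_nhdsWithin] with w hw
      exact (odd1 w hw).symm
    have h4 := tendsto_nhds_unique h2 h3
    have h5 : (2 : ℂ) * g1 0 = 0 := by linear_combination h4
    simpa using h5
  have e2 : ∀ w : ℂ, w ≠ 0 → g2 w = (g w - g 0) / w ^ 2 := by
    intro w hw
    rw [hg2, dslope_of_ne _ hw, slope_def_field, sub_zero, z1, sub_zero, e1 _ hw, div_div, sq]
  have h2 : ‖g2 z‖ ≤ 2 * Real.exp 1 * M := by
    refine Complex.norm_le_of_forall_mem_frontier_norm_le (U := Metric.ball (0 : ℂ) 1)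
      Metric.isBounded_ball d2.diffContOnCl ?_ ?_
    · intro w hw
      rw [frontier_ball _ one_ne_zero] at hw
      have hw1 : ‖w‖ = 1 := by simpa using hw
      have hw0 : w ≠ 0 := by
        intro h; rw [h, norm_zero] at hw1; exact zero_ne_one hw1
      rw [e2 w hw0, norm_div, norm_pow, hw1, one_pow, div_one]
      have h3 : ‖g w‖ ≤ M * Real.exp 1 := by
        refine (hg.b.bd w).trans (mul_le_mul_of_nonneg_left (Real.exp_le_exp.2 ?_) hM)
        rw [one_mul]
        exact (Complex.abs_im_le_norm w).trans hw1.le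
      have h4 : ‖g 0‖ ≤ M := by simpa using hg.b.real_le 0
      have h5 : (1 : ℝ) ≤ Real.exp 1 := Real.one_le_exp zero_le_one
      calc ‖g w - g 0‖ ≤ ‖g w‖ + ‖g 0‖ := norm_sub_le _ _
        _ ≤ M * Real.exp 1 + M * Real.exp 1 :=
          add_le_add h3 (h4.trans (le_mul_of_one_le_right hM h5))
        _ = 2 * Real.exp 1 * M := by ring
    · rw [closure_ball _ one_ne_zero]
      simpa using hz
  rcases eq_or_ne z 0 with h0 | h0
  · rw [h0]; simp
  · have h3 : g z - g 0 = g2 z * z ^ 2 := by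
      rw [e2 z h0]; field_simp
    rw [h3, norm_mul, norm_pow]
    exact mul_le_mul_of_nonneg_right h2 (by positivity)

lemma ratio_le {t : ℝ} (ht : 0 < t) (x : ℝ) {A : ℝ} (hA : 0 ≤ A) {u : ℝ}
    (hu : |u| ≤ A) (hu2 : |x| ≤ 1 → |u| ≤ A * x ^ 2) :
    |t / (x ^ 2 + t ^ 2) * u| ≤ 2 * A * t * (1 + x ^ 2)⁻¹ := by
  have hp : 0 < x ^ 2 + t ^ 2 := by positivity
  have hq : (0 : ℝ) < 1 + x ^ 2 := by positivity
  rw [abs_mul, abs_of_pos (div_pos ht hp), div_mul_eq_mul_div, div_le_iff₀ hp]
  have h1 : 2 * A * t * (1 + x ^ 2)⁻¹ * (x ^ 2 + t ^ 2) =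
      t * (2 * A * (x ^ 2 + t ^ 2) / (1 + x ^ 2)) := by
    field_simp
  rw [h1]
  refine mul_le_mul_of_nonneg_left ?_ ht.le
  rw [le_div_iff₀ hq]
  have h3 : A * x ^ 2 ≤ A * (x ^ 2 + t ^ 2) := mul_le_mul_of_nonneg_left (by nlinarith) hA
  rcases le_total |x| 1 with h | h
  · have h2 := hu2 h
    have hx : x ^ 2 ≤ 1 := by
      rw [← sq_abs]; exact pow_le_one₀ (abs_nonneg _) h
    calc |u| * (1 + x ^ 2) ≤ (A * x ^ 2) * 2 :=
          mul_le_mul h2 (by linarith) hq.le (by positivity)
      _ ≤ 2 * A * (x ^ 2 + t ^ 2) := by linarith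
  · have hx : 1 ≤ x ^ 2 := by
      rw [← sq_abs]; exact one_le_pow₀ h
    calc |u| * (1 + x ^ 2) ≤ A * (x ^ 2 + x ^ 2) :=
          mul_le_mul hu (by linarith) hq.le hA
      _ ≤ 2 * A * (x ^ 2 + t ^ 2) := by linarith

lemma poisson_integrable {M : ℝ} {g : ℂ → ℂ} (hg : IsB 1 M g) {t : ℝ} (ht : 0 < t) :
    Integrable (fun x : ℝ => t / (x ^ 2 + t ^ 2) * (g (x : ℂ)).re) := by
  refine ((integrable_poisson ht).mul_const M).mono' ?_ ?_
  · refine Continuous.aestronglyMeasurable ?_
    have h1 : Continuous fun x : ℝ => (g (x : ℂ)).re :=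
      Complex.continuous_re.comp (hg.diff.continuous.comp Complex.continuous_ofReal)
    refine Continuous.mul (Continuous.div continuous_const (by fun_prop) fun x => ?_) h1
    positivity
  · refine Eventually.of_forall fun x => ?_
    have hp : 0 < t / (x ^ 2 + t ^ 2) := by positivity
    rw [Real.norm_eq_abs, abs_mul, abs_of_pos hp]
    exact mul_le_mul_of_nonneg_left ((Complex.abs_re_le_norm _).trans (hg.real_le x)) hp.le

lemma abs_pois_le {M : ℝ} {g : ℂ → ℂ} (hg : IsB 1 M g) {t : ℝ} (ht : 0 < t) :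
    |Pois t g| ≤ M := by
  have h1 : |∫ x : ℝ, t / (x ^ 2 + t ^ 2) * (g (x : ℂ)).re| ≤ Real.pi * M := by
    rw [← integral_poisson ht, ← integral_mul_const, ← Real.norm_eq_abs]
    refine norm_integral_le_of_norm_le ((integrable_poisson ht).mul_const M) ?_
    refine Eventually.of_forall fun x => ?_
    have hp : 0 < t / (x ^ 2 + t ^ 2) := by positivity
    rw [Real.norm_eq_abs, abs_mul, abs_of_pos hp]
    exact mul_le_mul_of_nonneg_left ((Complex.abs_re_le_norm _).trans (hg.real_le x)) hp.le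
  unfold Pois
  rw [abs_mul, abs_of_pos (by positivity : (0 : ℝ) < 1 / Real.pi), div_mul_eq_mul_div, one_mul,
    div_le_iff₀ Real.pi_pos]
  linarith

lemma pois_sub_le {M : ℝ} {g : ℂ → ℂ} (hg : IsE 1 M g) {t : ℝ} (ht : 0 < t) :
    |Pois t g - (g 0).re| ≤ 4 * Real.exp 1 * M * t := by
  have hM := hg.b.nonneg
  set A : ℝ := 2 * Real.exp 1 * M with hA
  have hA0 : 0 ≤ A := by rw [hA]; positivity
  have h0 : Pois t g - (g 0).re =
      (1 / Real.pi) * ∫ x : ℝ, t / (x ^ 2 + t ^ 2) * ((g (x : ℂ)).re - (g 0).re) := by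
    have h1 : ∫ x : ℝ, t / (x ^ 2 + t ^ 2) * ((g (x : ℂ)).re - (g 0).re) =
        (∫ x : ℝ, t / (x ^ 2 + t ^ 2) * (g (x : ℂ)).re) - Real.pi * (g 0).re := by
      rw [← integral_poisson ht, ← integral_mul_const, ← integral_sub
        (poisson_integrable hg.b ht) ((integrable_poisson ht).mul_const _)]
      refine integral_congr_ae (Eventually.of_forall fun x => ?_)
      simp only; ring
    rw [h1]
    unfold Pois
    have := Real.pi_pos.ne'
    field_simp
  have h2 : |∫ x : ℝ, t / (x ^ 2 + t ^ 2) * ((g (x : ℂ)).re - (g 0).re)| ≤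
      2 * A * t * Real.pi := by
    rw [← integral_univ_inv_one_add_sq, ← integral_const_mul, ← Real.norm_eq_abs]
    refine norm_integral_le_of_norm_le (integrable_inv_one_add_sq.const_mul _) ?_
    refine Eventually.of_forall fun x => ?_
    rw [Real.norm_eq_abs]
    refine ratio_le ht x hA0 ?_ ?_
    · have h5 : (1 : ℝ) ≤ Real.exp 1 := Real.one_le_exp zero_le_one
      calc |(g (x : ℂ)).re - (g 0).re| ≤ |(g (x : ℂ)).re| + |(g 0).re| := abs_sub _ _
        _ ≤ M + M := add_le_add ((Complex.abs_re_le_norm _).trans (hg.b.real_le x))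
            ((Complex.abs_re_le_norm _).trans (by simpa using hg.b.real_le 0))
        _ ≤ A := by
            have : M * 1 ≤ M * Real.exp 1 := mul_le_mul_of_nonneg_left h5 hM
            rw [hA]; linarith
    · intro hx
      have h6 : ‖(x : ℂ)‖ ≤ 1 := by simpa using hx
      have h7 := near hg h6
      have h8 : |(g (x : ℂ)).re - (g 0).re| ≤ ‖g (x : ℂ) - g 0‖ := by
        rw [← Complex.sub_re]; exact Complex.abs_re_le_norm _
      refine h8.trans (h7.trans_eq ?_)
      rw [Complex.norm_real, Real.norm_eq_abs, sq_abs]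
  rw [h0, abs_mul, abs_of_pos (by positivity : (0 : ℝ) < 1 / Real.pi), div_mul_eq_mul_div, one_mul,
    div_le_iff₀ Real.pi_pos]
  calc _ ≤ 2 * A * t * Real.pi := h2
    _ = 4 * Real.exp 1 * M * t * Real.pi := by rw [hA]; ring

end A5

/-- **A5** -/
theorem brk_bound : ∃ C : ℝ, 0 < C ∧ ∀ (M : ℝ) (g : ℂ → ℂ), IsE 1 M g → ∀ t : ℝ, 0 < t →
    |brk g t| ≤ C * M * min t 1 := by
  refine ⟨9 * Real.exp 1, by positivity, fun M g hg t ht => ?_⟩
  have hM := hg.b.nonneg
  have h5 : (1 : ℝ) ≤ Real.exp 1 := Real.one_le_exp zero_le_one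
  have he1 : Real.exp (-t) ≤ 1 := Real.exp_le_one_iff.2 (by linarith)
  have he0 : 0 < Real.exp (-t) := Real.exp_pos _
  have hb : |(g ((t : ℂ) * I)).re| ≤ M * Real.exp t := by
    have h := hg.b.imag_le ht.le
    rw [one_mul] at h
    exact (Complex.abs_re_le_norm _).trans h
  have ha : |(g 0).re| ≤ M := (Complex.abs_re_le_norm _).trans (by simpa using hg.b.real_le 0)
  have hP := A5.abs_pois_le hg.b ht
  have hME : M ≤ M * Real.exp 1 := le_mul_of_one_le_right hM h5
  unfold brk
  set a := (g 0).re with hadef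
  set b := (g ((t : ℂ) * I)).re with hbdef
  set P := Pois t g with hPdef
  set e := Real.exp (-t) with hedef
  rcases le_total t 1 with h1 | h1
  · rw [min_eq_left h1]
    have hab : |a - b| ≤ 2 * Real.exp 1 * M * t := by
      have h6 : ‖(t : ℂ) * I‖ ≤ 1 := by simpa [abs_of_pos ht] using h1
      have h7 := A5.near hg h6
      have h8 : |a - b| ≤ ‖g ((t : ℂ) * I) - g 0‖ := by
        rw [abs_sub_comm, hadef, hbdef, ← Complex.sub_re]; exact Complex.abs_re_le_norm _
      refine h8.trans (h7.trans ?_)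
      have h9 : ‖(t : ℂ) * I‖ = t := by simp [abs_of_pos ht]
      rw [h9]
      refine mul_le_mul_of_nonneg_left ?_ (by positivity)
      nlinarith
    have hPa : |P - a| ≤ 4 * Real.exp 1 * M * t := A5.pois_sub_le hg ht
    have hb2 : |b| ≤ M * Real.exp 1 := hb.trans (mul_le_mul_of_nonneg_left
      (Real.exp_le_exp.2 h1) hM)
    have he2 : 1 - e ≤ t := by
      have := Real.add_one_le_exp (-t)
      rw [hedef]; linarith
    have hdec : a - 2 * e * b + e * P = (a - b) + e * ((P - a) + (a - b)) + b * (1 - e) := by ring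
    rw [hdec]
    have t1 : |e * ((P - a) + (a - b))| ≤ |P - a| + |a - b| := by
      rw [abs_mul, abs_of_pos he0]
      calc e * |(P - a) + (a - b)| ≤ 1 * |(P - a) + (a - b)| :=
            mul_le_mul_of_nonneg_right he1 (abs_nonneg _)
        _ ≤ |P - a| + |a - b| := by rw [one_mul]; exact abs_add_le _ _
    have t2 : |b * (1 - e)| ≤ M * Real.exp 1 * t := by
      rw [abs_mul, abs_of_nonneg (by linarith : (0 : ℝ) ≤ 1 - e)]
      exact mul_le_mul hb2 he2 (by linarith) (by positivity)
    have t3 := abs_add_le ((a - b) + e * ((P - a) + (a - b))) (b * (1 - e))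
    have t4 := abs_add_le (a - b) (e * ((P - a) + (a - b)))
    calc _ ≤ 2 * Real.exp 1 * M * t + (4 * Real.exp 1 * M * t + 2 * Real.exp 1 * M * t) +
          M * Real.exp 1 * t := by linarith
      _ = 9 * Real.exp 1 * M * t := by ring
  · rw [min_eq_right h1, mul_one]
    have hb3 : e * |b| ≤ M := by
      calc e * |b| ≤ e * (M * Real.exp t) := mul_le_mul_of_nonneg_left hb he0.le
        _ = M * (Real.exp (-t) * Real.exp t) := by rw [hedef]; ring
        _ = M := by rw [← Real.exp_add]; simp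
    have hP3 : e * |P| ≤ M := by
      calc e * |P| ≤ 1 * |P| := mul_le_mul_of_nonneg_right he1 (abs_nonneg _)
        _ ≤ M := by rw [one_mul]; exact hP
    have t1 : |2 * e * b| = 2 * (e * |b|) := by
      rw [abs_mul, abs_of_pos (by positivity : (0 : ℝ) < 2 * e)]; ring
    have t2 : |e * P| = e * |P| := by rw [abs_mul, abs_of_pos he0]
    have t3 := abs_add_le (a - 2 * e * b) (e * P)
    have t4 := abs_sub a (2 * e * b)
    have h4 : 4 * M ≤ 9 * Real.exp 1 * M := by nlinarith
    linarith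

theorem continuousOn_brk {M : ℝ} {g : ℂ → ℂ} (hg : IsE 1 M g) : ContinuousOn (brk g) (Ioi 0) := by
  have hM := hg.b.nonneg
  have hP : ContinuousOn (fun t : ℝ => Pois t g) (Ioi 0) := by
    intro t0 ht0
    have ht0' : (0 : ℝ) < t0 := ht0
    refine ContinuousAt.continuousWithinAt ?_
    unfold Pois
    refine ContinuousAt.mul continuousAt_const ?_
    have hh : (0 : ℝ) < t0 / 2 := by linarith
    refine continuousAt_of_dominated (bound := fun x : ℝ => 4 * M * (t0 / 2 / (x ^ 2 + (t0 / 2) ^ 2)))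
      ?_ ?_ ((integrable_poisson hh).const_mul _) ?_
    · filter_upwards [eventually_gt_nhds ht0'] with t ht
      exact (A5.poisson_integrable hg.b ht).aestronglyMeasurable
    · filter_upwards [Ioo_mem_nhds (by linarith : t0 / 2 < t0) (by linarith : t0 < 2 * t0)]
        with t ht
      refine Eventually.of_forall fun x => ?_
      have ht1 : 0 < t := hh.trans ht.1
      have hp : 0 < t / (x ^ 2 + t ^ 2) := by positivity
      rw [Real.norm_eq_abs, abs_mul, abs_of_pos hp]
      have h1 : |(g (x : ℂ)).re| ≤ M := (Complex.abs_re_le_norm _).trans (hg.b.real_le x)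
      have h2 : t / (x ^ 2 + t ^ 2) ≤ 4 * (t0 / 2 / (x ^ 2 + (t0 / 2) ^ 2)) := by
        rw [← mul_div_assoc]
        refine div_le_div₀ (by positivity) (by linarith [ht.2]) (by positivity) ?_
        have := pow_le_pow_left₀ hh.le ht.1.le 2
        linarith
      calc t / (x ^ 2 + t ^ 2) * |(g (x : ℂ)).re| ≤
            4 * (t0 / 2 / (x ^ 2 + (t0 / 2) ^ 2)) * M :=
            mul_le_mul h2 h1 (abs_nonneg _) (by positivity)
        _ = _ := by ring
    · refine Eventually.of_forall fun x => ?_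
      refine ContinuousAt.mul (ContinuousAt.div continuousAt_id (by fun_prop) ?_)
        continuousAt_const
      positivity
  have hI : Continuous fun t : ℝ => (g ((t : ℂ) * I)).re :=
    Complex.continuous_re.comp (hg.b.diff.continuous.comp
      (Complex.continuous_ofReal.mul continuous_const))
  have hE : Continuous fun t : ℝ => Real.exp (-t) := by fun_prop
  unfold brk
  exact ((continuous_const.sub ((continuous_const.mul hE).mul hI)).continuousOn).add
    (hE.continuousOn.mul hP)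

theorem integrableOn_brk {α : ℝ} (h0 : 0 < α) (h1 : α < 1) {M : ℝ} {g : ℂ → ℂ} (hg : IsE 1 M g) :
    IntegrableOn (fun t : ℝ => t ^ (-α - 1) * brk g t) (Ioi 0) := by
  obtain ⟨C, hC, hb⟩ := brk_bound
  have hM := hg.b.nonneg
  have hcont : ContinuousOn (fun t : ℝ => t ^ (-α - 1) * brk g t) (Ioi 0) := by
    refine ContinuousOn.mul ?_ (continuousOn_brk hg)
    intro t ht
    exact (Real.continuousAt_rpow_const _ _ (Or.inl (ne_of_gt ht))).continuousWithinAt
  rw [← Ioc_union_Ioi_eq_Ioi (zero_le_one : (0 : ℝ) ≤ 1)]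
  refine IntegrableOn.union ?_ ?_
  · have hi : IntegrableOn (fun t : ℝ => C * M * t ^ (-α)) (Ioc 0 1) := by
      have := (intervalIntegral.intervalIntegrable_rpow' (a := 0) (b := 1)
        (by linarith : -1 < -α)).const_mul (C * M)
      rwa [intervalIntegrable_iff_integrableOn_Ioc_of_le zero_le_one] at this
    refine hi.mono' ((hcont.mono Ioc_subset_Ioi_self).aestronglyMeasurable measurableSet_Ioc) ?_
    refine (ae_restrict_iff' measurableSet_Ioc).2 (Eventually.of_forall fun t ht => ?_)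
    have ht0 : 0 < t := ht.1
    have hp : 0 < t ^ (-α - 1) := Real.rpow_pos_of_pos ht0 _
    rw [Real.norm_eq_abs, abs_mul, abs_of_pos hp]
    have h2 := hb M g hg t ht0
    rw [min_eq_left ht.2] at h2
    calc t ^ (-α - 1) * |brk g t| ≤ t ^ (-α - 1) * (C * M * t) :=
          mul_le_mul_of_nonneg_left h2 hp.le
      _ = C * M * (t ^ (-α - 1) * t) := by ring
      _ = C * M * t ^ (-α) := by
          rw [← Real.rpow_add_one ht0.ne']; ring_nf
  · have hi : IntegrableOn (fun t : ℝ => C * M * t ^ (-α - 1)) (Ioi 1) :=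
      (integrableOn_Ioi_rpow_of_lt (by linarith : -α - 1 < -1) one_pos).const_mul _
    refine hi.mono' ((hcont.mono (Ioi_subset_Ioi zero_le_one)).aestronglyMeasurable
      measurableSet_Ioi) ?_
    refine (ae_restrict_iff' measurableSet_Ioi).2 (Eventually.of_forall fun t ht => ?_)
    have ht1 : 1 < t := ht
    have ht0 : 0 < t := one_pos.trans ht1
    have hp : 0 < t ^ (-α - 1) := Real.rpow_pos_of_pos ht0 _
    rw [Real.norm_eq_abs, abs_mul, abs_of_pos hp]
    have h2 := hb M g hg t ht0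
    rw [min_eq_right ht1.le, mul_one] at h2
    calc t ^ (-α - 1) * |brk g t| ≤ t ^ (-α - 1) * (C * M) :=
          mul_le_mul_of_nonneg_left h2 hp.le
      _ = C * M * t ^ (-α - 1) := by ring

end Pool.Agent.Helper30.FG
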