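import Pool.Agent.Helper30.FG.A3
import Pool.Agent.Helper30.FG.A4
import Pool.Agent.Helper30.FG.A5

set_option autoImplicit false

namespace Pool.Agent.Helper30.FG

open Complex MeasureTheory Set Filter Topology
open Pool.Agent.Helper78.Bern Pool.Agent.Helper45.Bern

namespace A6

/-- real cosine sums -/
noncomputable def CS (F : Finset ℝ) (r : ℝ → ℝ) (z : ℂ) : ℂ :=
  ∑ ω ∈ F, (r ω : ℂ) * Complex.cos ((ω : ℂ) * z)

/-- the value of both functionals -/
noncomputable def V (α : ℝ) (F : Finset ℝ) (r : ℝ → ℝ) : ℝ := ∑ ω ∈ F, r ω * (1 - |ω|) ^ α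

theorem trig_even_real {T : ℂ → ℂ} {a : ℝ} (hT : IsTrig a T) (hev : ∀ z : ℂ, T (-z) = T z)
    (hre : ∀ x : ℝ, (T (x : ℂ)).im = 0) :
    ∃ (F : Finset ℝ) (r : ℝ → ℝ), (∀ ω ∈ F, |ω| ≤ a) ∧ T = CS F r := by
  obtain ⟨F, c, hF, hc⟩ := hT
  refine ⟨F, fun ω => (c ω).re, hF, ?_⟩
  have h1 : ∀ z, T z = ∑ ω ∈ F, c ω * Complex.cos ((ω : ℂ) * z) := by
    intro z
    have h2 : T z = (T z + T (-z)) / 2 := by rw [hev]; ring
    rw [h2, hc z, hc (-z), ← Finset.sum_add_distrib, Finset.sum_div]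
    refine Finset.sum_congr rfl fun ω _ => ?_
    rw [Complex.cos]
    have e1 : I * (ω : ℂ) * z = (ω : ℂ) * z * I := by ring
    have e2 : I * (ω : ℂ) * (-z) = -((ω : ℂ) * z) * I := by ring
    rw [e1, e2]; ring
  have h3 : ∀ x : ℝ, T (x : ℂ) = CS F (fun ω => (c ω).re) (x : ℂ) := by
    intro x
    apply Complex.ext
    · rw [h1, CS, Complex.re_sum, Complex.re_sum]
      refine Finset.sum_congr rfl fun ω _ => ?_
      rw [← Complex.ofReal_mul, ← Complex.ofReal_cos, Complex.re_mul_ofReal,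
        Complex.re_mul_ofReal, Complex.ofReal_re]
    · rw [hre, CS, Complex.im_sum]
      symm
      apply Finset.sum_eq_zero
      intro ω _
      rw [← Complex.ofReal_mul, ← Complex.ofReal_cos, ← Complex.ofReal_mul, ofReal_im]
  have hd1 : Differentiable ℂ T := by
    have : T = fun z => ∑ ω ∈ F, c ω * Complex.cos ((ω : ℂ) * z) := funext h1
    rw [this]
    refine Differentiable.fun_sum fun ω _ => ?_
    exact (Complex.differentiable_cos.comp (differentiable_id.const_mul (ω : ℂ))).const_mul _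
  have hd2 : Differentiable ℂ (CS F (fun ω => (c ω).re)) := by
    unfold CS
    refine Differentiable.fun_sum fun ω _ => ?_
    exact (Complex.differentiable_cos.comp (differentiable_id.const_mul (ω : ℂ))).const_mul _
  have ht : Tendsto (fun x : ℝ => (x : ℂ)) (𝓝[≠] (0 : ℝ)) (𝓝[≠] (0 : ℂ)) := by
    apply tendsto_nhdsWithin_of_tendsto_nhds_of_eventually_within
    · exact (Complex.continuous_ofReal.tendsto' 0 0 rfl).mono_left nhdsWithin_le_nhds
    · filter_upwards [self_mem_nhdsWithin] with x hx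
      simpa using hx
  have hfr : ∃ᶠ z in 𝓝[≠] (0 : ℂ), T z = CS F (fun ω => (c ω).re) z :=
    ht.frequently (Frequently.of_forall h3)
  exact AnalyticOnNhd.eq_of_frequently_eq (fun z _ => hd1.analyticAt z)
    (fun z _ => hd2.analyticAt z) hfr

theorem norm_cos_real (ω x : ℝ) : ‖Complex.cos ((ω : ℂ) * (x : ℂ))‖ ≤ 1 := by
  rw [← Complex.ofReal_mul, ← Complex.ofReal_cos, Complex.norm_real]
  exact Real.abs_cos_le_one _

theorem hasSum_cos {α : ℝ} (h0 : 0 < α) (h1 : α < 1) {ω : ℝ} (hω : |ω| ≤ 1) :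
    HasSum (fun k : ℤ => gcos α (wf k) * (Complex.cos ((ω : ℂ) * ((wf k : ℝ) : ℂ))).re)
      ((1 - |ω|) ^ α) := by
  have hs := summable_Lf (α := α) h0 h1 (M := 1) (g := fun z => Complex.cos ((ω : ℂ) * z))
    (fun x => norm_cos_real ω x)
  have := hs.hasSum
  have h2 := Lf_cos h0 h1 hω
  rw [Lf] at h2
  rw [h2] at this
  exact this

theorem Lf_CS {α : ℝ} (h0 : 0 < α) (h1 : α < 1) {F : Finset ℝ} {r : ℝ → ℝ}
    (hF : ∀ ω ∈ F, |ω| ≤ 1) : Lf α (CS F r) = V α F r := by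
  have h := hasSum_sum (f := fun (ω : ℝ) (k : ℤ) =>
      r ω * (gcos α (wf k) * (Complex.cos ((ω : ℂ) * ((wf k : ℝ) : ℂ))).re))
      (a := fun ω => r ω * (1 - |ω|) ^ α) (s := F)
      (fun ω hω => (hasSum_cos h0 h1 (hF ω hω)).mul_left (r ω))
  rw [Lf, V, ← h.tsum_eq]
  congr 1
  funext k
  rw [CS, Complex.re_sum, Finset.mul_sum]
  refine Finset.sum_congr rfl fun ω _ => ?_
  rw [Complex.re_ofReal_mul]
  ring

theorem integrable_pois_cos {t : ℝ} (ht : 0 < t) (ω : ℝ) :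
    Integrable (fun x : ℝ => t / (x ^ 2 + t ^ 2) * (Complex.cos ((ω : ℂ) * (x : ℂ))).re) := by
  refine (integrable_poisson ht).mul_bdd (c := 1) ?_ ?_
  · apply Continuous.aestronglyMeasurable
    fun_prop
  · refine Eventually.of_forall fun x => ?_
    rw [Real.norm_eq_abs]
    exact (Complex.abs_re_le_norm _).trans (norm_cos_real ω x)

theorem Pois_CS {F : Finset ℝ} {r : ℝ → ℝ} {t : ℝ} (ht : 0 < t) :
    Pois t (CS F r) = ∑ ω ∈ F, r ω * Pois t (fun z => Complex.cos ((ω : ℂ) * z)) := by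
  unfold Pois
  have e : (fun x : ℝ => t / (x ^ 2 + t ^ 2) * (CS F r (x : ℂ)).re) =
      fun x : ℝ => ∑ ω ∈ F, r ω * (t / (x ^ 2 + t ^ 2) * (Complex.cos ((ω : ℂ) * (x : ℂ))).re) := by
    funext x
    rw [CS, Complex.re_sum, Finset.mul_sum]
    refine Finset.sum_congr rfl fun ω _ => ?_
    rw [Complex.re_ofReal_mul]
    ring
  rw [e, integral_finsetSum _ (fun ω _ => (integrable_pois_cos ht ω).const_mul (r ω)),
    Finset.mul_sum]
  refine Finset.sum_congr rfl fun ω _ => ?_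
  rw [integral_const_mul]
  ring

theorem brk_CS {F : Finset ℝ} {r : ℝ → ℝ} {t : ℝ} (ht : 0 < t) :
    brk (CS F r) t = ∑ ω ∈ F, r ω * (1 - Real.exp (-((1 - |ω|) * t))) := by
  have h : ∀ ω : ℝ, brk (fun z => Complex.cos ((ω : ℂ) * z)) t =
      1 - Real.exp (-((1 - |ω|) * t)) := fun ω => brk_cos ht
  have e : brk (CS F r) t = ∑ ω ∈ F, r ω * brk (fun z => Complex.cos ((ω : ℂ) * z)) t := by
    unfold brk
    rw [Pois_CS ht]
    simp only [CS, Complex.re_sum, Complex.re_ofReal_mul, Finset.mul_sum]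
    rw [← Finset.sum_sub_distrib, ← Finset.sum_add_distrib]
    refine Finset.sum_congr rfl fun ω _ => ?_
    ring
  rw [e]
  exact Finset.sum_congr rfl fun ω _ => by rw [h ω]

theorem Lr_CS {α : ℝ} (h0 : 0 < α) (h1 : α < 1) {F : Finset ℝ} {r : ℝ → ℝ}
    (hF : ∀ ω ∈ F, |ω| ≤ 1) : Lr α (CS F r) = V α F r := by
  unfold Lr
  have e : ∫ t in Ioi (0 : ℝ), t ^ (-α - 1) * brk (CS F r) t =
      ∫ t in Ioi (0 : ℝ), ∑ ω ∈ F, r ω * (t ^ (-α - 1) * (1 - Real.exp (-((1 - |ω|) * t)))) := by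
    refine setIntegral_congr_fun measurableSet_Ioi fun t ht => ?_
    rw [brk_CS ht, Finset.mul_sum]
    refine Finset.sum_congr rfl fun ω _ => ?_
    ring
  rw [e, integral_finsetSum _ (fun ω hω => (integrable_exp_kernel h0 h1
    (sub_nonneg.2 (hF ω hω))).const_mul (r ω)), Finset.mul_sum, V]
  refine Finset.sum_congr rfl fun ω hω => ?_
  rw [integral_const_mul, ← integral_exp_kernel h0 h1 (sub_nonneg.2 (hF ω hω))]
  ring

theorem exp_integrable {m : Measure ℝ} {h : ℝ → ℂ} (hh : Integrable h m) (ω : ℝ) :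
    Integrable (fun x : ℝ => Complex.exp (-(Complex.I * ((x * ω : ℝ) : ℂ))) * h x) m := by
  refine hh.bdd_mul (c := 1) ?_ ?_
  · apply Continuous.aestronglyMeasurable
    fun_prop
  · refine Eventually.of_forall fun x => ?_
    rw [Complex.norm_exp]
    simp

theorem transfer_CS {α : ℝ} {m : Measure ℝ} {h : ℝ → ℂ} [IsFiniteMeasure m] (hh : Integrable h m)
    (hrep : ∀ ξ : ℝ, |ξ| ≤ 1 →
      ∫ x, Complex.exp (-(Complex.I * ((x * ξ : ℝ) : ℂ))) * h x ∂m = (((1 - |ξ|) ^ α : ℝ) : ℂ))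
    {F : Finset ℝ} {r : ℝ → ℝ} (hF : ∀ ω ∈ F, |ω| ≤ 1) :
    ∫ x, CS F r (x : ℂ) * h x ∂m = ((V α F r : ℝ) : ℂ) := by
  have e : (fun x : ℝ => CS F r (x : ℂ) * h x) = fun x : ℝ => ∑ ω ∈ F, ((r ω : ℂ) / 2 *
      (Complex.exp (-(Complex.I * ((x * ω : ℝ) : ℂ))) * h x +
        Complex.exp (-(Complex.I * ((x * (-ω) : ℝ) : ℂ))) * h x)) := by
    funext x
    rw [CS, Finset.sum_mul]
    refine Finset.sum_congr rfl fun ω _ => ?_
    rw [Complex.cos]
    have e1 : -(Complex.I * ((x * ω : ℝ) : ℂ)) = -((ω : ℂ) * x) * I := by push_cast; ring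
    have e2 : -(Complex.I * ((x * (-ω) : ℝ) : ℂ)) = ((ω : ℂ) * x) * I := by push_cast; ring
    rw [e1, e2]
    ring
  have hI : ∀ ω ∈ F, Integrable (fun x : ℝ => (r ω : ℂ) / 2 *
      (Complex.exp (-(Complex.I * ((x * ω : ℝ) : ℂ))) * h x +
        Complex.exp (-(Complex.I * ((x * (-ω) : ℝ) : ℂ))) * h x)) m :=
    fun ω _ => ((exp_integrable hh ω).add (exp_integrable hh (-ω))).const_mul _
  rw [e, integral_finsetSum _ hI]
  rw [V, Complex.ofReal_sum]
  refine Finset.sum_congr rfl fun ω hω => ?_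
  rw [integral_const_mul, integral_add (exp_integrable hh ω) (exp_integrable hh (-ω)),
    hrep ω (hF ω hω), hrep (-ω) (by rw [abs_neg]; exact hF ω hω), abs_neg]
  push_cast
  ring

/-! ### the limits -/

theorem tendsto_Lf {α : ℝ} (h0 : 0 < α) (h1 : α < 1) {M : ℝ} {T : ℕ → ℂ → ℂ} {g : ℂ → ℂ}
    (hT : ∀ n, IsB 1 M (T n)) (hl : ∀ z, Tendsto (fun n => T n z) atTop (𝓝 (g z))) :
    Tendsto (fun n => Lf α (T n)) atTop (𝓝 (Lf α g)) := by
  unfold Lf
  refine tendsto_tsum_of_dominated_convergence (bound := fun k : ℤ => |gcos α (wf k)| * M)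
    ((summable_gcos_int h0 h1).mul_right M) (fun k => ?_) (Eventually.of_forall fun n k => ?_)
  · exact ((Complex.continuous_re.tendsto _).comp (hl _)).const_mul _
  · rw [norm_mul, Real.norm_eq_abs, Real.norm_eq_abs]
    exact mul_le_mul_of_nonneg_left ((Complex.abs_re_le_norm _).trans ((hT n).real_le _))
      (abs_nonneg _)

theorem tendsto_Pois {M : ℝ} {T : ℕ → ℂ → ℂ} {g : ℂ → ℂ}
    (hT : ∀ n, IsB 1 M (T n)) (hl : ∀ z, Tendsto (fun n => T n z) atTop (𝓝 (g z)))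
    {t : ℝ} (ht : 0 < t) : Tendsto (fun n => Pois t (T n)) atTop (𝓝 (Pois t g)) := by
  unfold Pois
  refine Tendsto.const_mul _ ?_
  refine tendsto_integral_of_dominated_convergence (fun x : ℝ => t / (x ^ 2 + t ^ 2) * M)
    (fun n => ?_) ((integrable_poisson ht).mul_const M) (fun n => Eventually.of_forall fun x => ?_)
    (Eventually.of_forall fun x => ?_)
  · apply AEStronglyMeasurable.mul (integrable_poisson ht).aestronglyMeasurable
    exact (Complex.continuous_re.comp ((hT n).diff.continuous.comp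
      Complex.continuous_ofReal)).aestronglyMeasurable
  · rw [norm_mul, Real.norm_eq_abs, Real.norm_eq_abs, abs_of_pos (by positivity)]
    exact mul_le_mul_of_nonneg_left ((Complex.abs_re_le_norm _).trans ((hT n).real_le _))
      (by positivity)
  · exact ((Complex.continuous_re.tendsto _).comp (hl _)).const_mul _

theorem tendsto_brk {M : ℝ} {T : ℕ → ℂ → ℂ} {g : ℂ → ℂ}
    (hT : ∀ n, IsB 1 M (T n)) (hl : ∀ z, Tendsto (fun n => T n z) atTop (𝓝 (g z)))
    {t : ℝ} (ht : 0 < t) : Tendsto (fun n => brk (T n) t) atTop (𝓝 (brk g t)) := by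
  unfold brk
  refine Tendsto.add (Tendsto.sub ?_ (Tendsto.const_mul _ ?_))
    (Tendsto.const_mul _ (tendsto_Pois hT hl ht))
  · exact (Complex.continuous_re.tendsto _).comp (hl _)
  · exact (Complex.continuous_re.tendsto _).comp (hl _)

theorem min_le {t : ℝ} (ht : 0 < t) : min t 1 ≤ 2 * (1 - Real.exp (-(1 * t))) := by
  have h1 : 1 + t ≤ Real.exp t := by linarith [Real.add_one_le_exp t]
  have h2 : Real.exp (-(1 * t)) ≤ 1 / (1 + t) := by
    rw [one_mul, Real.exp_neg, ← one_div]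
    exact one_div_le_one_div_of_le (by linarith) h1
  have h3 : min t 1 ≤ 2 * (1 - 1 / (1 + t)) := by
    have e : 2 * (1 - 1 / (1 + t)) = 2 * t / (1 + t) := by field_simp; ring
    rw [e, le_div_iff₀ (by linarith)]
    rcases le_total t 1 with h | h
    · rw [min_eq_left h]; nlinarith
    · rw [min_eq_right h]; linarith
  linarith

theorem tendsto_Lr {α : ℝ} (h0 : 0 < α) (h1 : α < 1) {M : ℝ} {T : ℕ → ℂ → ℂ} {g : ℂ → ℂ}
    (hT : ∀ n, IsE 1 M (T n)) (hl : ∀ z, Tendsto (fun n => T n z) atTop (𝓝 (g z))) :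
    Tendsto (fun n => Lr α (T n)) atTop (𝓝 (Lr α g)) := by
  obtain ⟨C, hC, hb⟩ := brk_bound
  have hM : 0 ≤ M := (hT 0).b.nonneg
  unfold Lr
  refine Tendsto.const_mul _ ?_
  refine tendsto_integral_of_dominated_convergence
    (fun t : ℝ => (C * M * 2) * (t ^ (-α - 1) * (1 - Real.exp (-(1 * t)))))
    (fun n => (integrableOn_brk h0 h1 (hT n)).aestronglyMeasurable)
    ((integrable_exp_kernel h0 h1 zero_le_one).const_mul _) (fun n => ?_) ?_
  · refine (ae_restrict_iff' measurableSet_Ioi).2 (Eventually.of_forall fun t ht => ?_)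
    have ht' : 0 < t := ht
    have hp : 0 < t ^ (-α - 1) := Real.rpow_pos_of_pos ht' _
    rw [norm_mul, Real.norm_eq_abs, Real.norm_eq_abs, abs_of_pos hp]
    have h2 : |brk (T n) t| ≤ C * M * (2 * (1 - Real.exp (-(1 * t)))) :=
      (hb M (T n) (hT n) t ht').trans (mul_le_mul_of_nonneg_left (min_le ht') (by positivity))
    calc t ^ (-α - 1) * |brk (T n) t| ≤ t ^ (-α - 1) * (C * M * (2 * (1 - Real.exp (-(1 * t))))) :=
          mul_le_mul_of_nonneg_left h2 hp.le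
      _ = _ := by ring
  · refine (ae_restrict_iff' measurableSet_Ioi).2 (Eventually.of_forall fun t ht => ?_)
    exact (tendsto_brk (fun n => (hT n).b) hl ht).const_mul _

theorem tendsto_rep {M : ℝ} {T : ℕ → ℂ → ℂ} {g : ℂ → ℂ}
    (hT : ∀ n, IsB 1 M (T n)) (hl : ∀ z, Tendsto (fun n => T n z) atTop (𝓝 (g z)))
    {m : Measure ℝ} {h : ℝ → ℂ} (hh : Integrable h m) :
    Tendsto (fun n => ∫ x, T n (x : ℂ) * h x ∂m) atTop (𝓝 (∫ x, g (x : ℂ) * h x ∂m)) := by
  refine tendsto_integral_of_dominated_convergence (fun x : ℝ => M * ‖h x‖)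
    (fun n => ?_) (hh.norm.const_mul M) (fun n => Eventually.of_forall fun x => ?_)
    (Eventually.of_forall fun x => ?_)
  · exact (((hT n).diff.continuous.comp Complex.continuous_ofReal).aestronglyMeasurable).mul
      hh.aestronglyMeasurable
  · rw [norm_mul]
    exact mul_le_mul_of_nonneg_right ((hT n).real_le _) (norm_nonneg _)
  · exact (hl _).mul_const _

/-- approximation by real cosine sums -/
theorem approx {M : ℝ} {g : ℂ → ℂ} (hg : IsE 1 M g) :
    ∃ (F : ℕ → Finset ℝ) (r : ℕ → ℝ → ℝ), (∀ n, ∀ ω ∈ F n, |ω| ≤ 1) ∧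
      (∀ n, IsE 1 M (CS (F n) (r n))) ∧
      ∀ z, Tendsto (fun n => CS (F n) (r n) z) atTop (𝓝 (g z)) := by
  obtain ⟨T, h1, h2, h3, h4, h5⟩ := levitan one_pos hg.b
  have h6 := h4 hg.even
  have h7 := h5 hg.real
  choose F r hF hFr using fun n => trig_even_real (h1 n) (h6 n) (h7 n)
  refine ⟨F, r, hF, fun n => ?_, fun z => ?_⟩
  · rw [← hFr n]
    exact ⟨h2 n, h6 n, h7 n⟩
  · have : (fun n => CS (F n) (r n) z) = fun n => T n z := by
      funext n; rw [← hFr n]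
    rw [this]
    exact h3.tendstoLocallyUniformlyOn.tendsto_at (mem_univ z)

end A6

open A6

/-- **A6** -/
theorem Lf_eq_Lr {α : ℝ} (h0 : 0 < α) (h1 : α < 1) {M : ℝ} {g : ℂ → ℂ} (hg : IsE 1 M g) :
    Lf α g = Lr α g := by
  obtain ⟨F, r, hF, hE, hl⟩ := approx hg
  have ha := tendsto_Lf h0 h1 (fun n => (hE n).b) hl
  have hb := tendsto_Lr h0 h1 hE hl
  have e : (fun n => Lf α (CS (F n) (r n))) = fun n => Lr α (CS (F n) (r n)) := by
    funext n
    rw [Lf_CS h0 h1 (hF n), Lr_CS h0 h1 (hF n)]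
  rw [e] at ha
  exact tendsto_nhds_unique ha hb

theorem transfer {α : ℝ} (h0 : 0 < α) (h1 : α < 1) {M : ℝ} {g : ℂ → ℂ} (hg : IsE 1 M g)
    {m : Measure ℝ} {h : ℝ → ℂ} [IsFiniteMeasure m] (hh : Integrable h m)
    (hrep : ∀ ξ : ℝ, |ξ| ≤ 1 →
      ∫ x, Complex.exp (-(Complex.I * ((x * ξ : ℝ) : ℂ))) * h x ∂m = (((1 - |ξ|) ^ α : ℝ) : ℂ)) :
    ∫ x, g (x : ℂ) * h x ∂m = ((Lf α g : ℝ) : ℂ) := by
  obtain ⟨F, r, hF, hE, hl⟩ := approx hg
  have ha := tendsto_Lf h0 h1 (fun n => (hE n).b) hl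
  have hb := tendsto_rep (fun n => (hE n).b) hl hh
  have e : (fun n => ∫ x, CS (F n) (r n) (x : ℂ) * h x ∂m) =
      fun n => ((Lf α (CS (F n) (r n)) : ℝ) : ℂ) := by
    funext n
    rw [Lf_CS h0 h1 (hF n), transfer_CS hh hrep (hF n)]
  rw [e] at hb
  exact tendsto_nhds_unique hb ((Complex.continuous_ofReal.tendsto _).comp ha)

theorem Lf_add {α : ℝ} (h0 : 0 < α) (h1 : α < 1) {M N : ℝ} {f g : ℂ → ℂ}
    (hf : ∀ x : ℝ, ‖f (x : ℂ)‖ ≤ M) (hg : ∀ x : ℝ, ‖g (x : ℂ)‖ ≤ N) :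
    Lf α (fun z => f z + g z) = Lf α f + Lf α g := by
  unfold Lf
  rw [← (summable_Lf h0 h1 hf).tsum_add (summable_Lf h0 h1 hg)]
  congr 1
  funext k
  rw [Complex.add_re]
  ring

theorem Lf_const_mul {α : ℝ} (c : ℝ) (g : ℂ → ℂ) :
    Lf α (fun z => (c : ℂ) * g z) = c * Lf α g := by
  unfold Lf
  rw [← tsum_mul_left]
  congr 1
  funext k
  rw [Complex.re_ofReal_mul]
  ring

theorem Lf_one {α : ℝ} (h0 : 0 < α) (h1 : α < 1) : Lf α (fun _ => 1) = 1 := by
  have h := Lf_cos h0 h1 (ω := 0) (by simp)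
  simp only [Complex.ofReal_zero, zero_mul, Complex.cos_zero, abs_zero, sub_zero,
    Real.one_rpow] at h
  exact h

end Pool.Agent.Helper30.FG
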