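import Pool.Agent.Helper30.FG.A5
import Pool.Agent.Helper30.FG.B1

set_option autoImplicit false

namespace Pool.Agent.Helper30.FG

open Complex MeasureTheory Set Filter Topology
open Pool.Agent.Helper78.Bern Pool.Agent.Helper45.Bern

namespace D3a

theorem deriv_le {s : ℂ → ℂ} (hs : IsE (1 / 2) 1 s) {k : ℝ} (h0 : deriv s (k : ℂ) = 0) (y : ℝ) :
    ‖deriv s (y : ℂ)‖ ≤ 1 / 2 ∧ ‖deriv s (y : ℂ)‖ ≤ |y - k| / 4 := by
  have h1 := bernstein (by norm_num : (0 : ℝ) < 1 / 2) hs.b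
  have h2 := bernstein (by norm_num : (0 : ℝ) < 1 / 2) h1
  refine ⟨by simpa using h1.real_le y, ?_⟩
  have h3 : ∀ x ∈ (Set.univ : Set ℝ), HasDerivWithinAt (fun x : ℝ => deriv s (x : ℂ))
      (deriv (deriv s) (x : ℂ)) Set.univ x := fun x _ =>
    ((h1.diff (x : ℂ)).hasDerivAt.comp_ofReal).hasDerivWithinAt
  have h4 := Convex.norm_image_sub_le_of_norm_hasDerivWithin_le h3 (C := 1 / 4)
    (fun x _ => (h2.real_le x).trans (by norm_num)) convex_univ (mem_univ k) (mem_univ y)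
  rw [h0, sub_zero, Real.norm_eq_abs] at h4
  linarith

theorem v_le {s v : ℂ → ℂ} {k : ℝ} (hs : IsE (1 / 2) 1 s) (hk : 2 ≤ k)
    (h : ∀ z : ℂ, v z * (z ^ 2 - (k : ℂ) ^ 2) = z * deriv s z) {y : ℝ} (hy : 0 ≤ y)
    (hne : y ≠ k) : ‖v (y : ℂ)‖ ≤ y / ((y + k) * (1 + |y - k|)) := by
  have h0 : deriv s (k : ℂ) = 0 := by
    have h1 := h k
    rw [sub_self, mul_zero] at h1
    rcases mul_eq_zero.1 h1.symm with h2 | h2
    · have h3 : k = 0 := by exact_mod_cast h2
      linarith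
    · exact h2
  obtain ⟨h1, h2⟩ := deriv_le hs h0 y
  have h3 := congrArg norm (h y)
  have h4 : ‖((y : ℂ) ^ 2 - (k : ℂ) ^ 2)‖ = |y - k| * (y + k) := by
    rw [← Complex.ofReal_pow, ← Complex.ofReal_pow, ← Complex.ofReal_sub, Complex.norm_real,
      Real.norm_eq_abs, show y ^ 2 - k ^ 2 = (y - k) * (y + k) by ring, abs_mul,
      abs_of_nonneg (by linarith : 0 ≤ y + k)]
  rw [norm_mul, norm_mul, h4, Complex.norm_real, Real.norm_eq_abs, abs_of_nonneg hy] at h3
  have hu : 0 < |y - k| := abs_pos.2 (sub_ne_zero.2 hne)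
  generalize |y - k| = u at *
  generalize ‖v (y : ℂ)‖ = N at *
  generalize ‖deriv s (y : ℂ)‖ = d at *
  have h5 : d * (1 + u) ≤ u := by
    by_cases hu1 : u ≤ 1
    · nlinarith
    · push Not at hu1
      nlinarith
  have hyk : 0 < y + k := by linarith
  rw [le_div_iff₀ (by positivity)]
  have h6 : N * ((y + k) * (1 + u)) * u = y * (d * (1 + u)) := by
    have h7 : N * ((y + k) * (1 + u)) * u = (N * (u * (y + k))) * (1 + u) := by ring
    rw [h7, h3]
    ring
  have h7 : y * (d * (1 + u)) ≤ y * u := mul_le_mul_of_nonneg_left h5 hy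
  exact le_of_mul_le_mul_right (by rw [h6]; exact h7) hu

theorem maj_near {t k y u : ℝ} (ht : 0 < t) (hk : 2 ≤ k) (hy : 0 < y) (hu : u = |y - k|) :
    t / (y ^ 2 + t ^ 2) * (y / ((y + k) * (1 + u))) ≤
      2 * t / k ^ 2 * (y / (y ^ 2 + t ^ 2)) + 4 * t / k ^ 2 * (1 / (1 + u)) := by
  have hu0 : 0 ≤ u := hu ▸ abs_nonneg _
  have hk0 : 0 < k := by linarith
  have hq : 0 < y ^ 2 + t ^ 2 := by positivity
  by_cases hc : y ≤ k / 2
  · have h1 : k / 2 ≤ u := by
      rw [hu, abs_of_nonpos (by linarith)]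
      linarith
    have h2 : y / ((y + k) * (1 + u)) ≤ 2 * y / k ^ 2 := by
      rw [div_le_div_iff₀ (by positivity) (by positivity)]
      have h3 : k * (k / 2) ≤ (y + k) * (1 + u) :=
        mul_le_mul (by linarith) (by linarith) (by linarith) (by linarith)
      nlinarith
    have h4 : t / (y ^ 2 + t ^ 2) * (y / ((y + k) * (1 + u))) ≤
        t / (y ^ 2 + t ^ 2) * (2 * y / k ^ 2) := mul_le_mul_of_nonneg_left h2 (by positivity)
    have h5 : t / (y ^ 2 + t ^ 2) * (2 * y / k ^ 2) = 2 * t / k ^ 2 * (y / (y ^ 2 + t ^ 2)) := by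
      field_simp
    have h6 : 0 ≤ 4 * t / k ^ 2 * (1 / (1 + u)) := by positivity
    linarith
  · push Not at hc
    have h1 : y / ((y + k) * (1 + u)) ≤ 1 / (1 + u) := by
      rw [div_le_div_iff₀ (by positivity) (by positivity)]
      nlinarith
    have h2 : t / (y ^ 2 + t ^ 2) ≤ 4 * t / k ^ 2 := by
      rw [div_le_div_iff₀ (by positivity) (by positivity)]
      have h3 : k ^ 2 ≤ 4 * (y ^ 2 + t ^ 2) := by nlinarith
      nlinarith
    have h4 : t / (y ^ 2 + t ^ 2) * (y / ((y + k) * (1 + u))) ≤ 4 * t / k ^ 2 * (1 / (1 + u)) :=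
      mul_le_mul h2 h1 (by positivity) (by positivity)
    have h5 : 0 ≤ 2 * t / k ^ 2 * (y / (y ^ 2 + t ^ 2)) := by positivity
    linarith

theorem maj_far {t k y : ℝ} (ht : 0 < t) (hk : 2 ≤ k) (hy : 2 * k < y) :
    t / (y ^ 2 + t ^ 2) * (y / ((y + k) * (1 + |y - k|))) ≤ 2 * t * y ^ (-3 : ℝ) := by
  have hk0 : 0 < k := by linarith
  have hy0 : 0 < y := by linarith
  have h0 : y ^ (-3 : ℝ) = 1 / y ^ 3 := by
    rw [Real.rpow_neg hy0.le, one_div]
    norm_num
  rw [h0, abs_of_nonneg (by linarith)]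
  have h1 : y / ((y + k) * (1 + (y - k))) ≤ 2 / y := by
    rw [div_le_div_iff₀ (mul_pos (by linarith) (by linarith)) hy0]
    have h3 : y * (y / 2) ≤ (y + k) * (1 + (y - k)) :=
      mul_le_mul (by linarith) (by linarith) (by linarith) (by linarith)
    nlinarith
  have h2 : t / (y ^ 2 + t ^ 2) ≤ t / y ^ 2 :=
    div_le_div_of_nonneg_left ht.le (by positivity) (by nlinarith)
  have h3 : 0 ≤ y / ((y + k) * (1 + (y - k))) :=
    div_nonneg hy0.le (mul_nonneg (by linarith) (by linarith))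
  calc t / (y ^ 2 + t ^ 2) * (y / ((y + k) * (1 + (y - k)))) ≤ t / y ^ 2 * (2 / y) :=
        mul_le_mul h2 h1 h3 (by positivity)
    _ = 2 * t * (1 / y ^ 3) := by field_simp

theorem int_near {t k : ℝ} (ht : 0 < t) (hk : 2 ≤ k) :
    IntegrableOn (fun y : ℝ => 2 * t / k ^ 2 * (y / (y ^ 2 + t ^ 2)) +
      4 * t / k ^ 2 * (1 / (1 + |y - k|))) (Ioc 0 (2 * k)) ∧
    ∫ y in Ioc 0 (2 * k), (2 * t / k ^ 2 * (y / (y ^ 2 + t ^ 2)) +
      4 * t / k ^ 2 * (1 / (1 + |y - k|))) ≤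
      t / k ^ 2 * (10 + 8 * Real.log k + Real.log (1 + k ^ 2 / t ^ 2)) := by
  have hk0 : 0 < k := by linarith
  have hc1 : Continuous (fun y : ℝ => y / (y ^ 2 + t ^ 2)) :=
    continuous_id.div (by fun_prop) (fun y => by positivity)
  have hc2 : Continuous (fun y : ℝ => 1 / (1 + |y - k|)) :=
    continuous_const.div (by fun_prop) (fun y => by positivity)
  have hc3 : Continuous (fun y : ℝ => 1 / (1 + |y|)) :=
    continuous_const.div (by fun_prop) (fun y => by positivity)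
  refine ⟨(((hc1.const_mul _).add (hc2.const_mul _)).integrableOn_Icc
    (a := 0) (b := 2 * k)).mono_set Ioc_subset_Icc_self, ?_⟩
  rw [← intervalIntegral.integral_of_le (by linarith : (0 : ℝ) ≤ 2 * k)]
  rw [intervalIntegral.integral_add ((hc1.const_mul _).intervalIntegrable _ _)
    ((hc2.const_mul _).intervalIntegrable _ _), intervalIntegral.integral_const_mul,
    intervalIntegral.integral_const_mul]
  have h1 : ∫ y in (0 : ℝ)..(2 * k), y / (y ^ 2 + t ^ 2) =
      (1 / 2) * Real.log ((2 * k) ^ 2 + t ^ 2) - (1 / 2) * Real.log ((0 : ℝ) ^ 2 + t ^ 2) := by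
    refine intervalIntegral.integral_eq_sub_of_hasDerivAt
      (f := fun y : ℝ => (1 / 2) * Real.log (y ^ 2 + t ^ 2)) (fun y _ => ?_)
      (hc1.intervalIntegrable _ _)
    have h2 : HasDerivAt (fun y : ℝ => y ^ 2 + t ^ 2) (2 * y) y := by
      simpa using ((hasDerivAt_id y).pow 2).add_const (t ^ 2)
    have h3 : HasDerivAt (fun y : ℝ => (1 / 2) * Real.log (y ^ 2 + t ^ 2))
        ((1 / 2) * (2 * y / (y ^ 2 + t ^ 2))) y := (h2.log (by positivity)).const_mul (1 / 2)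
    have h4 : (1 / 2) * (2 * y / (y ^ 2 + t ^ 2)) = y / (y ^ 2 + t ^ 2) := by ring
    rw [h4] at h3
    exact h3
  have h2 : ∫ y in (0 : ℝ)..(2 * k), 1 / (1 + |y - k|) = 2 * Real.log (1 + k) := by
    rw [intervalIntegral.integral_comp_sub_right (fun u : ℝ => 1 / (1 + |u|)) k,
      zero_sub, show 2 * k - k = k by ring,
      ← intervalIntegral.integral_add_adjacent_intervals (hc3.intervalIntegrable (-k) 0)
        (hc3.intervalIntegrable 0 k)]
    have h3 : ∫ u in (0 : ℝ)..k, 1 / (1 + |u|) = Real.log (1 + k) := by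
      have h4 : ∫ u in (0 : ℝ)..k, 1 / (1 + |u|) = ∫ u in (0 : ℝ)..k, 1 / (1 + u) := by
        refine intervalIntegral.integral_congr fun u hu => ?_
        rw [uIcc_of_le hk0.le] at hu
        simp only [abs_of_nonneg hu.1]
      have h8 : ∀ u ∈ uIcc (0 : ℝ) k, HasDerivAt (fun u : ℝ => Real.log (1 + u)) (1 / (1 + u)) u := by
        intro u hu
        rw [uIcc_of_le hk0.le] at hu
        have h5 : HasDerivAt (fun u : ℝ => 1 + u) 1 u := by
          simpa using (hasDerivAt_id u).const_add 1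
        exact h5.log (by linarith [hu.1])
      have h9 : IntervalIntegrable (fun u : ℝ => 1 / (1 + u)) volume 0 k := by
        refine ContinuousOn.intervalIntegrable ?_
        rw [uIcc_of_le hk0.le]
        exact continuousOn_const.div (by fun_prop) (fun u hu => by linarith [hu.1])
      rw [h4, intervalIntegral.integral_eq_sub_of_hasDerivAt h8 h9]
      simp
    have h6 : ∫ u in (-k)..(0 : ℝ), 1 / (1 + |u|) = ∫ u in (0 : ℝ)..k, 1 / (1 + |u|) := by
      have h7 := intervalIntegral.integral_comp_neg (a := 0) (b := k)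
        (fun u : ℝ => 1 / (1 + |u|))
      simp only [abs_neg, neg_zero] at h7
      exact h7.symm
    rw [h6, h3]
    ring
  rw [h1, h2]
  have hq : 0 < k ^ 2 / t ^ 2 := by positivity
  have h3 : (1 / 2) * Real.log ((2 * k) ^ 2 + t ^ 2) - (1 / 2) * Real.log ((0 : ℝ) ^ 2 + t ^ 2) ≤
      (1 / 2) * (2 + Real.log (1 + k ^ 2 / t ^ 2)) := by
    have h4 : Real.log ((2 * k) ^ 2 + t ^ 2) - Real.log ((0 : ℝ) ^ 2 + t ^ 2) =
        Real.log (1 + 4 * (k ^ 2 / t ^ 2)) := by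
      rw [← Real.log_div (by positivity) (by positivity)]
      congr 1
      field_simp
      ring
    have h5 : Real.log (1 + 4 * (k ^ 2 / t ^ 2)) ≤ Real.log 4 + Real.log (1 + k ^ 2 / t ^ 2) := by
      rw [← Real.log_mul (by norm_num) (by positivity)]
      exact Real.log_le_log (by positivity) (by linarith)
    have h6 : Real.log 4 ≤ 2 := by
      rw [show (4 : ℝ) = 2 ^ 2 by norm_num, Real.log_pow]
      have := Real.log_two_lt_d9
      push_cast
      linarith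
    linarith
  have h4 : Real.log (1 + k) ≤ 1 + Real.log k := by
    have h5 : Real.log (1 + k) ≤ Real.log (2 * k) := Real.log_le_log (by linarith) (by linarith)
    rw [Real.log_mul (by norm_num) hk0.ne'] at h5
    have := Real.log_two_lt_d9
    linarith
  have h5 : 0 ≤ t / k ^ 2 := by positivity
  calc 2 * t / k ^ 2 * ((1 / 2) * Real.log ((2 * k) ^ 2 + t ^ 2) -
        (1 / 2) * Real.log ((0 : ℝ) ^ 2 + t ^ 2)) + 4 * t / k ^ 2 * (2 * Real.log (1 + k))
      = t / k ^ 2 * (2 * ((1 / 2) * Real.log ((2 * k) ^ 2 + t ^ 2) -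
        (1 / 2) * Real.log ((0 : ℝ) ^ 2 + t ^ 2)) + 8 * Real.log (1 + k)) := by ring
    _ ≤ t / k ^ 2 * (10 + 8 * Real.log k + Real.log (1 + k ^ 2 / t ^ 2)) :=
        mul_le_mul_of_nonneg_left (by linarith) h5

theorem int_far {t k : ℝ} (hk : 2 ≤ k) :
    IntegrableOn (fun y : ℝ => 2 * t * y ^ (-3 : ℝ)) (Ioi (2 * k)) ∧
    ∫ y in Ioi (2 * k), 2 * t * y ^ (-3 : ℝ) = t / k ^ 2 * (1 / 4) := by
  have hk0 : 0 < 2 * k := by linarith
  refine ⟨(integrableOn_Ioi_rpow_of_lt (by norm_num) hk0).const_mul _, ?_⟩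
  rw [integral_const_mul, integral_Ioi_rpow_of_lt (by norm_num) hk0]
  have h1 : (2 * k) ^ ((-3 : ℝ) + 1) = 1 / (2 * k) ^ 2 := by
    rw [show (-3 : ℝ) + 1 = -2 by norm_num, Real.rpow_neg hk0.le, one_div]
    norm_num
  rw [h1]
  field_simp
  ring

end D3a

/-- **D3a** -/
theorem pois_sv_bound {s : ℂ → ℂ} (hs : IsE (1 / 2) 1 s) :
    ∃ C : ℝ, 0 < C ∧ ∀ k : ℝ, 2 ≤ k → ∀ (v : ℂ → ℂ) (C' : ℝ), IsE (1 / 2) C' v →
      (∀ z : ℂ, v z * (z ^ 2 - (k : ℂ) ^ 2) = z * deriv s z) → ∀ t : ℝ, 0 < t →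
        |Pois t (fun z => s z * v z)| ≤
          C * t * (1 + Real.log k + Real.log (1 + k ^ 2 / t ^ 2)) / k ^ 2 := by
  refine ⟨11, by norm_num, fun k hk v C' hv h t ht => ?_⟩
  have hk0 : 0 < k := by linarith
  set f : ℝ → ℝ := fun x => t / (x ^ 2 + t ^ 2) * (s (x : ℂ) * v (x : ℂ)).re with hf
  have hneg : ∀ x : ℝ, f (-x) = f x := by
    intro x
    simp only [hf, Complex.ofReal_neg, hs.even, hv.even, neg_sq]
  have habs : ∀ x : ℝ, f |x| = f x := by
    intro x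
    rcases abs_choice x with h1 | h1
    · rw [h1]
    · rw [h1, hneg]
  have hcont : Continuous f := by
    have h1 : Continuous (fun x : ℝ => t / (x ^ 2 + t ^ 2)) :=
      continuous_const.div (by fun_prop) (fun x => by positivity)
    have h2 : Continuous (fun x : ℝ => (s (x : ℂ) * v (x : ℂ)).re) :=
      Complex.continuous_re.comp ((hs.b.diff.continuous.comp Complex.continuous_ofReal).mul
        (hv.b.diff.continuous.comp Complex.continuous_ofReal))
    exact h1.mul h2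
  have hpt : ∀ y : ℝ, 0 < y → y ≠ k →
      ‖f y‖ ≤ t / (y ^ 2 + t ^ 2) * (y / ((y + k) * (1 + |y - k|))) := by
    intro y hy hne
    have h1 : |(s (y : ℂ) * v (y : ℂ)).re| ≤ y / ((y + k) * (1 + |y - k|)) := by
      refine (Complex.abs_re_le_norm _).trans ?_
      rw [norm_mul]
      calc ‖s (y : ℂ)‖ * ‖v (y : ℂ)‖ ≤ 1 * ‖v (y : ℂ)‖ :=
            mul_le_mul_of_nonneg_right (hs.b.real_le y) (norm_nonneg _)
        _ = ‖v (y : ℂ)‖ := one_mul _
        _ ≤ _ := D3a.v_le hs hk h hy.le hne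
    rw [hf, Real.norm_eq_abs, abs_mul, abs_of_nonneg (by positivity : 0 ≤ t / (y ^ 2 + t ^ 2))]
    exact mul_le_mul_of_nonneg_left h1 (by positivity)
  have hae : ∀ᵐ y : ℝ, y ≠ k := by
    have := (measure_singleton k : (volume : Measure ℝ) {k} = 0)
    exact compl_mem_ae_iff.2 this
  obtain ⟨hi1, hb1⟩ := D3a.int_near ht hk
  obtain ⟨hi2, hb2⟩ := D3a.int_far (t := t) hk
  have hn1 : ‖∫ y in Ioc 0 (2 * k), f y‖ ≤
      t / k ^ 2 * (10 + 8 * Real.log k + Real.log (1 + k ^ 2 / t ^ 2)) := by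
    refine (norm_integral_le_of_norm_le hi1 ?_).trans hb1
    refine (ae_restrict_iff' measurableSet_Ioc).2 ?_
    filter_upwards [hae] with y hy hmem
    exact (hpt y hmem.1 hy).trans (D3a.maj_near ht hk hmem.1 rfl)
  have hfar : ∀ᵐ y ∂(volume.restrict (Ioi (2 * k))), ‖f y‖ ≤ 2 * t * y ^ (-3 : ℝ) := by
    refine (ae_restrict_iff' measurableSet_Ioi).2 ?_
    filter_upwards [hae] with y hy hmem
    have hmem' : 2 * k < y := hmem
    exact (hpt y (by linarith) hy).trans (D3a.maj_far ht hk hmem')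
  have hn2 : ‖∫ y in Ioi (2 * k), f y‖ ≤ t / k ^ 2 * (1 / 4) :=
    (norm_integral_le_of_norm_le hi2 hfar).trans hb2.le
  have hI2 : IntegrableOn f (Ioi (2 * k)) :=
    Integrable.mono' hi2 hcont.aestronglyMeasurable hfar
  have hI1 : IntegrableOn f (Ioc 0 (2 * k)) :=
    (hcont.integrableOn_Icc (a := 0) (b := 2 * k)).mono_set Ioc_subset_Icc_self
  have hsplit : ∫ y in Ioi (0 : ℝ), f y =
      (∫ y in Ioc 0 (2 * k), f y) + ∫ y in Ioi (2 * k), f y := by
    rw [← setIntegral_union (Set.Ioc_disjoint_Ioi le_rfl) measurableSet_Ioi hI1 hI2,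
      Ioc_union_Ioi_eq_Ioi (by linarith)]
  have hP : Pois t (fun z => s z * v z) = (1 / Real.pi) * (2 * ∫ y in Ioi (0 : ℝ), f y) := by
    have h1 : ∫ x : ℝ, f x = 2 * ∫ y in Ioi (0 : ℝ), f y := by
      rw [← integral_comp_abs]
      exact integral_congr_ae (Filter.Eventually.of_forall fun x => (habs x).symm)
    rw [← h1]
    rfl
  have hlogk : 0 ≤ Real.log k := Real.log_nonneg (by linarith)
  have hlogq : 0 ≤ Real.log (1 + k ^ 2 / t ^ 2) :=
    Real.log_nonneg (by have : 0 ≤ k ^ 2 / t ^ 2 := by positivity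
                        linarith)
  have h5 : 0 ≤ t / k ^ 2 := by positivity
  have hpi : 2 / Real.pi ≤ 1 := by
    rw [div_le_one Real.pi_pos]
    linarith [Real.pi_gt_three]
  have hsum : |∫ y in Ioi (0 : ℝ), f y| ≤
      t / k ^ 2 * (10 + 8 * Real.log k + Real.log (1 + k ^ 2 / t ^ 2)) + t / k ^ 2 * (1 / 4) := by
    rw [hsplit]
    exact (abs_add_le _ _).trans (add_le_add hn1 hn2)
  rw [hP, ← mul_assoc, show 1 / Real.pi * 2 = 2 / Real.pi by ring, abs_mul,
    abs_of_nonneg (by positivity : 0 ≤ 2 / Real.pi)]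
  calc 2 / Real.pi * |∫ y in Ioi (0 : ℝ), f y| ≤ 1 * |∫ y in Ioi (0 : ℝ), f y| :=
        mul_le_mul_of_nonneg_right hpi (abs_nonneg _)
    _ ≤ t / k ^ 2 * (10 + 8 * Real.log k + Real.log (1 + k ^ 2 / t ^ 2)) +
          t / k ^ 2 * (1 / 4) := by rw [one_mul]; exact hsum
    _ = t / k ^ 2 * (10 + 1 / 4 + 8 * Real.log k + Real.log (1 + k ^ 2 / t ^ 2)) := by ring
    _ ≤ t / k ^ 2 * (11 * (1 + Real.log k + Real.log (1 + k ^ 2 / t ^ 2))) :=
        mul_le_mul_of_nonneg_left (by linarith) h5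
    _ = 11 * t * (1 + Real.log k + Real.log (1 + k ^ 2 / t ^ 2)) / k ^ 2 := by ring

end Pool.Agent.Helper30.FG
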