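import Pool.Agent.Helper30.FG.Defs

set_option autoImplicit false

namespace Pool.Agent.Helper30.FG

open Complex MeasureTheory Set Filter Topology
open Pool.Agent.Helper78.Bern Pool.Agent.Helper45.Bern

theorem Fk_nonneg (t : ℝ) : 0 ≤ Fk t := sq_nonneg _

namespace A2

/-- the function of `u` -/
noncomputable def gf (t u : ℝ) : ℂ :=
  Complex.exp (2 * Real.pi * I * ((t * u : ℝ) : ℂ)) *
    (((1 - u : ℝ) : ℂ) + (u : ℂ) * Complex.exp (-(2 * Real.pi * I * (t : ℂ))))

theorem gf_zero (t : ℝ) : gf t 0 = 1 := by simp [gf]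

theorem gf_one (t : ℝ) : gf t 1 = 1 := by
  simp only [gf, mul_one, sub_self, ofReal_zero, ofReal_one, zero_add, one_mul]
  rw [← Complex.exp_add]
  simp

theorem gf_cont (t : ℝ) : Continuous (gf t) := by
  unfold gf
  fun_prop

theorem integral_aux {c : ℂ} (hc : c ≠ 0) :
    ∫ u in (0 : ℝ)..1, (((1 - u : ℝ) : ℂ) + (u : ℂ) * Complex.exp (-c)) * Complex.exp (c * u) =
      -((Complex.exp (-c) - 1) * (Complex.exp c - 1)) / c ^ 2 := by
  have hd : ∀ u ∈ uIcc (0 : ℝ) 1, HasDerivAt (fun u : ℝ =>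
      (((1 - u : ℝ) : ℂ) + (u : ℂ) * Complex.exp (-c)) * Complex.exp (c * u) / c -
        (Complex.exp (-c) - 1) * Complex.exp (c * u) / c ^ 2)
      ((((1 - u : ℝ) : ℂ) + (u : ℂ) * Complex.exp (-c)) * Complex.exp (c * u)) u := by
    intro u _
    have h1 : HasDerivAt (fun u : ℝ => (u : ℂ)) 1 u := Complex.ofRealCLM.hasDerivAt
    have h2 : HasDerivAt (fun u : ℝ => ((1 - u : ℝ) : ℂ)) (-1) u := by
      have : (fun u : ℝ => ((1 - u : ℝ) : ℂ)) = fun u : ℝ => 1 - (u : ℂ) := by
        funext x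
        push_cast
        rfl
      rw [this]
      simpa using h1.const_sub 1
    have h3 : HasDerivAt (fun u : ℝ => Complex.exp (c * u)) (Complex.exp (c * u) * (c * 1)) u :=
      (h1.const_mul c).cexp
    have h4 := ((h2.add (h1.mul_const (Complex.exp (-c)))).mul h3).div_const c
    have h5 := (h3.const_mul (Complex.exp (-c) - 1)).div_const (c ^ 2)
    refine (h4.sub h5).congr_deriv ?_
    simp only [Pi.add_apply]
    field_simp
    ring
  rw [intervalIntegral.integral_eq_sub_of_hasDerivAt hd]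
  · have h6 : Complex.exp (-c) * Complex.exp c = 1 := by
      rw [← Complex.exp_add]
      simp
    simp only [sub_self, ofReal_zero, ofReal_one, zero_add, one_mul, mul_one, sub_zero, mul_zero,
      Complex.exp_zero, zero_mul, add_zero]
    rw [h6]
    field_simp
    ring
  · apply Continuous.intervalIntegrable
    fun_prop

theorem coef (t : ℝ) (n : ℤ) :
    ∫ u in (0 : ℝ)..1, Complex.exp (-(2 * Real.pi * I * ((n * u : ℝ) : ℂ))) * gf t u =
      (Fk (t - n) : ℂ) := by
  set c : ℂ := 2 * Real.pi * I * ((t - n : ℝ) : ℂ) with hcd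
  have hexp : Complex.exp (-(2 * Real.pi * I * (t : ℂ))) = Complex.exp (-c) := by
    rw [Complex.exp_eq_exp_iff_exists_int]
    refine ⟨-n, ?_⟩
    rw [hcd]
    push_cast
    ring
  have h0 : ∀ u : ℝ, Complex.exp (-(2 * Real.pi * I * ((n * u : ℝ) : ℂ))) * gf t u =
      (((1 - u : ℝ) : ℂ) + (u : ℂ) * Complex.exp (-c)) * Complex.exp (c * u) := by
    intro u
    unfold gf
    rw [hexp, ← mul_assoc, ← Complex.exp_add, mul_comm]
    congr 2
    rw [hcd]
    push_cast
    ring
  simp_rw [h0]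
  rcases eq_or_ne (t - n) 0 with ht | ht
  · have hc : c = 0 := by rw [hcd, ht]; simp
    rw [hc]
    have : ∀ u : ℝ, (((1 - u : ℝ) : ℂ) + (u : ℂ) * Complex.exp (-0)) * Complex.exp (0 * u) = 1 := by
      intro u
      simp
    simp_rw [this]
    rw [ht]
    simp [Fk]
  · have hc : c ≠ 0 := by
      rw [hcd]
      simp only [ne_eq, mul_eq_zero, OfNat.ofNat_ne_zero, ofReal_eq_zero, Real.pi_ne_zero, I_ne_zero,
        or_self, false_or]
      exact ht
    rw [integral_aux hc]
    have hp : Real.pi * (t - n) ≠ 0 := mul_ne_zero Real.pi_ne_zero ht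
    have hs : 2 * I * (Real.sin (Real.pi * (t - n)) : ℂ) =
        Complex.exp (c / 2) - Complex.exp (-(c / 2)) := by
      rw [Complex.ofReal_sin, Complex.sin]
      have e1 : c / 2 = ((Real.pi * (t - n) : ℝ) : ℂ) * I := by
        rw [hcd]
        push_cast
        ring
      rw [e1, ← neg_mul]
      have hI : I * I = -1 := Complex.I_mul_I
      linear_combination (Complex.exp (-((Real.pi * (t - n) : ℝ) : ℂ) * I) -
        Complex.exp (((Real.pi * (t - n) : ℝ) : ℂ) * I)) * hI
    have hm : (Complex.exp (-c) - 1) * (Complex.exp c - 1) =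
        -((Complex.exp (c / 2) - Complex.exp (-(c / 2))) ^ 2) := by
      have e2 : Complex.exp c = Complex.exp (c / 2) ^ 2 := by
        rw [← Complex.exp_nat_mul]
        congr 1
        push_cast
        ring
      have e3 : Complex.exp (-c) = Complex.exp (-(c / 2)) ^ 2 := by
        rw [← Complex.exp_nat_mul]
        congr 1
        push_cast
        ring
      have e4 : Complex.exp (c / 2) * Complex.exp (-(c / 2)) = 1 := by
        rw [← Complex.exp_add]
        simp
      rw [e2, e3]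
      linear_combination (Complex.exp (c / 2) * Complex.exp (-(c / 2)) - 1) * e4
    rw [hm, ← hs]
    have hc2 : c ^ 2 = -(4 * ((Real.pi * (t - n) : ℝ) : ℂ) ^ 2) := by
      rw [hcd]
      push_cast
      ring_nf
      rw [Complex.I_sq]
      ring
    rw [hc2]
    unfold Fk
    rw [Real.sinc_of_ne_zero hp]
    have hp' : ((Real.pi * (t - n) : ℝ) : ℂ) ≠ 0 := by exact_mod_cast hp
    push_cast
    push_cast at hp'
    field_simp
    ring_nf
    rw [Complex.I_sq]
    ring

theorem Fk_le (x : ℝ) : Fk x ≤ 1 / |x| ^ (2 : ℝ) ∨ x = 0 := by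
  rcases eq_or_ne x 0 with h | h
  · exact Or.inr h
  · left
    have hp : Real.pi * x ≠ 0 := mul_ne_zero Real.pi_ne_zero h
    unfold Fk
    rw [Real.sinc_of_ne_zero hp, Real.rpow_two, sq_abs, div_pow]
    have hx : 0 < x ^ 2 := by positivity
    rw [div_le_div_iff₀ (by positivity) hx]
    have h1 : Real.sin (Real.pi * x) ^ 2 ≤ 1 := Real.sin_sq_le_one _
    have h2 : 1 ≤ Real.pi ^ 2 := by nlinarith [Real.pi_gt_three]
    nlinarith

theorem summ (t : ℝ) : Summable (fun n : ℤ => Fk (t - n)) := by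
  have h := (Real.summable_one_div_int_add_rpow (-t) 2).2 (by norm_num)
  apply Summable.of_norm_bounded_eventually h
  have hfin : Set.Finite {n : ℤ | t - n = 0} := by
    apply Set.Subsingleton.finite
    intro a ha b hb
    have h1 : t = a := by simpa [sub_eq_zero] using ha
    have h2 : t = b := by simpa [sub_eq_zero] using hb
    exact_mod_cast h1.symm.trans h2
  have hev : ∀ᶠ n : ℤ in Filter.cofinite, ¬ (t - n = 0) := hfin.compl_mem_cofinite
  filter_upwards [hev] with n hn
  rw [Real.norm_of_nonneg (Fk_nonneg _)]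
  rcases Fk_le (t - n) with h1 | h1
  · have : |t - (n : ℝ)| = |(n : ℝ) + -t| := by
      rw [← abs_neg]
      congr 1
      ring
    rw [← this]
    exact h1
  · exact absurd h1 hn

theorem series (t : ℝ) {u : ℝ} (hu : u ∈ Ico (0 : ℝ) 1) :
    HasSum (fun n : ℤ => (Fk (t - n) : ℂ) * Complex.exp (2 * Real.pi * I * ((n * u : ℝ) : ℂ)))
      (gf t u) := by
  have : Fact ((0:ℝ) < 1) := ⟨by norm_num⟩
  have hgc : ContinuousOn (gf t) (Icc 0 (0 + 1)) := (gf_cont t).continuousOn
  have hper : gf t 0 = gf t (0 + 1) := by rw [zero_add, gf_zero, gf_one]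
  let F : C(AddCircle (1:ℝ), ℂ) :=
    ⟨AddCircle.liftIco 1 0 (gf t), AddCircle.liftIco_continuous hper hgc⟩
  have hcoef : ∀ n : ℤ, fourierCoeff F n = (Fk (t - n) : ℂ) := by
    intro n
    change fourierCoeff (AddCircle.liftIco 1 0 (gf t)) n = _
    rw [fourierCoeff_liftIco_eq, fourierCoeffOn_eq_integral]
    have hG : ∀ u : ℝ, (fourier (-n) (u : AddCircle (0 + 1 - 0 : ℝ)) : ℂ) • gf t u =
        Complex.exp (-(2 * Real.pi * I * ((n * u : ℝ) : ℂ))) * gf t u := by
      intro u
      rw [fourier_coe_apply, smul_eq_mul]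
      congr 2
      push_cast
      ring
    simp_rw [hG]
    rw [zero_add, coef]
    simp
  have hsum : Summable (fourierCoeff F) := by
    have e : fourierCoeff F = fun n : ℤ => (Fk (t - n) : ℂ) := funext hcoef
    rw [e]
    exact_mod_cast (summ t)
  have h1 := has_pointwise_sum_fourier_series_of_summable hsum ((u : ℝ) : AddCircle (1:ℝ))
  have h3 : F ((u : ℝ) : AddCircle (1:ℝ)) = gf t u := by
    change AddCircle.liftIco 1 0 (gf t) ((u : ℝ) : AddCircle (1:ℝ)) = gf t u
    rw [AddCircle.liftIco_coe_apply]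
    simpa using hu
  rw [h3] at h1
  refine h1.congr_fun ?_
  intro n
  rw [hcoef, fourier_coe_apply, smul_eq_mul]
  congr 2
  push_cast
  ring

end A2

/-- **A2** -/
theorem hasSum_Fk (t : ℝ) {u : ℝ} (hu : u ∈ Icc (0 : ℝ) 1) :
    HasSum (fun m : ℤ => (Fk (t + m) : ℂ) *
        Complex.exp (-(2 * Real.pi * I * (((t + m) * u : ℝ) : ℂ))))
      ((1 - u : ℝ) + (u : ℂ) * Complex.exp (-(2 * Real.pi * I * (t : ℂ)))) := by
  have key : HasSum (fun n : ℤ => (Fk (t - n) : ℂ) *
      Complex.exp (2 * Real.pi * I * ((n * u : ℝ) : ℂ))) (A2.gf t u) := by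
    rcases lt_or_eq_of_le hu.2 with h | h
    · exact A2.series t ⟨hu.1, h⟩
    · have h0 := A2.series t (u := 0) ⟨le_rfl, by norm_num⟩
      rw [A2.gf_zero] at h0
      rw [h, A2.gf_one]
      refine h0.congr_fun ?_
      intro n
      congr 1
      rw [Complex.exp_eq_exp_iff_exists_int]
      refine ⟨n, ?_⟩
      push_cast
      ring
  have h2 := key.mul_left (Complex.exp (-(2 * Real.pi * I * ((t * u : ℝ) : ℂ))))
  have h3 := (Equiv.neg ℤ).hasSum_iff.2 h2
  have e1 : Complex.exp (-(2 * Real.pi * I * ((t * u : ℝ) : ℂ))) * A2.gf t u =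
      (1 - u : ℝ) + (u : ℂ) * Complex.exp (-(2 * Real.pi * I * (t : ℂ))) := by
    unfold A2.gf
    rw [← mul_assoc, ← Complex.exp_add]
    simp
  rw [e1] at h3
  refine h3.congr_fun ?_
  intro m
  simp only [Function.comp_apply, Equiv.neg_apply, Int.cast_neg, sub_neg_eq_add]
  rw [mul_left_comm, ← Complex.exp_add]
  congr 2
  push_cast
  ring

theorem hasSum_Fk_one (t : ℝ) : HasSum (fun m : ℤ => Fk (t + m)) 1 := by
  have h := hasSum_Fk t (u := 0) ⟨le_rfl, by norm_num⟩
  have e : (fun m : ℤ => (Fk (t + m) : ℂ) *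
      Complex.exp (-(2 * Real.pi * I * (((t + m) * (0 : ℝ) : ℝ) : ℂ)))) =
      fun m : ℤ => ((Fk (t + m) : ℝ) : ℂ) := by
    funext m
    simp
  rw [e] at h
  have h1 : (((1 - 0 : ℝ) : ℂ) + ((0 : ℝ) : ℂ) * Complex.exp (-(2 * Real.pi * I * (t : ℂ)))) =
      ((1 : ℝ) : ℂ) := by simp
  rw [h1] at h
  exact Complex.hasSum_ofReal.1 h

end Pool.Agent.Helper30.FG
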