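import Pool.Agent.Helper30.FG.Defs

set_option autoImplicit false

namespace Pool.Agent.Helper30.FG

open Complex MeasureTheory Set Filter Topology
open Pool.Agent.Helper78.Bern Pool.Agent.Helper45.Bern

namespace A3a

private theorem eq_of_real {f g : ℂ → ℂ} (hf : Differentiable ℂ f) (hg : Differentiable ℂ g)
    (h : ∀ x : ℝ, f x = g x) (z : ℂ) : f z = g z := by
  have hfa : AnalyticOnNhd ℂ f univ := fun z _ => hf.analyticAt z
  have hga : AnalyticOnNhd ℂ g univ := fun z _ => hg.analyticAt z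
  have ht : Tendsto (fun n : ℕ => ((1 / ((n : ℝ) + 1) : ℝ) : ℂ)) atTop (𝓝[≠] (0 : ℂ)) := by
    refine tendsto_nhdsWithin_iff.2 ⟨?_, Eventually.of_forall fun n => ?_⟩
    · have h0 := (Complex.continuous_ofReal.tendsto 0).comp
        (tendsto_one_div_add_atTop_nhds_zero_nat (𝕜 := ℝ))
      rw [Complex.ofReal_zero] at h0
      exact h0
    · simp only [mem_compl_iff, mem_singleton_iff, ofReal_eq_zero]
      positivity
  have hfr : ∃ᶠ z in 𝓝[≠] (0 : ℂ), f z = g z :=
    ht.frequently (Frequently.of_forall fun n => h _)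
  exact congrFun (hfa.eq_of_frequently_eq hga hfr) z

/-- contour shift for periodic entire functions -/
private theorem shift {h : ℂ → ℂ} {P : ℝ} (hh : Differentiable ℂ h)
    (hper : ∀ z : ℂ, h (z + P) = h z) (y : ℝ) :
    ∫ x : ℝ in (0:ℝ)..P, h x = ∫ x : ℝ in (0:ℝ)..P, h (x + y * I) := by
  have key := integral_boundary_rect_eq_zero_of_differentiableOn h 0 (P + y * I)
    hh.differentiableOn
  have e1 : ((P : ℂ) + y * I).re = P := by simp
  have e2 : ((P : ℂ) + y * I).im = y := by simp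
  rw [e1, e2, Complex.zero_re, Complex.zero_im] at key
  have e3 : ∀ t : ℝ, h ((P : ℂ) + t * I) = h ((0 : ℝ) + t * I) := by
    intro t
    rw [← hper ((0 : ℝ) + t * I)]
    congr 1
    push_cast
    ring
  have e4 : ∀ t : ℝ, h ((t : ℂ) + ((0 : ℝ) : ℂ) * I) = h t := by
    intro t
    simp
  simp only [e3, e4] at key
  have h2 := sub_eq_zero.1 (by simpa using key)
  exact h2

/-- coefficient bound -/
private theorem coef_bound {a C P : ℝ} (hP : 0 < P) {f : ℂ → ℂ} (hf : Differentiable ℂ f)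
    (hb : ∀ z : ℂ, ‖f z‖ ≤ C * Real.exp (a * |z.im|)) (hper : ∀ z : ℂ, f (z + P) = f z)
    (n : ℤ) (y : ℝ) :
    ‖∫ x : ℝ in (0:ℝ)..P, Complex.exp (2 * Real.pi * I * ((-n : ℤ) : ℂ) * x / P) * f x‖ ≤
      C * Real.exp (a * |y| + 2 * Real.pi * n / P * y) * P := by
  have hPc : (P : ℂ) ≠ 0 := by exact_mod_cast hP.ne'
  have hh : Differentiable ℂ fun z : ℂ =>
      Complex.exp (2 * Real.pi * I * ((-n : ℤ) : ℂ) * z / P) * f z := by
    refine Differentiable.mul ?_ hf
    fun_prop
  have hper' : ∀ z : ℂ, (fun z : ℂ =>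
      Complex.exp (2 * Real.pi * I * ((-n : ℤ) : ℂ) * z / P) * f z) (z + P) =
      (fun z : ℂ => Complex.exp (2 * Real.pi * I * ((-n : ℤ) : ℂ) * z / P) * f z) z := by
    intro z
    show Complex.exp (2 * Real.pi * I * ((-n : ℤ) : ℂ) * (z + P) / P) * f (z + P) =
      Complex.exp (2 * Real.pi * I * ((-n : ℤ) : ℂ) * z / P) * f z
    rw [hper]
    congr 1
    have : 2 * Real.pi * I * ((-n : ℤ) : ℂ) * (z + P) / P =
        2 * Real.pi * I * ((-n : ℤ) : ℂ) * z / P + ((-n : ℤ) : ℂ) * (2 * Real.pi * I) := by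
      field_simp
    rw [this, Complex.exp_add, Complex.exp_int_mul_two_pi_mul_I, mul_one]
  have hs := shift hh hper' y
  rw [hs]
  have hle : ∀ x ∈ Set.uIoc (0 : ℝ) P,
      ‖Complex.exp (2 * Real.pi * I * ((-n : ℤ) : ℂ) * ((x : ℂ) + y * I) / P) *
        f ((x : ℂ) + y * I)‖ ≤ C * Real.exp (a * |y| + 2 * Real.pi * n / P * y) := by
    intro x _
    rw [norm_mul, Complex.norm_exp]
    have e1 : (2 * Real.pi * I * ((-n : ℤ) : ℂ) * ((x : ℂ) + y * I) / P).re =
        2 * Real.pi * n / P * y := by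
      have : 2 * Real.pi * I * ((-n : ℤ) : ℂ) * ((x : ℂ) + y * I) / P =
          ((2 * Real.pi * n / P * y : ℝ) : ℂ) + ((-(2 * Real.pi * n / P * x) : ℝ) : ℂ) * I := by
        push_cast
        field_simp
        ring_nf
        rw [Complex.I_sq]
        ring
      rw [this]
      simp
    rw [e1]
    have h1 := hb ((x : ℂ) + y * I)
    have e2 : ((x : ℂ) + y * I).im = y := by simp
    rw [e2] at h1
    calc Real.exp (2 * Real.pi * n / P * y) * ‖f ((x : ℂ) + y * I)‖
        ≤ Real.exp (2 * Real.pi * n / P * y) * (C * Real.exp (a * |y|)) :=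
          mul_le_mul_of_nonneg_left h1 (Real.exp_pos _).le
      _ = C * Real.exp (a * |y| + 2 * Real.pi * n / P * y) := by
          rw [Real.exp_add]; ring
  have := intervalIntegral.norm_integral_le_of_norm_le_const hle
  rwa [sub_zero, abs_of_pos hP] at this

/-- high coefficients vanish -/
private theorem coef_zero {a C P : ℝ} (hP : 0 < P) {f : ℂ → ℂ} (hf : Differentiable ℂ f)
    (hb : ∀ z : ℂ, ‖f z‖ ≤ C * Real.exp (a * |z.im|)) (hper : ∀ z : ℂ, f (z + P) = f z)
    (n : ℤ) (hn : a < |2 * Real.pi * n / P|) :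
    ∫ x : ℝ in (0:ℝ)..P, Complex.exp (2 * Real.pi * I * ((-n : ℤ) : ℂ) * x / P) * f x = 0 := by
  set w : ℝ := 2 * Real.pi * n / P with hw
  have hC : 0 ≤ C := by
    have h := hb 0
    simp only [Complex.zero_im, abs_zero, mul_zero, Real.exp_zero, mul_one] at h
    exact (norm_nonneg _).trans h
  -- choose the sign
  obtain ⟨s, hs1, hs2⟩ : ∃ s : ℝ, |s| = 1 ∧ w * s = -|w| := by
    rcases le_total 0 w with h | h
    · exact ⟨-1, by simp, by rw [abs_of_nonneg h]; ring⟩
    · exact ⟨1, by simp, by rw [abs_of_nonpos h]; ring⟩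
  have hbd : ∀ t : ℝ, 0 ≤ t →
      ‖∫ x : ℝ in (0:ℝ)..P, Complex.exp (2 * Real.pi * I * ((-n : ℤ) : ℂ) * x / P) * f x‖ ≤
      C * P * Real.exp (-((|w| - a) * t)) := by
    intro t ht
    have h1 := coef_bound hP hf hb hper n (s * t)
    rw [abs_mul, hs1, one_mul, abs_of_nonneg ht, ← hw] at h1
    have e : a * t + w * (s * t) = -((|w| - a) * t) := by
      rw [← mul_assoc, hs2]; ring
    rw [e] at h1
    calc _ ≤ _ := h1
      _ = _ := by ring
  have hlim : Tendsto (fun t : ℝ => C * P * Real.exp (-((|w| - a) * t))) atTop (𝓝 0) := by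
    have h1 : Tendsto (fun t : ℝ => (|w| - a) * t) atTop atTop :=
      tendsto_id.const_mul_atTop (sub_pos.2 hn)
    have h2 := (Real.tendsto_exp_neg_atTop_nhds_zero.comp h1).const_mul (C * P)
    rw [mul_zero] at h2
    exact h2
  have h0 : ‖∫ x : ℝ in (0:ℝ)..P, Complex.exp (2 * Real.pi * I * ((-n : ℤ) : ℂ) * x / P) * f x‖
      ≤ 0 :=
    ge_of_tendsto hlim (eventually_atTop.2 ⟨0, fun t ht => hbd t ht⟩)
  exact norm_le_zero_iff.1 h0

end A3a

open A3a in
/-- **A3a**: a periodic entire function of exponential type `a` is a trigonometric sum. -/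
theorem periodic_isTrig {a C P : ℝ} (hP : 0 < P) {f : ℂ → ℂ} (hf : Differentiable ℂ f)
    (hb : ∀ z : ℂ, ‖f z‖ ≤ C * Real.exp (a * |z.im|)) (hper : ∀ z : ℂ, f (z + P) = f z) :
    IsTrig a f := by
  classical
  have : Fact (0 < P) := ⟨hP⟩
  have hpi : (0 : ℝ) < 2 * Real.pi := by positivity
  have hperR : Function.Periodic (fun x : ℝ => f x) P := by
    intro x
    show f ((x + P : ℝ) : ℂ) = f x
    rw [Complex.ofReal_add, hper]
  let g : C(AddCircle P, ℂ) :=
    ⟨hperR.lift, by
      refine continuous_coinduced_dom.2 ?_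
      exact hf.continuous.comp Complex.continuous_ofReal⟩
  have hg : ∀ x : ℝ, g (x : AddCircle P) = f x := fun x => hperR.lift_coe x
  have hco : ∀ n : ℤ, fourierCoeff g n = (1 / P) •
      ∫ x : ℝ in (0:ℝ)..P, Complex.exp (2 * Real.pi * I * ((-n : ℤ) : ℂ) * x / P) * f x := by
    intro n
    rw [fourierCoeff_eq_intervalIntegral g n 0, zero_add]
    congr 1
    refine intervalIntegral.integral_congr fun x _ => ?_
    simp only [smul_eq_mul]
    rw [hg, fourier_coe_apply]
  have hzero : ∀ n : ℤ, a < |2 * Real.pi * n / P| → fourierCoeff g n = 0 := by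
    intro n hn
    rw [hco, coef_zero hP hf hb hper n hn, smul_zero]
  -- the finite set of frequencies
  have hfin : {n : ℤ | |2 * Real.pi * n / P| ≤ a}.Finite := by
    refine (Set.finite_Icc (-⌈a * P / (2 * Real.pi)⌉) ⌈a * P / (2 * Real.pi)⌉).subset ?_
    intro n hn
    have hn' : |2 * Real.pi * n / P| ≤ a := hn
    have h1 : |(n : ℝ)| ≤ a * P / (2 * Real.pi) := by
      rw [le_div_iff₀ hpi]
      rw [abs_div, abs_mul, abs_of_pos hpi, abs_of_pos hP, div_le_iff₀ hP] at hn'
      linarith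
    have h2 : |(n : ℝ)| ≤ (⌈a * P / (2 * Real.pi)⌉ : ℤ) := h1.trans (Int.le_ceil _)
    have h3 := abs_le.1 h2
    constructor
    · have : (-(⌈a * P / (2 * Real.pi)⌉ : ℤ) : ℝ) ≤ n := h3.1
      exact_mod_cast this
    · exact_mod_cast h3.2
  set S : Finset ℤ := hfin.toFinset with hS
  have hmem : ∀ n : ℤ, n ∈ S ↔ |2 * Real.pi * n / P| ≤ a := fun n => by
    rw [hS, Set.Finite.mem_toFinset, Set.mem_ofPred_eq]
  have hsumm : Summable (fourierCoeff g) :=
    summable_of_ne_finset_zero (s := S) fun n hn => hzero n (not_le.1 fun h => hn ((hmem n).2 h))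
  have hreal : ∀ x : ℝ, f x = ∑ n ∈ S, fourierCoeff g n *
      Complex.exp (I * ((2 * Real.pi * n / P : ℝ) : ℂ) * x) := by
    intro x
    have h1 := has_pointwise_sum_fourier_series_of_summable hsumm (x : AddCircle P)
    have h2 : HasSum (fun i => fourierCoeff g i • fourier i (x : AddCircle P))
        (∑ n ∈ S, fourierCoeff g n • fourier n (x : AddCircle P)) :=
      hasSum_sum_of_ne_finset_zero fun n hn => by
        rw [hzero n (not_le.1 fun h => hn ((hmem n).2 h)), zero_smul]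
    rw [← hg x, h1.unique h2]
    refine Finset.sum_congr rfl fun n _ => ?_
    rw [smul_eq_mul, fourier_coe_apply]
    congr 2
    push_cast
    ring
  have hall : ∀ z : ℂ, f z = ∑ n ∈ S, fourierCoeff g n *
      Complex.exp (I * ((2 * Real.pi * n / P : ℝ) : ℂ) * z) := by
    intro z
    refine eq_of_real (g := fun z : ℂ => ∑ n ∈ S, fourierCoeff g n *
      Complex.exp (I * ((2 * Real.pi * n / P : ℝ) : ℂ) * z)) hf ?_ hreal z
    fun_prop
  have hinj : Function.Injective (fun n : ℤ => 2 * Real.pi * (n : ℝ) / P) := by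
    intro m n hmn
    have h1 : 2 * Real.pi * (m : ℝ) / P = 2 * Real.pi * (n : ℝ) / P := hmn
    rw [div_left_inj' hP.ne'] at h1
    have h2 := mul_left_cancel₀ hpi.ne' h1
    exact_mod_cast h2
  have hround : ∀ n : ℤ, round (2 * Real.pi * (n : ℝ) / P * P / (2 * Real.pi)) = n := by
    intro n
    have : 2 * Real.pi * (n : ℝ) / P * P / (2 * Real.pi) = (n : ℝ) := by
      field_simp
    rw [this, round_intCast]
  refine ⟨S.image fun n : ℤ => 2 * Real.pi * (n : ℝ) / P,
    fun ω => fourierCoeff g (round (ω * P / (2 * Real.pi))), ?_, ?_⟩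
  · intro ω hω
    obtain ⟨n, hn, rfl⟩ := Finset.mem_image.1 hω
    exact (hmem n).1 hn
  · intro z
    rw [hall z, Finset.sum_image fun x _ y _ h => hinj h]
    refine Finset.sum_congr rfl fun n _ => ?_
    show _ = fourierCoeff g (round (2 * Real.pi * (n : ℝ) / P * P / (2 * Real.pi))) * _
    rw [hround n]

end Pool.Agent.Helper30.FG
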