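import Pool.Agent.Helper30.FG.Defs

set_option autoImplicit false

namespace Pool.Agent.Helper30.FG

open Complex MeasureTheory Set Filter Topology
open Pool.Agent.Helper78.Bern Pool.Agent.Helper45.Bern

namespace A4a

lemma one_sub_exp_nonneg {c t : ℝ} (hc : 0 ≤ c) (ht : 0 ≤ t) : 0 ≤ 1 - Real.exp (-(c * t)) := by
  have : Real.exp (-(c * t)) ≤ 1 := by
    rw [Real.exp_le_one_iff]; nlinarith [mul_nonneg hc ht]
  linarith

lemma one_sub_exp_le (c t : ℝ) : 1 - Real.exp (-(c * t)) ≤ c * t := by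
  have := Real.add_one_le_exp (-(c * t))
  linarith

lemma one_sub_exp_le_one (c t : ℝ) : 1 - Real.exp (-(c * t)) ≤ 1 := by
  have := Real.exp_pos (-(c * t))
  linarith

lemma meas (α c : ℝ) :
    Measurable (fun t : ℝ => t ^ (-α - 1) * (1 - Real.exp (-(c * t)))) := by
  fun_prop

lemma bound_near {α c t : ℝ} (hc : 0 ≤ c) (ht : 0 < t) :
    ‖t ^ (-α - 1) * (1 - Real.exp (-(c * t)))‖ ≤ c * t ^ (-α) := by
  rw [norm_mul, Real.norm_of_nonneg (Real.rpow_nonneg ht.le _),
    Real.norm_of_nonneg (one_sub_exp_nonneg hc ht.le)]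
  calc t ^ (-α - 1) * (1 - Real.exp (-(c * t))) ≤ t ^ (-α - 1) * (c * t) :=
        mul_le_mul_of_nonneg_left (one_sub_exp_le c t) (Real.rpow_nonneg ht.le _)
    _ = c * (t ^ (-α - 1) * t ^ (1 : ℝ)) := by rw [Real.rpow_one]; ring
    _ = c * t ^ (-α) := by rw [← Real.rpow_add ht]; congr 2; ring

lemma bound_far {α c t : ℝ} (hc : 0 ≤ c) (ht : 0 < t) :
    ‖t ^ (-α - 1) * (1 - Real.exp (-(c * t)))‖ ≤ t ^ (-α - 1) := by
  rw [norm_mul, Real.norm_of_nonneg (Real.rpow_nonneg ht.le _),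
    Real.norm_of_nonneg (one_sub_exp_nonneg hc ht.le)]
  calc t ^ (-α - 1) * (1 - Real.exp (-(c * t))) ≤ t ^ (-α - 1) * 1 :=
        mul_le_mul_of_nonneg_left (one_sub_exp_le_one c t) (Real.rpow_nonneg ht.le _)
    _ = t ^ (-α - 1) := mul_one _

end A4a

/-- **A4a** -/
theorem integrable_exp_kernel {α : ℝ} (h0 : 0 < α) (h1 : α < 1) {c : ℝ} (hc : 0 ≤ c) :
    IntegrableOn (fun t : ℝ => t ^ (-α - 1) * (1 - Real.exp (-(c * t)))) (Ioi 0) := by
  have hsplit : Ioi (0 : ℝ) = Ioc 0 1 ∪ Ioi 1 := (Ioc_union_Ioi_eq_Ioi zero_le_one).symm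
  rw [hsplit]
  refine IntegrableOn.union ?_ ?_
  · have hI : IntegrableOn (fun t : ℝ => c * t ^ (-α)) (Ioc 0 1) := by
      have h := (intervalIntegral.intervalIntegrable_rpow' (a := 0) (b := 1) (r := -α)
        (by linarith))
      rw [intervalIntegrable_iff_integrableOn_Ioc_of_le zero_le_one] at h
      exact h.const_mul c
    refine Integrable.mono' hI (A4a.meas α c).aestronglyMeasurable ?_
    refine (ae_restrict_iff' measurableSet_Ioc).2 (Eventually.of_forall fun t ht => ?_)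
    exact A4a.bound_near hc ht.1
  · have hI : IntegrableOn (fun t : ℝ => t ^ (-α - 1)) (Ioi 1) :=
      integrableOn_Ioi_rpow_of_lt (by linarith) one_pos
    refine Integrable.mono' hI (A4a.meas α c).aestronglyMeasurable ?_
    refine (ae_restrict_iff' measurableSet_Ioi).2 (Eventually.of_forall fun t ht => ?_)
    exact A4a.bound_far hc (lt_trans one_pos ht)

theorem integral_exp_kernel {α : ℝ} (h0 : 0 < α) (h1 : α < 1) {c : ℝ} (hc : 0 ≤ c) :
    α / Real.Gamma (1 - α) *
      ∫ t in Ioi (0 : ℝ), t ^ (-α - 1) * (1 - Real.exp (-(c * t))) = c ^ α := by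
  rcases hc.eq_or_lt with rfl | hc0
  · simp [Real.zero_rpow h0.ne']
  have hG : 0 < Real.Gamma (1 - α) := Real.Gamma_pos_of_pos (by linarith)
  set u : ℝ → ℝ := fun t => 1 - Real.exp (-(c * t)) with hu
  set u' : ℝ → ℝ := fun t => c * Real.exp (-(c * t)) with hu'
  set v : ℝ → ℝ := fun t => -(t ^ (-α)) / α with hv
  set v' : ℝ → ℝ := fun t => t ^ (-α - 1) with hv'
  have hGi : IntegrableOn (fun t : ℝ => t ^ (1 - α - 1) * Real.exp (-(c * t))) (Ioi 0) := by
    have hval := Real.integral_rpow_mul_exp_neg_mul_Ioi (a := 1 - α) (r := c) (by linarith) hc0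
    by_contra hcon
    rw [integral_undef hcon] at hval
    have : 0 < (1 / c) ^ (1 - α) * Real.Gamma (1 - α) := by positivity
    linarith
  have hderu : ∀ x ∈ Ioi (0 : ℝ), HasDerivAt u (u' x) x := by
    intro x _
    have h1 : HasDerivAt (fun t : ℝ => -(c * t)) (-(c * 1)) x :=
      ((hasDerivAt_id x).const_mul c).neg
    have h2 := (h1.exp).const_sub 1
    have h3 : u' x = -(Real.exp (-(c * x)) * -(c * 1)) := by
      simp only [hu']; ring
    rw [h3]
    exact h2
  have hderv : ∀ x ∈ Ioi (0 : ℝ), HasDerivAt v (v' x) x := by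
    intro x hx
    have h1 := Real.hasDerivAt_rpow_const (x := x) (p := -α) (Or.inl (ne_of_gt hx))
    have h2 := (h1.neg).div_const α
    have h3 : v' x = -(-α * x ^ (-α - 1)) / α := by
      simp only [hv']
      field_simp
    rw [h3]
    exact h2
  have huv' : IntegrableOn (u * v') (Ioi 0) := by
    have := integrable_exp_kernel h0 h1 hc
    refine this.congr_fun (fun t _ => ?_) measurableSet_Ioi
    simp only [hu, hv', Pi.mul_apply]; ring
  have hu'v : IntegrableOn (u' * v) (Ioi 0) := by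
    have h2 := hGi.const_mul (-c / α)
    refine IntegrableOn.congr_fun h2 (fun t _ => ?_) measurableSet_Ioi
    simp only [hu', hv, Pi.mul_apply]
    rw [show (1 - α - 1) = -α by ring]
    ring
  have hlim0 : Tendsto (u * v) (𝓝[>] 0) (𝓝 0) := by
    have hb : Tendsto (fun t : ℝ => c / α * t ^ (1 - α)) (𝓝[>] 0) (𝓝 0) := by
      have h2 : Tendsto (fun t : ℝ => t ^ (1 - α)) (𝓝 0) (𝓝 ((0 : ℝ) ^ (1 - α))) :=
        (Real.continuousAt_rpow_const 0 (1 - α) (Or.inr (by linarith))).tendsto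
      rw [Real.zero_rpow (by linarith)] at h2
      have h3 := (h2.mono_left nhdsWithin_le_nhds : Tendsto _ (𝓝[>] (0 : ℝ)) _).const_mul (c / α)
      simpa using h3
    refine squeeze_zero_norm' ?_ hb
    filter_upwards [self_mem_nhdsWithin] with t ht
    have ht0 : (0 : ℝ) < t := ht
    simp only [Pi.mul_apply, hu, hv, norm_mul, norm_div, norm_neg]
    rw [Real.norm_of_nonneg (A4a.one_sub_exp_nonneg hc ht0.le),
      Real.norm_of_nonneg (Real.rpow_nonneg ht0.le _), Real.norm_of_nonneg h0.le]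
    calc (1 - Real.exp (-(c * t))) * (t ^ (-α) / α) ≤ (c * t) * (t ^ (-α) / α) :=
          mul_le_mul_of_nonneg_right (A4a.one_sub_exp_le c t) (by positivity)
      _ = c / α * (t ^ (1 : ℝ) * t ^ (-α)) := by rw [Real.rpow_one]; ring
      _ = c / α * t ^ (1 - α) := by rw [← Real.rpow_add ht0]; congr 2
  have hlimT : Tendsto (u * v) atTop (𝓝 0) := by
    have hb : Tendsto (fun t : ℝ => t ^ (-α) / α) atTop (𝓝 0) := by
      simpa using (tendsto_rpow_neg_atTop h0).div_const α
    refine squeeze_zero_norm' ?_ hb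
    filter_upwards [eventually_gt_atTop 0] with t ht0
    simp only [Pi.mul_apply, hu, hv, norm_mul, norm_div, norm_neg]
    rw [Real.norm_of_nonneg (A4a.one_sub_exp_nonneg hc ht0.le),
      Real.norm_of_nonneg (Real.rpow_nonneg ht0.le _), Real.norm_of_nonneg h0.le]
    calc (1 - Real.exp (-(c * t))) * (t ^ (-α) / α) ≤ 1 * (t ^ (-α) / α) :=
          mul_le_mul_of_nonneg_right (A4a.one_sub_exp_le_one c t) (by positivity)
      _ = t ^ (-α) / α := one_mul _
  have key := integral_Ioi_mul_deriv_eq_deriv_mul hderu hderv huv' hu'v hlim0 hlimT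
  have hval := Real.integral_rpow_mul_exp_neg_mul_Ioi (a := 1 - α) (r := c) (by linarith) hc0
  have h3 : ∫ x in Ioi (0 : ℝ), u' x * v x = -(c / α) * ((1 / c) ^ (1 - α) * Real.Gamma (1 - α)) := by
    rw [← hval, ← integral_const_mul]
    refine setIntegral_congr_fun measurableSet_Ioi (fun t _ => ?_)
    simp only [hu', hv]
    rw [show (1 - α - 1) = -α by ring]
    ring
  have h4 : ∫ t in Ioi (0 : ℝ), t ^ (-α - 1) * (1 - Real.exp (-(c * t))) =
      ∫ x in Ioi (0 : ℝ), u x * v' x := by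
    refine setIntegral_congr_fun measurableSet_Ioi (fun t _ => ?_)
    simp only [hu, hv']; ring
  rw [h4, key, h3]
  have h5 : c * (1 / c) ^ (1 - α) = c ^ α := by
    rw [one_div, Real.inv_rpow hc0.le, ← Real.rpow_neg hc0.le]
    calc c * c ^ (-(1 - α)) = c ^ (1 : ℝ) * c ^ (-(1 - α)) := by rw [Real.rpow_one]
      _ = c ^ α := by rw [← Real.rpow_add hc0]; congr 1; ring
  rw [← h5]
  field_simp
  ring

end Pool.Agent.Helper30.FG
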