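import Pool.Agent.Helper30.FG.A6

set_option autoImplicit false

namespace Pool.Agent.Helper30.FG

open Complex MeasureTheory Set Filter Topology
open Pool.Agent.Helper78.Bern Pool.Agent.Helper45.Bern

namespace A7

/-- the conjugate function -/
noncomputable def cj (v : ℂ → ℂ) (z : ℂ) : ℂ := (starRingEnd ℂ) (v ((starRingEnd ℂ) z))

theorem cj_diff {v : ℂ → ℂ} (hv : Differentiable ℂ v) : Differentiable ℂ (cj v) := by
  intro z
  have h : DifferentiableAt ℂ ((starRingEnd ℂ) ∘ v ∘ (starRingEnd ℂ)) z :=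
    differentiableAt_conj_conj_iff.2 (hv _)
  exact h

theorem cj_norm (v : ℂ → ℂ) (z : ℂ) : ‖cj v z‖ = ‖v ((starRingEnd ℂ) z)‖ := by
  unfold cj
  rw [RCLike.norm_conj]

theorem cj_odd {v : ℂ → ℂ} (hodd : ∀ z : ℂ, v (-z) = -v z) (z : ℂ) : cj v (-z) = -cj v z := by
  unfold cj
  rw [map_neg, hodd, map_neg]

/-- entire functions which agree on the reals are equal -/
theorem eq_of_real {f g : ℂ → ℂ} (hf : Differentiable ℂ f) (hg : Differentiable ℂ g)
    (h : ∀ x : ℝ, f (x : ℂ) = g (x : ℂ)) : f = g := by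
  refine AnalyticOnNhd.eq_of_frequently_eq (𝕜 := ℂ) (z₀ := 0) (fun z _ => hf.analyticAt z)
    (fun z _ => hg.analyticAt z) ?_
  have h1 : Tendsto (fun x : ℝ => (x : ℂ)) (𝓝[≠] 0) (𝓝[≠] 0) := by
    refine tendsto_nhdsWithin_iff.2 ⟨?_, ?_⟩
    · have : Tendsto (fun x : ℝ => (x : ℂ)) (𝓝 0) (𝓝 ((0 : ℝ) : ℂ)) :=
        Complex.continuous_ofReal.tendsto 0
      rw [Complex.ofReal_zero] at this
      exact this.mono_left nhdsWithin_le_nhds
    · filter_upwards [self_mem_nhdsWithin] with x hx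
      simpa using hx
  exact h1.frequently (Frequently.of_forall h)

theorem W_real (v : ℂ → ℂ) (x : ℝ) :
    v (x : ℂ) * (starRingEnd ℂ) (v ((starRingEnd ℂ) (x : ℂ))) = ((‖v (x : ℂ)‖ ^ 2 : ℝ) : ℂ) := by
  rw [Complex.conj_ofReal, Complex.mul_conj, Complex.normSq_eq_norm_sq]

theorem W_imag {v : ℂ → ℂ} (hodd : ∀ z : ℂ, v (-z) = -v z) (t : ℝ) :
    v ((t : ℂ) * I) * (starRingEnd ℂ) (v ((starRingEnd ℂ) ((t : ℂ) * I))) =
      ((-‖v ((t : ℂ) * I)‖ ^ 2 : ℝ) : ℂ) := by
  have h1 : (starRingEnd ℂ) ((t : ℂ) * I) = -((t : ℂ) * I) := by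
    rw [map_mul, Complex.conj_ofReal, Complex.conj_I]
    ring
  rw [h1, hodd, map_neg, mul_neg, Complex.mul_conj, Complex.normSq_eq_norm_sq]
  push_cast
  ring

theorem poisson_integrable {t : ℝ} (ht : 0 < t) : Integrable (fun x : ℝ => t / (x ^ 2 + t ^ 2)) := by
  have h := (integrable_inv_one_add_sq.comp_div ht.ne').const_mul t⁻¹
  refine h.congr (Eventually.of_forall fun x => ?_)
  simp only
  field_simp
  ring

theorem Pois_pos {v : ℂ → ℂ} {M : ℝ} (hv : IsB (1 / 2) M v) (hne : ∃ z : ℂ, v z ≠ 0) {t : ℝ}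
    (ht : 0 < t) :
    0 < Pois t (fun z => v z * (starRingEnd ℂ) (v ((starRingEnd ℂ) z))) := by
  unfold Pois
  have hcv : Continuous fun x : ℝ => v (x : ℂ) := hv.diff.continuous.comp Complex.continuous_ofReal
  refine mul_pos (by positivity) ?_
  have hre : ∀ x : ℝ, (v (x : ℂ) * (starRingEnd ℂ) (v ((starRingEnd ℂ) (x : ℂ)))).re =
      ‖v (x : ℂ)‖ ^ 2 := by
    intro x
    rw [W_real, Complex.ofReal_re]
  simp only [hre]
  have hcont : Continuous fun x : ℝ => t / (x ^ 2 + t ^ 2) * ‖v (x : ℂ)‖ ^ 2 := by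
    refine Continuous.mul (Continuous.div continuous_const (by fun_prop) fun x => ?_)
      (hcv.norm.pow 2)
    positivity
  have hint : Integrable fun x : ℝ => t / (x ^ 2 + t ^ 2) * ‖v (x : ℂ)‖ ^ 2 := by
    refine ((poisson_integrable ht).mul_const (M ^ 2)).mono' hcont.aestronglyMeasurable
      (Eventually.of_forall fun x => ?_)
    rw [Real.norm_of_nonneg (by positivity)]
    exact mul_le_mul_of_nonneg_left
      (pow_le_pow_left₀ (norm_nonneg _) (hv.real_le x) 2) (by positivity)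
  obtain ⟨x₀, hx₀⟩ : ∃ x : ℝ, v (x : ℂ) ≠ 0 := by
    by_contra hcon
    push Not at hcon
    obtain ⟨z, hz⟩ := hne
    have : v = fun _ => 0 := eq_of_real hv.diff (differentiable_const 0) hcon
    exact hz (by rw [this])
  refine integral_pos_of_integrable_nonneg_nonzero hcont hint (fun x => ?_) (x := x₀) ?_
  · simp only [Pi.zero_apply]
    positivity
  · have h1 : 0 < ‖v (x₀ : ℂ)‖ := norm_pos_iff.2 hx₀
    positivity

end A7

theorem isE_mul_star {a M : ℝ} {v : ℂ → ℂ} (hv : IsB a M v) (hodd : ∀ z : ℂ, v (-z) = -v z) :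
    IsE (2 * a) (M ^ 2) (fun z => v z * (starRingEnd ℂ) (v ((starRingEnd ℂ) z))) := by
  refine ⟨⟨hv.diff.mul (A7.cj_diff hv.diff), fun z => ?_⟩, fun z => ?_, fun x => ?_⟩
  · have h1 : ‖v ((starRingEnd ℂ) z)‖ ≤ M * Real.exp (a * |z.im|) := by
      have h := hv.bd ((starRingEnd ℂ) z)
      rwa [Complex.conj_im, abs_neg] at h
    rw [norm_mul, RCLike.norm_conj]
    calc ‖v z‖ * ‖v ((starRingEnd ℂ) z)‖
        ≤ (M * Real.exp (a * |z.im|)) * (M * Real.exp (a * |z.im|)) :=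
          mul_le_mul (hv.bd z) h1 (norm_nonneg _) (mul_nonneg hv.nonneg (Real.exp_pos _).le)
      _ = M ^ 2 * (Real.exp (a * |z.im|) * Real.exp (a * |z.im|)) := by ring
      _ = M ^ 2 * Real.exp (2 * a * |z.im|) := by
          rw [← Real.exp_add]
          congr 2
          ring
  · have h := A7.cj_odd hodd z
    unfold A7.cj at h
    simp only [hodd z, h]
    ring
  · rw [A7.W_real, Complex.ofReal_im]

/-- **A7**: odd positivity, complex form. `W z = v z * conj (v (conj z))`. -/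
theorem odd_pos_strict {α : ℝ} (h0 : 0 < α) (h1 : α < 1) {M : ℝ} {v : ℂ → ℂ}
    (hv : IsB (1 / 2) M v) (hodd : ∀ z : ℂ, v (-z) = -v z) (hne : ∃ z : ℂ, v z ≠ 0) :
    0 < Lf α (fun z => v z * (starRingEnd ℂ) (v ((starRingEnd ℂ) z))) := by
  set W : ℂ → ℂ := fun z => v z * (starRingEnd ℂ) (v ((starRingEnd ℂ) z)) with hW
  have hE : IsE 1 (M ^ 2) W := by
    have h := isE_mul_star hv hodd
    norm_num at h
    exact h
  rw [Lf_eq_Lr h0 h1 hE]
  unfold Lr
  have hv0 : v 0 = 0 := by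
    have h := hodd 0
    rw [neg_zero] at h
    have h2 : (2 : ℂ) * v 0 = 0 := by linear_combination h
    simpa using h2
  have hW0 : (W 0).re = 0 := by
    simp [hW, hv0]
  have hbrk : ∀ t : ℝ, 0 < t → 0 < brk W t := by
    intro t ht
    unfold brk
    have h2 : (W ((t : ℂ) * I)).re = -‖v ((t : ℂ) * I)‖ ^ 2 := by
      rw [hW]
      simp only
      rw [A7.W_imag hodd, Complex.ofReal_re]
    have h3 := A7.Pois_pos hv hne ht
    have h4 : 0 < Real.exp (-t) * Pois t W := mul_pos (Real.exp_pos _) h3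
    have h5 : 0 ≤ Real.exp (-t) * ‖v ((t : ℂ) * I)‖ ^ 2 := by positivity
    rw [hW0, h2]
    nlinarith
  have hG : 0 < Real.Gamma (1 - α) := Real.Gamma_pos_of_pos (by linarith)
  refine mul_pos (div_pos h0 hG) ?_
  have hint := integrableOn_brk h0 h1 hE
  rw [setIntegral_pos_iff_support_of_nonneg_ae]
  · have hsub : Ioi (0 : ℝ) ⊆ Function.support (fun t : ℝ => t ^ (-α - 1) * brk W t) ∩ Ioi 0 := by
      intro t ht
      refine ⟨?_, ht⟩
      rw [Function.mem_support]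
      exact (mul_pos (Real.rpow_pos_of_pos ht _) (hbrk t ht)).ne'
    refine lt_of_lt_of_le ?_ (measure_mono hsub)
    rw [Real.volume_Ioi]
    exact ENNReal.coe_lt_top.trans_eq rfl
  · filter_upwards [ae_restrict_mem measurableSet_Ioi] with t ht
    exact (mul_pos (Real.rpow_pos_of_pos ht _) (hbrk t ht)).le
  · exact hint

theorem odd_pos {α : ℝ} (h0 : 0 < α) (h1 : α < 1) {M : ℝ} {v : ℂ → ℂ}
    (hv : IsB (1 / 2) M v) (hodd : ∀ z : ℂ, v (-z) = -v z) (hreal : ∀ x : ℝ, (v (x : ℂ)).im = 0) :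
    0 ≤ Lf α (fun z => v z ^ 2) := by
  have hcj : v = A7.cj v := by
    refine A7.eq_of_real hv.diff (A7.cj_diff hv.diff) fun x => ?_
    unfold A7.cj
    rw [Complex.conj_ofReal]
    exact (Complex.conj_eq_iff_im.2 (hreal x)).symm
  by_cases hne : ∃ z : ℂ, v z ≠ 0
  · have h := odd_pos_strict h0 h1 hv hodd hne
    have h2 : (fun z => v z * (starRingEnd ℂ) (v ((starRingEnd ℂ) z))) = fun z => v z ^ 2 := by
      funext z
      have h3 := congrFun hcj z
      unfold A7.cj at h3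
      rw [← h3]
      ring
    rw [h2] at h
    exact h.le
  · push Not at hne
    unfold Lf
    simp [hne]

end Pool.Agent.Helper30.FG
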