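import Pool.Agent.Helper30.FG.A3

set_option autoImplicit false

namespace Pool.Agent.Helper30.FG

open Complex MeasureTheory Set Filter Topology
open Pool.Agent.Helper78.Bern Pool.Agent.Helper45.Bern

namespace B1a

private theorem fact2 : Fact ((0 : ℝ) < 2) := ⟨by norm_num⟩

attribute [local instance] fact2

/-- the 2-periodic function -/
private noncomputable def ff (b : ℝ) (ω : ℝ) : ℂ :=
  Complex.exp (I * ((ω * b : ℝ) : ℂ)) * (I * ω * Real.sin b - Real.cos b)

private theorem ff_cont (b : ℝ) : Continuous (ff b) := by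
  unfold ff; fun_prop

private theorem expI (b : ℝ) : Complex.exp (I * (b : ℂ)) = Real.cos b + I * Real.sin b := by
  rw [mul_comm, Complex.exp_mul_I, Complex.ofReal_cos, Complex.ofReal_sin]; ring

private theorem expI' (b : ℝ) : Complex.exp (-(I * (b : ℂ))) = Real.cos b - I * Real.sin b := by
  have h : -(I * (b : ℂ)) = I * ((-b : ℝ) : ℂ) := by push_cast; ring
  rw [h, expI, Real.cos_neg, Real.sin_neg]; push_cast; ring

private theorem cs1 (b : ℝ) : ((Real.cos b : ℝ) : ℂ) ^ 2 + ((Real.sin b : ℝ) : ℂ) ^ 2 = 1 := by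
  have := Real.cos_sq_add_sin_sq b
  exact_mod_cast this

private theorem ff_one (b : ℝ) : ff b 1 = -1 := by
  unfold ff
  rw [one_mul, expI]
  push_cast
  have h := cs1 b
  push_cast at h
  linear_combination (-1 : ℂ) * h + (Complex.sin b) ^ 2 * Complex.I_sq

private theorem ff_neg_one (b : ℝ) : ff b (-1) = -1 := by
  unfold ff
  have h0 : I * (((-1) * b : ℝ) : ℂ) = -(I * (b : ℂ)) := by push_cast; ring
  rw [h0, expI']
  push_cast
  have h := cs1 b
  push_cast at h
  linear_combination (-1 : ℂ) * h + (Complex.sin b) ^ 2 * Complex.I_sq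

/-- as a continuous function on the circle of length 2 -/
private noncomputable def fc (b : ℝ) : C(AddCircle (2 : ℝ), ℂ) :=
  ⟨AddCircle.liftIco 2 (-1) (ff b), AddCircle.liftIco_continuous
    (by rw [ff_neg_one]; norm_num; rw [ff_one]) (ff_cont b).continuousOn⟩

private theorem npi_ne {b : ℝ} (hb : Real.sin b ≠ 0) (n : ℤ) : (n * Real.pi - b : ℝ) ≠ 0 := by
  intro h
  apply hb
  have : b = n * Real.pi := by linarith
  rw [this, Real.sin_int_mul_pi]

private theorem exp_npi (n : ℤ) : Complex.exp (I * ((n * Real.pi : ℝ) : ℂ)) = ((-1 : ℝ) ^ n : ℝ) := by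
  rw [expI, Real.sin_int_mul_pi, Real.cos_int_mul_pi]; simp

private theorem coef {b : ℝ} (hb : Real.sin b ≠ 0) (n : ℤ) :
    fourierCoeff (fc b) n =
      (((-1 : ℝ) ^ (n - 1) * Real.sin b ^ 2 / (n * Real.pi - b) ^ 2 : ℝ) : ℂ) := by
  have h0 : fourierCoeff (fc b) n =
      fourierCoeffOn (lt_add_of_pos_right (-1 : ℝ) fact2.out) (ff b) n :=
    fourierCoeff_liftIco_eq (T := 2) (a := -1) (ff b) n
  rw [h0, fourierCoeffOn_eq_integral]
  set c : ℝ := b - n * Real.pi with hc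
  have hc0 : (c : ℂ) ≠ 0 := by
    have := npi_ne hb n
    have h : c ≠ 0 := by rw [hc]; intro h; apply this; linarith
    exact_mod_cast h
  have e1 : ∀ x : ℝ, fourier (-n) (x : AddCircle ((-1 : ℝ) + 2 - -1)) • ff b x =
      Complex.exp (I * c * x) * (I * x * Real.sin b - Real.cos b) := by
    intro x
    rw [fourier_coe_apply, smul_eq_mul]
    unfold ff
    rw [← mul_assoc, ← Complex.exp_add]
    congr 2
    rw [hc]; push_cast; ring
  simp_rw [e1]
  have e0 : (-1 : ℝ) + 2 = 1 := by norm_num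
  rw [e0]
  have hd : ∀ x ∈ uIcc (-1 : ℝ) 1, HasDerivAt (fun x : ℝ => Complex.exp (I * c * x) *
      ((I * x * Real.sin b - Real.cos b) / (I * c) + I * Real.sin b / c ^ 2))
      (Complex.exp (I * c * x) * (I * x * Real.sin b - Real.cos b)) x := by
    intro x _
    have h1 : HasDerivAt (fun x : ℝ => (x : ℂ)) 1 x := Complex.ofRealCLM.hasDerivAt
    have h2 : HasDerivAt (fun x : ℝ => Complex.exp (I * c * x))
        (Complex.exp (I * c * x) * (I * c * 1)) x := (h1.const_mul (I * (c : ℂ))).cexp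
    have h3 : HasDerivAt (fun x : ℝ => ((I * x * Real.sin b - Real.cos b) / (I * c) +
        I * Real.sin b / c ^ 2)) ((I * 1 * Real.sin b) / (I * c)) x := by
      exact (((((h1.const_mul I).mul_const ((Real.sin b : ℝ) : ℂ)).sub_const _).div_const _).add_const _)
    have h4 := h2.mul h3
    refine h4.congr_deriv ?_
    have hI : (I : ℂ) ≠ 0 := Complex.I_ne_zero
    have k1 : I * (c : ℂ) * 1 * ((I * x * Real.sin b - Real.cos b) / (I * c)) =
        I * x * Real.sin b - Real.cos b := by field_simp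
    have k2 : I * (c : ℂ) * 1 * (I * Real.sin b / c ^ 2) + I * 1 * Real.sin b / (I * c) = 0 := by
      field_simp
      rw [Complex.I_sq]; ring
    linear_combination (Complex.exp (I * c * x)) * k1 + Complex.exp (I * c * x) * k2
  rw [intervalIntegral.integral_eq_sub_of_hasDerivAt hd
    ((by fun_prop : Continuous fun x : ℝ => Complex.exp (I * c * x) *
      (I * x * Real.sin b - Real.cos b)).intervalIntegrable _ _)]
  have hs : Complex.exp (I * ((n * Real.pi : ℝ) : ℂ)) = ((-1 : ℝ) ^ n : ℝ) := exp_npi n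
  have hs' : Complex.exp (-(I * ((n * Real.pi : ℝ) : ℂ))) = ((-1 : ℝ) ^ n : ℝ) := by
    rw [Complex.exp_neg, hs, ← Complex.ofReal_inv, ← inv_zpow]; norm_num
  have e2 : Complex.exp (I * c * (1 : ℝ)) =
      ((-1 : ℝ) ^ n : ℝ) * (Real.cos b + I * Real.sin b) := by
    rw [← hs', ← expI, ← Complex.exp_add]
    congr 1
    rw [hc]; push_cast; ring
  have e3 : Complex.exp (I * c * (-1 : ℝ)) =
      ((-1 : ℝ) ^ n : ℝ) * (Real.cos b - I * Real.sin b) := by
    rw [← hs, ← expI', ← Complex.exp_add]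
    congr 1
    rw [hc]; push_cast; ring
  rw [e2, e3]
  have e4 : ((-1 : ℝ) ^ (n - 1)) = -((-1 : ℝ) ^ n) := by
    rw [zpow_sub_one₀ (by norm_num)]; norm_num
  have e5 : (n * Real.pi - b) ^ 2 = c ^ 2 := by rw [hc]; ring
  rw [e4, e5]
  rw [Complex.real_smul]
  generalize ((-1 : ℝ) ^ n) = s
  generalize Real.sin b = S at *
  generalize Real.cos b = C at *
  push_cast
  have hI : (I : ℂ) ≠ 0 := Complex.I_ne_zero
  field_simp
  linear_combination (2 * (s : ℂ) * (S : ℂ) ^ 2 * I) * Complex.I_sq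

private theorem summable_w (b : ℝ) :
    Summable (fun n : ℤ => Real.sin b ^ 2 / (n * Real.pi - b) ^ 2) := by
  have h := (Real.summable_one_div_int_add_rpow (-(b / Real.pi)) 2).2 (by norm_num)
  have h2 := h.mul_left (Real.sin b ^ 2 / Real.pi ^ 2)
  refine h2.congr fun n => ?_
  have hp := Real.pi_ne_zero
  have e : (n * Real.pi - b : ℝ) = Real.pi * (n + -(b / Real.pi)) := by field_simp; ring
  rw [e, mul_pow, Real.rpow_two, sq_abs]
  rw [div_mul_div_comm, mul_one]

private theorem boas_exp_aux {b ω : ℝ} (hb : Real.sin b ≠ 0) (hω : |ω| ≤ 1) :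
    HasSum (fun n : ℤ => (((-1 : ℝ) ^ (n - 1) * Real.sin b ^ 2 / (n * Real.pi - b) ^ 2 : ℝ) : ℂ) *
        Complex.exp (I * ((ω * (n * Real.pi - b) : ℝ) : ℂ)))
      (I * ω * Real.sin b - Real.cos b) := by
  have hsum : Summable (fourierCoeff (fc b)) := by
    have h := summable_w b
    refine Summable.of_norm_bounded h fun n => ?_
    rw [coef hb, Complex.norm_real, Real.norm_eq_abs, abs_div, abs_mul, abs_zpow, abs_neg, abs_one,
      one_zpow, one_mul, abs_of_nonneg (sq_nonneg _), abs_of_nonneg (sq_nonneg _)]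
  have h := has_pointwise_sum_fourier_series_of_summable hsum ((ω : ℝ) : AddCircle (2 : ℝ))
  have hval : fc b ((ω : ℝ) : AddCircle (2 : ℝ)) = ff b ω := by
    have hω' := abs_le.1 hω
    rcases eq_or_lt_of_le hω'.2 with h1 | h1
    · have h2 : ((1 : ℝ) : AddCircle (2 : ℝ)) = ((-1 : ℝ) : AddCircle (2 : ℝ)) := by
        have := AddCircle.coe_add_period (2 : ℝ) (-1)
        rw [← this]; norm_num
      rw [h1, h2]
      change AddCircle.liftIco 2 (-1) (ff b) _ = _
      rw [AddCircle.liftIco_coe_apply (by constructor <;> norm_num), ff_neg_one, ff_one]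
    · change AddCircle.liftIco 2 (-1) (ff b) _ = _
      rw [AddCircle.liftIco_coe_apply (by constructor <;> linarith [hω'.1])]
  rw [hval] at h
  have h2 := h.mul_right (Complex.exp (-(I * ((ω * b : ℝ) : ℂ))))
  have e : ff b ω * Complex.exp (-(I * ((ω * b : ℝ) : ℂ))) = I * ω * Real.sin b - Real.cos b := by
    unfold ff
    rw [mul_right_comm, ← Complex.exp_add, add_neg_cancel, Complex.exp_zero, one_mul]
  rw [e] at h2
  have h3 : (fun n : ℤ => (((-1 : ℝ) ^ (n - 1) * Real.sin b ^ 2 / (n * Real.pi - b) ^ 2 : ℝ) : ℂ) *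
        Complex.exp (I * ((ω * (n * Real.pi - b) : ℝ) : ℂ))) =
      fun n : ℤ => fourierCoeff (fc b) n • fourier n ((ω : ℝ) : AddCircle (2 : ℝ)) *
        Complex.exp (-(I * ((ω * b : ℝ) : ℂ))) := by
    funext n
    rw [coef hb, fourier_coe_apply, smul_eq_mul, mul_assoc, ← Complex.exp_add]
    congr 2
    push_cast; ring
  rw [h3]; exact h2

private theorem boas_weights_aux {b : ℝ} (hb : Real.sin b ≠ 0) :
    HasSum (fun n : ℤ => Real.sin b ^ 2 / (n * Real.pi - b) ^ 2) 1 := by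
  have h := (boas_exp_aux hb (ω := 1) (by norm_num)).mul_right (-Complex.exp (I * (b : ℂ)))
  have e : (I * ((1 : ℝ) : ℂ) * Real.sin b - Real.cos b) * (-Complex.exp (I * (b : ℂ))) = 1 := by
    have := ff_one b
    unfold ff at this
    rw [one_mul] at this
    linear_combination -this
  rw [e] at h
  have h3 : (fun n : ℤ => ((Real.sin b ^ 2 / (n * Real.pi - b) ^ 2 : ℝ) : ℂ)) =
      (fun n : ℤ => (((-1 : ℝ) ^ (n - 1) * Real.sin b ^ 2 / (n * Real.pi - b) ^ 2 : ℝ) : ℂ) *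
        Complex.exp (I * ((1 * (n * Real.pi - b) : ℝ) : ℂ)) * (-Complex.exp (I * (b : ℂ)))) := by
    funext n
    have e1 : Complex.exp (I * ((1 * (n * Real.pi - b) : ℝ) : ℂ)) * Complex.exp (I * (b : ℂ)) =
        (((-1 : ℝ) ^ n : ℝ) : ℂ) := by
      rw [← exp_npi, ← Complex.exp_add]
      congr 1
      push_cast; ring
    have e4 : ((-1 : ℝ) ^ (n - 1)) = -((-1 : ℝ) ^ n) := by
      rw [zpow_sub_one₀ (by norm_num)]; norm_num
    have e5 : (((-1 : ℝ) ^ n) * ((-1 : ℝ) ^ n) : ℝ) = 1 := by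
      rw [← mul_zpow]; norm_num
    rw [mul_neg, mul_assoc, e1, e4, ← Complex.ofReal_mul, ← Complex.ofReal_neg]
    congr 1
    rw [div_mul_eq_mul_div, ← neg_div]
    congr 1
    linear_combination (-(Real.sin b) ^ 2) * e5
  have h2 : HasSum (fun n : ℤ => ((Real.sin b ^ 2 / (n * Real.pi - b) ^ 2 : ℝ) : ℂ)) ((1 : ℝ) : ℂ) := by
    rw [Complex.ofReal_one, h3]
    exact h
  exact (Complex.hasSum_ofReal).1 h2

/-- the weights -/
private noncomputable def wt (b : ℝ) (n : ℤ) : ℝ :=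
  (-1 : ℝ) ^ (n - 1) * Real.sin b ^ 2 / (n * Real.pi - b) ^ 2

private theorem wt_norm (b : ℝ) (n : ℤ) :
    ‖((wt b n : ℝ) : ℂ)‖ = Real.sin b ^ 2 / (n * Real.pi - b) ^ 2 := by
  unfold wt
  rw [Complex.norm_real, Real.norm_eq_abs, abs_div, abs_mul, abs_zpow, abs_neg, abs_one,
      one_zpow, one_mul, abs_of_nonneg (sq_nonneg _), abs_of_nonneg (sq_nonneg _)]

/-- Boas' formula for trigonometric sums -/
private theorem boas_trig {T : ℂ → ℂ} (hT : IsTrig 1 T) {b : ℝ} (hb : Real.sin b ≠ 0) (x : ℝ) :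
    HasSum (fun n : ℤ => ((wt b n : ℝ) : ℂ) * T ((x + n * Real.pi - b : ℝ) : ℂ))
      (deriv T (x : ℂ) * Real.sin b - T (x : ℂ) * Real.cos b) := by
  obtain ⟨F, c, hF, hT⟩ := hT
  have hTe : T = fun z => ∑ ω ∈ F, c ω * Complex.exp (I * (ω : ℂ) * z) := funext hT
  have hd : HasDerivAt T (∑ ω ∈ F, c ω * (Complex.exp (I * (ω : ℂ) * x) * (I * ω))) (x : ℂ) := by
    rw [hTe]
    apply HasDerivAt.fun_sum
    intro ω _
    have h1 : HasDerivAt (fun z : ℂ => Complex.exp (I * (ω : ℂ) * z))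
        (Complex.exp (I * (ω : ℂ) * x) * (I * ω * 1)) (x : ℂ) :=
      ((hasDerivAt_id (x : ℂ)).const_mul (I * (ω : ℂ))).cexp
    rw [mul_one] at h1
    exact h1.const_mul (c ω)
  rw [hd.deriv, hT]
  have hs : HasSum (fun n : ℤ => ∑ ω ∈ F, c ω * Complex.exp (I * (ω : ℂ) * x) *
      (((wt b n : ℝ) : ℂ) * Complex.exp (I * ((ω * (n * Real.pi - b) : ℝ) : ℂ))))
      (∑ ω ∈ F, c ω * Complex.exp (I * (ω : ℂ) * x) * (I * ω * Real.sin b - Real.cos b)) := by
    apply hasSum_sum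
    intro ω hω
    exact (boas_exp_aux hb (hF ω hω)).mul_left _
  have e1 : (∑ ω ∈ F, c ω * (Complex.exp (I * (ω : ℂ) * x) * (I * ω))) * Real.sin b -
      (∑ ω ∈ F, c ω * Complex.exp (I * (ω : ℂ) * x)) * Real.cos b =
      ∑ ω ∈ F, c ω * Complex.exp (I * (ω : ℂ) * x) * (I * ω * Real.sin b - Real.cos b) := by
    rw [Finset.sum_mul, Finset.sum_mul, ← Finset.sum_sub_distrib]
    refine Finset.sum_congr rfl fun ω _ => ?_
    ring
  have e2 : (fun n : ℤ => ((wt b n : ℝ) : ℂ) * T ((x + n * Real.pi - b : ℝ) : ℂ)) =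
      fun n : ℤ => ∑ ω ∈ F, c ω * Complex.exp (I * (ω : ℂ) * x) *
      (((wt b n : ℝ) : ℂ) * Complex.exp (I * ((ω * (n * Real.pi - b) : ℝ) : ℂ))) := by
    funext n
    rw [hT, Finset.mul_sum]
    refine Finset.sum_congr rfl fun ω _ => ?_
    have : Complex.exp (I * (ω : ℂ) * ((x + n * Real.pi - b : ℝ) : ℂ)) =
        Complex.exp (I * (ω : ℂ) * x) * Complex.exp (I * ((ω * (n * Real.pi - b) : ℝ) : ℂ)) := by
      rw [← Complex.exp_add]; congr 1; push_cast; ring
    rw [this]; ring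
  rw [e1, e2]; exact hs

private theorem boas_aux {M : ℝ} {g : ℂ → ℂ} (hg : IsB 1 M g) {b : ℝ} (hb : Real.sin b ≠ 0) (x : ℝ) :
    HasSum (fun n : ℤ => ((wt b n : ℝ) : ℂ) * g ((x + n * Real.pi - b : ℝ) : ℂ))
      (deriv g (x : ℂ) * Real.sin b - g (x : ℂ) * Real.cos b) := by
  obtain ⟨T, hT1, hT2, hT3, -, -⟩ := levitan one_pos hg
  have hw := (boas_weights_aux hb).summable
  have hpt : ∀ z : ℂ, Tendsto (fun k => T k z) atTop (𝓝 (g z)) := fun z =>
    (tendstoLocallyUniformlyOn_univ.2 hT3).tendsto_at (mem_univ z)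
  have hdiff : ∀ k, Differentiable ℂ (T k) := fun k => (hT2 k).diff
  have hder : Tendsto (fun k => deriv (T k) (x : ℂ)) atTop (𝓝 (deriv g (x : ℂ))) := by
    have h := (tendstoLocallyUniformlyOn_univ.2 hT3).deriv
      (Eventually.of_forall fun k => (hdiff k).differentiableOn) isOpen_univ
    exact h.tendsto_at (mem_univ _)
  have hbd : ∀ z : ℝ, ∀ k, ‖T k (z : ℂ)‖ ≤ M := fun z k => (hT2 k).real_le z
  have hsm : Summable (fun n : ℤ => ((wt b n : ℝ) : ℂ) * g ((x + n * Real.pi - b : ℝ) : ℂ)) := by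
    refine Summable.of_norm_bounded (hw.mul_right M) fun n => ?_
    rw [norm_mul, wt_norm]
    exact mul_le_mul_of_nonneg_left (hg.real_le _) (by positivity)
  have hlim : Tendsto (fun k => ∑' n : ℤ, ((wt b n : ℝ) : ℂ) * T k ((x + n * Real.pi - b : ℝ) : ℂ))
      atTop (𝓝 (∑' n : ℤ, ((wt b n : ℝ) : ℂ) * g ((x + n * Real.pi - b : ℝ) : ℂ))) := by
    refine tendsto_tsum_of_dominated_convergence (hw.mul_right M)
      (fun n => (hpt _).const_mul _) (Eventually.of_forall fun k n => ?_)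
    rw [norm_mul, wt_norm]
    exact mul_le_mul_of_nonneg_left (hbd _ _) (by positivity)
  have hlim2 : Tendsto (fun k => ∑' n : ℤ, ((wt b n : ℝ) : ℂ) * T k ((x + n * Real.pi - b : ℝ) : ℂ))
      atTop (𝓝 (deriv g (x : ℂ) * Real.sin b - g (x : ℂ) * Real.cos b)) := by
    have h : ∀ k, ∑' n : ℤ, ((wt b n : ℝ) : ℂ) * T k ((x + n * Real.pi - b : ℝ) : ℂ) =
        deriv (T k) (x : ℂ) * Real.sin b - T k (x : ℂ) * Real.cos b :=
      fun k => (boas_trig (hT1 k) hb x).tsum_eq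
    simp_rw [h]
    exact (hder.mul_const _).sub ((hpt _).mul_const _)
  rw [← tendsto_nhds_unique hlim hlim2]
  exact hsm.hasSum

end B1a

/-- **B1a** (Boas' formula for exponentials). -/
theorem boas_exp {b ω : ℝ} (hb : Real.sin b ≠ 0) (hω : |ω| ≤ 1) :
    HasSum (fun n : ℤ => (((-1 : ℝ) ^ (n - 1) * Real.sin b ^ 2 / (n * Real.pi - b) ^ 2 : ℝ) : ℂ) *
        Complex.exp (I * ((ω * (n * Real.pi - b) : ℝ) : ℂ)))
      (I * ω * Real.sin b - Real.cos b) := B1a.boas_exp_aux hb hω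

theorem boas_weights {b : ℝ} (hb : Real.sin b ≠ 0) :
    HasSum (fun n : ℤ => Real.sin b ^ 2 / (n * Real.pi - b) ^ 2) 1 := B1a.boas_weights_aux hb

/-- Boas' formula. -/
theorem boas {M : ℝ} {g : ℂ → ℂ} (hg : IsB 1 M g) {b : ℝ} (hb : Real.sin b ≠ 0) (x : ℝ) :
    HasSum (fun n : ℤ => (((-1 : ℝ) ^ (n - 1) * Real.sin b ^ 2 / (n * Real.pi - b) ^ 2 : ℝ) : ℂ) *
        g ((x + n * Real.pi - b : ℝ) : ℂ))
      (deriv g (x : ℂ) * Real.sin b - g (x : ℂ) * Real.cos b) := B1a.boas_aux hg hb x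

end Pool.Agent.Helper30.FG
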