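import Mathlib

set_option autoImplicit false

open Polynomial Set

namespace Pool.Agent.Helper30.FG

/-- A polynomial of degree at most two which is nonnegative on `[-1,1]`. -/
theorem quad_rep (q : ℝ[X]) (hq : q.natDegree ≤ 2) (h : ∀ x ∈ Icc (-1 : ℝ) 1, 0 ≤ q.eval x) :
    ∃ a b : ℝ[X], q = a ^ 2 + (1 - X ^ 2) * b ^ 2 ∧ a.natDegree ≤ 1 ∧ b.natDegree ≤ 0 := by
  obtain ⟨c2, c1, c0, rfl⟩ : ∃ c2 c1 c0 : ℝ, q = C c2 * X ^ 2 + C c1 * X + C c0 :=
    ⟨q.coeff 2, q.coeff 1, q.coeff 0, by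
      conv_lhs => rw [q.as_sum_range' 3 (by omega)]
      simp [Finset.sum_range_succ, ← C_mul_X_pow_eq_monomial]
      ring⟩
  have e1 : 0 ≤ c0 + c2 + c1 := by
    have := h 1 (by norm_num); simp at this; linarith
  have e2 : 0 ≤ c0 + c2 - c1 := by
    have := h (-1) (by norm_num); simp at this; linarith
  have e0 : 0 ≤ c0 := by
    have := h 0 (by norm_num); simpa using this
  set u := Real.sqrt (c0 + c2 + c1) with hu
  set v := Real.sqrt (c0 + c2 - c1) with hv
  have hu2 : u ^ 2 = c0 + c2 + c1 := Real.sq_sqrt e1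
  have hv2 : v ^ 2 = c0 + c2 - c1 := Real.sq_sqrt e2
  have hu0 : 0 ≤ u := Real.sqrt_nonneg _
  have hv0 : 0 ≤ v := Real.sqrt_nonneg _
  have key : 0 ≤ c0 - ((u - v) / 2) ^ 2 := by
    have h1 : c0 - ((u - v) / 2) ^ 2 = (c0 - c2 + u * v) / 2 := by nlinarith
    rw [h1]
    rcases le_or_gt c2 c0 with hc | hc
    · have := mul_nonneg hu0 hv0
      linarith
    · have hc2 : 0 < c2 := lt_of_le_of_lt e0 hc
      have hd : c1 ^ 2 ≤ 4 * c0 * c2 := by
        have hx : -c1 / (2 * c2) ∈ Icc (-1 : ℝ) 1 := by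
          constructor
          · rw [le_div_iff₀ (by linarith)]; linarith
          · rw [div_le_iff₀ (by linarith)]; linarith
        have := h _ hx
        simp only [eval_add, eval_mul, eval_C, eval_pow, eval_X] at this
        have h3 : c2 * (-c1 / (2 * c2)) ^ 2 + c1 * (-c1 / (2 * c2)) + c0 = (4 * c0 * c2 - c1 ^ 2) / (4 * c2) := by
          field_simp; ring
        rw [h3] at this
        have h4 : 0 < 4 * c2 := by linarith
        have := (div_nonneg_iff.1 this).resolve_right (by intro h; linarith [h.2])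
        linarith [this.1]
      have h5 : (c2 - c0) ^ 2 ≤ (u * v) ^ 2 := by
        rw [mul_pow, hu2, hv2]; nlinarith
      have h6 := abs_le.1 (abs_le_of_sq_le_sq h5 (mul_nonneg hu0 hv0))
      linarith [h6.1, h6.2]
  set w := Real.sqrt (c0 - ((u - v) / 2) ^ 2) with hw
  have hw2 : w ^ 2 = c0 - ((u - v) / 2) ^ 2 := Real.sq_sqrt key
  refine ⟨C ((u + v) / 2) * X + C ((u - v) / 2), C w, ?_, ?_, ?_⟩
  · have hA : c2 = ((u + v) / 2) ^ 2 - w ^ 2 := by rw [hw2]; nlinarith
    have hB : c1 = 2 * ((u + v) / 2) * ((u - v) / 2) := by nlinarith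
    have hC : c0 = ((u - v) / 2) ^ 2 + w ^ 2 := by rw [hw2]; ring
    have hA' : C c2 = C ((u + v) / 2) ^ 2 - C w ^ 2 := by
      conv_lhs => rw [hA]
      simp only [C_sub, C_pow]
    have hB' : C c1 = 2 * C ((u + v) / 2) * C ((u - v) / 2) := by
      conv_lhs => rw [hB]
      simp only [C_mul, map_ofNat]
    have hC' : C c0 = C ((u - v) / 2) ^ 2 + C w ^ 2 := by
      conv_lhs => rw [hC]
      simp only [C_add, C_pow]
    rw [hA', hB', hC']
    ring
  · exact natDegree_linear_le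
  · exact (natDegree_C _).le

/-- Quotients of nonnegative polynomials. -/
theorem quot_nonneg {q r : ℝ[X]} (hq0 : q ≠ 0) (hq : ∀ x ∈ Icc (-1 : ℝ) 1, 0 ≤ q.eval x)
    (h : ∀ x ∈ Icc (-1 : ℝ) 1, 0 ≤ (q * r).eval x) : ∀ x ∈ Icc (-1 : ℝ) 1, 0 ≤ r.eval x := by
  have hd : Icc (-1 : ℝ) 1 ⊆ closure {x | x ∈ Ioo (-1 : ℝ) 1 ∧ q.eval x ≠ 0} := by
    intro x hx
    have h1 : closure (Ioo (-1 : ℝ) 1) = Icc (-1 : ℝ) 1 := closure_Ioo (by norm_num)
    have h2 : Dense {y : ℝ | q.eval y ≠ 0} := by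
      have : {y : ℝ | q.eval y ≠ 0} = ((q.roots.toFinset : Set ℝ))ᶜ := by
        ext y; simp [hq0]
      rw [this]
      exact (Set.Countable.dense_compl ℝ (Finset.countable_toSet _))
    have h3 := h2.open_subset_closure_inter (isOpen_Ioo : IsOpen (Ioo (-1 : ℝ) 1))
    have h4 : closure (Ioo (-1 : ℝ) 1) ⊆ closure (Ioo (-1 : ℝ) 1 ∩ {y : ℝ | q.eval y ≠ 0}) := by
      simpa using closure_mono h3
    exact h4 (h1 ▸ hx)
  intro x hx
  have hcl : IsClosed {x : ℝ | 0 ≤ r.eval x} := isClosed_le continuous_const r.continuous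
  refine (closure_minimal ?_ hcl) (hd hx)
  rintro y ⟨hy, hy0⟩
  have hy' : y ∈ Icc (-1 : ℝ) 1 := ⟨hy.1.le, hy.2.le⟩
  have h5 := h y hy'
  rw [eval_mul] at h5
  have h6 : 0 < q.eval y := lt_of_le_of_ne (hq y hy') (Ne.symm hy0)
  exact nonneg_of_mul_nonneg_right h5 h6


/-- One division step. -/
theorem factor_step (p : ℝ[X]) (hd : 2 ≤ p.natDegree) (h : ∀ x ∈ Icc (-1 : ℝ) 1, 0 ≤ p.eval x) :
    ∃ q r : ℝ[X], p = q * r ∧ q.natDegree = 2 ∧ (∀ x ∈ Icc (-1 : ℝ) 1, 0 ≤ q.eval x) ∧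
      (∀ x ∈ Icc (-1 : ℝ) 1, 0 ≤ r.eval x) := by
  have hp0 : p ≠ 0 := by rintro rfl; simp at hd
  -- it is enough to give q
  suffices hs : ∃ q : ℝ[X], q ∣ p ∧ q.natDegree = 2 ∧ (∀ x ∈ Icc (-1 : ℝ) 1, 0 ≤ q.eval x) by
    obtain ⟨q, ⟨r, hr⟩, hq2, hq⟩ := hs
    have hq0 : q ≠ 0 := by rintro rfl; simp at hq2
    exact ⟨q, r, hr, hq2, hq, quot_nonneg hq0 hq (by rw [← hr]; exact h)⟩
  -- complex roots
  have cx : ∀ s : ℝ[X], s.natDegree ≠ 0 → (∃ z : ℂ, aeval z s = 0 ∧ z.im ≠ 0) ∨ ∃ x : ℝ, s.IsRoot x := by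
    intro s hs
    have h1 : (s.map (algebraMap ℝ ℂ)).degree ≠ 0 := by
      rw [degree_map]
      intro h2
      exact hs (natDegree_eq_of_degree_eq_some h2)
    obtain ⟨z, hz⟩ := IsAlgClosed.exists_root _ h1
    have hz' : aeval z s = 0 := by
      rw [IsRoot, eval_map] at hz
      exact hz
    by_cases him : z.im = 0
    · right
      refine ⟨z.re, ?_⟩
      have hzr : z = ((z.re : ℝ) : ℂ) := Complex.ext rfl (by simpa using him)
      rw [hzr] at hz'
      have h3 : aeval ((z.re : ℝ) : ℂ) s = ((s.eval z.re : ℝ) : ℂ) := by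
        rw [show ((z.re : ℝ) : ℂ) = algebraMap ℝ ℂ z.re from rfl, aeval_algebraMap_apply]
        simp
      rw [h3] at hz'
      exact_mod_cast hz'
    · exact Or.inl ⟨z, hz', him⟩
  have quadC : ∀ z : ℂ, aeval z p = 0 → z.im ≠ 0 →
      ∃ q : ℝ[X], q ∣ p ∧ q.natDegree = 2 ∧ (∀ x ∈ Icc (-1 : ℝ) 1, 0 ≤ q.eval x) := by
    intro z hz him
    refine ⟨X ^ 2 - C (2 * z.re) * X + C (‖z‖ ^ 2), quadratic_dvd_of_aeval_eq_zero_im_ne_zero p hz him, ?_, ?_⟩
    · have : X ^ 2 - C (2 * z.re) * X + C (‖z‖ ^ 2) = C 1 * X ^ 2 + C (-(2 * z.re)) * X + C (‖z‖ ^ 2) := by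
        simp only [C_neg, C_1]; ring
      rw [this]
      exact natDegree_quadratic one_ne_zero
    · intro x _
      simp only [eval_add, eval_sub, eval_mul, eval_C, eval_pow, eval_X]
      rw [Complex.sq_norm, Complex.normSq_apply]
      nlinarith [sq_nonneg (x - z.re), mul_self_nonneg z.im]
  have inner : ∀ x : ℝ, p.IsRoot x → x ∈ Ioo (-1 : ℝ) 1 →
      ∃ q : ℝ[X], q ∣ p ∧ q.natDegree = 2 ∧ (∀ x ∈ Icc (-1 : ℝ) 1, 0 ≤ q.eval x) := by
    intro x hx hx1
    refine ⟨(X - C x) ^ 2, ?_, ?_, ?_⟩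
    · obtain ⟨r, hr⟩ := dvd_iff_isRoot.2 hx
      have hrx : r.eval x = 0 := by
        by_contra hne
        -- sign change
        have hcont : ContinuousAt (fun y => r.eval y) x := r.continuous.continuousAt
        rcases lt_or_gt_of_ne hne with hneg | hpos
        · have h1 : ∀ᶠ y in nhds x, r.eval y < 0 := hcont.eventually (gt_mem_nhds hneg)
          have h2 : ∀ᶠ y in nhdsWithin x (Ioi x), r.eval y < 0 := h1.filter_mono nhdsWithin_le_nhds
          have h3 : ∀ᶠ y in nhdsWithin x (Ioi x), y ∈ Ioo (-1 : ℝ) 1 :=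
            mem_nhdsWithin_of_mem_nhds (isOpen_Ioo.mem_nhds hx1)
          have h4 : ∀ᶠ y in nhdsWithin x (Ioi x), y ∈ Ioi x := eventually_mem_nhdsWithin
          obtain ⟨y, hy1, hy2, hy3⟩ := (h2.and (h3.and h4)).exists
          have := h y ⟨hy2.1.le, hy2.2.le⟩
          rw [hr, eval_mul, eval_sub, eval_X, eval_C] at this
          have h5 : 0 < y - x := sub_pos.2 hy3
          nlinarith
        · have h1 : ∀ᶠ y in nhds x, 0 < r.eval y := hcont.eventually (lt_mem_nhds hpos)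
          have h2 : ∀ᶠ y in nhdsWithin x (Iio x), 0 < r.eval y := h1.filter_mono nhdsWithin_le_nhds
          have h3 : ∀ᶠ y in nhdsWithin x (Iio x), y ∈ Ioo (-1 : ℝ) 1 :=
            mem_nhdsWithin_of_mem_nhds (isOpen_Ioo.mem_nhds hx1)
          have h4 : ∀ᶠ y in nhdsWithin x (Iio x), y ∈ Iio x := eventually_mem_nhdsWithin
          obtain ⟨y, hy1, hy2, hy3⟩ := (h2.and (h3.and h4)).exists
          have := h y ⟨hy2.1.le, hy2.2.le⟩
          rw [hr, eval_mul, eval_sub, eval_X, eval_C] at this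
          have h5 : y - x < 0 := sub_neg.2 hy3
          nlinarith
      obtain ⟨t, ht⟩ := dvd_iff_isRoot.2 (show r.IsRoot x from hrx)
      exact ⟨t, by rw [hr, ht]; ring⟩
    · rw [natDegree_pow, natDegree_X_sub_C]
    · intro y _
      simp only [eval_pow]
      exact sq_nonneg _
  rcases cx p (by omega) with ⟨z, hz, him⟩ | ⟨x, hx⟩
  · exact quadC z hz him
  · by_cases hx1 : x ∈ Ioo (-1 : ℝ) 1
    · exact inner x hx hx1
    · obtain ⟨r, hr⟩ := dvd_iff_isRoot.2 hx
      have hr0 : r ≠ 0 := by rintro rfl; simp at hr; exact hp0 hr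
      have hrd : r.natDegree ≠ 0 := by
        have : p.natDegree = (X - C x).natDegree + r.natDegree := by
          rw [hr]; exact natDegree_mul (X_sub_C_ne_zero x) hr0
        rw [natDegree_X_sub_C] at this
        omega
      rcases cx r hrd with ⟨z, hz, him⟩ | ⟨y, hy⟩
      · exact quadC z (by rw [hr, map_mul, hz, mul_zero]) him
      · have hpy : p.IsRoot y := by rw [hr, IsRoot, eval_mul, show r.eval y = 0 from hy, mul_zero]
        by_cases hy1 : y ∈ Ioo (-1 : ℝ) 1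
        · exact inner y hpy hy1
        · obtain ⟨t, ht⟩ := dvd_iff_isRoot.2 hy
          have hxx : x ≤ -1 ∨ 1 ≤ x := by
            by_contra hcon; push Not at hcon; exact hx1 ⟨hcon.1, hcon.2⟩
          have hyy : y ≤ -1 ∨ 1 ≤ y := by
            by_contra hcon; push Not at hcon; exact hy1 ⟨hcon.1, hcon.2⟩
          obtain ⟨s, hs0, hs⟩ : ∃ s : ℝ, s ≠ 0 ∧ ∀ w ∈ Icc (-1 : ℝ) 1, 0 ≤ s * (w - x) * (w - y) := by
            rcases hxx with h1 | h1 <;> rcases hyy with h2 | h2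
            · exact ⟨1, one_ne_zero, fun w hw => by
                have := mul_nonneg (sub_nonneg.2 (h1.trans hw.1)) (sub_nonneg.2 (h2.trans hw.1)); linarith⟩
            · exact ⟨-1, by norm_num, fun w hw => by
                have := mul_nonneg (sub_nonneg.2 (h1.trans hw.1)) (sub_nonneg.2 (hw.2.trans h2)); linarith⟩
            · exact ⟨-1, by norm_num, fun w hw => by
                have := mul_nonneg (sub_nonneg.2 (hw.2.trans h1)) (sub_nonneg.2 (h2.trans hw.1)); linarith⟩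
            · exact ⟨1, one_ne_zero, fun w hw => by
                have := mul_nonneg (sub_nonneg.2 (hw.2.trans h1)) (sub_nonneg.2 (hw.2.trans h2)); linarith⟩
          refine ⟨C s * (X - C x) * (X - C y), ⟨C s⁻¹ * t, ?_⟩, ?_, ?_⟩
          · have hss : C s * C s⁻¹ = (1 : ℝ[X]) := by rw [← C_mul, mul_inv_cancel₀ hs0, C_1]
            rw [hr, ht]
            linear_combination (-(X - C x) * (X - C y) * t) * hss
          · rw [natDegree_mul (mul_ne_zero (C_ne_zero.2 hs0) (X_sub_C_ne_zero x)) (X_sub_C_ne_zero y),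
              natDegree_mul (C_ne_zero.2 hs0) (X_sub_C_ne_zero x), natDegree_C, natDegree_X_sub_C,
              natDegree_X_sub_C]
          · intro w hw
            simpa using hs w hw

/-- Products of representations. -/
theorem rep_mul {p q a b c d : ℝ[X]} {m n : ℕ} (hp : p = a ^ 2 + (1 - X ^ 2) * b ^ 2)
    (hq : q = c ^ 2 + (1 - X ^ 2) * d ^ 2) (ha : a.degree ≤ m) (hb : b.degree < m)
    (hc : c.degree ≤ n) (hd : d.degree < n) :
    ∃ e f : ℝ[X], p * q = e ^ 2 + (1 - X ^ 2) * f ^ 2 ∧ e.degree ≤ ((m + n : ℕ) : WithBot ℕ) ∧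
      f.degree < ((m + n : ℕ) : WithBot ℕ) := by
  refine ⟨a * c - (1 - X ^ 2) * (b * d), a * d + b * c, by rw [hp, hq]; ring, ?_, ?_⟩
  · refine (degree_sub_le _ _).trans (max_le ?_ ?_)
    · rw [degree_mul, Nat.cast_add]
      exact add_le_add ha hc
    · by_cases hb0 : b = 0
      · simp [hb0]
      by_cases hd0 : d = 0
      · simp [hd0]
      have h1 : b.natDegree < m := (natDegree_lt_iff_degree_lt hb0).2 hb
      have h2 : d.natDegree < n := (natDegree_lt_iff_degree_lt hd0).2 hd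
      have h3 : ((1 - X ^ 2) * (b * d)).natDegree ≤ m + n := by
        refine (natDegree_mul_le).trans ?_
        have h4 : (1 - X ^ 2 : ℝ[X]).natDegree ≤ 2 := by
          refine (natDegree_sub_le _ _).trans ?_
          simp
        have h5 : (b * d).natDegree ≤ b.natDegree + d.natDegree := natDegree_mul_le
        omega
      exact degree_le_natDegree.trans (by exact_mod_cast h3)
  · refine lt_of_le_of_lt (degree_add_le _ _) (max_lt ?_ ?_)
    · by_cases hd0 : d = 0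
      · simp [hd0]
      by_cases ha0 : a = 0
      · simp [ha0]
      have h1 : a.natDegree ≤ m := natDegree_le_iff_degree_le.2 ha
      have h2 : d.natDegree < n := (natDegree_lt_iff_degree_lt hd0).2 hd
      rw [← natDegree_lt_iff_degree_lt (mul_ne_zero ha0 hd0), natDegree_mul ha0 hd0]
      omega
    · by_cases hb0 : b = 0
      · simp [hb0]
      by_cases hc0 : c = 0
      · simp [hc0]
      have h1 : b.natDegree < m := (natDegree_lt_iff_degree_lt hb0).2 hb
      have h2 : c.natDegree ≤ n := natDegree_le_iff_degree_le.2 hc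
      rw [← natDegree_lt_iff_degree_lt (mul_ne_zero hb0 hc0), natDegree_mul hb0 hc0]
      omega

/-- Lukacs: a real polynomial of degree at most `2m` which is nonnegative on `[-1,1]` is
`a ^ 2 + (1 - X ^ 2) * b ^ 2` with `deg a ≤ m`, `deg b < m`. -/
theorem lukacs_deg : ∀ (m : ℕ) (p : ℝ[X]), p.natDegree ≤ 2 * m → (∀ x ∈ Icc (-1 : ℝ) 1, 0 ≤ p.eval x) →
    ∃ a b : ℝ[X], p = a ^ 2 + (1 - X ^ 2) * b ^ 2 ∧ a.degree ≤ m ∧ b.degree < m := by
  intro m
  induction m with
  | zero =>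
    intro p hp h
    have hp0 : p = C (p.coeff 0) := eq_C_of_natDegree_le_zero (by omega)
    have h0 : 0 ≤ p.coeff 0 := by
      have := h 0 (by norm_num)
      rw [hp0] at this
      simpa using this
    refine ⟨C (Real.sqrt (p.coeff 0)), 0, ?_, ?_, ?_⟩
    · rw [hp0]
      simp only [coeff_C_zero]
      rw [← C_pow, Real.sq_sqrt h0]
      ring
    · exact degree_C_le
    · rw [degree_zero]; exact WithBot.bot_lt_coe _
  | succ m ih =>
    intro p hp h
    by_cases hd : 2 ≤ p.natDegree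
    · obtain ⟨q, r, hqr, hq2, hq, hr⟩ := factor_step p hd h
      have hq0 : q ≠ 0 := by rintro rfl; simp at hq2
      have hrd : r.natDegree ≤ 2 * m := by
        by_cases hr0 : r = 0
        · simp [hr0]
        have : p.natDegree = q.natDegree + r.natDegree := by rw [hqr]; exact natDegree_mul hq0 hr0
        omega
      obtain ⟨a, b, h1, h2, h3⟩ := ih r hrd hr
      obtain ⟨c, d, h4, h5, h6⟩ := quad_rep q hq2.le hq
      obtain ⟨e, f, h7, h8, h9⟩ := rep_mul (m := m) (n := 1) h1 h4 h2 h3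
        (natDegree_le_iff_degree_le.1 h5) (lt_of_le_of_lt (natDegree_le_iff_degree_le.1 h6) (by norm_num))
      exact ⟨e, f, by rw [hqr, mul_comm]; exact h7, h8, h9⟩
    · obtain ⟨c, d, h4, h5, h6⟩ := quad_rep p (by omega) h
      refine ⟨c, d, h4, (natDegree_le_iff_degree_le.1 h5).trans ?_,
        lt_of_le_of_lt (natDegree_le_iff_degree_le.1 h6) ?_⟩
      · exact_mod_cast (by omega : 1 ≤ m + 1)
      · exact_mod_cast (by omega : 0 < m + 1)

/-- **C1** (Lukacs). -/
theorem lukacs (m : ℕ) (p : ℝ[X]) (hd : p.natDegree ≤ 2 * m)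
    (hp : ∀ x ∈ Icc (-1 : ℝ) 1, 0 ≤ p.eval x) :
    ∃ a b : ℝ[X], a.natDegree ≤ m ∧ (b = 0 ∨ b.natDegree + 1 ≤ m) ∧
      p = a ^ 2 + (1 - X ^ 2) * b ^ 2 := by
  obtain ⟨a, b, h1, h2, h3⟩ := lukacs_deg m p hd hp
  refine ⟨a, b, natDegree_le_iff_degree_le.2 h2, ?_, h1⟩
  by_cases hb : b = 0
  · exact Or.inl hb
  · exact Or.inr ((natDegree_lt_iff_degree_lt hb).2 h3)

end Pool.Agent.Helper30.FG
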