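import Pool.Agent.Helper30.FG.A7
import Pool.Agent.Helper30.FG.C1
import Pool.Agent.Helper30.FG.A1

set_option autoImplicit false

namespace Pool.Agent.Helper30.FG

open Complex MeasureTheory Set Filter Topology
open Pool.Agent.Helper78.Bern Pool.Agent.Helper45.Bern

private theorem C2.norm_cos_le (w : ℂ) : ‖Complex.cos w‖ ≤ Real.exp |w.im| := by
  have h1 : ‖Complex.exp (w * I)‖ ≤ Real.exp |w.im| := by
    rw [Complex.norm_exp]
    refine Real.exp_le_exp.2 ?_
    have : (w * I).re = -w.im := by simp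
    rw [this]
    exact neg_le_abs _
  have h2 : ‖Complex.exp (-w * I)‖ ≤ Real.exp |w.im| := by
    rw [Complex.norm_exp]
    refine Real.exp_le_exp.2 ?_
    have : (-w * I).re = w.im := by simp
    rw [this]
    exact le_abs_self _
  have h3 : Complex.cos w = (Complex.exp (w * I) + Complex.exp (-w * I)) / 2 := rfl
  rw [h3, norm_div, Complex.norm_ofNat, div_le_iff₀ (by norm_num)]
  refine (norm_add_le _ _).trans ?_
  linarith

private theorem C2.norm_sin_le (w : ℂ) : ‖Complex.sin w‖ ≤ Real.exp |w.im| := by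
  have h := C2.norm_cos_le (w - Real.pi / 2)
  rw [Complex.cos_sub_pi_div_two] at h
  have h2 : (w - Real.pi / 2 : ℂ).im = w.im := by
    have : ((Real.pi : ℂ) / 2) = ((Real.pi / 2 : ℝ) : ℂ) := by push_cast; ring
    rw [this, Complex.sub_im, Complex.ofReal_im, sub_zero]
  rwa [h2] at h

open Polynomial in
private theorem C2.aeval_le (a : ℝ[X]) {n : ℕ} (hn : a.natDegree ≤ n) :
    ∃ C : ℝ, 0 ≤ C ∧ ∀ w : ℂ, ‖aeval (Complex.cos w) a‖ ≤ C * Real.exp (n * |w.im|) := by
  refine ⟨∑ i ∈ Finset.range (a.natDegree + 1), |a.coeff i|,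
    Finset.sum_nonneg fun i _ => abs_nonneg _, fun w => ?_⟩
  rw [aeval_eq_sum_range, Finset.sum_mul]
  refine (norm_sum_le _ _).trans (Finset.sum_le_sum fun i hi => ?_)
  rw [norm_smul, norm_pow, Real.norm_eq_abs]
  refine mul_le_mul_of_nonneg_left ?_ (abs_nonneg _)
  have hi' : i ≤ n := by
    have := Finset.mem_range.1 hi
    omega
  calc ‖Complex.cos w‖ ^ i ≤ Real.exp |w.im| ^ i :=
        pow_le_pow_left₀ (norm_nonneg _) (C2.norm_cos_le w) i
    _ ≤ Real.exp |w.im| ^ n :=
        pow_le_pow_right₀ (Real.one_le_exp (abs_nonneg _)) hi'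
    _ = Real.exp (n * |w.im|) := by rw [← Real.exp_nat_mul]

open Polynomial in
private theorem C2.aeval_real (a : ℝ[X]) (y : ℝ) :
    aeval (Complex.cos (y : ℂ)) a = ((a.eval (Real.cos y) : ℝ) : ℂ) := by
  rw [← Complex.ofReal_cos]
  have := aeval_algebraMap_apply ℂ (Real.cos y) a
  simpa using this

open Polynomial in
/-- **C2** -/
theorem poly_bound {α Jst : ℝ} (h0 : 0 < α) (h1 : α < 1)
    (hJ : ∀ s : ℂ → ℂ, IsE (1 / 2) 1 s → J α s ≤ Jst) {m : ℕ} (hm : 0 < m) {p : ℝ[X]}
    (hd : p.natDegree ≤ 2 * m) {A : ℝ} (hA : 0 < A)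
    (hp : ∀ x ∈ Icc (-1 : ℝ) 1, |p.eval x| ≤ A) :
    Lf α (fun z => aeval (Complex.cos (z / ((2 * m : ℕ) : ℂ))) p) ≤ Jst * A := by
  have hm' : (0 : ℝ) < m := by exact_mod_cast hm
  set Q : ℝ[X] := C (1 / (2 * A)) * (C A - p) with hQ
  have hQe : ∀ x : ℝ, Q.eval x = (A - p.eval x) / (2 * A) := by
    intro x
    rw [hQ]
    simp only [eval_mul, eval_C, eval_sub]
    ring
  have hQd : Q.natDegree ≤ 2 * m := by
    refine (natDegree_C_mul_le _ _).trans ?_
    refine (natDegree_sub_le _ _).trans ?_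
    rw [natDegree_C]
    simpa using hd
  have hQ0 : ∀ x ∈ Icc (-1 : ℝ) 1, 0 ≤ Q.eval x := by
    intro x hx
    rw [hQe]
    have := (abs_le.1 (hp x hx)).2
    exact div_nonneg (by linarith) (by linarith)
  have hQ1 : ∀ x ∈ Icc (-1 : ℝ) 1, Q.eval x ≤ 1 := by
    intro x hx
    rw [hQe, div_le_one (by linarith)]
    have := (abs_le.1 (hp x hx)).1
    linarith
  obtain ⟨a, b, ha, hb, hab⟩ := lukacs m Q hQd hQ0
  -- the argument
  set th : ℂ → ℂ := fun z => z / ((2 * m : ℕ) : ℂ) with hth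
  have hthr : ∀ x : ℝ, th (x : ℂ) = ((x / ((2 * m : ℕ) : ℝ) : ℝ) : ℂ) := by
    intro x
    simp only [hth]
    push_cast
    ring
  have hthi : ∀ z : ℂ, (m : ℝ) * |(th z).im| = 1 / 2 * |z.im| := by
    intro z
    have e : (th z).im = z.im / (2 * m) := by
      simp only [hth]
      have : (((2 * m : ℕ)) : ℂ) = ((2 * m : ℝ) : ℂ) := by push_cast; ring
      rw [this, Complex.div_ofReal_im]
    rw [e, abs_div, abs_of_pos (by positivity : (0 : ℝ) < 2 * m)]
    field_simp
  have hthd : Differentiable ℂ th := by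
    intro z
    simp only [hth]
    fun_prop
  set s : ℂ → ℂ := fun z => aeval (Complex.cos (th z)) a with hs
  set v : ℂ → ℂ := fun z => Complex.sin (th z) * aeval (Complex.cos (th z)) b with hv
  have hthn : ∀ z, th (-z) = -th z := fun z => by simp only [hth]; ring
  have hdiff : ∀ q : ℝ[X], Differentiable ℂ fun z => aeval (Complex.cos (th z)) q := by
    intro q
    have h1 : Differentiable ℂ fun z => Complex.cos (th z) := hthd.ccos
    have h2 : Differentiable ℂ fun w : ℂ => aeval w q := q.differentiable_aeval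
    exact h2.comp h1
  -- values on the real axis
  have hval : ∀ x : ℝ, ∃ y : ℝ, y = Real.cos (x / ((2 * m : ℕ) : ℝ)) ∧ y ∈ Icc (-1 : ℝ) 1 ∧
      s (x : ℂ) = ((a.eval y : ℝ) : ℂ) ∧
      v (x : ℂ) = ((Real.sin (x / ((2 * m : ℕ) : ℝ)) * b.eval y : ℝ) : ℂ) ∧
      (a.eval y) ^ 2 + (Real.sin (x / ((2 * m : ℕ) : ℝ)) * b.eval y) ^ 2 = Q.eval y := by
    intro x
    refine ⟨_, rfl, ⟨Real.neg_one_le_cos _, Real.cos_le_one _⟩, ?_, ?_, ?_⟩
    · simp only [hs]
      rw [hthr, C2.aeval_real]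
    · simp only [hv]
      rw [hthr, C2.aeval_real, ← Complex.ofReal_sin, ← Complex.ofReal_mul]
    · rw [hab]
      simp only [eval_add, eval_pow, eval_mul, eval_sub, eval_one, eval_X]
      have := Real.sin_sq_add_cos_sq (x / ((2 * m : ℕ) : ℝ))
      nlinarith [this, mul_pow (Real.sin (x / ((2 * m : ℕ) : ℝ)))
        (b.eval (Real.cos (x / ((2 * m : ℕ) : ℝ)))) 2]
  have hsx : ∀ x : ℝ, ‖s (x : ℂ)‖ ≤ 1 := by
    intro x
    obtain ⟨y, -, hy, h2, -, h4⟩ := hval x
    have h5 := hQ1 y hy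
    rw [h2, Complex.norm_real, Real.norm_eq_abs]
    refine abs_le_one_iff_mul_self_le_one.2 ?_
    nlinarith [sq_nonneg (Real.sin (x / ((2 * m : ℕ) : ℝ)) * b.eval y)]
  have hvx : ∀ x : ℝ, ‖v (x : ℂ)‖ ≤ 1 := by
    intro x
    obtain ⟨y, -, hy, -, h3, h4⟩ := hval x
    have h5 := hQ1 y hy
    rw [h3, Complex.norm_real, Real.norm_eq_abs]
    refine abs_le_one_iff_mul_self_le_one.2 ?_
    nlinarith [sq_nonneg (a.eval y)]
  have hsE : IsE (1 / 2) 1 s := by
    refine ⟨?_, fun z => ?_, fun x => ?_⟩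
    · obtain ⟨K, hK, hbd⟩ := C2.aeval_le a ha
      refine pl_bound (C := K) (by norm_num) (hdiff a) (fun z => ?_) hsx
      have := hbd (th z)
      rwa [hthi] at this
    · simp only [hs]
      rw [hthn, Complex.cos_neg]
    · obtain ⟨y, -, -, h2, -, -⟩ := hval x
      rw [h2, Complex.ofReal_im]
  have hvB : IsB (1 / 2) 1 v := by
    rcases hb with hb | hb
    · have hv0 : v = fun _ => 0 := by
        funext z
        simp only [hv, hb, map_zero, mul_zero]
      rw [hv0]
      refine ⟨differentiable_const _, fun z => ?_⟩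
      rw [norm_zero]
      positivity
    · obtain ⟨K, hK, hbd⟩ := C2.aeval_le b (n := m - 1) (by omega)
      refine pl_bound (C := K) (by norm_num) ?_ (fun z => ?_) hvx
      · exact (hthd.csin).mul (hdiff b)
      · have h2 := hbd (th z)
        have h3 := C2.norm_sin_le (th z)
        have h4 : ((m - 1 : ℕ) : ℝ) = (m : ℝ) - 1 := by
          rw [Nat.cast_sub (by omega)]; simp
        simp only [hv]
        rw [norm_mul]
        calc ‖Complex.sin (th z)‖ * ‖aeval (Complex.cos (th z)) b‖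
            ≤ Real.exp |(th z).im| * (K * Real.exp (((m - 1 : ℕ) : ℝ) * |(th z).im|)) :=
              mul_le_mul h3 h2 (norm_nonneg _) (Real.exp_pos _).le
          _ = K * Real.exp ((m : ℝ) * |(th z).im|) := by
              rw [h4, mul_left_comm, ← Real.exp_add]
              congr 2
              ring
          _ = K * Real.exp (1 / 2 * |z.im|) := by rw [hthi]
  have hvodd : ∀ z : ℂ, v (-z) = -v z := by
    intro z
    simp only [hv]
    rw [hthn, Complex.cos_neg, Complex.sin_neg]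
    ring
  have hvreal : ∀ x : ℝ, (v (x : ℂ)).im = 0 := by
    intro x
    obtain ⟨y, -, -, -, h3, -⟩ := hval x
    rw [h3, Complex.ofReal_im]
  have hpos := odd_pos h0 h1 hvB hvodd hvreal
  -- decomposition
  have hdec : (fun z => aeval (Complex.cos (z / ((2 * m : ℕ) : ℂ))) p) =
      fun z => (fun z : ℂ => (A : ℂ) * (fun _ : ℂ => (1 : ℂ)) z) z +
        (fun z : ℂ => ((-(2 * A) : ℝ) : ℂ) * (fun z : ℂ => s z ^ 2 + v z ^ 2) z) z := by
    funext z
    have e1 : s z ^ 2 + v z ^ 2 = aeval (Complex.cos (th z)) Q := by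
      rw [hab]
      simp only [hs, hv, map_add, map_mul, map_pow, map_sub, map_one, aeval_X]
      have := Complex.sin_sq_add_cos_sq (th z)
      linear_combination (aeval (Complex.cos (th z)) b) ^ 2 * this
    have e2 : p = C A - C (2 * A) * Q := by
      rw [hQ, ← mul_assoc, ← C_mul]
      have : 2 * A * (1 / (2 * A)) = 1 := by field_simp
      rw [this, C_1]
      ring
    have e3 : aeval (Complex.cos (z / ((2 * m : ℕ) : ℂ))) p =
        (A : ℂ) - ((2 * A : ℝ) : ℂ) * aeval (Complex.cos (th z)) Q := by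
      have e4 : aeval (Complex.cos (th z)) p =
          aeval (Complex.cos (th z)) (C A - C (2 * A) * Q) := congrArg _ e2
      have e5 : aeval (Complex.cos (th z)) (C A - C (2 * A) * Q) =
          (A : ℂ) - ((2 * A : ℝ) : ℂ) * aeval (Complex.cos (th z)) Q := by
        rw [map_sub, map_mul, aeval_C, aeval_C]
        rfl
      exact e4.trans e5
    rw [e3]
    simp only [e1]
    push_cast
    ring
  have hs2 : ∀ x : ℝ, ‖(fun z : ℂ => s z ^ 2) (x : ℂ)‖ ≤ 1 := fun x => by
    simp only [norm_pow]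
    exact pow_le_one₀ (norm_nonneg _) (hsx x)
  have hv2 : ∀ x : ℝ, ‖(fun z : ℂ => v z ^ 2) (x : ℂ)‖ ≤ 1 := fun x => by
    simp only [norm_pow]
    exact pow_le_one₀ (norm_nonneg _) (hvx x)
  have hsum : Lf α (fun z => s z ^ 2 + v z ^ 2) =
      Lf α (fun z => s z ^ 2) + Lf α (fun z => v z ^ 2) :=
    Lf_add h0 h1 hs2 hv2
  have hmain : Lf α (fun z => aeval (Complex.cos (z / ((2 * m : ℕ) : ℂ))) p) =
      A * 1 + (-(2 * A)) * (Lf α (fun z => s z ^ 2) + Lf α (fun z => v z ^ 2)) := by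
    rw [hdec, Lf_add (M := A) (N := 2 * A * 2) h0 h1 ?_ ?_, Lf_const_mul, Lf_const_mul,
      Lf_one h0 h1, hsum]
    · intro x
      simp [abs_of_pos hA]
    · intro x
      simp only
      rw [norm_mul, Complex.norm_real, Real.norm_eq_abs, abs_neg, abs_of_pos (by linarith : 0 < 2 * A)]
      refine mul_le_mul_of_nonneg_left ?_ (by linarith)
      refine (norm_add_le _ _).trans ?_
      have h2 := hs2 x
      have h3 := hv2 x
      simp only at h2 h3
      linarith
  rw [hmain]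
  have hJs := hJ s hsE
  rw [J] at hJs
  nlinarith [mul_le_mul_of_nonneg_left hJs hA.le, mul_nonneg hA.le hpos]

end Pool.Agent.Helper30.FG
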