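import Pool.Agent.Helper30.FG.Defs

set_option autoImplicit false

namespace Pool.Agent.Helper30.FG

open Complex MeasureTheory Set Filter Topology
open Pool.Agent.Helper78.Bern Pool.Agent.Helper45.Bern

namespace C4

/-- complex families over `ℤ` -/
theorem norm_le_int {α : ℝ} {b : ℤ → ℂ} {e : ℤ → ℝ} (hb : Summable (fun n => ‖b n‖))
    (hrep : ∀ ξ : ℝ, |ξ| ≤ 1 →
      HasSum (fun n => Complex.exp (-(Complex.I * ((e n * ξ : ℝ) : ℂ))) * b n)
        (((1 - |ξ|) ^ α : ℝ) : ℂ)) :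
    bernsteinNorm α ≤ ∑' n, ‖b n‖ := by
  obtain ⟨μ, hμ, hμ2⟩ := exists_admissible_of_series hb hrep
  exact (bernsteinNorm_le hμ).trans hμ2

/-- complex families over a countable type -/
theorem norm_le_countable {α : ℝ} {κ : Type} [Countable κ] {b : κ → ℂ} {e : κ → ℝ}
    (hb : Summable (fun n => ‖b n‖))
    (hrep : ∀ ξ : ℝ, |ξ| ≤ 1 →
      HasSum (fun n => Complex.exp (-(Complex.I * ((e n * ξ : ℝ) : ℂ))) * b n)
        (((1 - |ξ|) ^ α : ℝ) : ℂ)) :
    bernsteinNorm α ≤ ∑' n, ‖b n‖ := by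
  obtain ⟨φ0, hφ0⟩ := exists_injective_nat κ
  set φ : κ → ℤ := fun x => (φ0 x : ℤ) with hφdef
  have hφ : Function.Injective φ := fun x y h => hφ0 (Int.ofNat.inj h)
  set B : ℤ → ℂ := Function.extend φ b 0 with hB
  set E : ℤ → ℝ := Function.extend φ e 0 with hE
  have hnorm : (fun n => ‖B n‖) = Function.extend φ (fun i => ‖b i‖) 0 := by
    funext n
    by_cases hn : ∃ i, φ i = n
    · obtain ⟨i, rfl⟩ := hn
      rw [hφ.extend_apply, hB, hφ.extend_apply]
    · rw [hB, Function.extend_apply' _ _ _ hn, Function.extend_apply' _ _ _ hn]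
      simp
  have hs : HasSum (fun n => ‖B n‖) (∑' i, ‖b i‖) := by
    rw [hnorm]
    exact (hasSum_extend_zero hφ).2 hb.hasSum
  have key := norm_le_int (α := α) (b := B) (e := E) hs.summable (by
    intro ξ hξ
    have h1 : (fun n => Complex.exp (-(Complex.I * ((E n * ξ : ℝ) : ℂ))) * B n) =
        Function.extend φ
          (fun i => Complex.exp (-(Complex.I * ((e i * ξ : ℝ) : ℂ))) * b i) 0 := by
      funext n
      by_cases hn : ∃ i, φ i = n
      · obtain ⟨i, rfl⟩ := hn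
        rw [hφ.extend_apply, hB, hE, hφ.extend_apply, hφ.extend_apply]
      · rw [hB, Function.extend_apply' _ _ _ hn, Function.extend_apply' _ _ _ hn]
        simp
    rw [h1]
    exact (hasSum_extend_zero hφ).2 (hrep ξ hξ))
  rwa [hs.tsum_eq] at key

end C4

/-- **C4** -/
theorem bernsteinNorm_le_family {α : ℝ} {ι : Type} [Countable ι] {b e : ι → ℝ}
    (hb : Summable (fun i => |b i|))
    (hrep : ∀ ξ ∈ Icc (0 : ℝ) 1, HasSum (fun i => b i * Real.cos (e i * ξ)) ((1 - ξ) ^ α)) :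
    bernsteinNorm α ≤ ∑' i, |b i| := by
  have hn : ∀ i, ‖((b i / 2 : ℝ) : ℂ)‖ = |b i| / 2 := by
    intro i
    rw [Complex.norm_real, Real.norm_eq_abs, abs_div, abs_two]
  have hb2 : Summable (fun i => |b i| / 2) := hb.div_const 2
  set b' : ι ⊕ ι → ℂ := Sum.elim (fun i => ((b i / 2 : ℝ) : ℂ)) (fun i => ((b i / 2 : ℝ) : ℂ))
    with hb'
  set e' : ι ⊕ ι → ℝ := Sum.elim e (fun i => -e i) with he'
  have hs : HasSum (fun p => ‖b' p‖) (∑' i, |b i|) := by
    have h1 : HasSum (fun i => |b i| / 2) ((∑' i, |b i|) / 2) := hb.hasSum.div_const 2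
    have h2 : HasSum (fun p => ‖b' p‖) ((∑' i, |b i|) / 2 + (∑' i, |b i|) / 2) := by
      apply HasSum.sum
      · simpa [Function.comp_def, hb', hn] using h1
      · simpa [Function.comp_def, hb', hn] using h1
    rwa [add_halves] at h2
  have key := C4.norm_le_countable (α := α) (b := b') (e := e') hs.summable (by
    intro ξ hξ
    have hbd : ∀ (c : ι → ℝ), Summable
        (fun i => Complex.exp (-(Complex.I * ((c i * ξ : ℝ) : ℂ))) * ((b i / 2 : ℝ) : ℂ)) := by
      intro c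
      refine Summable.of_norm_bounded hb2 ?_
      intro i
      rw [norm_mul, hn, show -(Complex.I * ((c i * ξ : ℝ) : ℂ)) =
        ((-(c i * ξ) : ℝ) : ℂ) * Complex.I by push_cast; ring, Complex.norm_exp_ofReal_mul_I,
        one_mul]
    have hA := (hbd e).hasSum
    have hB := (hbd (fun i => -e i)).hasSum
    have hAB := hA.add hB
    have hfun : (fun i => Complex.exp (-(Complex.I * ((e i * ξ : ℝ) : ℂ))) * ((b i / 2 : ℝ) : ℂ) +
        Complex.exp (-(Complex.I * ((-e i * ξ : ℝ) : ℂ))) * ((b i / 2 : ℝ) : ℂ)) =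
        fun i => ((b i * Real.cos (e i * |ξ|) : ℝ) : ℂ) := by
      funext i
      have hc : Real.cos (e i * |ξ|) = Real.cos (e i * ξ) := by
        rcases abs_choice ξ with h | h <;> rw [h]
        rw [mul_neg, Real.cos_neg]
      rw [hc]
      push_cast
      rw [Complex.cos]
      have e1 : -(Complex.I * (↑(e i) * ↑ξ)) = -(↑(e i) * ↑ξ) * Complex.I := by ring
      have e2 : -(Complex.I * (-↑(e i) * ↑ξ)) = (↑(e i) * ↑ξ) * Complex.I := by ring
      rw [e1, e2]
      ring
    rw [hfun] at hAB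
    have h3 : HasSum (fun i => ((b i * Real.cos (e i * |ξ|) : ℝ) : ℂ))
        (((1 - |ξ|) ^ α : ℝ) : ℂ) :=
      (Complex.hasSum_ofReal).2 (hrep |ξ| ⟨abs_nonneg _, hξ⟩)
    rw [← hAB.unique h3]
    apply HasSum.sum
    · simpa [Function.comp_def, hb', he'] using hA
    · simpa [Function.comp_def, hb', he'] using hB)
  rwa [hs.tsum_eq] at key

end Pool.Agent.Helper30.FG
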