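import Pool.Agent.Helper30.FG.C4
import Pool.Agent.Helper30.FG.A2
import Pool.Agent.Helper30.FG.A4

set_option autoImplicit false

namespace Pool.Agent.Helper30.FG

open Complex MeasureTheory Set Filter Topology
open Pool.Agent.Helper78.Bern Pool.Agent.Helper45.Bern

namespace C5a

theorem hasSum_abs {ι : Type*} {f : ι × ℤ → ℝ} {R : ι → ℝ}
    (habs : ∀ κ, HasSum (fun i : ℤ => |f (κ, i)|) (R κ)) (hR : Summable R) :
    HasSum (fun p => |f p|) (∑' κ, R κ) := by
  have hs : Summable (fun p => |f p|) := by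
    rw [summable_prod_of_nonneg (fun p => abs_nonneg _)]
    refine ⟨fun κ => (habs κ).summable, ?_⟩
    have h1 : (fun κ => ∑' i : ℤ, |f (κ, i)|) = R := funext fun κ => (habs κ).tsum_eq
    rw [h1]
    exact hR
  have h := hs.hasSum
  have h2 := h.prod_fiberwise habs
  rw [h2.tsum_eq]
  exact h

theorem hasSum_rows {ι : Type*} {g : ι × ℤ → ℝ} {S : ι → ℝ} {s : ℝ} (hg : Summable g)
    (hrow : ∀ κ, HasSum (fun i : ℤ => g (κ, i)) (S κ)) (hS : HasSum S s) : HasSum g s := by
  have h := hg.hasSum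
  have h2 := h.prod_fiberwise hrow
  rw [h2.unique hS] at h
  exact h

theorem Fk_le_one (t : ℝ) : Fk t ≤ 1 := by
  have h := le_hasSum (hasSum_Fk_one t) 0 (fun j _ => Fk_nonneg _)
  simpa using h

theorem interp (t : ℝ) {n q ξ u : ℝ} (hu : u ∈ Icc (0 : ℝ) 1) (hq' : ∃ q' : ℕ, (q' : ℝ) = q)
    (hq : n * ξ = q + u) :
    HasSum (fun i : ℤ => Fk (t + i) * Real.cos (2 * Real.pi * n * (t + i) * ξ))
      ((1 - u) * Real.cos (2 * Real.pi * t * q) + u * Real.cos (2 * Real.pi * t * (q + 1))) := by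
  obtain ⟨q', hq'⟩ := hq'
  have hre : ∀ x : ℝ, (Complex.exp (-((x : ℂ) * I))).re = Real.cos x := by
    intro x
    have : -((x : ℂ) * I) = ((-x : ℝ) : ℂ) * I := by push_cast; ring
    rw [this, Complex.exp_ofReal_mul_I_re, Real.cos_neg]
  have h := (hasSum_Fk t hu).mul_left (Complex.exp (-(((2 * Real.pi * t * q : ℝ) : ℂ) * I)))
  have h2 := Complex.reCLM.hasSum h
  have e1 : ∀ i : ℤ, Complex.reCLM (Complex.exp (-(((2 * Real.pi * t * q : ℝ) : ℂ) * I)) *
      ((Fk (t + i) : ℂ) * Complex.exp (-(2 * Real.pi * I * (((t + i) * u : ℝ) : ℂ))))) =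
      Fk (t + i) * Real.cos (2 * Real.pi * n * (t + i) * ξ) := by
    intro i
    have h3 : Complex.exp (-(((2 * Real.pi * t * q : ℝ) : ℂ) * I)) *
        ((Fk (t + i) : ℂ) * Complex.exp (-(2 * Real.pi * I * (((t + i) * u : ℝ) : ℂ)))) =
        (Fk (t + i) : ℂ) * Complex.exp (-(((2 * Real.pi * t * q + 2 * Real.pi * ((t + i) * u) : ℝ)
          : ℂ) * I)) := by
      rw [mul_left_comm, ← Complex.exp_add]
      congr 2
      push_cast
      ring
    rw [h3]
    simp only [Complex.reCLM_apply, Complex.re_ofReal_mul]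
    rw [hre]
    congr 1
    have h4 : 2 * Real.pi * n * (t + i) * ξ =
        2 * Real.pi * t * q + 2 * Real.pi * ((t + i) * u) + ((i * (q' : ℤ) : ℤ) : ℝ) *
          (2 * Real.pi) := by
      push_cast
      rw [hq']
      have : 2 * Real.pi * n * (t + i) * ξ = 2 * Real.pi * (t + i) * (n * ξ) := by ring
      rw [this, hq]
      ring
    rw [h4, Real.cos_add_int_mul_two_pi]
  have e2 : Complex.reCLM (Complex.exp (-(((2 * Real.pi * t * q : ℝ) : ℂ) * I)) *
      ((1 - u : ℝ) + (u : ℂ) * Complex.exp (-(2 * Real.pi * I * (t : ℂ))))) =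
      (1 - u) * Real.cos (2 * Real.pi * t * q) + u * Real.cos (2 * Real.pi * t * (q + 1)) := by
    have h3 : Complex.exp (-(((2 * Real.pi * t * q : ℝ) : ℂ) * I)) *
        ((1 - u : ℝ) + (u : ℂ) * Complex.exp (-(2 * Real.pi * I * (t : ℂ)))) =
        ((1 - u : ℝ) : ℂ) * Complex.exp (-(((2 * Real.pi * t * q : ℝ) : ℂ) * I)) +
        (u : ℂ) * Complex.exp (-(((2 * Real.pi * t * (q + 1) : ℝ) : ℂ) * I)) := by
      rw [mul_add, mul_left_comm, ← Complex.exp_add, mul_comm]
      congr 3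
      push_cast
      ring
    rw [h3]
    simp only [Complex.reCLM_apply, Complex.add_re, Complex.re_ofReal_mul]
    rw [hre, hre]
  rw [e2] at h2
  refine h2.congr_fun ?_
  intro i
  exact (e1 i).symm

theorem series_cos {α : ℝ} (h0 : 0 < α) (h1 : α < 1) {η : ℝ} (hη : η ∈ Icc (0 : ℝ) 1) :
    HasSum (fun k : ℤ => gcos α (wf k) * Real.cos (wf k * η)) ((1 - η) ^ α) := by
  have h := Complex.reCLM.hasSum (series_rep h0 h1 (ξ := η) (by
    rw [abs_of_nonneg hη.1]; exact hη.2))
  simp only [Complex.reCLM_apply, Complex.ofReal_re] at h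
  rw [abs_of_nonneg hη.1] at h
  refine h.congr_fun ?_
  intro k
  have : -(Complex.I * ((-wf k * η : ℝ) : ℂ)) = ((wf k * η : ℝ) : ℂ) * I := by push_cast; ring
  rw [this, mul_comm (Complex.exp _), Complex.re_ofReal_mul, Complex.exp_ofReal_mul_I_re]

theorem exists_cell {m : ℕ} (hm : 0 < m) {ξ : ℝ} (hξ : ξ ∈ Icc (0 : ℝ) 1) :
    ∃ q : ℕ, ∃ u ∈ Icc (0 : ℝ) 1, q + 1 ≤ 2 * m ∧ (2 * (m : ℝ)) * ξ = q + u := by
  rcases eq_or_lt_of_le hξ.2 with h | h
  · refine ⟨2 * m - 1, 1, ⟨zero_le_one, le_rfl⟩, by omega, ?_⟩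
    rw [h]
    have : ((2 * m - 1 : ℕ) : ℝ) = 2 * m - 1 := by
      rw [Nat.cast_sub (by omega)]
      push_cast
      ring
    rw [this]
    ring
  · have hpos : 0 ≤ (2 * (m : ℝ)) * ξ := mul_nonneg (by positivity) hξ.1
    refine ⟨⌊(2 * (m : ℝ)) * ξ⌋₊, (2 * (m : ℝ)) * ξ - ⌊(2 * (m : ℝ)) * ξ⌋₊, ⟨?_, ?_⟩, ?_, by ring⟩
    · exact sub_nonneg.2 (Nat.floor_le hpos)
    · linarith [Nat.lt_floor_add_one ((2 * (m : ℝ)) * ξ)]
    · have hm' : (0 : ℝ) < m := by exact_mod_cast hm
      have h2 : (2 * (m : ℝ)) * ξ < ((2 * m : ℕ) : ℝ) := by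
        push_cast
        nlinarith
      have h3 := (Nat.floor_lt hpos).2 h2
      omega

end C5a

open C5a in
/-- **C5a** -/
theorem norm_le_grid {α : ℝ} (h0 : 0 < α) (h1 : α < 1) {m N : ℕ} (hm : 0 < m) (hN : 0 < N)
    (w : Fin N → ℝ) (hw : ∀ k : ℕ, k ≤ 2 * m →
        ∑ j, w j * Real.cos (2 * Real.pi * j * k / N) = (1 - (k : ℝ) / (2 * m)) ^ α) :
    bernsteinNorm α ≤ ∑ j, |w j| +
      2 * ∑' k : ℤ, |gcos α (wf k)| * (1 - Fk (wf k / (2 * Real.pi * (2 * m)))) := by
  classical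
  have hm' : (0 : ℝ) < m := by exact_mod_cast hm
  set T : ℝ := 2 * Real.pi * (2 * m) with hT
  have hTpos : 0 < T := by positivity
  -- the two families
  let b₁ : Fin N × ℤ → ℝ := fun p => w p.1 * Fk ((p.1 : ℝ) / N + p.2)
  let e₁ : Fin N × ℤ → ℝ := fun p => T * ((p.1 : ℝ) / N + p.2)
  let b₂ : ℤ × ℤ → ℝ := fun p => Function.update (fun i : ℤ => -gcos α (wf p.1) *
    Fk (wf p.1 / T + i)) 0 (gcos α (wf p.1) * (1 - Fk (wf p.1 / T))) p.2
  let e₂ : ℤ × ℤ → ℝ := fun p => T * (wf p.1 / T + p.2)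
  have habs₁ : HasSum (fun p => |b₁ p|) (∑' j, |w j|) := by
    refine C5a.hasSum_abs (fun j => ?_) (Summable.of_finite)
    have h := (hasSum_Fk_one ((j : ℝ) / N)).mul_left |w j|
    rw [mul_one] at h
    refine h.congr_fun ?_
    intro i
    simp only [b₁]
    rw [abs_mul, abs_of_nonneg (Fk_nonneg _)]
  have habs₂ : HasSum (fun p => |b₂ p|)
      (∑' k : ℤ, 2 * (|gcos α (wf k)| * (1 - Fk (wf k / T)))) := by
    refine C5a.hasSum_abs (fun k => ?_) ?_
    · have h := ((hasSum_Fk_one (wf k / T)).mul_left |gcos α (wf k)|).update 0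
        (|gcos α (wf k)| * (1 - Fk (wf k / T)))
      have hval : |gcos α (wf k)| * (1 - Fk (wf k / T)) -
          |gcos α (wf k)| * Fk (wf k / T + ((0 : ℤ) : ℝ)) + |gcos α (wf k)| * 1 =
          2 * (|gcos α (wf k)| * (1 - Fk (wf k / T))) := by
        rw [Int.cast_zero, add_zero]
        ring
      rw [hval] at h
      refine h.congr_fun ?_
      intro i
      simp only [b₂]
      by_cases hi : i = 0
      · subst hi
        rw [Function.update_self, Function.update_self, abs_mul,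
          abs_of_nonneg (sub_nonneg.2 (C5a.Fk_le_one _))]
      · rw [Function.update_of_ne hi, Function.update_of_ne hi, abs_mul, abs_neg,
          abs_of_nonneg (Fk_nonneg _)]
    · refine Summable.mul_left 2 (Summable.of_nonneg_of_le (fun k => mul_nonneg (abs_nonneg _)
        (sub_nonneg.2 (C5a.Fk_le_one _))) (fun k => ?_) (summable_gcos_int h0 h1))
      exact mul_le_of_le_one_right (abs_nonneg _) (by linarith [Fk_nonneg (wf k / T)])
  let b : (Fin N × ℤ) ⊕ (ℤ × ℤ) → ℝ := Sum.elim b₁ b₂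
  let e : (Fin N × ℤ) ⊕ (ℤ × ℤ) → ℝ := Sum.elim e₁ e₂
  have hb : HasSum (fun i => |b i|) (∑' j, |w j| +
      ∑' k : ℤ, 2 * (|gcos α (wf k)| * (1 - Fk (wf k / T)))) :=
    HasSum.sum (f := fun i => |b i|) habs₁ habs₂
  have hrep : ∀ ξ ∈ Icc (0 : ℝ) 1, HasSum (fun i => b i * Real.cos (e i * ξ)) ((1 - ξ) ^ α) := by
    intro ξ hξ
    obtain ⟨q, u, hu, hq2, hq⟩ := C5a.exists_cell hm hξ
    have hqc : (q : ℝ) + 1 ≤ 2 * m := by exact_mod_cast hq2
    have hη₁ : (q : ℝ) / (2 * m) ∈ Icc (0 : ℝ) 1 :=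
      ⟨by positivity, by rw [div_le_one (by positivity)]; linarith⟩
    have hη₂ : ((q : ℝ) + 1) / (2 * m) ∈ Icc (0 : ℝ) 1 :=
      ⟨by positivity, by rw [div_le_one (by positivity)]; linarith⟩
    have hint : ∀ t : ℝ, HasSum (fun i : ℤ => Fk (t + i) * Real.cos (T * (t + i) * ξ))
        ((1 - u) * Real.cos (2 * Real.pi * t * q) +
          u * Real.cos (2 * Real.pi * t * (q + 1))) := fun t =>
      C5a.interp t hu ⟨q, rfl⟩ hq
    have hsum_of : ∀ {ι : Type} (c f : ι → ℝ), Summable (fun i => |c i|) →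
        Summable (fun i => c i * Real.cos (f i)) := by
      intro ι c f hc
      refine Summable.of_norm_bounded hc fun i => ?_
      rw [Real.norm_eq_abs, abs_mul]
      exact mul_le_of_le_one_right (abs_nonneg _) (Real.abs_cos_le_one _)
    have hS₁ : HasSum (fun p => b₁ p * Real.cos (e₁ p * ξ))
        ((1 - u) * (1 - (q : ℝ) / (2 * m)) ^ α + u * (1 - ((q : ℝ) + 1) / (2 * m)) ^ α) := by
      refine C5a.hasSum_rows (S := fun j => w j * ((1 - u) *
        Real.cos (2 * Real.pi * ((j : ℝ) / N) * q) +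
          u * Real.cos (2 * Real.pi * ((j : ℝ) / N) * (q + 1))))
        (hsum_of _ _ habs₁.summable) (fun j => ?_) ?_
      · refine ((hint ((j : ℝ) / N)).mul_left (w j)).congr_fun ?_
        intro i
        simp only [b₁, e₁]
        ring
      · have h2 := hasSum_fintype (fun j : Fin N => w j * ((1 - u) *
          Real.cos (2 * Real.pi * ((j : ℝ) / N) * q) +
          u * Real.cos (2 * Real.pi * ((j : ℝ) / N) * (q + 1))))
        have h3 : ∑ j : Fin N, w j * ((1 - u) *
          Real.cos (2 * Real.pi * ((j : ℝ) / N) * q) +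
          u * Real.cos (2 * Real.pi * ((j : ℝ) / N) * (q + 1))) =
          (1 - u) * (1 - (q : ℝ) / (2 * m)) ^ α + u * (1 - ((q : ℝ) + 1) / (2 * m)) ^ α := by
          have h4 := hw q (by omega)
          have h5 := hw (q + 1) hq2
          push_cast at h5
          rw [← h4, ← h5, Finset.mul_sum, Finset.mul_sum, ← Finset.sum_add_distrib]
          refine Finset.sum_congr rfl fun j _ => ?_
          have e3 : 2 * Real.pi * ((j : ℝ) / N) * q = 2 * Real.pi * j * q / N := by ring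
          have e4 : 2 * Real.pi * ((j : ℝ) / N) * (q + 1) = 2 * Real.pi * j * (q + 1) / N := by
            ring
          rw [e3, e4]
          ring
        rw [h3] at h2
        exact h2
    have hS₂ : HasSum (fun p => b₂ p * Real.cos (e₂ p * ξ))
        ((1 - ξ) ^ α - ((1 - u) * (1 - (q : ℝ) / (2 * m)) ^ α +
          u * (1 - ((q : ℝ) + 1) / (2 * m)) ^ α)) := by
      refine C5a.hasSum_rows (S := fun k => gcos α (wf k) * Real.cos (wf k * ξ) -
        ((1 - u) * (gcos α (wf k) * Real.cos (wf k * ((q : ℝ) / (2 * m)))) +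
          u * (gcos α (wf k) * Real.cos (wf k * (((q : ℝ) + 1) / (2 * m))))))
        (hsum_of _ _ habs₂.summable) (fun k => ?_) ?_
      · have h := ((hint (wf k / T)).mul_left (-gcos α (wf k))).update 0
          (gcos α (wf k) * (1 - Fk (wf k / T)) * Real.cos (wf k * ξ))
        have e0 : T * (wf k / T + ((0 : ℤ) : ℝ)) * ξ = wf k * ξ := by
          rw [Int.cast_zero, add_zero, mul_div_cancel₀ _ hTpos.ne']
        have e3 : 2 * Real.pi * (wf k / T) * q = wf k * ((q : ℝ) / (2 * m)) := by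
          rw [hT]
          field_simp
        have e4 : 2 * Real.pi * (wf k / T) * (q + 1) = wf k * (((q : ℝ) + 1) / (2 * m)) := by
          rw [hT]
          field_simp
        have hval : gcos α (wf k) * (1 - Fk (wf k / T)) * Real.cos (wf k * ξ) -
            -gcos α (wf k) * (Fk (wf k / T + ((0 : ℤ) : ℝ)) *
              Real.cos (T * (wf k / T + ((0 : ℤ) : ℝ)) * ξ)) +
            -gcos α (wf k) * ((1 - u) * Real.cos (2 * Real.pi * (wf k / T) * q) +
              u * Real.cos (2 * Real.pi * (wf k / T) * (q + 1))) =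
            gcos α (wf k) * Real.cos (wf k * ξ) -
            ((1 - u) * (gcos α (wf k) * Real.cos (wf k * ((q : ℝ) / (2 * m)))) +
              u * (gcos α (wf k) * Real.cos (wf k * (((q : ℝ) + 1) / (2 * m))))) := by
          rw [e0, e3, e4, Int.cast_zero, add_zero]
          ring
        rw [hval] at h
        refine h.congr_fun ?_
        intro i
        simp only [b₂, e₂]
        by_cases hi : i = 0
        · subst hi
          rw [Function.update_self, Function.update_self, e0]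
        · rw [Function.update_of_ne hi, Function.update_of_ne hi]
          ring
      · exact (C5a.series_cos h0 h1 hξ).sub (((C5a.series_cos h0 h1 hη₁).mul_left (1 - u)).add
          ((C5a.series_cos h0 h1 hη₂).mul_left u))
    have h := HasSum.sum (f := fun i => b i * Real.cos (e i * ξ)) hS₁ hS₂
    rw [add_sub_cancel] at h
    exact h
  have h := bernsteinNorm_le_family hb.summable hrep
  rw [hb.tsum_eq, tsum_fintype, tsum_mul_left] at h
  exact h

end Pool.Agent.Helper30.FG
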