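import Pool.Agent.Helper30.FG.A4

set_option autoImplicit false

namespace Pool.Agent.Helper30.FG

open Complex MeasureTheory Set Filter Topology
open Pool.Agent.Helper78.Bern Pool.Agent.Helper45.Bern

namespace D1

/-- Cauchy's estimate with radius `1` -/
private theorem deriv_le {a M : ℝ} (ha : 0 ≤ a) {f : ℂ → ℂ} (hf : IsB a M f) (z : ℂ) :
    ‖deriv f z‖ ≤ M * Real.exp (a * (‖z‖ + 1)) := by
  have h := Complex.norm_deriv_le_of_forall_mem_sphere_norm_le (c := z) (R := 1)
    (C := M * Real.exp (a * (‖z‖ + 1))) one_pos hf.diff.diffContOnCl (fun w hw => ?_)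
  · simpa using h
  · refine (hf.bd w).trans (mul_le_mul_of_nonneg_left ?_ hf.nonneg)
    refine Real.exp_le_exp.2 (mul_le_mul_of_nonneg_left ?_ ha)
    have h1 : ‖w - z‖ = 1 := by simpa [dist_eq_norm] using hw
    have h2 : ‖w‖ ≤ ‖w - z‖ + ‖z‖ := by
      have := norm_add_le (w - z) z
      simpa using this
    exact (Complex.abs_im_le_norm w).trans (by linarith)

/-- limit of a sequence of functions of the class along an ultrafilter -/
private theorem limit_fun {a M : ℝ} (ha : 0 ≤ a) {s : ℕ → ℂ → ℂ} (hs : ∀ n, IsE a M (s n))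
    (U : Ultrafilter ℕ) :
    ∃ f : ℂ → ℂ, IsE a M f ∧ ∀ z, Tendsto (fun n => s n z) (U : Filter ℕ) (𝓝 (f z)) := by
  have hM : 0 ≤ M := (hs 0).b.nonneg
  have hlim : ∀ z : ℂ, ∃ w : ℂ, Tendsto (fun n => s n z) (U : Filter ℕ) (𝓝 w) := by
    intro z
    obtain ⟨w, -, hw⟩ := (isCompact_closedBall (0 : ℂ)
      (M * Real.exp (a * |z.im|))).ultrafilter_le_nhds (U.map fun n => s n z) (by
        rw [le_principal_iff, Ultrafilter.coe_map, mem_map]
        refine Filter.univ_mem' fun n => ?_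
        simpa using (hs n).b.bd z)
    exact ⟨w, hw⟩
  choose f hf using hlim
  refine ⟨f, ⟨⟨?_, fun z => ?_⟩, fun z => ?_, fun x => ?_⟩, hf⟩
  · -- locally uniform convergence
    have heq : ∀ K ∈ {K : Set ℂ | IsCompact K}, EquicontinuousOn s K := by
      intro K hK
      obtain ⟨R, hR⟩ := (show IsCompact K from hK).isBounded.subset_closedBall 0
      have hL : ∀ n, LipschitzOnWith (Real.toNNReal (M * Real.exp (a * (|R| + 1)))) (s n)
          (Metric.closedBall 0 |R|) := by
        intro n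
        refine LipschitzOnWith.of_dist_le_mul fun x hx y hy => ?_
        rw [dist_eq_norm, dist_eq_norm,
          Real.coe_toNNReal _ (mul_nonneg hM (Real.exp_pos _).le)]
        refine (convex_closedBall (0 : ℂ) |R|).norm_image_sub_le_of_norm_deriv_le
          (fun z _ => (hs n).b.diff z) (fun z hz => ?_) hy hx
        refine (deriv_le ha (hs n).b z).trans (mul_le_mul_of_nonneg_left ?_ hM)
        refine Real.exp_le_exp.2 (mul_le_mul_of_nonneg_left ?_ ha)
        have : ‖z‖ ≤ |R| := by simpa using hz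
        linarith
      have h1 := (LipschitzOnWith.uniformEquicontinuousOn s _ hL).equicontinuousOn
      exact h1.mono (hR.trans (Metric.closedBall_subset_closedBall (le_abs_self R)))
    have hcov : ⋃₀ {K : Set ℂ | IsCompact K} = univ := by
      refine eq_univ_of_forall fun z => ?_
      exact mem_sUnion.2 ⟨{z}, isCompact_singleton, mem_singleton z⟩
    have h2 := (EquicontinuousOn.tendsto_uniformOnFun_iff_pi (𝔖 := {K : Set ℂ | IsCompact K})
      (fun K hK => hK) hcov heq (U : Filter ℕ) f).2 (tendsto_pi_nhds.2 hf)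
    rw [UniformOnFun.tendsto_iff_tendstoUniformlyOn] at h2
    have h3 : TendstoLocallyUniformlyOn s f (U : Filter ℕ) univ := by
      rw [tendstoLocallyUniformlyOn_iff_forall_isCompact isOpen_univ]
      intro K _ hK
      exact h2 K hK
    have h4 := h3.differentiableOn
      (Eventually.of_forall fun n => (hs n).b.diff.differentiableOn) isOpen_univ
    exact differentiableOn_univ.1 h4
  · exact le_of_tendsto (hf z).norm (Eventually.of_forall fun n => (hs n).b.bd z)
  · refine tendsto_nhds_unique (hf (-z)) ((hf z).congr fun n => ?_)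
    exact ((hs n).even z).symm
  · have h1 := (Complex.continuous_im.tendsto _).comp (hf (x : ℂ))
    refine tendsto_nhds_unique h1 (tendsto_const_nhds.congr fun n => ?_)
    exact ((hs n).real x).symm

/-- `|Lf (s²)|` is bounded on the class -/
private theorem norm_term_le {α : ℝ} {s : ℂ → ℂ} (hs : IsE (1 / 2) 1 s) (k : ℤ) :
    ‖gcos α (wf k) * (s ((wf k : ℝ) : ℂ) ^ 2).re‖ ≤ |gcos α (wf k)| := by
  rw [norm_mul, Real.norm_eq_abs, Real.norm_eq_abs]
  have h1 : |(s ((wf k : ℝ) : ℂ) ^ 2).re| ≤ 1 := by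
    refine (Complex.abs_re_le_norm _).trans ?_
    rw [norm_pow]
    exact pow_le_one₀ (norm_nonneg _) (hs.b.real_le _)
  calc |gcos α (wf k)| * |(s ((wf k : ℝ) : ℂ) ^ 2).re| ≤ |gcos α (wf k)| * 1 :=
        mul_le_mul_of_nonneg_left h1 (abs_nonneg _)
    _ = |gcos α (wf k)| := mul_one _

private theorem J_le {α : ℝ} (h0 : 0 < α) (h1 : α < 1) {s : ℂ → ℂ} (hs : IsE (1 / 2) 1 s) :
    J α s ≤ 1 + 2 * ∑' k : ℤ, |gcos α (wf k)| := by
  have h2 : ‖Lf α (fun z => s z ^ 2)‖ ≤ ∑' k : ℤ, |gcos α (wf k)| :=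
    tsum_of_norm_bounded (summable_gcos_int h0 h1).hasSum fun k => norm_term_le hs k
  have h3 := (abs_le.1 (by simpa [Real.norm_eq_abs] using h2)).1
  unfold J
  linarith

end D1

/-- **D1** -/
theorem exists_max {α : ℝ} (h0 : 0 < α) (h1 : α < 1) :
    ∃ s : ℂ → ℂ, IsE (1 / 2) 1 s ∧ ∀ s' : ℂ → ℂ, IsE (1 / 2) 1 s' → J α s' ≤ J α s := by
  set S : Set ℝ := {y | ∃ s : ℂ → ℂ, IsE (1 / 2) 1 s ∧ J α s = y} with hS
  have hne : S.Nonempty := by
    refine ⟨_, fun _ => 0, ⟨⟨differentiable_const 0, fun z => ?_⟩, fun _ => rfl, fun _ => rfl⟩,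
      rfl⟩
    rw [norm_zero, one_mul]
    exact (Real.exp_pos _).le
  have hbd : BddAbove S := by
    refine ⟨1 + 2 * ∑' k : ℤ, |gcos α (wf k)|, ?_⟩
    rintro y ⟨s, hs, rfl⟩
    exact D1.J_le h0 h1 hs
  obtain ⟨u, -, hu, huS⟩ := exists_seq_tendsto_sSup hne hbd
  choose s hs hsu using huS
  obtain ⟨f, hf, hlim⟩ := D1.limit_fun (by norm_num : (0 : ℝ) ≤ 1 / 2) hs (hyperfilter ℕ)
  refine ⟨f, hf, fun s' hs' => ?_⟩
  have hU : ((hyperfilter ℕ : Ultrafilter ℕ) : Filter ℕ) ≤ atTop := Nat.hyperfilter_le_atTop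
  have h2 : Tendsto (fun n => Lf α (fun z => s n z ^ 2)) (hyperfilter ℕ : Filter ℕ)
      (𝓝 (Lf α (fun z => f z ^ 2))) := by
    refine tendsto_tsum_of_dominated_convergence (bound := fun k : ℤ => |gcos α (wf k)|)
      (summable_gcos_int h0 h1) (fun k => ?_) (Eventually.of_forall fun n k =>
        D1.norm_term_le (hs n) k)
    have h3 := ((Complex.continuous_re.tendsto _).comp ((hlim ((wf k : ℝ) : ℂ)).pow 2))
    exact h3.const_mul (gcos α (wf k))
  have h3 : Tendsto (fun n => J α (s n)) (hyperfilter ℕ : Filter ℕ) (𝓝 (J α f)) :=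
    tendsto_const_nhds.sub (h2.const_mul 2)
  have h4 : Tendsto (fun n => J α (s n)) (hyperfilter ℕ : Filter ℕ) (𝓝 (sSup S)) := by
    refine (hu.mono_left hU).congr fun n => ?_
    exact (hsu n).symm
  rw [tendsto_nhds_unique h3 h4]
  exact le_csSup hbd ⟨s', hs', rfl⟩

end Pool.Agent.Helper30.FG
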