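import Pool.Agent.Helper30.FG.A6
import Pool.Agent.Helper30.FG.B1
import Pool.Agent.Helper30.FG.B2

set_option autoImplicit false

namespace Pool.Agent.Helper30.FG

open Complex MeasureTheory Set Filter Topology
open Pool.Agent.Helper78.Bern Pool.Agent.Helper45.Bern

private theorem D2v_zero {h : ℂ → ℂ} (hc : Continuous h) {k : ℂ}
    (hz : ∀ z : ℂ, h z * (z ^ 2 - k ^ 2) = 0) (z : ℂ) : h z = 0 := by
  have hfin : ({k, -k} : Set ℂ).Finite := by simp
  have hd : Dense ((univ : Set ℂ) \ {k, -k}) := dense_univ.sdiff_finite hfin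
  have h1 : h = fun _ => 0 := by
    refine Continuous.ext_on hd hc continuous_const ?_
    intro w hw
    have h2 : w ^ 2 - k ^ 2 ≠ 0 := by
      intro h3
      apply hw.2
      rcases sq_eq_sq_iff_eq_or_eq_neg.1 (sub_eq_zero.1 h3) with h4 | h4
      · exact Or.inl h4
      · exact Or.inr h4
    exact (mul_eq_zero.1 (hz w)).resolve_right h2
  rw [h1]

private theorem D2v_zero_real {h : ℝ → ℝ} (hc : Continuous h) {k : ℝ}
    (hz : ∀ x : ℝ, h x * (x ^ 2 - k ^ 2) = 0) (x : ℝ) : h x = 0 := by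
  have hfin : ({k, -k} : Set ℝ).Finite := by simp
  have hd : Dense ((univ : Set ℝ) \ {k, -k}) := dense_univ.sdiff_finite hfin
  have h1 : h = fun _ => 0 := by
    refine Continuous.ext_on hd hc continuous_const ?_
    intro w hw
    have h2 : w ^ 2 - k ^ 2 ≠ 0 := by
      intro h3
      apply hw.2
      rcases sq_eq_sq_iff_eq_or_eq_neg.1 (sub_eq_zero.1 h3) with h4 | h4
      · exact Or.inl h4
      · exact Or.inr h4
    exact (mul_eq_zero.1 (hz w)).resolve_right h2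
  rw [h1]

/-- the function `v = z s'(z) / (z² - k²)` -/
theorem exists_v {s : ℂ → ℂ} (hs : IsE (1 / 2) 1 s) {k : ℝ} (hk : deriv s (k : ℂ) = 0) :
    ∃ v : ℂ → ℂ, (∃ C : ℝ, IsE (1 / 2) C v) ∧
      ∀ z : ℂ, v z * (z ^ 2 - (k : ℂ) ^ 2) = z * deriv s z := by
  have hB : IsB (1 / 2) (1 / 2 * 1) (deriv s) := bernstein (by norm_num) hs.b
  have hodd : ∀ z : ℂ, deriv s (-z) = -deriv s z := deriv_odd hs.b.diff hs.even
  have hreal : ∀ x : ℝ, (deriv s (x : ℂ)).im = 0 := deriv_real hs.b.diff hs.real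
  -- existence with bound
  obtain ⟨v, hvd, ⟨C, hC, hvb⟩, hv⟩ : ∃ v : ℂ → ℂ, Differentiable ℂ v ∧
      (∃ C : ℝ, 0 ≤ C ∧ ∀ z : ℂ, ‖v z‖ ≤ C * Real.exp (1 / 2 * |z.im|)) ∧
      ∀ z : ℂ, v z * (z ^ 2 - (k : ℂ) ^ 2) = z * deriv s z := by
    by_cases hk0 : k = 0
    · subst hk0
      obtain ⟨g, hg1, hg2, C, hC, hg3⟩ := exists_div (by norm_num) hB (ζ := 0)
        (by simpa using hk)
      refine ⟨g, hg1, ⟨C, hC, fun z => (hg3 z).trans ?_⟩, fun z => ?_⟩
      · refine div_le_self (by positivity) ?_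
        linarith [norm_nonneg z]
      · rw [hg2 z]
        push_cast
        ring
    · have hk1 : deriv s (-(k : ℂ)) = 0 := by rw [hodd, hk, neg_zero]
      obtain ⟨g, hg1, hg2, C, hC, hg3⟩ := exists_div_sq (by norm_num) hB (ζ := (k : ℂ))
        (by exact_mod_cast hk0) hk hk1
      refine ⟨fun z => z * g z, differentiable_id.mul hg1, ⟨C, hC, fun z => ?_⟩, fun z => ?_⟩
      · have h1 := hg3 z
        have hz := norm_nonneg z
        have h2 : 0 < (1 + ‖z‖) ^ 2 := by positivity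
        rw [le_div_iff₀ h2] at h1
        rw [norm_mul]
        have h3 : ‖z‖ ≤ (1 + ‖z‖) ^ 2 := by nlinarith
        calc ‖z‖ * ‖g z‖ ≤ (1 + ‖z‖) ^ 2 * ‖g z‖ :=
              mul_le_mul_of_nonneg_right h3 (norm_nonneg _)
          _ = ‖g z‖ * (1 + ‖z‖) ^ 2 := mul_comm _ _
          _ ≤ C * Real.exp (1 / 2 * |z.im|) := h1
      · simp only
        rw [hg2 z]
        ring
  refine ⟨v, ⟨C, ⟨hvd, hvb⟩, fun z => ?_, fun x => ?_⟩, hv⟩
  · have h1 : ∀ w : ℂ, (v (-w) - v w) * (w ^ 2 - (k : ℂ) ^ 2) = 0 := by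
      intro w
      have h2 := hv (-w)
      have h3 := hv w
      rw [hodd] at h2
      linear_combination h2 - h3
    have h2 := D2v_zero (h := fun w => v (-w) - v w)
      ((hvd.continuous.comp continuous_neg).sub hvd.continuous) h1 z
    exact sub_eq_zero.1 h2
  · refine D2v_zero_real (h := fun x : ℝ => (v (x : ℂ)).im) (k := k) ?_ ?_ x
    · exact Complex.continuous_im.comp (hvd.continuous.comp Complex.continuous_ofReal)
    · intro y
      have h2 := hv (y : ℂ)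
      have h3 : ((y : ℂ) ^ 2 - (k : ℂ) ^ 2) = ((y ^ 2 - k ^ 2 : ℝ) : ℂ) := by push_cast; ring
      rw [h3] at h2
      have h4 := congrArg Complex.im h2
      rw [Complex.im_mul_ofReal, Complex.im_ofReal_mul, hreal, mul_zero] at h4
      exact h4

namespace D2

private theorem quad {L D e : ℝ} (he : 0 < e) (hD : 0 ≤ D)
    (h : ∀ η : ℝ, |η| ≤ e → 0 ≤ 2 * η * L + η ^ 2 * D) : L = 0 := by
  by_contra hL
  have hL2 : 0 < L ^ 2 := by positivity
  have hL1 : 0 < |L| := abs_pos.2 hL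
  set t : ℝ := min (e / (|L| + 1)) (1 / (D + 1)) with ht
  have ht0 : 0 < t := lt_min (by positivity) (by positivity)
  have ht1 : t ≤ e / (|L| + 1) := min_le_left _ _
  have ht2 : t ≤ 1 / (D + 1) := min_le_right _ _
  rw [le_div_iff₀ (by positivity)] at ht1 ht2
  have h1 := h (-(L * t)) (by
    rw [abs_neg, abs_mul, abs_of_pos ht0]
    nlinarith)
  have h2 : 2 * -(L * t) * L + (-(L * t)) ^ 2 * D = t * L ^ 2 * (t * D - 2) := by ring
  rw [h2] at h1
  have h3 : t * D - 2 < 0 := by nlinarith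
  have h4 : 0 < t * L ^ 2 := by positivity
  nlinarith

/-- the elementary inequality behind `|s + η v| ≤ 1 + K η²` -/
private theorem sqrt_bound {S V D B η : ℝ} (h1 : 4 * D ^ 2 + S ^ 2 ≤ 1) (h2 : |V| ≤ B * |D|) :
    |S + η * V| ≤ 1 + B ^ 2 * η ^ 2 := by
  have h3 : V ^ 2 ≤ B ^ 2 * D ^ 2 := by
    have := pow_le_pow_left₀ (abs_nonneg V) h2 2
    rw [mul_pow, sq_abs, sq_abs] at this
    exact this
  apply abs_le_of_sq_le_sq _ (by positivity)
  have h4 : (S + η * V) ^ 2 ≤ 1 + B ^ 2 * η ^ 2 := by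
    by_cases hq : B * η = 0
    · have h5 : (η * V) ^ 2 ≤ 0 := by
        have : (η * V) ^ 2 ≤ (B * η) ^ 2 * D ^ 2 := by
          have := mul_le_mul_of_nonneg_left h3 (sq_nonneg η)
          nlinarith
        rw [hq] at this
        simpa using this
      have h6 : η * V = 0 := by nlinarith [sq_nonneg (η * V)]
      rw [h6]
      nlinarith [sq_nonneg D, sq_nonneg (B * η)]
    · have hp : 0 < (B * η) ^ 2 := by positivity
      set t : ℝ := (B * η) ^ 2 with ht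
      have h5 : (η * V) ^ 2 ≤ t * D ^ 2 := by
        have := mul_le_mul_of_nonneg_left h3 (sq_nonneg η)
        rw [ht]
        nlinarith
      -- `2 S (ηV) ≤ t S² + (ηV)² / t`
      have h6 : 2 * S * (η * V) ≤ t * S ^ 2 + (η * V) ^ 2 / t := by
        have h7 : 0 ≤ (t * S - η * V) ^ 2 / t := by positivity
        have h8 : (t * S - η * V) ^ 2 / t = t * S ^ 2 - 2 * S * (η * V) + (η * V) ^ 2 / t := by
          field_simp
          ring
        linarith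
      have h7 : (η * V) ^ 2 / t ≤ D ^ 2 := by
        rw [div_le_iff₀ hp]
        linarith
      have h8 : t * D ^ 2 ≤ t * (1 - S ^ 2) := by
        apply mul_le_mul_of_nonneg_left _ hp.le
        nlinarith [sq_nonneg D]
      have h9 : D ^ 2 ≤ 1 - S ^ 2 := by nlinarith [sq_nonneg D]
      have h10 : (S + η * V) ^ 2 = S ^ 2 + 2 * S * (η * V) + (η * V) ^ 2 := by ring
      have h11 : t = B ^ 2 * η ^ 2 := by rw [ht]; ring
      rw [h10, ← h11]
      nlinarith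
  nlinarith [sq_nonneg (B * η), sq_nonneg (B ^ 2 * η ^ 2)]

/-- `|s + η v| ≤ 1 + K η²` on the real axis, for small `η` -/
private theorem real_bound {s : ℂ → ℂ} (hs : IsE (1 / 2) 1 s) {k : ℝ}
    (hk1 : |(s (k : ℂ)).re| < 1) {v : ℂ → ℂ} {C : ℝ}
    (hv : IsE (1 / 2) C v) (hvk : ∀ z : ℂ, v z * (z ^ 2 - (k : ℂ) ^ 2) = z * deriv s z) :
    ∃ K e : ℝ, 0 ≤ K ∧ 0 < e ∧ ∀ η : ℝ, |η| ≤ e → ∀ x : ℝ,
      ‖s (x : ℂ) + (η : ℂ) * v (x : ℂ)‖ ≤ 1 + K * η ^ 2 := by
  have hC : 0 ≤ C := hv.b.nonneg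
  set c : ℝ := (1 - |(s (k : ℂ)).re|) / 2 with hc
  have hc0 : 0 < c := by rw [hc]; linarith
  have hcont : Continuous fun x : ℝ => |(s (x : ℂ)).re| :=
    continuous_abs.comp (Complex.continuous_re.comp
      (hs.b.diff.continuous.comp Complex.continuous_ofReal))
  obtain ⟨δ, hδ, hball⟩ := Metric.continuousAt_iff.1 (hcont.continuousAt (x := k)) c hc0
  have hnear : ∀ x : ℝ, |x - k| < δ → |(s (x : ℂ)).re| ≤ 1 - c := by
    intro x hx
    have h1 := hball (show dist x k < δ by rwa [Real.dist_eq])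
    rw [Real.dist_eq] at h1
    have h2 := (abs_lt.1 h1).2
    have h3 : |(s (k : ℂ)).re| = 1 - 2 * c := by rw [hc]; ring
    linarith
  have hnear' : ∀ x : ℝ, |x + k| < δ → |(s (x : ℂ)).re| ≤ 1 - c := by
    intro x hx
    have h1 := hnear (-x) (by rw [← abs_neg]; convert hx using 2; ring)
    rw [Complex.ofReal_neg, hs.even] at h1
    exact h1
  refine ⟨(1 / δ) ^ 2, c / (C + 1), by positivity, by positivity, fun η hη x => ?_⟩
  have hreal : s (x : ℂ) + (η : ℂ) * v (x : ℂ) =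
      (((s (x : ℂ)).re + η * (v (x : ℂ)).re : ℝ) : ℂ) := by
    apply Complex.ext
    · simp
    · simp [hs.real x, hv.real x]
  rw [hreal, Complex.norm_real, Real.norm_eq_abs]
  have hV : |(v (x : ℂ)).re| ≤ C := (Complex.abs_re_le_norm _).trans (hv.b.real_le x)
  have hsmall : |(s (x : ℂ)).re| ≤ 1 - c →
      |(s (x : ℂ)).re + η * (v (x : ℂ)).re| ≤ 1 + (1 / δ) ^ 2 * η ^ 2 := by
    intro h1
    have h2 : |η * (v (x : ℂ)).re| ≤ c := by
      rw [abs_mul]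
      calc |η| * |(v (x : ℂ)).re| ≤ c / (C + 1) * C :=
            mul_le_mul hη hV (abs_nonneg _) (by positivity)
        _ ≤ c := by
            rw [div_mul_eq_mul_div, div_le_iff₀ (by positivity)]
            nlinarith
    have h3 := abs_add_le (s (x : ℂ)).re (η * (v (x : ℂ)).re)
    have h4 : 0 ≤ (1 / δ) ^ 2 * η ^ 2 := by positivity
    linarith
  by_cases hx1 : |x - k| < δ
  · exact hsmall (hnear x hx1)
  by_cases hx2 : |x + k| < δ
  · exact hsmall (hnear' x hx2)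
  have hx1' : δ ≤ |x - k| := not_lt.1 hx1
  have hx2' : δ ≤ |x + k| := not_lt.1 hx2
  refine sqrt_bound (D := (deriv s (x : ℂ)).re) (bern_szego hs.b hs.real x) ?_
  have h1 := congrArg Complex.re (hvk (x : ℂ))
  have e1 : ((x : ℂ) ^ 2 - (k : ℂ) ^ 2) = ((x ^ 2 - k ^ 2 : ℝ) : ℂ) := by push_cast; ring
  rw [e1, Complex.re_mul_ofReal, Complex.re_ofReal_mul] at h1
  have h2 : |(v (x : ℂ)).re| * (|x - k| * |x + k|) = |x| * |(deriv s (x : ℂ)).re| := by
    rw [← abs_mul, ← abs_mul, ← abs_mul, ← h1]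
    congr 2
    ring
  have hp : 0 < |x - k| * |x + k| := mul_pos (hδ.trans_le hx1') (hδ.trans_le hx2')
  have h3 : |x| * δ ≤ |x - k| * |x + k| := by
    have h4 : |x| ≤ (|x - k| + |x + k|) / 2 := by
      have h5 : |(x - k) + (x + k)| ≤ |x - k| + |x + k| := abs_add_le _ _
      have h6 : |(x - k) + (x + k)| = 2 * |x| := by
        rw [show (x - k) + (x + k) = 2 * x by ring, abs_mul]
        norm_num
      linarith
    nlinarith [mul_le_mul hx1' hx2' hδ.le (abs_nonneg (x - k))]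
  have h4 : |(v (x : ℂ)).re| * (|x - k| * |x + k|) ≤
      (1 / δ * |(deriv s (x : ℂ)).re|) * (|x - k| * |x + k|) := by
    rw [h2]
    have h5 : |x| ≤ 1 / δ * (|x - k| * |x + k|) := by
      rw [one_div, inv_mul_eq_div, le_div_iff₀ hδ]
      exact h3
    calc |x| * |(deriv s (x : ℂ)).re| ≤
        (1 / δ * (|x - k| * |x + k|)) * |(deriv s (x : ℂ)).re| :=
          mul_le_mul_of_nonneg_right h5 (abs_nonneg _)
      _ = _ := by ring
  exact le_of_mul_le_mul_right h4 hp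

end D2

/-- **D2** -/
theorem first_order {α : ℝ} (h0 : 0 < α) (h1 : α < 1) {s : ℂ → ℂ} (hs : IsE (1 / 2) 1 s)
    (hmax : ∀ s' : ℂ → ℂ, IsE (1 / 2) 1 s' → J α s' ≤ J α s) {k : ℝ}
    (hk : deriv s (k : ℂ) = 0) (hk1 : |(s (k : ℂ)).re| < 1) {v : ℂ → ℂ} {C : ℝ}
    (hv : IsE (1 / 2) C v) (hvk : ∀ z : ℂ, v z * (z ^ 2 - (k : ℂ) ^ 2) = z * deriv s z) :
    Lf α (fun z => s z * v z) = 0 := by
  obtain ⟨K, e, hK, he, hbd⟩ := D2.real_bound hs hk1 hv hvk
  have hC : 0 ≤ C := hv.b.nonneg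
  set L0 := Lf α (fun z => s z ^ 2) with hL0
  set L1 := Lf α (fun z => s z * v z) with hL1
  set L2 := Lf α (fun z => v z ^ 2) with hL2
  -- bounds on the real axis
  have b0 : ∀ x : ℝ, ‖(fun z => s z ^ 2) (x : ℂ)‖ ≤ 1 := fun x => by
    show ‖s (x : ℂ) ^ 2‖ ≤ 1
    rw [norm_pow]
    exact pow_le_one₀ (norm_nonneg _) (hs.b.real_le x)
  have b1 : ∀ x : ℝ, ‖(fun z => s z * v z) (x : ℂ)‖ ≤ C := fun x => by
    show ‖s (x : ℂ) * v (x : ℂ)‖ ≤ C
    rw [norm_mul]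
    calc ‖s (x : ℂ)‖ * ‖v (x : ℂ)‖ ≤ 1 * C :=
          mul_le_mul (hs.b.real_le x) (hv.b.real_le x) (norm_nonneg _) zero_le_one
      _ = C := one_mul C
  have b2 : ∀ x : ℝ, ‖(fun z => v z ^ 2) (x : ℂ)‖ ≤ C ^ 2 := fun x => by
    show ‖v (x : ℂ) ^ 2‖ ≤ C ^ 2
    rw [norm_pow]
    exact pow_le_pow_left₀ (norm_nonneg _) (hv.b.real_le x) 2
  have expand : ∀ η : ℝ, Lf α (fun z => (s z + (η : ℂ) * v z) ^ 2) =
      L0 + 2 * η * L1 + η ^ 2 * L2 := by
    intro η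
    have c1 : ∀ x : ℝ, ‖(fun z => ((2 * η : ℝ) : ℂ) * (s z * v z)) (x : ℂ)‖ ≤ |2 * η| * C := by
      intro x
      show ‖((2 * η : ℝ) : ℂ) * (s (x : ℂ) * v (x : ℂ))‖ ≤ _
      rw [norm_mul, Complex.norm_real, Real.norm_eq_abs]
      exact mul_le_mul_of_nonneg_left (b1 x) (abs_nonneg _)
    have c2 : ∀ x : ℝ, ‖(fun z => ((η ^ 2 : ℝ) : ℂ) * v z ^ 2) (x : ℂ)‖ ≤ |η ^ 2| * C ^ 2 := by
      intro x
      show ‖((η ^ 2 : ℝ) : ℂ) * v (x : ℂ) ^ 2‖ ≤ _
      rw [norm_mul, Complex.norm_real, Real.norm_eq_abs]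
      exact mul_le_mul_of_nonneg_left (b2 x) (abs_nonneg _)
    have e1 : (fun z => (s z + (η : ℂ) * v z) ^ 2) = fun z =>
        ((fun z => s z ^ 2) z + (fun z => ((2 * η : ℝ) : ℂ) * (s z * v z)) z) +
          (fun z => ((η ^ 2 : ℝ) : ℂ) * v z ^ 2) z := by
      funext z
      simp only []
      push_cast
      ring
    have e2 : Lf α (fun z => ((fun z => s z ^ 2) z +
        (fun z => ((2 * η : ℝ) : ℂ) * (s z * v z)) z) +
          (fun z => ((η ^ 2 : ℝ) : ℂ) * v z ^ 2) z) =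
        Lf α (fun z => (fun z => s z ^ 2) z + (fun z => ((2 * η : ℝ) : ℂ) * (s z * v z)) z) +
          Lf α (fun z => ((η ^ 2 : ℝ) : ℂ) * v z ^ 2) :=
      Lf_add (f := fun z => (fun z => s z ^ 2) z + (fun z => ((2 * η : ℝ) : ℂ) * (s z * v z)) z)
        h0 h1 (M := 1 + |2 * η| * C) (N := |η ^ 2| * C ^ 2)
        (fun x => (norm_add_le _ _).trans (add_le_add (b0 x) (c1 x))) c2
    rw [e1, e2, Lf_add h0 h1 b0 c1, Lf_const_mul (2 * η) (fun z => s z * v z),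
      Lf_const_mul (η ^ 2) (fun z => v z ^ 2)]
  -- the comparison
  have comp : ∀ η : ℝ, |η| ≤ e → (1 + K * η ^ 2) ^ 2 * L0 ≤ L0 + 2 * η * L1 + η ^ 2 * L2 := by
    intro η hη
    have hq : 0 < 1 + K * η ^ 2 := by positivity
    have hE : IsE (1 / 2) (1 + |η| * C) (fun z => s z + (η : ℂ) * v z) := hs.add (hv.const_mul η)
    have hE2 : IsE (1 / 2) (1 + K * η ^ 2) (fun z => s z + (η : ℂ) * v z) :=
      ⟨pl_bound (by norm_num) hE.b.diff hE.b.bd (hbd η hη), hE.even, hE.real⟩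
    have hE3 := hE2.const_mul (1 + K * η ^ 2)⁻¹
    rw [abs_of_pos (inv_pos.2 hq), inv_mul_cancel₀ hq.ne'] at hE3
    have h2 := hmax _ hE3
    unfold J at h2
    have h3 : L0 ≤ Lf α (fun z => ((((1 + K * η ^ 2)⁻¹ : ℝ) : ℂ) * (s z + (η : ℂ) * v z)) ^ 2) := by
      linarith
    have h4 : (fun z => ((((1 + K * η ^ 2)⁻¹ : ℝ) : ℂ) * (s z + (η : ℂ) * v z)) ^ 2) =
        fun z => (((((1 + K * η ^ 2)⁻¹) ^ 2 : ℝ)) : ℂ) *
          (fun z => (s z + (η : ℂ) * v z) ^ 2) z := by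
      funext z
      simp only []
      push_cast
      ring
    rw [h4, Lf_const_mul, expand η, inv_pow, inv_mul_eq_div, le_div_iff₀ (by positivity)] at h3
    linarith
  refine D2.quad (L := L1) (D := |L2| + 2 * K * |L0| + K ^ 2 * e ^ 2 * |L0|) he (by positivity)
    fun η hη => ?_
  have h2 := comp η hη
  have h3 : L2 ≤ |L2| := le_abs_self _
  have h4 : -L0 ≤ |L0| := neg_le_abs _
  have h5 : η ^ 2 ≤ e ^ 2 := by
    rw [← sq_abs]
    exact pow_le_pow_left₀ (abs_nonneg _) hη 2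
  have h6 : (1 + K * η ^ 2) ^ 2 * L0 = L0 + η ^ 2 * (2 * K * L0) + η ^ 2 * (K ^ 2 * η ^ 2 * L0) := by
    ring
  have hη2 : 0 ≤ η ^ 2 := sq_nonneg η
  have h7 : η ^ 2 * L2 ≤ η ^ 2 * |L2| := mul_le_mul_of_nonneg_left h3 hη2
  have h8 : -(η ^ 2 * (2 * K * L0)) ≤ η ^ 2 * (2 * K * |L0|) := by
    have : 2 * K * (-L0) ≤ 2 * K * |L0| := mul_le_mul_of_nonneg_left h4 (by positivity)
    nlinarith [mul_le_mul_of_nonneg_left this hη2]
  have h9 : -(η ^ 2 * (K ^ 2 * η ^ 2 * L0)) ≤ η ^ 2 * (K ^ 2 * e ^ 2 * |L0|) := by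
    have h10 : K ^ 2 * η ^ 2 * (-L0) ≤ K ^ 2 * e ^ 2 * |L0| :=
      calc K ^ 2 * η ^ 2 * (-L0) ≤ K ^ 2 * η ^ 2 * |L0| :=
            mul_le_mul_of_nonneg_left h4 (by positivity)
        _ ≤ K ^ 2 * e ^ 2 * |L0| := by
            apply mul_le_mul_of_nonneg_right _ (abs_nonneg _)
            exact mul_le_mul_of_nonneg_left h5 (by positivity)
    nlinarith [mul_le_mul_of_nonneg_left h10 hη2]
  nlinarith

end Pool.Agent.Helper30.FG
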