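import Pool.Agent.Helper30.FG.A6
import Pool.Agent.Helper30.FG.D3a
import Pool.Agent.Helper30.FG.D3b

set_option autoImplicit false

namespace Pool.Agent.Helper30.FG

open Complex MeasureTheory Set Filter Topology
open Pool.Agent.Helper78.Bern Pool.Agent.Helper45.Bern

namespace D3

/-- pointwise bound of the logarithmic factor -/
theorem log_bd {ε k t : ℝ} (hε : 0 < ε) (hε1 : ε ≤ 1) (hk : 1 ≤ k) (ht : 0 < t) :
    1 + Real.log k + Real.log (1 + k ^ 2 / t ^ 2) ≤
      (1 + Real.log k) * (4 + 1 / ε + 1 / ε * t ^ (-(2 * ε))) := by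
  have hk0 : 0 < k := by linarith
  have hlk : 0 ≤ Real.log k := Real.log_nonneg hk
  have hk2 : 1 ≤ k ^ 2 := one_le_pow₀ hk
  have h1 : Real.log (1 + k ^ 2 / t ^ 2) ≤ Real.log ((2 * k ^ 2) * (1 + 1 / t ^ 2)) := by
    apply Real.log_le_log (by positivity)
    have h : 0 < k ^ 2 / t ^ 2 := by positivity
    have e : (2 * k ^ 2) * (1 + 1 / t ^ 2) = 2 * k ^ 2 + 2 * (k ^ 2 / t ^ 2) := by ring
    rw [e]
    linarith
  have h2 : Real.log ((2 * k ^ 2) * (1 + 1 / t ^ 2)) =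
      Real.log 2 + 2 * Real.log k + Real.log (1 + 1 / t ^ 2) := by
    rw [Real.log_mul (by positivity) (by positivity), Real.log_mul (by norm_num) (by positivity),
      Real.log_pow]
    push_cast
    ring
  have h3 : Real.log (1 + 1 / t ^ 2) ≤ (1 + 1 / t ^ 2) ^ ε / ε :=
    Real.log_le_rpow_div (by positivity) hε
  have h4 : (1 + 1 / t ^ 2) ^ ε ≤ 1 + t ^ (-(2 * ε)) := by
    have h5 := Real.rpow_add_le_add_rpow (show (0 : ℝ) ≤ 1 by norm_num)
      (show (0 : ℝ) ≤ 1 / t ^ 2 by positivity) hε.le hε1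
    have h6 : (1 / t ^ 2) ^ ε = t ^ (-(2 * ε)) := by
      rw [one_div, Real.inv_rpow (by positivity), ← Real.rpow_natCast, ← Real.rpow_mul ht.le,
        ← Real.rpow_neg ht.le]
      norm_num
    rw [Real.one_rpow, h6] at h5
    exact h5
  have h7 : (1 + 1 / t ^ 2) ^ ε / ε ≤ (1 + t ^ (-(2 * ε))) / ε :=
    div_le_div_of_nonneg_right h4 hε.le
  have h8 := Real.log_two_lt_d9
  have h9 : 0 < t ^ (-(2 * ε)) := Real.rpow_pos_of_pos ht _
  have h10 : (1 + t ^ (-(2 * ε))) / ε = 1 / ε + 1 / ε * t ^ (-(2 * ε)) := by ring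
  have h11 : 0 < 1 / ε + 1 / ε * t ^ (-(2 * ε)) := by positivity
  have h12 := mul_nonneg hlk h11.le
  rw [h10] at h7
  nlinarith

theorem int_rpow {a : ℝ} (ha : 0 < a) :
    IntegrableOn (fun t : ℝ => t ^ (a - 1) * Real.exp (-t)) (Ioi 0) ∧
      ∫ t in Ioi (0 : ℝ), t ^ (a - 1) * Real.exp (-t) = Real.Gamma a := by
  have h := Real.GammaIntegral_convergent ha
  have e : (fun t : ℝ => Real.exp (-t) * t ^ (a - 1)) = fun t => t ^ (a - 1) * Real.exp (-t) := by
    funext t; ring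
  rw [e] at h
  refine ⟨h, ?_⟩
  rw [Real.Gamma_eq_integral ha, e]

/-- integrability of the first part -/
theorem int_first {α : ℝ} (h0 : 0 < α) (h1 : α < 1) {s : ℂ → ℂ} (hs : IsE (1 / 2) 1 s) {k : ℝ}
    (hk : 2 ≤ k) :
    IntegrableOn (fun t : ℝ => t ^ (-α) * Real.exp (-t) * (2 * Sv s t * deriv (Sv s) t) /
      (t ^ 2 + k ^ 2)) (Ioi 0) := by
  obtain ⟨hS1, hS2, hS3, -, -, -⟩ := Sv_facts hs
  have hk0 : 0 < k := by linarith
  have hcont : ContinuousOn (fun t : ℝ => t ^ (-α) * Real.exp (-t) *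
      (2 * Sv s t * deriv (Sv s) t) / (t ^ 2 + k ^ 2)) (Ioi 0) := by
    have c1 : ContinuousOn (fun t : ℝ => t ^ (-α)) (Ioi 0) := fun t ht =>
      (Real.continuousAt_rpow_const t _ (Or.inl (ne_of_gt ht))).continuousWithinAt
    have c2 : Continuous (Sv s) := hS1.continuous
    have c3 : Continuous (deriv (Sv s)) := hS1.continuous_deriv le_rfl
    refine ((c1.mul (by fun_prop)).mul (by fun_prop)).div (by fun_prop) ?_
    intro t _
    positivity
  have hbd : ∀ t : ℝ, 0 < t → |t ^ (-α) * Real.exp (-t) *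
      (2 * Sv s t * deriv (Sv s) t) / (t ^ 2 + k ^ 2)| ≤ 2 * (t ^ (-α) / (t ^ 2 + k ^ 2)) := by
    intro t ht
    have hp : 0 < t ^ (-α) := Real.rpow_pos_of_pos ht _
    have hd : 0 < t ^ 2 + k ^ 2 := by positivity
    rw [abs_div, abs_of_pos hd, ← mul_div_assoc]
    apply div_le_div_of_nonneg_right _ hd.le
    rw [abs_mul, abs_mul, abs_of_pos hp, abs_of_pos (Real.exp_pos _), abs_mul, abs_mul,
      abs_of_pos (show (0 : ℝ) < 2 by norm_num)]
    have e1 : Real.exp (-t) * (Real.exp (t / 2) * Real.exp (t / 2)) = 1 := by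
      rw [← Real.exp_add, ← Real.exp_add]
      have : -t + (t / 2 + t / 2) = 0 := by ring
      rw [this, Real.exp_zero]
    have e2 : |Sv s t| * |deriv (Sv s) t| ≤ Real.exp (t / 2) * Real.exp (t / 2) :=
      mul_le_mul (hS2 t ht.le) (hS3 t ht.le) (abs_nonneg _) (Real.exp_pos _).le
    calc t ^ (-α) * Real.exp (-t) * (2 * |Sv s t| * |deriv (Sv s) t|)
        = (2 * t ^ (-α) * Real.exp (-t)) * (|Sv s t| * |deriv (Sv s) t|) := by ring
      _ ≤ (2 * t ^ (-α) * Real.exp (-t)) * (Real.exp (t / 2) * Real.exp (t / 2)) :=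
        mul_le_mul_of_nonneg_left e2 (by positivity)
      _ = 2 * t ^ (-α) * (Real.exp (-t) * (Real.exp (t / 2) * Real.exp (t / 2))) := by ring
      _ = 2 * t ^ (-α) := by rw [e1, mul_one]
  have hmeas := hcont.aestronglyMeasurable (μ := volume) measurableSet_Ioi
  have hsplit : Ioi (0 : ℝ) = Ioc 0 1 ∪ Ioi 1 := (Ioc_union_Ioi_eq_Ioi zero_le_one).symm
  rw [hsplit]
  apply IntegrableOn.union
  · have hi : IntegrableOn (fun t : ℝ => 2 * t ^ (-α)) (Ioc 0 1) := by
      have := (intervalIntegral.intervalIntegrable_rpow' (a := 0) (b := 1)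
        (show -1 < -α by linarith)).const_mul 2
      rwa [intervalIntegrable_iff_integrableOn_Ioc_of_le zero_le_one] at this
    refine Integrable.mono' hi (hmeas.mono_measure (Measure.restrict_mono Ioc_subset_Ioi_self le_rfl)) ?_
    refine (ae_restrict_iff' measurableSet_Ioc).2 (Eventually.of_forall fun t ht => ?_)
    rw [Real.norm_eq_abs]
    refine (hbd t ht.1).trans ?_
    apply mul_le_mul_of_nonneg_left _ zero_le_two
    apply div_le_self (Real.rpow_nonneg ht.1.le _)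
    nlinarith [sq_nonneg t]
  · have hi : IntegrableOn (fun t : ℝ => 2 * t ^ (-α - 2)) (Ioi 1) :=
      (integrableOn_Ioi_rpow_of_lt (show -α - 2 < -1 by linarith) zero_lt_one).const_mul 2
    refine Integrable.mono' hi (hmeas.mono_measure
      (Measure.restrict_mono (Ioi_subset_Ioi zero_le_one) le_rfl)) ?_
    refine (ae_restrict_iff' measurableSet_Ioi).2 (Eventually.of_forall fun t ht => ?_)
    have ht0 : 0 < t := lt_trans zero_lt_one ht
    rw [Real.norm_eq_abs]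
    refine (hbd t ht0).trans ?_
    apply mul_le_mul_of_nonneg_left _ zero_le_two
    rw [Real.rpow_sub ht0, Real.rpow_two]
    apply div_le_div_of_nonneg_left (Real.rpow_nonneg ht0.le _) (by positivity)
    have : 0 < k ^ 2 := by positivity
    linarith

end D3

/-- **D3** -/
theorem growth {α : ℝ} (h0 : 0 < α) (h1 : α < 1) {s : ℂ → ℂ} (hs : IsE (1 / 2) 1 s) :
    ∃ C : ℝ, 0 < C ∧ ∀ k : ℝ, 2 ≤ k → ∀ (v : ℂ → ℂ) (C' : ℝ), IsE (1 / 2) C' v →
      (∀ z : ℂ, v z * (z ^ 2 - (k : ℂ) ^ 2) = z * deriv s z) →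
      Lf α (fun z => s z * v z) = 0 → HG α C s k := by
  obtain ⟨Ca, hCa, hA⟩ := pois_sv_bound hs
  obtain ⟨Cb, hCb, hB⟩ := parts_bound h0 h1 hs
  obtain ⟨-, -, -, hS4, hS5, -⟩ := Sv_facts hs
  set ε : ℝ := (1 - α) / 4 with hε
  have hε0 : 0 < ε := by rw [hε]; linarith
  have hε1 : ε ≤ 1 := by rw [hε]; linarith
  obtain ⟨i1, g1⟩ := D3.int_rpow (a := 1 - α) (by linarith)
  obtain ⟨i2, g2⟩ := D3.int_rpow (a := (1 - α) / 2) (by linarith)
  set Cd : ℝ := (4 + 1 / ε) * Real.Gamma (1 - α) + 1 / ε * Real.Gamma ((1 - α) / 2) with hCd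
  have hG1 : 0 < Real.Gamma (1 - α) := Real.Gamma_pos_of_pos (by linarith)
  have hG2 : 0 < Real.Gamma ((1 - α) / 2) := Real.Gamma_pos_of_pos (by linarith)
  have hCd0 : 0 < Cd := by rw [hCd]; positivity
  refine ⟨Ca * Cd + Cb, by positivity, ?_⟩
  intro k hk v C' hv hid hL
  have hk0 : 0 < k := by linarith
  have hlk : 0 ≤ Real.log k := Real.log_nonneg (by linarith)
  have hg : IsE 1 (1 * C') (fun z => s z * v z) := by
    refine ⟨?_, fun z => by simp only [hs.even, hv.even], fun x => by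
      rw [Complex.mul_im, hs.real, hv.real]; ring⟩
    have h := hs.b.mul hv.b
    have e : (1 / 2 + 1 / 2 : ℝ) = 1 := by norm_num
    rwa [e] at h
  have hint : ∫ t in Ioi (0 : ℝ), t ^ (-α - 1) * brk (fun z => s z * v z) t = 0 := by
    have hLr : Lr α (fun z => s z * v z) = 0 := by rw [← Lf_eq_Lr h0 h1 hg]; exact hL
    rw [Lr] at hLr
    rcases mul_eq_zero.1 hLr with h | h
    · exfalso
      have : 0 < α / Real.Gamma (1 - α) := by positivity
      linarith
    · exact h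
  have hg0 : s 0 * v 0 = 0 := by
    have h := hid 0
    rw [zero_mul] at h
    rcases mul_eq_zero.1 h with h | h
    · rw [h, mul_zero]
    · exfalso
      have h2 : ((k : ℂ)) ^ 2 = 0 := by linear_combination -h
      have h3 : (k : ℂ) = 0 := pow_eq_zero_iff (two_ne_zero) |>.1 h2
      exact hk0.ne' (Complex.ofReal_eq_zero.1 h3)
  have hgi : ∀ t : ℝ, s ((t : ℂ) * I) * v ((t : ℂ) * I) =
      ((-(t * Sv s t * deriv (Sv s) t) / (t ^ 2 + k ^ 2) : ℝ) : ℂ) := by
    intro t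
    have h := hid ((t : ℂ) * I)
    rw [hS5] at h
    have e1 : ((t : ℂ) * I) ^ 2 - (k : ℂ) ^ 2 = -((t ^ 2 + k ^ 2 : ℝ) : ℂ) := by
      rw [mul_pow, I_sq]; push_cast; ring
    rw [e1] at h
    have hne : ((t ^ 2 + k ^ 2 : ℝ) : ℂ) ≠ 0 := by
      rw [Complex.ofReal_ne_zero]; positivity
    have h2 : v ((t : ℂ) * I) = ((-(t * deriv (Sv s) t) / (t ^ 2 + k ^ 2) : ℝ) : ℂ) := by
      rw [Complex.ofReal_div, eq_div_iff hne]
      push_cast at h ⊢
      linear_combination (-1 : ℂ) * h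
    rw [h2, hS4]
    push_cast
    ring
  have hbrk : ∀ t ∈ Ioi (0 : ℝ), t ^ (-α - 1) * brk (fun z => s z * v z) t =
      t ^ (-α) * Real.exp (-t) * (2 * Sv s t * deriv (Sv s) t) / (t ^ 2 + k ^ 2) +
        t ^ (-α - 1) * Real.exp (-t) * Pois t (fun z => s z * v z) := by
    intro t ht
    have ht0 : 0 < t := ht
    have e1 : t ^ (-α) = t ^ (-α - 1) * t := by
      rw [← Real.rpow_add_one ht0.ne']; congr 1; ring
    unfold brk
    simp only [hg0, hgi t, Complex.ofReal_re, Complex.zero_re]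
    rw [e1]
    ring
  have iA := D3.int_first h0 h1 hs hk
  have iAP : IntegrableOn (fun t : ℝ => t ^ (-α - 1) * brk (fun z => s z * v z) t) (Ioi 0) :=
    integrableOn_brk h0 h1 hg
  have iP : IntegrableOn (fun t : ℝ => t ^ (-α - 1) * Real.exp (-t) *
      Pois t (fun z => s z * v z)) (Ioi 0) := by
    refine (iAP.sub iA).congr_fun (fun t ht => ?_) measurableSet_Ioi
    simp only [Pi.sub_apply]
    rw [hbrk t ht]
    ring
  have hsum : (∫ t in Ioi (0 : ℝ), t ^ (-α) * Real.exp (-t) * (2 * Sv s t * deriv (Sv s) t) /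
      (t ^ 2 + k ^ 2)) + ∫ t in Ioi (0 : ℝ), t ^ (-α - 1) * Real.exp (-t) *
      Pois t (fun z => s z * v z) = 0 := by
    rw [← integral_add iA iP]
    exact (setIntegral_congr_fun measurableSet_Ioi fun t ht => (hbrk t ht).symm).trans hint
  -- the Poisson part
  have hdom : IntegrableOn (fun t : ℝ => (Ca / k ^ 2 * (1 + Real.log k)) *
      ((4 + 1 / ε) * (t ^ ((1 - α) - 1) * Real.exp (-t)) +
        1 / ε * (t ^ ((1 - α) / 2 - 1) * Real.exp (-t)))) (Ioi 0) :=
    ((i1.const_mul _).add (i2.const_mul _)).const_mul _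
  have hPle : ‖∫ t in Ioi (0 : ℝ), t ^ (-α - 1) * Real.exp (-t) *
      Pois t (fun z => s z * v z)‖ ≤ ∫ t in Ioi (0 : ℝ), (Ca / k ^ 2 * (1 + Real.log k)) *
      ((4 + 1 / ε) * (t ^ ((1 - α) - 1) * Real.exp (-t)) +
        1 / ε * (t ^ ((1 - α) / 2 - 1) * Real.exp (-t))) := by
    refine norm_integral_le_of_norm_le hdom ?_
    refine (ae_restrict_iff' measurableSet_Ioi).2 (Eventually.of_forall fun t ht => ?_)
    have ht0 : 0 < t := ht
    have hb := hA k hk v C' hv hid t ht0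
    have hl := D3.log_bd (t := t) hε0 hε1 (show 1 ≤ k by linarith) ht0
    have hp : 0 < t ^ (-α - 1) * Real.exp (-t) := by positivity
    rw [Real.norm_eq_abs, abs_mul, abs_of_pos hp]
    have e1 : t ^ ((1 - α) - 1) = t ^ (-α - 1) * t := by
      rw [← Real.rpow_add_one ht0.ne']; congr 1; ring
    have e2 : t ^ ((1 - α) / 2 - 1) = t ^ (-α - 1) * t * t ^ (-(2 * ε)) := by
      rw [← e1, ← Real.rpow_add ht0]; congr 1; rw [hε]; ring
    calc t ^ (-α - 1) * Real.exp (-t) * |Pois t (fun z => s z * v z)|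
        ≤ t ^ (-α - 1) * Real.exp (-t) *
          (Ca * t * (1 + Real.log k + Real.log (1 + k ^ 2 / t ^ 2)) / k ^ 2) :=
          mul_le_mul_of_nonneg_left hb hp.le
      _ = (t ^ (-α - 1) * Real.exp (-t) * (Ca * t / k ^ 2)) *
          (1 + Real.log k + Real.log (1 + k ^ 2 / t ^ 2)) := by ring
      _ ≤ (t ^ (-α - 1) * Real.exp (-t) * (Ca * t / k ^ 2)) *
          ((1 + Real.log k) * (4 + 1 / ε + 1 / ε * t ^ (-(2 * ε)))) :=
          mul_le_mul_of_nonneg_left hl (by positivity)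
      _ = _ := by rw [e1, e2]; ring
  have hval : ∫ t in Ioi (0 : ℝ), (Ca / k ^ 2 * (1 + Real.log k)) *
      ((4 + 1 / ε) * (t ^ ((1 - α) - 1) * Real.exp (-t)) +
        1 / ε * (t ^ ((1 - α) / 2 - 1) * Real.exp (-t))) =
      Ca * Cd * (1 + Real.log k) / k ^ 2 := by
    rw [integral_const_mul, integral_add (i1.const_mul _) (i2.const_mul _), integral_const_mul,
      integral_const_mul, g1, g2, hCd]
    ring
  rw [hval, Real.norm_eq_abs] at hPle
  have hP2 := neg_abs_le (∫ t in Ioi (0 : ℝ), t ^ (-α - 1) * Real.exp (-t) *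
    Pois t (fun z => s z * v z))
  have hBk := hB k (by linarith)
  unfold HG
  have e3 : (Ca * Cd + Cb) * (1 + Real.log k) / k ^ 2 =
      Ca * Cd * (1 + Real.log k) / k ^ 2 + Cb / k ^ 2 + Cb / k ^ 2 * Real.log k := by ring
  rw [e3]
  have h5 : 0 ≤ Cb / k ^ 2 * Real.log k := by positivity
  linarith

end Pool.Agent.Helper30.FG
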