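import Pool.Agent.Helper30.FG.A3

/-!
# Two densities with the same transform on `[-1, 1]` agree on all functions of type `≤ 1`

From A3 (Levitan approximation by trigonometric sums) and dominated convergence.
-/

set_option autoImplicit false

namespace Pool.Agent.Helper30.FG

open Complex MeasureTheory Set Filter Topology
open Pool.Agent.Helper78.Bern Pool.Agent.Helper45.Bern

private theorem bd_real {M : ℝ} {f : ℂ → ℂ} (hf : IsB 1 M f) (x : ℝ) : ‖f (x : ℂ)‖ ≤ M := by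
  have h := hf.bd (x : ℂ)
  simpa using h

private theorem exp_int {m : Measure ℝ} {h : ℝ → ℂ} (hh : Integrable h m) (ω : ℝ) :
    Integrable (fun x : ℝ => Complex.exp (-(Complex.I * ((x * ω : ℝ) : ℂ))) * h x) m := by
  refine hh.bdd_mul (c := 1) ?_ ?_
  · apply Continuous.aestronglyMeasurable
    fun_prop
  · refine Eventually.of_forall fun x => ?_
    rw [Complex.norm_exp]
    simp

private theorem tendsto_int {M : ℝ} {T : ℕ → ℂ → ℂ} {g : ℂ → ℂ}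
    (hT : ∀ n, IsB 1 M (T n)) (hl : ∀ z, Tendsto (fun n => T n z) atTop (𝓝 (g z)))
    {m : Measure ℝ} {h : ℝ → ℂ} (hh : Integrable h m) :
    Tendsto (fun n => ∫ x, T n (x : ℂ) * h x ∂m) atTop (𝓝 (∫ x, g (x : ℂ) * h x ∂m)) := by
  refine tendsto_integral_of_dominated_convergence (fun x : ℝ => M * ‖h x‖)
    (fun n => ?_) (hh.norm.const_mul M) (fun n => Eventually.of_forall fun x => ?_)
    (Eventually.of_forall fun x => ?_)
  · exact (((hT n).diff.continuous.comp Complex.continuous_ofReal).aestronglyMeasurable).mul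
      hh.aestronglyMeasurable
  · rw [norm_mul]
    exact mul_le_mul_of_nonneg_right (bd_real (hT n) _) (norm_nonneg _)
  · exact (hl _).mul_const _

private theorem int_trig {T : ℂ → ℂ} (hT : IsTrig 1 T) {m₁ m₂ : Measure ℝ} {h₁ h₂ : ℝ → ℂ}
    (hh₁ : Integrable h₁ m₁) (hh₂ : Integrable h₂ m₂)
    (hrep : ∀ ξ : ℝ, |ξ| ≤ 1 →
      ∫ x, Complex.exp (-(Complex.I * ((x * ξ : ℝ) : ℂ))) * h₁ x ∂m₁ =
        ∫ x, Complex.exp (-(Complex.I * ((x * ξ : ℝ) : ℂ))) * h₂ x ∂m₂) :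
    ∫ x, T (x : ℂ) * h₁ x ∂m₁ = ∫ x, T (x : ℂ) * h₂ x ∂m₂ := by
  obtain ⟨F, c, hF, hTz⟩ := hT
  have e : ∀ h : ℝ → ℂ, (fun x : ℝ => T (x : ℂ) * h x) = fun x : ℝ => ∑ ω ∈ F, c ω *
      (Complex.exp (-(Complex.I * ((x * (-ω) : ℝ) : ℂ))) * h x) := by
    intro h
    funext x
    rw [hTz, Finset.sum_mul]
    refine Finset.sum_congr rfl fun ω _ => ?_
    have e2 : -(Complex.I * ((x * (-ω) : ℝ) : ℂ)) = I * (ω : ℂ) * x := by push_cast; ring
    rw [e2]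
    ring
  rw [e h₁, e h₂, integral_finsetSum _ fun ω _ => (exp_int hh₁ (-ω)).const_mul _,
    integral_finsetSum _ fun ω _ => (exp_int hh₂ (-ω)).const_mul _]
  refine Finset.sum_congr rfl fun ω hω => ?_
  rw [integral_const_mul, integral_const_mul, hrep (-ω) (by rw [abs_neg]; exact hF ω hω)]

theorem transfer_two {M : ℝ} {g : ℂ → ℂ} (hg : IsB 1 M g)
    {m₁ m₂ : Measure ℝ} {h₁ h₂ : ℝ → ℂ} (hh₁ : Integrable h₁ m₁) (hh₂ : Integrable h₂ m₂)
    (hrep : ∀ ξ : ℝ, |ξ| ≤ 1 →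
      ∫ x, Complex.exp (-(Complex.I * ((x * ξ : ℝ) : ℂ))) * h₁ x ∂m₁ =
        ∫ x, Complex.exp (-(Complex.I * ((x * ξ : ℝ) : ℂ))) * h₂ x ∂m₂) :
    ∫ x, g (x : ℂ) * h₁ x ∂m₁ = ∫ x, g (x : ℂ) * h₂ x ∂m₂ := by
  obtain ⟨T, h1, h2, h3, -, -⟩ := levitan one_pos hg
  have hl : ∀ z, Tendsto (fun n => T n z) atTop (𝓝 (g z)) := fun z =>
    h3.tendstoLocallyUniformlyOn.tendsto_at (mem_univ z)
  have ha := tendsto_int h2 hl hh₁
  have hb := tendsto_int h2 hl hh₂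
  have e : (fun n => ∫ x, T n (x : ℂ) * h₁ x ∂m₁) = fun n => ∫ x, T n (x : ℂ) * h₂ x ∂m₂ :=
    funext fun n => int_trig (h1 n) hh₁ hh₂ hrep
  rw [e] at ha
  exact tendsto_nhds_unique ha hb

end Pool.Agent.Helper30.FG
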