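import Pool.Agent.Helper78.BernUpper

/-!
# Structure of an extremal measure

If `f` is real, `|f| ≤ 1` and `∫ f dμ = ‖μ‖`, then `μ = f |μ|` and `μ` is carried by `{|f| = 1}`.
(Write `μ = h m` with `exists_density`; `∫ f h dm = ∫ ‖h‖ dm` forces `f h = ‖h‖` a.e.; use
`integral_withDensityV`, `withDensityᵥ_apply`.)
-/

set_option autoImplicit false

namespace Pool.Agent.Helper30.FG

open Complex MeasureTheory Set Filter Topology
open Pool.Agent.Helper78.Bern Pool.Agent.Helper45.Bern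

theorem extremal_structure {μ : ComplexMeasure ℝ} {f : ℝ → ℝ} (hf : Continuous f)
    (hf1 : ∀ x, |f x| ≤ 1)
    (hint : VectorMeasure.integral μ (fun x : ℝ => ((f x : ℝ) : ℂ)) (ContinuousLinearMap.mul ℝ ℂ) =
      ((totalVar μ : ℝ) : ℂ)) :
    (∀ A : Set ℝ, MeasurableSet A → (∀ x ∈ A, |f x| ≠ 1) → μ A = 0) ∧
      (∀ A : Set ℝ, MeasurableSet A → (μ A).im = 0) ∧
      (∀ A : Set ℝ, MeasurableSet A → (∀ x ∈ A, f x = 1) → 0 ≤ (μ A).re) ∧
      ∀ A : Set ℝ, MeasurableSet A → (∀ x ∈ A, f x = -1) → (μ A).re ≤ 0 := by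
  obtain ⟨h, ih, hμ, hn⟩ := exists_density μ
  set ν := μ.variation with hν
  have hfn : ∀ x, ‖((f x : ℝ) : ℂ)‖ ≤ 1 := fun x => by
    rw [Complex.norm_real, Real.norm_eq_abs]; exact hf1 x
  have hfc : Continuous (fun x : ℝ => ((f x : ℝ) : ℂ)) := Complex.continuous_ofReal.comp hf
  have e1 : ∫ x, ((f x : ℝ) : ℂ) * h x ∂ν = ((∫ x, ‖h x‖ ∂ν : ℝ) : ℂ) := by
    rw [hn, ← hint, hμ]
    exact (integral_withDensityV ih hfc.stronglyMeasurable hfn).symm
  have ifh : Integrable (fun x => ((f x : ℝ) : ℂ) * h x) ν :=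
    ih.bdd_mul (c := 1) hfc.aestronglyMeasurable (Eventually.of_forall hfn)
  have e2 : ∫ x, (((f x : ℝ) : ℂ) * h x).re ∂ν = ∫ x, ‖h x‖ ∂ν := by
    have := congrArg Complex.re e1
    rw [Complex.ofReal_re] at this
    rw [← this]
    exact integral_re ifh
  have ire : Integrable (fun x => (((f x : ℝ) : ℂ) * h x).re) ν := ifh.re
  have e3 : ∫ x, (‖h x‖ - (((f x : ℝ) : ℂ) * h x).re) ∂ν = 0 := by
    rw [integral_sub ih.norm ire, e2, sub_self]
  have hnn : 0 ≤ fun x => ‖h x‖ - (((f x : ℝ) : ℂ) * h x).re := by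
    intro x
    have h1 : (((f x : ℝ) : ℂ) * h x).re ≤ ‖((f x : ℝ) : ℂ) * h x‖ := Complex.re_le_norm _
    have h2 : ‖((f x : ℝ) : ℂ) * h x‖ ≤ 1 * ‖h x‖ := by
      rw [norm_mul]
      exact mul_le_mul_of_nonneg_right (hfn x) (norm_nonneg _)
    simp only [Pi.zero_apply]
    linarith
  have e4 := (integral_eq_zero_iff_of_nonneg hnn (ih.norm.sub ire)).1 e3
  have e5 : ∀ᵐ x ∂ν, f x * (h x).re = ‖h x‖ := by
    filter_upwards [e4] with x hx
    simp only [Pi.zero_apply, Complex.mul_re, Complex.ofReal_re, Complex.ofReal_im, zero_mul,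
      sub_zero] at hx
    linarith
  have hre : ∀ᵐ x ∂ν, |(h x).re| = ‖h x‖ := by
    filter_upwards [e5] with x hx
    refine le_antisymm (Complex.abs_re_le_norm _) ?_
    rw [← hx]
    calc f x * (h x).re ≤ |f x * (h x).re| := le_abs_self _
      _ = |f x| * |(h x).re| := abs_mul _ _
      _ ≤ 1 * |(h x).re| := mul_le_mul_of_nonneg_right (hf1 x) (abs_nonneg _)
      _ = |(h x).re| := one_mul _
  have him : ∀ᵐ x ∂ν, (h x).im = 0 := by
    filter_upwards [hre] with x hx
    have h1 : (h x).re ^ 2 + (h x).im ^ 2 = ‖h x‖ ^ 2 := by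
      rw [Complex.sq_norm, Complex.normSq_apply]; ring
    have h2 : (h x).re ^ 2 = ‖h x‖ ^ 2 := by rw [← hx, sq_abs]
    have h3 : (h x).im ^ 2 = 0 := by linarith
    exact pow_eq_zero_iff (two_ne_zero) |>.1 h3
  have hA : ∀ A : Set ℝ, MeasurableSet A → μ A = ∫ x in A, h x ∂ν := by
    intro A hA
    conv_lhs => rw [hμ]
    exact withDensityᵥ_apply ih hA
  have hAre : ∀ A : Set ℝ, MeasurableSet A → (μ A).re = ∫ x in A, (h x).re ∂ν := by
    intro A hA'
    rw [hA A hA']
    exact (integral_re ih.restrict).symm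
  have hAim : ∀ A : Set ℝ, MeasurableSet A → (μ A).im = ∫ x in A, (h x).im ∂ν := by
    intro A hA'
    rw [hA A hA']
    exact (integral_im ih.restrict).symm
  refine ⟨?_, ?_, ?_, ?_⟩
  · intro A hAm hx
    rw [hA A hAm]
    apply integral_eq_zero_of_ae
    rw [EventuallyEq, ae_restrict_iff' hAm]
    filter_upwards [e5, hre] with x h5 hr hxA
    have h1 : |f x| < 1 := lt_of_le_of_ne (hf1 x) (hx x hxA)
    have h2 : ‖h x‖ ≤ |f x| * ‖h x‖ := by
      calc ‖h x‖ = f x * (h x).re := h5.symm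
        _ ≤ |f x * (h x).re| := le_abs_self _
        _ = |f x| * ‖h x‖ := by rw [abs_mul, hr]
    have h3 : ‖h x‖ ≤ 0 := by
      by_contra hcon
      push Not at hcon
      nlinarith
    simpa using norm_le_zero_iff.1 h3
  · intro A hAm
    rw [hAim A hAm]
    apply integral_eq_zero_of_ae
    filter_upwards [ae_restrict_of_ae him] with x hx
    simpa using hx
  · intro A hAm hx
    rw [hAre A hAm]
    apply integral_nonneg_of_ae
    rw [EventuallyLE, ae_restrict_iff' hAm]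
    filter_upwards [e5] with x h5 hxA
    rw [hx x hxA, one_mul] at h5
    rw [h5]
    exact norm_nonneg _
  · intro A hAm hx
    rw [hAre A hAm]
    apply integral_nonpos_of_ae
    rw [EventuallyLE, ae_restrict_iff' hAm]
    filter_upwards [e5] with x h5 hxA
    rw [hx x hxA] at h5
    simp only [Pi.zero_apply]
    have := norm_nonneg (h x)
    linarith

end Pool.Agent.Helper30.FG
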