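import Mathlib

/-!
# Weak limits of almost extremal densities are discrete

`f` continuous, `|f| ≤ 1`, `N = {|f| = 1}` locally finite, `∫ f h_n dm_n = I`,
`∫ ‖h_n‖ dm_n ≤ I + 1/(n+1)`.

Proof. Choose `0 < r x ≤ 1/2` with `(x - 2 r x, x + 2 r x) ∩ N = {x}` and tents `χ_x` of radius `r x`
(disjoint supports). `U` = an ultrafilter below `atTop`, `w x = lim_U re ∫ χ_x h_n dm_n`. Testing with
`∑_{x ∈ F} ± χ_x` gives `∑_F |w x| ≤ I`. For `φ ∈ C_0`, `δ > 0`: `R` with `|φ| ≤ δ` off `[-R, R]`,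
`F = N ∩ [-R-1, R+1]`, `ψ = φ - ∑_F φ(x) χ_x`; then `|ψ| ≤ 2δ + (S/c)(1 - |f|)` on `ℝ` (compactness), and
`∫ (1 - |f|) ‖h_n‖ dm_n ≤ 1/(n+1)`, so `|L - ∑_F φ(x) w x| ≤ 2δ (I + 1)`; let `δ → 0`.
-/

set_option autoImplicit false

namespace Pool.Agent.Helper30.FG

open Complex MeasureTheory Set Filter Topology

namespace E3a

theorem exists_K {u v : ℝ → ℝ} (hu : Continuous u) (hv : Continuous v) (hv0 : ∀ y, 0 ≤ v y)
    {K0 : Set ℝ} (hK : IsCompact K0) {η : ℝ} (hη : 0 < η) (h : ∀ y ∈ K0, v y = 0 → |u y| < η) :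
    ∃ K : ℝ, 0 ≤ K ∧ ∀ y ∈ K0, |u y| ≤ η + K * v y := by
  have hZ : IsCompact (K0 ∩ {y | η ≤ |u y|}) :=
    hK.inter_right (isClosed_le continuous_const hu.abs)
  rcases (K0 ∩ {y | η ≤ |u y|}).eq_empty_or_nonempty with he | hne
  · refine ⟨0, le_refl _, fun y hy => ?_⟩
    by_contra hcon
    have : y ∈ K0 ∩ {y | η ≤ |u y|} := ⟨hy, by
      show η ≤ |u y|
      rw [zero_mul, add_zero] at hcon
      exact (not_le.1 hcon).le⟩
    rw [he] at this
    exact this
  · obtain ⟨y1, hy1, hmin⟩ := hZ.exists_isMinOn hne hv.continuousOn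
    obtain ⟨y2, hy2, hmax⟩ := hZ.exists_isMaxOn hne hu.abs.continuousOn
    have hc : 0 < v y1 := by
      refine lt_of_le_of_ne (hv0 y1) fun h0 => ?_
      have h1 := h y1 hy1.1 h0.symm
      exact absurd hy1.2 (not_le.2 h1)
    refine ⟨|u y2| / v y1, by positivity, fun y hy => ?_⟩
    by_cases hyZ : η ≤ |u y|
    · have hm : y ∈ K0 ∩ {y | η ≤ |u y|} := ⟨hy, hyZ⟩
      have h2 : |u y| ≤ |u y2| := hmax hm
      have h3 : v y1 ≤ v y := hmin hm
      have h4 : |u y2| ≤ |u y2| / v y1 * v y := by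
        rw [div_mul_eq_mul_div, le_div_iff₀ hc]
        exact mul_le_mul_of_nonneg_left h3 (abs_nonneg _)
      linarith
    · have h5 : 0 ≤ |u y2| / v y1 * v y := mul_nonneg (by positivity) (hv0 y)
      linarith [not_le.1 hyZ]

theorem exists_r {f : ℝ → ℝ} (hN : ∀ R : ℝ, {x : ℝ | |x| ≤ R ∧ |f x| = 1}.Finite) (x : ℝ) :
    ∃ r : ℝ, 0 < r ∧ r ≤ 1 / 2 ∧ ∀ y, |f y| = 1 → y ≠ x → 2 * r ≤ |y - x| := by
  set A : Set ℝ := {y : ℝ | |y| ≤ |x| + 1 ∧ |f y| = 1} \ {x} with hA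
  have hfin : A.Finite := (hN (|x| + 1)).subset Set.sdiff_subset
  have hx : x ∉ A := fun h => h.2 rfl
  obtain ⟨ε, hε, hball⟩ := Metric.mem_nhds_iff.1 (hfin.isClosed.isOpen_compl.mem_nhds hx)
  refine ⟨min (1 / 2) (ε / 2), by positivity, min_le_left _ _, fun y hy hyx => ?_⟩
  by_cases hyR : |y| ≤ |x| + 1
  · have hyA : y ∈ A := ⟨⟨hyR, hy⟩, hyx⟩
    have h1 : ε ≤ |y - x| := by
      by_contra hcon
      have : y ∈ Metric.ball x ε := by
        rw [Metric.mem_ball, Real.dist_eq]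
        exact not_le.1 hcon
      exact hball this hyA
    linarith [min_le_right (1 / 2 : ℝ) (ε / 2)]
  · have h2 : |y| - |x| ≤ |y - x| := abs_sub_abs_le_abs_sub y x
    linarith [min_le_left (1 / 2 : ℝ) (ε / 2), not_le.1 hyR]

/-- the tent -/
noncomputable def tent (x r y : ℝ) : ℝ := max 0 (1 - |y - x| / r)

theorem tent_cont (x r : ℝ) : Continuous (tent x r) := by
  unfold tent
  fun_prop

theorem tent_nonneg (x r y : ℝ) : 0 ≤ tent x r y := le_max_left _ _

theorem tent_le {x r : ℝ} (hr : 0 < r) (y : ℝ) : tent x r y ≤ 1 := by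
  unfold tent
  refine max_le zero_le_one ?_
  have : 0 ≤ |y - x| / r := by positivity
  linarith

theorem tent_abs {x r : ℝ} (hr : 0 < r) (y : ℝ) : |tent x r y| ≤ 1 := by
  rw [abs_of_nonneg (tent_nonneg x r y)]
  exact tent_le hr y

theorem tent_self (x r : ℝ) : tent x r x = 1 := by
  simp [tent]

theorem tent_supp {x r y : ℝ} (hr : 0 < r) (h : tent x r y ≠ 0) : |y - x| < r := by
  by_contra hcon
  apply h
  unfold tent
  refine max_eq_left ?_
  have : 1 ≤ |y - x| / r := by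
    rw [le_div_iff₀ hr, one_mul]
    exact not_lt.1 hcon
  linarith

theorem integrable_mul {μ : Measure ℝ} {h : ℝ → ℂ} (hh : Integrable h μ) {g : ℝ → ℝ}
    (hg : Continuous g) {B : ℝ} (hB : ∀ x, |g x| ≤ B) :
    Integrable (fun x => ((g x : ℝ) : ℂ) * h x) μ := by
  refine hh.bdd_mul (c := B) ?_ ?_
  · exact (Complex.continuous_ofReal.comp hg).aestronglyMeasurable
  · refine Filter.Eventually.of_forall fun x => ?_
    rw [Complex.norm_real, Real.norm_eq_abs]
    exact hB x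

theorem integrable_norm {μ : Measure ℝ} {h : ℝ → ℂ} (hh : Integrable h μ) {g : ℝ → ℝ}
    (hg : Continuous g) {B : ℝ} (hB : ∀ x, |g x| ≤ B) :
    Integrable (fun x => g x * ‖h x‖) μ := by
  refine hh.norm.bdd_mul (c := B) hg.aestronglyMeasurable ?_
  exact Filter.Eventually.of_forall fun x => by rw [Real.norm_eq_abs]; exact hB x

/-- the real part of the integral -/
noncomputable def Jn (μ : Measure ℝ) (h : ℝ → ℂ) (g : ℝ → ℝ) : ℝ :=
  (∫ x, ((g x : ℝ) : ℂ) * h x ∂μ).re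

theorem Jn_le {μ : Measure ℝ} {h : ℝ → ℂ} (hh : Integrable h μ) {g u : ℝ → ℝ}
    (hg : Continuous g) (hu : Continuous u) {B : ℝ} (hB : ∀ x, |u x| ≤ B)
    (hgu : ∀ x, |g x| ≤ u x) : |Jn μ h g| ≤ ∫ x, u x * ‖h x‖ ∂μ := by
  have hgB : ∀ x, |g x| ≤ B := fun x => (hgu x).trans ((le_abs_self _).trans (hB x))
  unfold Jn
  refine (Complex.abs_re_le_norm _).trans ((norm_integral_le_integral_norm _).trans ?_)
  refine integral_mono (integrable_mul hh hg hgB).norm (integrable_norm hh hu hB) fun x => ?_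
  simp only [norm_mul, Complex.norm_real, Real.norm_eq_abs]
  exact mul_le_mul_of_nonneg_right (hgu x) (norm_nonneg _)

theorem Jn_sum {ι : Type*} {μ : Measure ℝ} {h : ℝ → ℂ} (hh : Integrable h μ) (F : Finset ι)
    (c : ι → ℝ) (G : ι → ℝ → ℝ) (hG : ∀ i, Continuous (G i)) (hB : ∀ i x, |G i x| ≤ 1) :
    Jn μ h (fun y => ∑ i ∈ F, c i * G i y) = ∑ i ∈ F, c i * Jn μ h (G i) := by
  unfold Jn
  have e : (fun y => ((∑ i ∈ F, c i * G i y : ℝ) : ℂ) * h y) =
      fun y => ∑ i ∈ F, (c i : ℂ) * (((G i y : ℝ) : ℂ) * h y) := by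
    funext y
    push_cast
    rw [Finset.sum_mul]
    exact Finset.sum_congr rfl fun i _ => by ring
  rw [e, integral_finsetSum F (fun i _ => (integrable_mul hh (hG i) (hB i)).const_mul _),
    Complex.re_sum]
  refine Finset.sum_congr rfl fun i _ => ?_
  rw [integral_const_mul, Complex.re_ofReal_mul]

theorem Jn_sub {μ : Measure ℝ} {h : ℝ → ℂ} (hh : Integrable h μ) {g k : ℝ → ℝ}
    (hg : Continuous g) (hk : Continuous k) {A B : ℝ} (hA : ∀ x, |g x| ≤ A)
    (hB : ∀ x, |k x| ≤ B) : Jn μ h (fun y => g y - k y) = Jn μ h g - Jn μ h k := by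
  unfold Jn
  rw [← Complex.sub_re, ← integral_sub (integrable_mul hh hg hA) (integrable_mul hh hk hB)]
  congr 2
  funext y
  push_cast
  ring

theorem exists_R {φ : ℝ → ℝ} (hφ : Tendsto φ (cocompact ℝ) (𝓝 0)) {δ : ℝ} (hδ : 0 < δ) :
    ∃ R : ℝ, 0 ≤ R ∧ ∀ y, R ≤ |y| → |φ y| ≤ δ := by
  have h1 : {y | φ y ∈ Metric.ball (0 : ℝ) δ} ∈ cocompact ℝ :=
    hφ (Metric.ball_mem_nhds 0 hδ)
  obtain ⟨t, ht, hts⟩ := Filter.mem_cocompact.1 h1
  obtain ⟨R, hR⟩ := ht.isBounded.subset_closedBall 0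
  refine ⟨max 0 (R + 1), le_max_left _ _, fun y hy => ?_⟩
  have hyt : y ∉ t := by
    intro hyt
    have := hR hyt
    rw [Metric.mem_closedBall, Real.dist_eq, sub_zero] at this
    linarith [le_max_right 0 (R + 1)]
  have := hts hyt
  simp only [Set.mem_ofPred_eq, Metric.mem_ball, Real.dist_eq, sub_zero] at this
  exact this.le

theorem exists_bound {φ : ℝ → ℝ} (hc : Continuous φ) (hφ : Tendsto φ (cocompact ℝ) (𝓝 0)) :
    ∃ B : ℝ, ∀ y, |φ y| ≤ B := by
  obtain ⟨R, hR0, hR⟩ := exists_R hφ one_pos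
  obtain ⟨C, hC⟩ := (isCompact_Icc (a := -R) (b := R)).exists_bound_of_continuousOn
    hc.continuousOn
  refine ⟨max 1 C, fun y => ?_⟩
  by_cases hy : R ≤ |y|
  · exact (hR y hy).trans (le_max_left _ _)
  · have : y ∈ Icc (-R) R := abs_le.1 (not_le.1 hy).le
    exact (hC y this).trans (le_max_right _ _)

end E3a

open E3a in
theorem weak_limit {f : ℝ → ℝ} (hf : Continuous f) (hf1 : ∀ x, |f x| ≤ 1)
    (hN : ∀ R : ℝ, {x : ℝ | |x| ≤ R ∧ |f x| = 1}.Finite) {I₀ : ℝ} (hI : 0 ≤ I₀)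
    (m : ℕ → Measure ℝ) (h : ℕ → ℝ → ℂ) (hh : ∀ n, Integrable (h n) (m n))
    (hnorm : ∀ n : ℕ, ∫ x, ‖h n x‖ ∂(m n) ≤ I₀ + 1 / ((n : ℝ) + 1))
    (hfI : ∀ n, ∫ x, ((f x : ℝ) : ℂ) * h n x ∂(m n) = ((I₀ : ℝ) : ℂ)) :
    ∃ w : {x : ℝ // |f x| = 1} → ℝ, Summable (fun x => |w x|) ∧ ∑' x, |w x| ≤ I₀ ∧
      ∀ (φ : ℝ → ℝ) (L : ℝ), Continuous φ → Tendsto φ (cocompact ℝ) (𝓝 0) →
        (∀ n, (∫ x, ((φ x : ℝ) : ℂ) * h n x ∂(m n)).re = L) →
        HasSum (fun x : {x : ℝ // |f x| = 1} => w x * φ x) L := by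
  classical
  have hr' : ∀ x : {x : ℝ // |f x| = 1}, ∃ r : ℝ, 0 < r ∧ r ≤ 1 / 2 ∧
      ∀ y, |f y| = 1 → y ≠ (x : ℝ) → 2 * r ≤ |y - x| := fun x => exists_r hN x
  choose r hr0 hr1 hr2 using hr'
  let χ : {x : ℝ // |f x| = 1} → ℝ → ℝ := fun x => tent x (r x)
  have hχc : ∀ x, Continuous (χ x) := fun x => tent_cont _ _
  have hχ1 : ∀ x y, |χ x y| ≤ 1 := fun x y => tent_abs (hr0 x) y
  have hχs : ∀ x y, χ x y ≠ 0 → |y - x| < r x := fun x y => tent_supp (hr0 x)
  have hdis : ∀ x x' y, χ x y ≠ 0 → χ x' y ≠ 0 → x = x' := by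
    intro x x' y h1 h2
    by_contra hne
    have hne' : (x : ℝ) ≠ x' := fun h => hne (Subtype.ext h)
    have h3 := hr2 x x' x'.2 (Ne.symm hne')
    have h4 := hr2 x' x x.2 hne'
    have h5 := hχs x y h1
    have h6 := hχs x' y h2
    rw [abs_sub_comm] at h3
    have h7 : |(x : ℝ) - x'| ≤ |y - x| + |y - x'| := by
      have : (x : ℝ) - x' = (y - x') - (y - x) := by ring
      rw [this]
      exact (abs_sub _ _).trans (by linarith)
    linarith
  have hχne : ∀ x x' : {x : ℝ // |f x| = 1}, x ≠ x' → χ x (x' : ℝ) = 0 := by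
    intro x x' hne
    by_contra h1
    exact hne (hdis x x' x' h1 (by
      show tent (x' : ℝ) (r x') x' ≠ 0
      rw [tent_self]
      exact one_ne_zero))
  have hsum_at : ∀ (F : Finset {x : ℝ // |f x| = 1}) (c : {x : ℝ // |f x| = 1} → ℝ)
      (x : {x : ℝ // |f x| = 1}), x ∈ F → ∑ x' ∈ F, c x' * χ x' x = c x := by
    intro F c x hx
    rw [Finset.sum_eq_single x]
    · show c x * tent (x : ℝ) (r x) x = c x
      rw [tent_self, mul_one]
    · intro x' _ hne
      rw [hχne x' x hne, mul_zero]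
    · intro h1
      exact absurd hx h1
  have hsum_le : ∀ (F : Finset {x : ℝ // |f x| = 1}) (c : {x : ℝ // |f x| = 1} → ℝ) (y B : ℝ),
      0 ≤ B → (∀ x ∈ F, χ x y ≠ 0 → |c x| ≤ B) → |∑ x ∈ F, c x * χ x y| ≤ B := by
    intro F c y B hB hc
    by_cases h0 : ∃ x0 ∈ F, χ x0 y ≠ 0
    · obtain ⟨x0, hx0, hx0'⟩ := h0
      rw [Finset.sum_eq_single x0]
      · rw [abs_mul]
        calc |c x0| * |χ x0 y| ≤ |c x0| * 1 :=
              mul_le_mul_of_nonneg_left (hχ1 x0 y) (abs_nonneg _)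
          _ ≤ B := by rw [mul_one]; exact hc x0 hx0 hx0'
      · intro x _ hne
        by_cases h1 : χ x y = 0
        · rw [h1, mul_zero]
        · exact absurd (hdis x x0 y h1 hx0') hne
      · intro h1
        exact absurd hx0 h1
    · rw [Finset.sum_eq_zero]
      · rw [abs_zero]
        exact hB
      · intro x hx
        have : χ x y = 0 := by
          by_contra h1
          exact h0 ⟨x, hx, h1⟩
        rw [this, mul_zero]
  have hn1 : ∀ n : ℕ, (1 : ℝ) / ((n : ℝ) + 1) ≤ 1 := by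
    intro n
    rw [div_le_one (by positivity)]
    have : (0 : ℝ) ≤ n := Nat.cast_nonneg n
    linarith
  -- the bound for bounded test functions
  have hJ1 : ∀ (n : ℕ) (g : ℝ → ℝ), Continuous g → (∀ x, |g x| ≤ 1) →
      |Jn (m n) (h n) g| ≤ I₀ + 1 / ((n : ℝ) + 1) := by
    intro n g hg hg1
    have := Jn_le (hh n) hg continuous_const (B := 1) (fun x => by simp) hg1
    simp only [one_mul] at this
    exact this.trans (hnorm n)
  have hU : Tendsto (fun n : ℕ => (1 : ℝ) / ((n : ℝ) + 1)) (hyperfilter ℕ : Filter ℕ) (𝓝 0) :=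
    tendsto_one_div_add_atTop_nhds_zero_nat.mono_left Nat.hyperfilter_le_atTop
  have hw' : ∀ x : {x : ℝ // |f x| = 1}, ∃ w : ℝ,
      Tendsto (fun n => Jn (m n) (h n) (χ x)) (hyperfilter ℕ : Filter ℕ) (𝓝 w) := by
    intro x
    have hcomp : IsCompact (Icc (-(I₀ + 1)) (I₀ + 1)) := isCompact_Icc
    obtain ⟨w, -, hw⟩ := hcomp.ultrafilter_le_nhds
      (Ultrafilter.map (fun n => Jn (m n) (h n) (χ x)) (hyperfilter ℕ)) (by
        rw [Filter.le_principal_iff]
        rw [Ultrafilter.mem_coe, Ultrafilter.mem_map]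
        refine Filter.mem_of_superset Filter.univ_mem fun n _ => ?_
        have := abs_le.1 (hJ1 n (χ x) (hχc x) (hχ1 x))
        have h1 := hn1 n
        exact ⟨by linarith [this.1], by linarith [this.2]⟩)
    exact ⟨w, hw⟩
  choose w hw using hw'
  have hsumw : ∀ F : Finset {x : ℝ // |f x| = 1}, ∑ x ∈ F, |w x| ≤ I₀ := by
    intro F
    set s : {x : ℝ // |f x| = 1} → ℝ := fun x => (SignType.sign (w x) : ℝ) with hs
    have hs1 : ∀ x, |s x| ≤ 1 := by
      intro x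
      rw [hs]
      simp only
      rcases lt_trichotomy (w x) 0 with h1 | h1 | h1
      · rw [sign_neg h1]; simp
      · rw [h1]; simp
      · rw [sign_pos h1]; simp
    have hlim : Tendsto (fun n => ∑ x ∈ F, s x * Jn (m n) (h n) (χ x))
        (hyperfilter ℕ : Filter ℕ) (𝓝 (∑ x ∈ F, s x * w x)) :=
      tendsto_finsetSum F fun x _ => (hw x).const_mul (s x)
    have hlim2 : Tendsto (fun n : ℕ => I₀ + 1 / ((n : ℝ) + 1)) (hyperfilter ℕ : Filter ℕ)
        (𝓝 (I₀ + 0)) := tendsto_const_nhds.add hU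
    have hle : ∀ n, ∑ x ∈ F, s x * Jn (m n) (h n) (χ x) ≤ I₀ + 1 / ((n : ℝ) + 1) := by
      intro n
      rw [← Jn_sum (hh n) F s χ hχc hχ1]
      refine (le_abs_self _).trans (hJ1 n _ ?_ ?_)
      · exact continuous_finsetSum F fun x _ => (hχc x).const_mul (s x)
      · intro y
        exact hsum_le F s y 1 zero_le_one fun x _ _ => hs1 x
    have h2 := le_of_tendsto_of_tendsto' hlim hlim2 hle
    rw [add_zero] at h2
    refine le_trans (le_of_eq ?_) h2
    refine Finset.sum_congr rfl fun x _ => ?_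
    rw [hs]
    simp only
    rw [sign_mul_self]
  have hsw : Summable (fun x => |w x|) :=
    summable_of_sum_le (fun x => abs_nonneg _) hsumw
  refine ⟨w, hsw, hsw.tsum_le_of_sum_le hsumw, ?_⟩
  intro φ L hφc hφ hφL
  obtain ⟨B, hB⟩ := exists_bound hφc hφ
  -- (1 - |f|) is small in mean
  have hgap : ∀ n : ℕ, ∫ x, (1 - |f x|) * ‖h n x‖ ∂(m n) ≤ 1 / ((n : ℝ) + 1) := by
    intro n
    have hfa : Continuous fun x => |f x| := hf.abs
    have hfa1 : ∀ x, |(|f x|)| ≤ 1 := fun x => by rw [abs_abs]; exact hf1 x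
    have e1 : (fun x => (1 - |f x|) * ‖h n x‖) = fun x => ‖h n x‖ - |f x| * ‖h n x‖ := by
      funext x
      ring
    rw [e1, integral_sub (hh n).norm (integrable_norm (hh n) hfa hfa1)]
    have e2 : I₀ ≤ ∫ x, |f x| * ‖h n x‖ ∂(m n) := by
      have h3 := Jn_le (hh n) hf hfa hfa1 (fun x => le_refl _)
      have h4 : Jn (m n) (h n) f = I₀ := by
        unfold Jn
        rw [hfI n, Complex.ofReal_re]
      rw [h4] at h3
      exact (le_abs_self _).trans h3
    linarith [hnorm n]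
  rw [HasSum]
  simp only [SummationFilter.unconditional_filter]
  rw [Metric.tendsto_atTop]
  intro ε hε
  set δ : ℝ := ε / (4 * (I₀ + 1)) with hδ
  have hδ0 : 0 < δ := by positivity
  obtain ⟨R, hR0, hR⟩ := exists_R hφ hδ0
  have hF0 : (Subtype.val ⁻¹' {x : ℝ | |x| ≤ R + 1 ∧ |f x| = 1} :
      Set {x : ℝ // |f x| = 1}).Finite := (hN (R + 1)).preimage Subtype.val_injective.injOn
  refine ⟨hF0.toFinset, fun F hF => ?_⟩
  -- the function psi
  set G : ℝ → ℝ := fun y => ∑ x ∈ F, φ x * χ x y with hG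
  have hGc : Continuous G := continuous_finsetSum F fun x _ => (hχc x).const_mul _
  have hGB : ∀ y, |G y| ≤ B := fun y =>
    hsum_le F (fun x => φ x) y B ((abs_nonneg _).trans (hB 0)) fun x _ _ => hB x
  have hψc : Continuous fun y => φ y - G y := hφc.sub hGc
  obtain ⟨K, hK0, hK⟩ := exists_K (v := fun y => 1 - |f y|) hψc (continuous_const.sub hf.abs)
    (fun y => by linarith [hf1 y]) (isCompact_Icc (a := -(R + 1)) (b := R + 1))
    (η := 2 * δ) (by positivity) (by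
      intro y hy hfy
      have hfy' : |f y| = 1 := by linarith
      have hyF : (⟨y, hfy'⟩ : {x : ℝ // |f x| = 1}) ∈ F := hF (by
        rw [Set.Finite.mem_toFinset]
        exact ⟨abs_le.2 hy, hfy'⟩)
      have h5 : G y = φ y := hsum_at F (fun x => φ x) ⟨y, hfy'⟩ hyF
      show |φ y - G y| < 2 * δ
      rw [h5, sub_self, abs_zero]
      positivity)
  have hψ : ∀ y, |φ y - G y| ≤ 2 * δ + K * (1 - |f y|) := by
    intro y
    by_cases hy : y ∈ Icc (-(R + 1)) (R + 1)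
    · exact hK y hy
    · have hy' : R + 1 < |y| := by
        by_contra hcon
        exact hy (abs_le.1 (not_lt.1 hcon))
      have h6 : |φ y| ≤ δ := hR y (by linarith)
      have h7 : |G y| ≤ δ := hsum_le F (fun x => φ x) y δ hδ0.le fun x _ hx => by
        have h8 := hχs x y hx
        have h9 := hr1 x
        refine hR x ?_
        have h10 : |y| - |(x : ℝ)| ≤ |y - x| := abs_sub_abs_le_abs_sub _ _
        linarith
      have h11 : |φ y - G y| ≤ |φ y| + |G y| := abs_sub _ _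
      have h12 : 0 ≤ K * (1 - |f y|) := mul_nonneg hK0 (by linarith [hf1 y])
      linarith
  -- estimate for every n
  have hest : ∀ n : ℕ, |L - ∑ x ∈ F, φ x * Jn (m n) (h n) (χ x)| ≤
      2 * δ * (I₀ + 1 / ((n : ℝ) + 1)) + K * (1 / ((n : ℝ) + 1)) := by
    intro n
    have e1 : L - ∑ x ∈ F, φ x * Jn (m n) (h n) (χ x) = Jn (m n) (h n) (fun y => φ y - G y) := by
      rw [Jn_sub (hh n) hφc hGc hB hGB, hG, Jn_sum (hh n) F (fun x => φ x) χ hχc hχ1]
      congr 1
      exact (hφL n).symm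
    rw [e1]
    have hu : Continuous fun y => 2 * δ + K * (1 - |f y|) :=
      continuous_const.add (continuous_const.mul (continuous_const.sub hf.abs))
    have huB : ∀ y, |2 * δ + K * (1 - |f y|)| ≤ 2 * δ + K := by
      intro y
      have h13 : 0 ≤ 1 - |f y| := by linarith [hf1 y]
      have h14 : 1 - |f y| ≤ 1 := by linarith [abs_nonneg (f y)]
      rw [abs_of_nonneg (by positivity)]
      nlinarith
    refine (Jn_le (hh n) hψc hu huB hψ).trans ?_
    have hv : Continuous fun y => 1 - |f y| := continuous_const.sub hf.abs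
    have hvB : ∀ y, |(1 - |f y|)| ≤ 1 := by
      intro y
      rw [abs_of_nonneg (by linarith [hf1 y])]
      linarith [abs_nonneg (f y)]
    have e2 : (fun y => (2 * δ + K * (1 - |f y|)) * ‖h n y‖) =
        fun y => 2 * δ * ‖h n y‖ + K * ((1 - |f y|) * ‖h n y‖) := by
      funext y
      ring
    rw [e2, integral_add ((hh n).norm.const_mul _) ((integrable_norm (hh n) hv hvB).const_mul _),
      integral_const_mul, integral_const_mul]
    have h15 := mul_le_mul_of_nonneg_left (hnorm n) (by positivity : 0 ≤ 2 * δ)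
    have h16 := mul_le_mul_of_nonneg_left (hgap n) hK0
    linarith
  have hl1 : Tendsto (fun n => |L - ∑ x ∈ F, φ x * Jn (m n) (h n) (χ x)|)
      (hyperfilter ℕ : Filter ℕ) (𝓝 |L - ∑ x ∈ F, φ x * w x|) :=
    (tendsto_const_nhds.sub (tendsto_finsetSum F fun x _ => (hw x).const_mul (φ x))).abs
  have hl2 : Tendsto (fun n : ℕ => 2 * δ * (I₀ + 1 / ((n : ℝ) + 1)) + K * (1 / ((n : ℝ) + 1)))
      (hyperfilter ℕ : Filter ℕ) (𝓝 (2 * δ * (I₀ + 0) + K * 0)) :=
    ((tendsto_const_nhds.add hU).const_mul _).add (hU.const_mul _)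
  have h17 := le_of_tendsto_of_tendsto' hl1 hl2 hest
  rw [add_zero, mul_zero, add_zero] at h17
  rw [Real.dist_eq, abs_sub_comm]
  have e3 : ∑ x ∈ F, w x * φ x = ∑ x ∈ F, φ x * w x :=
    Finset.sum_congr rfl fun x _ => mul_comm _ _
  rw [e3]
  refine lt_of_le_of_lt h17 ?_
  rw [hδ]
  have h18 : 2 * (ε / (4 * (I₀ + 1))) * I₀ = (ε / 2) * (I₀ / (I₀ + 1)) := by
    field_simp
    ring
  have h19 : I₀ / (I₀ + 1) ≤ 1 := by
    rw [div_le_one (by positivity)]
    linarith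
  rw [h18]
  nlinarith

end Pool.Agent.Helper30.FG
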