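import Pool.Agent.Helper30.FG.A6
import Pool.Agent.Helper30.FG.C0
import Pool.Agent.Helper30.FG.E3a

/-!
# Weights at the nodes of a maximiser

Apply E3a to `f = 1 - 2 s²` and admissible measures with `‖μ_n‖ ≤ I + 1/(n+1)` (`exists_density`,
`transfer`, `admissible_nonempty`). `{|f| = 1}` is locally finite, because `f² - 1` is entire and not
identically zero (`s` is not constant).
-/

set_option autoImplicit false

namespace Pool.Agent.Helper30.FG

open Complex MeasureTheory Set Filter Topology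
open Pool.Agent.Helper78.Bern Pool.Agent.Helper45.Bern

theorem nodes_finite {s : ℂ → ℂ} (hs : IsE (1 / 2) 1 s) (hnc : ∃ z, deriv s z ≠ 0) (R : ℝ) :
    {x : ℝ | |x| ≤ R ∧ |1 - 2 * (s (x : ℂ)).re ^ 2| = 1}.Finite := by
  by_contra hinf
  have hinf' : {x : ℝ | |x| ≤ R ∧ |1 - 2 * (s (x : ℂ)).re ^ 2| = 1}.Infinite := hinf
  have hK : IsCompact (Icc (-R) R) := isCompact_Icc
  obtain ⟨x₀, -, hacc⟩ := hinf'.exists_accPt_of_subset_isCompact hK
    (fun x hx => abs_le.1 hx.1)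
  have hfr0 : ∃ᶠ x in 𝓝[≠] x₀, x ∈ {x : ℝ | |x| ≤ R ∧ |1 - 2 * (s (x : ℂ)).re ^ 2| = 1} :=
    accPt_iff_frequently_nhdsNE.1 hacc
  have ht : Tendsto (fun x : ℝ => (x : ℂ)) (𝓝[≠] x₀) (𝓝[≠] (x₀ : ℂ)) := by
    apply tendsto_nhdsWithin_of_tendsto_nhds_of_eventually_within
    · exact (Complex.continuous_ofReal.tendsto x₀).mono_left nhdsWithin_le_nhds
    · filter_upwards [self_mem_nhdsWithin] with x hx
      simpa using hx
  let F : ℂ → ℂ := fun z => (1 - 2 * s z ^ 2) ^ 2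
  have hF : Differentiable ℂ F :=
    ((differentiable_const _).sub ((hs.b.diff.pow 2).const_mul 2)).pow 2
  have hval : ∀ x : ℝ, |1 - 2 * (s (x : ℂ)).re ^ 2| = 1 → F (x : ℂ) = (fun _ : ℂ => (1 : ℂ)) x := by
    intro x hx
    have h1 : s (x : ℂ) = ((s (x : ℂ)).re : ℂ) := by
      apply Complex.ext
      · simp
      · simpa using hs.real x
    have h2 : (1 - 2 * (s (x : ℂ)).re ^ 2) ^ 2 = 1 := by
      rw [← sq_abs, hx, one_pow]
    show (1 - 2 * s (x : ℂ) ^ 2) ^ 2 = 1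
    rw [h1]
    have h3 := congrArg (fun t : ℝ => (t : ℂ)) h2
    push_cast at h3
    simpa using h3
  have hfr : ∃ᶠ z in 𝓝[≠] (x₀ : ℂ), F z = (fun _ : ℂ => (1 : ℂ)) z :=
    ht.frequently (hfr0.mono fun x hx => hval x hx.2)
  have heq : F = fun _ : ℂ => (1 : ℂ) :=
    AnalyticOnNhd.eq_of_frequently_eq (fun z _ => hF.analyticAt z)
      (fun z _ => (differentiable_const (1 : ℂ)).analyticAt z) hfr
  have hmem : ∀ z, s z ∈ ({0, 1, -1} : Set ℂ) := by
    intro z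
    have h1 : (1 - 2 * s z ^ 2) ^ 2 = 1 := congrFun heq z
    have h2 : s z * (s z * ((s z - 1) * (s z + 1))) = 0 := by
      linear_combination (1 / 4 : ℂ) * h1
    rcases mul_eq_zero.1 h2 with h | h
    · left; exact h
    · rcases mul_eq_zero.1 h with h | h
      · left; exact h
      · rcases mul_eq_zero.1 h with h | h
        · right; left; exact sub_eq_zero.1 h
        · right; right; exact eq_neg_of_add_eq_zero_left h
  have hdisc : IsDiscrete ({0, 1, -1} : Set ℂ) :=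
    (((finite_singleton (-1 : ℂ)).insert 1).insert 0).isDiscrete
  obtain ⟨y, -, hy⟩ := (isPreconnected_univ (α := ℂ)).eqOn_const_of_mapsTo
    (T := ({0, 1, -1} : Set ℂ)) hdisc hs.b.diff.continuous.continuousOn (fun z _ => hmem z)
    ⟨0, by simp⟩
  obtain ⟨z, hz⟩ := hnc
  apply hz
  have : s = fun _ => y := funext fun z => hy (mem_univ z)
  rw [this]
  simp

theorem exists_weights {α : ℝ} (h0 : 0 < α) (h1 : α < 1) {s : ℂ → ℂ} (hs : IsE (1 / 2) 1 s)
    (hJ : J α s = bernsteinNorm α) (hnc : ∃ z, deriv s z ≠ 0) :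
    ∃ w : {x : ℝ // |1 - 2 * (s (x : ℂ)).re ^ 2| = 1} → ℝ,
      Summable (fun x => |w x|) ∧ ∑' x, |w x| ≤ bernsteinNorm α ∧
      ∀ (g : ℂ → ℂ) (M : ℝ), IsE 1 M g → Tendsto (fun x : ℝ => (g (x : ℂ)).re) (cocompact ℝ) (𝓝 0) →
        HasSum (fun x : {x : ℝ // |1 - 2 * (s (x : ℂ)).re ^ 2| = 1} => w x * (g (x : ℝ)).re)
          (Lf α g) := by
  have hI : 0 ≤ bernsteinNorm α := by
    unfold bernsteinNorm
    apply Real.sInf_nonneg
    rintro r ⟨μ, -, rfl⟩
    exact ENNReal.toReal_nonneg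
  have hex : ∀ n : ℕ, ∃ (m : Measure ℝ) (h : ℝ → ℂ), IsFiniteMeasure m ∧ Integrable h m ∧
      ∫ x, ‖h x‖ ∂m ≤ bernsteinNorm α + 1 / ((n : ℝ) + 1) ∧
      ∀ ξ : ℝ, |ξ| ≤ 1 →
        ∫ x, Complex.exp (-(Complex.I * ((x * ξ : ℝ) : ℂ))) * h x ∂m =
          (((1 - |ξ|) ^ α : ℝ) : ℂ) := by
    intro n
    have hpos : (0 : ℝ) < 1 / ((n : ℝ) + 1) := by positivity
    have hlt : sInf {r : ℝ | ∃ μ : ComplexMeasure ℝ, Admissible α μ ∧ r = totalVar μ} <
        bernsteinNorm α + 1 / ((n : ℝ) + 1) := by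
      show bernsteinNorm α < _
      linarith
    obtain ⟨μ', hμ'⟩ := admissible_nonempty h0 h1
    have hne : {r : ℝ | ∃ μ : ComplexMeasure ℝ, Admissible α μ ∧ r = totalVar μ}.Nonempty :=
      ⟨_, μ', hμ', rfl⟩
    obtain ⟨r, ⟨μ, hμ, rfl⟩, hr⟩ := exists_lt_of_csInf_lt hne hlt
    obtain ⟨h, ih, hμh, hn⟩ := exists_density μ
    refine ⟨μ.variation, h, inferInstance, ih, ?_, ?_⟩
    · rw [hn]
      exact hr.le
    · intro ξ hξ
      rw [← fourierStieltjes_withDensityV ih, ← hμh]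
      exact hμ ξ hξ
  choose m h hfin hint hnorm hrep using hex
  have hre : ∀ {a M : ℝ} {g : ℂ → ℂ}, IsE a M g → ∀ x : ℝ, (((g (x : ℂ)).re : ℝ) : ℂ) = g x := by
    intro a M g hg x
    apply Complex.ext
    · simp
    · simpa using (hg.real x).symm
  have hf1 : ∀ x : ℝ, |1 - 2 * (s (x : ℂ)).re ^ 2| ≤ 1 := by
    intro x
    have h2 : |(s (x : ℂ)).re| ≤ 1 := (Complex.abs_re_le_norm _).trans (hs.b.real_le x)
    have h3 : (s (x : ℂ)).re ^ 2 ≤ 1 := by
      have := pow_le_pow_left₀ (abs_nonneg _) h2 2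
      simpa [sq_abs] using this
    rw [abs_le]
    constructor <;> nlinarith [sq_nonneg (s (x : ℂ)).re]
  have hcont : Continuous (fun x : ℝ => 1 - 2 * (s (x : ℂ)).re ^ 2) := by
    have h2 : Continuous (fun x : ℝ => (s (x : ℂ)).re) :=
      Complex.continuous_re.comp (hs.b.diff.continuous.comp Complex.continuous_ofReal)
    exact continuous_const.sub (continuous_const.mul (h2.pow 2))
  obtain ⟨hE, hJ2⟩ := J_eq h0 h1 hs
  have hfI : ∀ n, ∫ x, (((1 - 2 * (s (x : ℂ)).re ^ 2 : ℝ)) : ℂ) * h n x ∂(m n) =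
      ((bernsteinNorm α : ℝ) : ℂ) := by
    intro n
    have := hfin n
    have h2 := transfer h0 h1 hE (hint n) (hrep n)
    rw [hJ2, hJ] at h2
    rw [← h2]
    congr 1
    funext x
    have h3 := hre hs x
    show _ = (1 - 2 * s (x : ℂ) ^ 2) * h n x
    rw [← h3]
    push_cast
    simp
  obtain ⟨w, hw1, hw2, hw3⟩ := weak_limit hcont hf1 (nodes_finite hs hnc) hI m h hint hnorm hfI
  refine ⟨w, hw1, hw2, ?_⟩
  intro g M hg hlim
  apply hw3 (fun x : ℝ => (g (x : ℂ)).re) (Lf α g)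
  · exact Complex.continuous_re.comp (hg.b.diff.continuous.comp Complex.continuous_ofReal)
  · exact hlim
  · intro n
    have := hfin n
    have h2 := transfer h0 h1 hg (hint n) (hrep n)
    have h3 : ∫ x, (((g (x : ℂ)).re : ℝ) : ℂ) * h n x ∂(m n) = ((Lf α g : ℝ) : ℂ) := by
      rw [← h2]
      congr 1
      funext x
      rw [hre hg x]
    rw [h3, Complex.ofReal_re]

end Pool.Agent.Helper30.FG
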