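import Pool.Agent.Helper30.FG.E3
import Pool.Agent.Helper30.FG.A4

/-!
# The weights represent `(1 - |ξ|)^α`

For `|ξ| < 1` use `g_ε z = cos (ξ z) (sin (ε z) / (ε z))²`, `|ξ| + 2ε ≤ 1`, and let `ε → 0`
(`A6.tendsto_Lf` / dominated convergence, `Lf_cos`); `ξ = ±1` by continuity.
-/

set_option autoImplicit false

namespace Pool.Agent.Helper30.FG

open Complex MeasureTheory Set Filter Topology
open Pool.Agent.Helper78.Bern Pool.Agent.Helper45.Bern

namespace E4

/-- `sin u / u` -/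
private noncomputable def cs (u : ℂ) : ℂ := dslope Complex.sin 0 u

private theorem cs_mul (u : ℂ) : cs u * u = Complex.sin u := by
  have h := sub_smul_dslope Complex.sin 0 u
  simp only [sub_zero, Complex.sin_zero, smul_eq_mul] at h
  rw [cs, mul_comm]; exact h

private theorem cs_zero : cs 0 = 1 := by
  rw [cs, dslope_same, Complex.deriv_sin, Complex.cos_zero]

private theorem cs_of_ne {u : ℂ} (hu : u ≠ 0) : cs u = Complex.sin u / u := by
  rw [eq_div_iff hu, cs_mul]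

private theorem cs_neg (u : ℂ) : cs (-u) = cs u := by
  by_cases hu : u = 0
  · rw [hu, neg_zero]
  · rw [cs_of_ne hu, cs_of_ne (neg_ne_zero.2 hu), Complex.sin_neg, neg_div_neg_eq]

private theorem cs_real (x : ℝ) : cs (x : ℂ) = ((Real.sinc x : ℝ) : ℂ) := by
  by_cases hx : x = 0
  · rw [hx, Complex.ofReal_zero, cs_zero, Real.sinc_zero, Complex.ofReal_one]
  · rw [cs_of_ne (by exact_mod_cast hx), Real.sinc_of_ne_zero hx, Complex.ofReal_div,
      Complex.ofReal_sin]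

private theorem cs_diff : Differentiable ℂ cs := by
  rw [← differentiableOn_univ]
  exact (Complex.differentiableOn_dslope univ_mem).2 Complex.differentiable_sin.differentiableOn

private theorem norm_cos_le' (s : ℂ) : ‖Complex.cos s‖ ≤ Real.exp |s.im| := by
  have h : Complex.cos s = (Complex.exp (s * I) + Complex.exp (-s * I)) / 2 := rfl
  rw [h, norm_div]
  have h2 : ‖(2 : ℂ)‖ = 2 := by simp
  rw [h2, div_le_iff₀ (by norm_num)]
  refine (norm_add_le _ _).trans ?_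
  rw [Complex.norm_exp, Complex.norm_exp]
  have e1 : (s * I).re = -s.im := by simp
  have e2 : (-s * I).re = s.im := by simp
  rw [e1, e2]
  have h3 : Real.exp (-s.im) ≤ Real.exp |s.im| := Real.exp_le_exp.2 (neg_le_abs _)
  have h4 : Real.exp (s.im) ≤ Real.exp |s.im| := Real.exp_le_exp.2 (le_abs_self _)
  linarith

private theorem norm_sin_le_mul (u : ℂ) : ‖Complex.sin u‖ ≤ Real.exp |u.im| * ‖u‖ := by
  have hconv : Convex ℝ {w : ℂ | |w.im| ≤ |u.im|} := by
    intro x hx y hy a b ha hb hab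
    have hx' : |x.im| ≤ |u.im| := hx
    have hy' : |y.im| ≤ |u.im| := hy
    show |(a • x + b • y).im| ≤ |u.im|
    have h1 : (a • x + b • y).im = a * x.im + b * y.im := by simp
    rw [h1]
    calc |a * x.im + b * y.im| ≤ |a * x.im| + |b * y.im| := abs_add_le _ _
      _ = a * |x.im| + b * |y.im| := by rw [abs_mul, abs_mul, abs_of_nonneg ha, abs_of_nonneg hb]
      _ ≤ a * |u.im| + b * |u.im| := by gcongr
      _ = |u.im| := by rw [← add_mul, hab, one_mul]
  have h := hconv.norm_image_sub_le_of_norm_hasDerivWithin_le (f := Complex.sin)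
    (f' := Complex.cos) (C := Real.exp |u.im|) (x := 0) (y := u)
    (fun x _ => (Complex.hasDerivAt_sin x).hasDerivWithinAt)
    (fun x hx => (norm_cos_le' x).trans (Real.exp_le_exp.2 hx))
    (show |(0 : ℂ).im| ≤ |u.im| by simp) (show |u.im| ≤ |u.im| from le_rfl)
  simpa using h

private theorem norm_cs_le (u : ℂ) : ‖cs u‖ ≤ Real.exp |u.im| := by
  by_cases hu : u = 0
  · rw [hu, cs_zero]; simp
  · have h := norm_sin_le_mul u
    rw [← cs_mul, norm_mul] at h
    exact le_of_mul_le_mul_right h (norm_pos_iff.2 hu)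

/-- the test functions -/
private noncomputable def tf (ξ ε : ℝ) (z : ℂ) : ℂ :=
  Complex.cos ((ξ : ℂ) * z) * cs ((ε : ℂ) * z) ^ 2

private theorem tf_real (ξ ε x : ℝ) :
    tf ξ ε (x : ℂ) = ((Real.cos (ξ * x) * Real.sinc (ε * x) ^ 2 : ℝ) : ℂ) := by
  unfold tf
  rw [← Complex.ofReal_mul, ← Complex.ofReal_mul, cs_real, ← Complex.ofReal_cos,
    ← Complex.ofReal_pow, ← Complex.ofReal_mul]

private theorem tf_isE {ξ ε : ℝ} (hε : 0 ≤ ε) (h : |ξ| + 2 * ε ≤ 1) : IsE 1 1 (tf ξ ε) := by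
  refine ⟨⟨?_, ?_⟩, ?_, ?_⟩
  · unfold tf
    exact (Complex.differentiable_cos.comp (differentiable_id.const_mul (ξ : ℂ))).mul
      ((cs_diff.comp (differentiable_id.const_mul (ε : ℂ))).pow 2)
  · intro z
    unfold tf
    rw [norm_mul, norm_pow, one_mul]
    have h1 : ‖Complex.cos ((ξ : ℂ) * z)‖ ≤ Real.exp (|ξ| * |z.im|) := by
      refine (norm_cos_le' _).trans (le_of_eq ?_)
      rw [Complex.im_ofReal_mul, abs_mul]
    have h2 : ‖cs ((ε : ℂ) * z)‖ ≤ Real.exp (ε * |z.im|) := by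
      refine (norm_cs_le _).trans (le_of_eq ?_)
      rw [Complex.im_ofReal_mul, abs_mul, abs_of_nonneg hε]
    calc ‖Complex.cos ((ξ : ℂ) * z)‖ * ‖cs ((ε : ℂ) * z)‖ ^ 2
        ≤ Real.exp (|ξ| * |z.im|) * Real.exp (ε * |z.im|) ^ 2 :=
          mul_le_mul h1 (pow_le_pow_left₀ (norm_nonneg _) h2 2) (by positivity) (by positivity)
      _ = Real.exp ((|ξ| + 2 * ε) * |z.im|) := by
          rw [← Real.exp_nat_mul, ← Real.exp_add]
          congr 1
          push_cast
          ring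
      _ ≤ Real.exp (1 * |z.im|) :=
          Real.exp_le_exp.2 (mul_le_mul_of_nonneg_right h (abs_nonneg _))
  · intro z
    unfold tf
    rw [mul_neg, mul_neg, Complex.cos_neg, cs_neg]
  · intro x
    rw [tf_real, Complex.ofReal_im]

private theorem tf_decay {ξ ε : ℝ} (hε : 0 < ε) :
    Tendsto (fun x : ℝ => (tf ξ ε (x : ℂ)).re) (cocompact ℝ) (𝓝 0) := by
  have h2 : Tendsto (fun x : ℝ => |x|) (cocompact ℝ) atTop :=
    tendsto_norm_cocompact_atTop (E := ℝ)
  have h1 : Tendsto (fun x : ℝ => (ε * |x|)⁻¹ ^ 2) (cocompact ℝ) (𝓝 0) := by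
    have h3 : Tendsto (fun x : ℝ => (ε * |x|)⁻¹) (cocompact ℝ) (𝓝 0) :=
      (h2.const_mul_atTop hε).inv_tendsto_atTop
    simpa using h3.pow 2
  refine squeeze_zero_norm' ((h2.eventually_gt_atTop 0).mono fun x hx => ?_) h1
  rw [tf_real, Complex.ofReal_re, norm_mul, norm_pow, Real.norm_eq_abs, Real.norm_eq_abs]
  have h4 : |Real.sinc (ε * x)| ≤ (ε * |x|)⁻¹ := by
    have hne : ε * x ≠ 0 := mul_ne_zero hε.ne' (abs_pos.1 hx)
    rw [Real.sinc_of_ne_zero hne, abs_div, abs_mul, abs_of_pos hε, div_eq_mul_inv]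
    exact mul_le_of_le_one_left (by positivity) (Real.abs_sin_le_one _)
  calc |Real.cos (ξ * x)| * |Real.sinc (ε * x)| ^ 2 ≤ 1 * |Real.sinc (ε * x)| ^ 2 :=
        mul_le_mul_of_nonneg_right (Real.abs_cos_le_one _) (by positivity)
    _ ≤ (ε * |x|)⁻¹ ^ 2 := by
        rw [one_mul]
        exact pow_le_pow_left₀ (abs_nonneg _) h4 2

private theorem tf_le (ξ ε x : ℝ) : |(tf ξ ε (x : ℂ)).re| ≤ 1 := by
  rw [tf_real, Complex.ofReal_re, abs_mul, abs_pow]
  calc |Real.cos (ξ * x)| * |Real.sinc (ε * x)| ^ 2 ≤ 1 * 1 ^ 2 :=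
        mul_le_mul (Real.abs_cos_le_one _)
          (pow_le_pow_left₀ (abs_nonneg _) (Real.abs_sinc_le_one _) 2) (by positivity) (by norm_num)
    _ = 1 := by norm_num

private theorem tf_tendsto (ξ : ℝ) (z : ℂ) :
    Tendsto (fun ε : ℝ => tf ξ ε z) (𝓝 0) (𝓝 (Complex.cos ((ξ : ℂ) * z))) := by
  have h1 : Continuous (fun ε : ℝ => tf ξ ε z) := by
    unfold tf
    have h2 : Continuous cs := cs_diff.continuous
    exact continuous_const.mul ((h2.comp (Complex.continuous_ofReal.mul continuous_const)).pow 2)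
  have h3 := h1.tendsto 0
  have h4 : tf ξ 0 z = Complex.cos ((ξ : ℂ) * z) := by
    unfold tf
    rw [Complex.ofReal_zero, zero_mul, cs_zero, one_pow, mul_one]
  rwa [h4] at h3

end E4

theorem weights_cos {α : ℝ} (h0 : 0 < α) (h1 : α < 1) {s : ℂ → ℂ} (hs : IsE (1 / 2) 1 s)
    (hJ : J α s = bernsteinNorm α) (hnc : ∃ z, deriv s z ≠ 0) :
    ∃ w : {x : ℝ // |1 - 2 * (s (x : ℂ)).re ^ 2| = 1} → ℝ,
      Summable (fun x => |w x|) ∧ ∑' x, |w x| ≤ bernsteinNorm α ∧
      ∀ ξ : ℝ, |ξ| ≤ 1 →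
        HasSum (fun x : {x : ℝ // |1 - 2 * (s (x : ℂ)).re ^ 2| = 1} =>
          w x * Real.cos ((x : ℝ) * ξ)) ((1 - |ξ|) ^ α) := by
  obtain ⟨w, hw, hle, hrep⟩ := exists_weights h0 h1 hs hJ hnc
  refine ⟨w, hw, hle, ?_⟩
  have hsum : ∀ ξ : ℝ, Summable (fun x : {x : ℝ // |1 - 2 * (s (x : ℂ)).re ^ 2| = 1} =>
      w x * Real.cos ((x : ℝ) * ξ)) := by
    intro ξ
    refine Summable.of_norm_bounded hw (fun x => ?_)
    rw [norm_mul, Real.norm_eq_abs, Real.norm_eq_abs]
    exact mul_le_of_le_one_right (abs_nonneg _) (Real.abs_cos_le_one _)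
  have hcont : Continuous (fun ξ : ℝ => ∑' x : {x : ℝ // |1 - 2 * (s (x : ℂ)).re ^ 2| = 1},
      w x * Real.cos ((x : ℝ) * ξ)) := by
    refine continuous_tsum (fun x => ?_) hw (fun x ξ => ?_)
    · exact continuous_const.mul (Real.continuous_cos.comp (continuous_const.mul continuous_id))
    · rw [norm_mul, Real.norm_eq_abs, Real.norm_eq_abs]
      exact mul_le_of_le_one_right (abs_nonneg _) (Real.abs_cos_le_one _)
  have hcont2 : Continuous (fun ξ : ℝ => (1 - |ξ|) ^ α) :=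
    (continuous_const.sub continuous_abs).rpow_const (fun _ => Or.inr h0.le)
  have hin : EqOn (fun ξ : ℝ => ∑' x : {x : ℝ // |1 - 2 * (s (x : ℂ)).re ^ 2| = 1},
      w x * Real.cos ((x : ℝ) * ξ)) (fun ξ : ℝ => (1 - |ξ|) ^ α) (Ioo (-1) 1) := by
    intro ξ hξ
    have hξ' : |ξ| < 1 := abs_lt.2 hξ
    simp only []
    set e : ℕ → ℝ := fun n => (1 - |ξ|) / 2 * (1 / ((n : ℝ) + 1)) with he
    have hepos : ∀ n, 0 < e n := fun n => by
      rw [he]
      have : 0 < 1 - |ξ| := by linarith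
      positivity
    have hele : ∀ n, |ξ| + 2 * e n ≤ 1 := fun n => by
      have h2 : 1 / ((n : ℝ) + 1) ≤ 1 := by
        rw [div_le_one (by positivity)]
        have : (0 : ℝ) ≤ (n : ℝ) := Nat.cast_nonneg n
        linarith
      have h3 : (1 - |ξ|) / 2 * (1 / ((n : ℝ) + 1)) ≤ (1 - |ξ|) / 2 :=
        mul_le_of_le_one_right (by linarith) h2
      simp only [he]
      linarith
    have het : Tendsto e atTop (𝓝 0) := by
      have h2 := (tendsto_one_div_add_atTop_nhds_zero_nat (𝕜 := ℝ)).const_mul ((1 - |ξ|) / 2)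
      rw [mul_zero] at h2
      exact h2
    have hE : ∀ n, IsE 1 1 (E4.tf ξ (e n)) := fun n => E4.tf_isE (hepos n).le (hele n)
    have hL : Tendsto (fun n => Lf α (E4.tf ξ (e n))) atTop
        (𝓝 (Lf α (fun z => Complex.cos (ξ * z)))) :=
      A6.tendsto_Lf h0 h1 (fun n => (hE n).b) (fun z => (E4.tf_tendsto ξ z).comp het)
    rw [Lf_cos h0 h1 hξ'.le] at hL
    have hS : Tendsto (fun n => ∑' x : {x : ℝ // |1 - 2 * (s (x : ℂ)).re ^ 2| = 1},
        w x * (E4.tf ξ (e n) ((x : ℝ) : ℂ)).re) atTop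
        (𝓝 (∑' x : {x : ℝ // |1 - 2 * (s (x : ℂ)).re ^ 2| = 1},
          w x * Real.cos ((x : ℝ) * ξ))) := by
      refine tendsto_tsum_of_dominated_convergence (bound := fun x => |w x|) hw (fun x => ?_)
        (Eventually.of_forall fun n x => ?_)
      · have h2 := (Complex.continuous_re.tendsto _).comp
          ((E4.tf_tendsto ξ ((x : ℝ) : ℂ)).comp het)
        have h3 : (Complex.cos ((ξ : ℂ) * ((x : ℝ) : ℂ))).re = Real.cos ((x : ℝ) * ξ) := by
          rw [← Complex.ofReal_mul, ← Complex.ofReal_cos, Complex.ofReal_re, mul_comm]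
        rw [h3] at h2
        exact h2.const_mul _
      · rw [norm_mul, Real.norm_eq_abs, Real.norm_eq_abs]
        exact mul_le_of_le_one_right (abs_nonneg _) (E4.tf_le _ _ _)
    have hEq : ∀ n, ∑' x : {x : ℝ // |1 - 2 * (s (x : ℂ)).re ^ 2| = 1},
        w x * (E4.tf ξ (e n) ((x : ℝ) : ℂ)).re = Lf α (E4.tf ξ (e n)) := fun n =>
      (hrep _ 1 (hE n) (E4.tf_decay (hepos n))).tsum_eq
    simp only [hEq] at hS
    exact tendsto_nhds_unique hS hL
  intro ξ hξ
  have hcl := hin.closure hcont hcont2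
  rw [closure_Ioo (by norm_num : (-1 : ℝ) ≠ 1)] at hcl
  have h2 := hcl (abs_le.1 hξ)
  simp only [] at h2
  rw [← h2]
  exact (hsum ξ).hasSum

end Pool.Agent.Helper30.FG
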