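import Pool.Agent.Helper30.FG.E4

/-!
# The infimum `I(α)` is attained

Symmetrise the family of E4 (points `x` and `-x` with half the weight) and apply
`exists_admissible_of_series` (Helper78/BernBridge) after an encoding into `ℤ` (see C4).
-/

set_option autoImplicit false

namespace Pool.Agent.Helper30.FG

open Complex MeasureTheory Set Filter Topology
open Pool.Agent.Helper78.Bern Pool.Agent.Helper45.Bern

namespace E5

/-- complex families over a countable type -/
theorem adm_countable {α : ℝ} {κ : Type} [Countable κ] {b : κ → ℂ} {e : κ → ℝ}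
    (hb : Summable (fun n => ‖b n‖))
    (hrep : ∀ ξ : ℝ, |ξ| ≤ 1 →
      HasSum (fun n => Complex.exp (-(Complex.I * ((e n * ξ : ℝ) : ℂ))) * b n)
        (((1 - |ξ|) ^ α : ℝ) : ℂ)) :
    ∃ μ : ComplexMeasure ℝ, Admissible α μ ∧ totalVar μ ≤ ∑' n, ‖b n‖ := by
  obtain ⟨φ0, hφ0⟩ := exists_injective_nat κ
  set φ : κ → ℤ := fun x => (φ0 x : ℤ) with hφdef
  have hφ : Function.Injective φ := fun x y h => hφ0 (Int.ofNat.inj h)
  set B : ℤ → ℂ := Function.extend φ b 0 with hB
  set E : ℤ → ℝ := Function.extend φ e 0 with hE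
  have hnorm : (fun n => ‖B n‖) = Function.extend φ (fun i => ‖b i‖) 0 := by
    funext n
    by_cases hn : ∃ i, φ i = n
    · obtain ⟨i, rfl⟩ := hn
      rw [hφ.extend_apply, hB, hφ.extend_apply]
    · rw [hB, Function.extend_apply' _ _ _ hn, Function.extend_apply' _ _ _ hn]
      simp
  have hs : HasSum (fun n => ‖B n‖) (∑' i, ‖b i‖) := by
    rw [hnorm]
    exact (hasSum_extend_zero hφ).2 hb.hasSum
  have key := exists_admissible_of_series (α := α) (b := B) (e := E) hs.summable (by
    intro ξ hξ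
    have h1 : (fun n => Complex.exp (-(Complex.I * ((E n * ξ : ℝ) : ℂ))) * B n) =
        Function.extend φ
          (fun i => Complex.exp (-(Complex.I * ((e i * ξ : ℝ) : ℂ))) * b i) 0 := by
      funext n
      by_cases hn : ∃ i, φ i = n
      · obtain ⟨i, rfl⟩ := hn
        rw [hφ.extend_apply, hB, hE, hφ.extend_apply, hφ.extend_apply]
      · rw [hB, Function.extend_apply' _ _ _ hn, Function.extend_apply' _ _ _ hn]
        simp
    rw [h1]
    exact (hasSum_extend_zero hφ).2 (hrep ξ hξ))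
  rwa [hs.tsum_eq] at key

/-- real cosine families over a countable type -/
theorem adm_family {α : ℝ} {ι : Type} [Countable ι] {b e : ι → ℝ}
    (hb : Summable (fun i => |b i|))
    (hrep : ∀ ξ ∈ Icc (0 : ℝ) 1, HasSum (fun i => b i * Real.cos (e i * ξ)) ((1 - ξ) ^ α)) :
    ∃ μ : ComplexMeasure ℝ, Admissible α μ ∧ totalVar μ ≤ ∑' i, |b i| := by
  have hn : ∀ i, ‖((b i / 2 : ℝ) : ℂ)‖ = |b i| / 2 := by
    intro i
    rw [Complex.norm_real, Real.norm_eq_abs, abs_div, abs_two]
  have hb2 : Summable (fun i => |b i| / 2) := hb.div_const 2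
  set b' : ι ⊕ ι → ℂ := Sum.elim (fun i => ((b i / 2 : ℝ) : ℂ)) (fun i => ((b i / 2 : ℝ) : ℂ))
    with hb'
  set e' : ι ⊕ ι → ℝ := Sum.elim e (fun i => -e i) with he'
  have hs : HasSum (fun p => ‖b' p‖) (∑' i, |b i|) := by
    have h1 : HasSum (fun i => |b i| / 2) ((∑' i, |b i|) / 2) := hb.hasSum.div_const 2
    have h2 : HasSum (fun p => ‖b' p‖) ((∑' i, |b i|) / 2 + (∑' i, |b i|) / 2) := by
      apply HasSum.sum
      · simpa [Function.comp_def, hb', hn] using h1
      · simpa [Function.comp_def, hb', hn] using h1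
    rwa [add_halves] at h2
  have key := adm_countable (α := α) (b := b') (e := e') hs.summable (by
    intro ξ hξ
    have hbd : ∀ (c : ι → ℝ), Summable
        (fun i => Complex.exp (-(Complex.I * ((c i * ξ : ℝ) : ℂ))) * ((b i / 2 : ℝ) : ℂ)) := by
      intro c
      refine Summable.of_norm_bounded hb2 ?_
      intro i
      rw [norm_mul, hn, show -(Complex.I * ((c i * ξ : ℝ) : ℂ)) =
        ((-(c i * ξ) : ℝ) : ℂ) * Complex.I by push_cast; ring, Complex.norm_exp_ofReal_mul_I,
        one_mul]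
    have hA := (hbd e).hasSum
    have hB := (hbd (fun i => -e i)).hasSum
    have hAB := hA.add hB
    have hfun : (fun i => Complex.exp (-(Complex.I * ((e i * ξ : ℝ) : ℂ))) * ((b i / 2 : ℝ) : ℂ) +
        Complex.exp (-(Complex.I * ((-e i * ξ : ℝ) : ℂ))) * ((b i / 2 : ℝ) : ℂ)) =
        fun i => ((b i * Real.cos (e i * |ξ|) : ℝ) : ℂ) := by
      funext i
      have hc : Real.cos (e i * |ξ|) = Real.cos (e i * ξ) := by
        rcases abs_choice ξ with h | h <;> rw [h]
        rw [mul_neg, Real.cos_neg]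
      rw [hc]
      push_cast
      rw [Complex.cos]
      have e1 : -(Complex.I * (↑(e i) * ↑ξ)) = -(↑(e i) * ↑ξ) * Complex.I := by ring
      have e2 : -(Complex.I * (-↑(e i) * ↑ξ)) = (↑(e i) * ↑ξ) * Complex.I := by ring
      rw [e1, e2]
      ring
    rw [hfun] at hAB
    have h3 : HasSum (fun i => ((b i * Real.cos (e i * |ξ|) : ℝ) : ℂ))
        (((1 - |ξ|) ^ α : ℝ) : ℂ) :=
      (Complex.hasSum_ofReal).2 (hrep |ξ| ⟨abs_nonneg _, hξ⟩)
    rw [← hAB.unique h3]
    apply HasSum.sum
    · simpa [Function.comp_def, hb', he'] using hA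
    · simpa [Function.comp_def, hb', he'] using hB)
  rwa [hs.tsum_eq] at key

/-- no countability assumption -/
theorem adm_family' {α : ℝ} {κ : Type} {b e : κ → ℝ} (hb : Summable (fun i => |b i|))
    (hrep : ∀ ξ ∈ Icc (0 : ℝ) 1, HasSum (fun i => b i * Real.cos (e i * ξ)) ((1 - ξ) ^ α)) :
    ∃ μ : ComplexMeasure ℝ, Admissible α μ ∧ totalVar μ ≤ ∑' i, |b i| := by
  have hcount : (Function.support (fun i => |b i|)).Countable := hb.countable_support
  have hc : Countable (Function.support (fun i => |b i|)) := hcount.to_subtype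
  have h1 : (∑' i : Function.support (fun i => |b i|), |b i|) = ∑' i, |b i| :=
    tsum_subtype_support (fun i => |b i|)
  obtain ⟨μ, hμ, hμ2⟩ := adm_family (α := α) (ι := Function.support (fun i => |b i|))
    (b := fun i => b i) (e := fun i => e i) (hb.subtype _) (by
      intro ξ hξ
      have h2 := hrep ξ hξ
      have h3 : Function.support (fun i => b i * Real.cos (e i * ξ)) ⊆
          Function.support (fun i => |b i|) := by
        intro i hi
        simp only [Function.mem_support] at hi ⊢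
        intro h
        rw [abs_eq_zero] at h
        exact hi (by rw [h, zero_mul])
      exact (hasSum_subtype_iff_of_support_subset h3).2 h2)
  exact ⟨μ, hμ, hμ2.trans (le_of_eq h1)⟩

end E5

theorem exists_extremal {α : ℝ} (h0 : 0 < α) (h1 : α < 1) {s : ℂ → ℂ} (hs : IsE (1 / 2) 1 s)
    (hJ : J α s = bernsteinNorm α) (hnc : ∃ z, deriv s z ≠ 0) :
    ∃ μ : ComplexMeasure ℝ, Admissible α μ ∧ totalVar μ = bernsteinNorm α := by
  obtain ⟨w, hw, hw1, hrep⟩ := weights_cos h0 h1 hs hJ hnc
  obtain ⟨μ, hμ, hμ2⟩ := E5.adm_family' (α := α) (b := w) (e := fun x => (x : ℝ)) hw (by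
    intro ξ hξ
    have := hrep ξ (by rw [abs_of_nonneg hξ.1]; exact hξ.2)
    rwa [abs_of_nonneg hξ.1] at this)
  exact ⟨μ, hμ, le_antisymm (hμ2.trans hw1) (bernsteinNorm_le hμ)⟩

end Pool.Agent.Helper30.FG
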