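import Pool.Agent.Helper30.FG.B1
import Pool.Agent.Helper30.FG.B2
import Pool.Agent.Helper30.FG.C0
import Pool.Agent.Helper30.FG.E1
import Pool.Agent.Helper30.FG.E2
import Pool.Agent.Helper30.FG.E3

/-!
# The extremal measure is unique

Both measures are carried by the countable set of nodes `|1 - 2 s²| = 1` (E2 with `integral_eq_J`).
For a node `x₀` the function `W z = s z * s' z / (z - x₀)` is in `B(1, C)` (B1, B2), vanishes at all
other nodes and `W x₀ = (s s')'(x₀) ≠ 0`; `∫ W dμ₁ = ∫ W dμ₂` (E1) gives `μ₁ {x₀} = μ₂ {x₀}`.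
-/

set_option autoImplicit false

namespace Pool.Agent.Helper30.FG

open Complex MeasureTheory Set Filter Topology
open Pool.Agent.Helper78.Bern Pool.Agent.Helper45.Bern

namespace E6

theorem integral_eq {μ : ComplexMeasure ℝ} {h : ℝ → ℂ} (ih : Integrable h μ.variation)
    (hμ : μ = μ.variation.withDensityᵥ h) {N : Set ℝ} (hN : MeasurableSet N)
    (h0 : ∀ A : Set ℝ, MeasurableSet A → A ⊆ Nᶜ → μ A = 0) {g : ℝ → ℂ} {x₀ : ℝ}
    (hx₀ : ∀ x ∈ N, x ≠ x₀ → g x = 0) :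
    ∫ x, g x * h x ∂μ.variation = g x₀ * μ {x₀} := by
  have happ : ∀ A : Set ℝ, MeasurableSet A → μ A = ∫ x in A, h x ∂μ.variation := by
    intro A hA
    have h1 := congrArg (fun v : ComplexMeasure ℝ => v A) hμ
    rw [withDensityᵥ_apply ih hA] at h1
    exact h1
  have hae : h =ᵐ[μ.variation.restrict Nᶜ] 0 := by
    refine Integrable.ae_eq_zero_of_forall_setIntegral_eq_zero ih.restrict ?_
    intro A hA _
    rw [Measure.restrict_restrict hA, ← happ _ (hA.inter hN.compl)]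
    exact h0 _ (hA.inter hN.compl) inter_subset_right
  have hae' : ∀ᵐ x ∂μ.variation, x ∈ Nᶜ → h x = 0 := by
    have := (ae_restrict_iff' hN.compl).1 hae
    filter_upwards [this] with x hx hxN
    exact hx hxN
  have heq : (fun x => g x * h x) =ᵐ[μ.variation]
      ({x₀} : Set ℝ).indicator (fun x => g x₀ * h x) := by
    filter_upwards [hae'] with x hx
    by_cases hxx : x = x₀
    · rw [Set.indicator_of_mem (by simpa using hxx), hxx]
    · rw [Set.indicator_of_notMem (by simpa using hxx)]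
      by_cases hxN : x ∈ N
      · rw [hx₀ x hxN hxx, zero_mul]
      · rw [hx hxN, mul_zero]
  rw [integral_congr_ae heq, integral_indicator (measurableSet_singleton _), integral_const_mul,
    ← happ _ (measurableSet_singleton _)]

theorem ext_of_singletons {μ₁ μ₂ : ComplexMeasure ℝ} {N : Set ℝ} (hN : N.Countable)
    (h₁ : ∀ A : Set ℝ, MeasurableSet A → A ⊆ Nᶜ → μ₁ A = 0)
    (h₂ : ∀ A : Set ℝ, MeasurableSet A → A ⊆ Nᶜ → μ₂ A = 0)
    (hs : ∀ x ∈ N, μ₁ {x} = μ₂ {x}) : μ₁ = μ₂ := by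
  have key : ∀ (μ : ComplexMeasure ℝ) (A : Set ℝ), MeasurableSet A →
      (∀ A : Set ℝ, MeasurableSet A → A ⊆ Nᶜ → μ A = 0) →
      μ A = ∑' x : ↥(A ∩ N), μ {(x : ℝ)} := by
    intro μ A hA h0
    have hc : (A ∩ N).Countable := hN.mono inter_subset_right
    have : Countable ↥(A ∩ N) := hc.to_subtype
    have hm : MeasurableSet (A ∩ N) := hc.measurableSet
    have e1 : A = (A ∩ N) ∪ (A \ N) := (Set.inter_union_sdiff A N).symm
    have e2 : μ A = μ (A ∩ N) + μ (A \ N) := by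
      conv_lhs => rw [e1]
      exact VectorMeasure.of_union Set.disjoint_sdiff_inter.symm hm (hA.diff hN.measurableSet)
    have e3 : μ (A \ N) = 0 := h0 _ (hA.diff hN.measurableSet) (fun x hx => hx.2)
    have e4 : μ (A ∩ N) = ∑' x : ↥(A ∩ N), μ {(x : ℝ)} := by
      conv_lhs => rw [← Set.iUnion_of_singleton_coe (A ∩ N)]
      refine VectorMeasure.of_disjoint_iUnion (fun i => measurableSet_singleton _) ?_
      intro i j hij
      simp only [Function.onFun, Set.disjoint_singleton]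
      exact fun h => hij (Subtype.ext h)
    rw [e2, e3, add_zero, e4]
  ext A hA
  rw [key μ₁ A hA h₁, key μ₂ A hA h₂]
  congr 1
  funext x
  exact hs _ x.2.2

end E6

theorem extremal_unique {α : ℝ} (h0 : 0 < α) (h1 : α < 1) {s : ℂ → ℂ} (hs : IsE (1 / 2) 1 s)
    (hJ : J α s = bernsteinNorm α) (hnc : ∃ z, deriv s z ≠ 0)
    (hz : ∀ x : ℝ, s (x : ℂ) = 0 → deriv s (x : ℂ) ≠ 0)
    (hz' : ∀ x : ℝ, deriv s (x : ℂ) = 0 → deriv (deriv s) (x : ℂ) ≠ 0)
    {μ₁ μ₂ : ComplexMeasure ℝ} (h₁ : Admissible α μ₁) (h₂ : Admissible α μ₂)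
    (t₁ : totalVar μ₁ = bernsteinNorm α) (t₂ : totalVar μ₂ = bernsteinNorm α) : μ₁ = μ₂ := by
  set f : ℝ → ℝ := fun x => 1 - 2 * (s (x : ℂ)).re ^ 2 with hf
  have hsx : ∀ x : ℝ, s (x : ℂ) = (((s (x : ℂ)).re : ℝ) : ℂ) := fun x => by
    apply Complex.ext
    · simp
    · simp [hs.real x]
  have hle : ∀ x : ℝ, (s (x : ℂ)).re ^ 2 ≤ 1 := by
    intro x
    have h2 := hs.b.real_le x
    have h3 : |(s (x : ℂ)).re| ≤ 1 := (Complex.abs_re_le_norm _).trans h2
    exact (sq_le_one_iff_abs_le_one _).2 h3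
  have hcs : Continuous (fun x : ℝ => s (x : ℂ)) := hs.b.diff.continuous.comp Complex.continuous_ofReal
  have hfc : Continuous f := by
    rw [hf]
    exact continuous_const.sub (continuous_const.mul ((Complex.continuous_re.comp hcs).pow 2))
  have hf1 : ∀ x, |f x| ≤ 1 := by
    intro x
    rw [hf, abs_le]
    simp only
    constructor <;> nlinarith [hle x, sq_nonneg (s (x : ℂ)).re]
  have hfun : (fun x : ℝ => ((f x : ℝ) : ℂ)) = fun x : ℝ => 1 - 2 * s (x : ℂ) ^ 2 := by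
    funext x
    rw [hf, hsx x]
    push_cast
    simp
  have hint : ∀ μ : ComplexMeasure ℝ, Admissible α μ → totalVar μ = bernsteinNorm α →
      VectorMeasure.integral μ (fun x : ℝ => ((f x : ℝ) : ℂ)) (ContinuousLinearMap.mul ℝ ℂ) =
      ((totalVar μ : ℝ) : ℂ) := by
    intro μ hμ ht
    rw [hfun, integral_eq_J h0 h1 hs hμ, hJ, ht]
  set N : Set ℝ := {x | |f x| = 1} with hNdef
  have hNc : N.Countable := by
    have e : N ⊆ ⋃ n : ℕ, {x : ℝ | |x| ≤ (n : ℝ) ∧ |1 - 2 * (s (x : ℂ)).re ^ 2| = 1} := by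
      intro x hx
      obtain ⟨n, hn⟩ := exists_nat_ge |x|
      exact Set.mem_iUnion.2 ⟨n, hn, hx⟩
    exact (Set.countable_iUnion fun n : ℕ => (nodes_finite hs hnc (n : ℝ)).countable).mono e
  have hNm : MeasurableSet N := hNc.measurableSet
  have hzero : ∀ μ : ComplexMeasure ℝ, Admissible α μ → totalVar μ = bernsteinNorm α →
      ∀ A : Set ℝ, MeasurableSet A → A ⊆ Nᶜ → μ A = 0 := by
    intro μ hμ ht A hA hAN
    exact (extremal_structure hfc hf1 (hint μ hμ ht)).1 A hA (fun x hx => hAN hx)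
  refine E6.ext_of_singletons hNc (hzero μ₁ h₁ t₁) (hzero μ₂ h₂ t₂) ?_
  intro x₀ hx₀
  -- the test function
  have hd : Differentiable ℂ s := hs.b.diff
  have hdd : Differentiable ℂ (deriv s) := (bernstein (by norm_num) hs.b).diff
  have hprod : IsB 1 (1 * (1 / 2 * 1)) (fun z => s z * deriv s z) := by
    have h := hs.b.mul (bernstein (by norm_num) hs.b)
    norm_num at h ⊢
    exact h
  have hnode : ∀ x ∈ N, s (x : ℂ) = 0 ∨ ((s (x : ℂ)).re ^ 2 = 1 ∧ deriv s (x : ℂ) = 0) := by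
    intro x hx
    have hx' : |1 - 2 * (s (x : ℂ)).re ^ 2| = 1 := hx
    rcases (abs_eq (by norm_num)).1 hx' with h | h
    · left
      have h2 : (s (x : ℂ)).re ^ 2 = 0 := by linarith
      rw [hsx x, pow_eq_zero_iff (by norm_num) |>.1 h2]
      simp
    · right
      have h2 : (s (x : ℂ)).re ^ 2 = 1 := by linarith
      refine ⟨h2, ?_⟩
      have h3 := bern_szego hs.b hs.real x
      have h4 : (deriv s (x : ℂ)).re = 0 := by
        have : (deriv s (x : ℂ)).re ^ 2 ≤ 0 := by linarith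
        exact pow_eq_zero_iff (by norm_num) |>.1 (le_antisymm this (sq_nonneg _))
      apply Complex.ext
      · simpa using h4
      · simpa using deriv_real hd hs.real x
  have hnode' : ∀ x ∈ N, s (x : ℂ) * deriv s (x : ℂ) = 0 := by
    intro x hx
    rcases hnode x hx with h | h
    · rw [h, zero_mul]
    · rw [h.2, mul_zero]
  obtain ⟨W, hWd, hW, C, hC0, hWC⟩ := exists_div (by norm_num) hprod (hnode' x₀ hx₀)
  have hWB : IsB 1 C W := by
    refine ⟨hWd, fun z => (hWC z).trans ?_⟩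
    have h2 : 0 ≤ C * Real.exp (1 * |z.im|) := mul_nonneg hC0 (Real.exp_pos _).le
    exact div_le_self h2 (by linarith [norm_nonneg z])
  have hWne : W (x₀ : ℂ) ≠ 0 := by
    have d1 : HasDerivAt (fun z => s z * deriv s z) (deriv s (x₀ : ℂ) * deriv s (x₀ : ℂ) +
        s (x₀ : ℂ) * deriv (deriv s) (x₀ : ℂ)) (x₀ : ℂ) :=
      (hd _).hasDerivAt.mul (hdd _).hasDerivAt
    have d2 : HasDerivAt (fun z => s z * deriv s z) (1 * W (x₀ : ℂ) +
        ((x₀ : ℂ) - x₀) * deriv W (x₀ : ℂ)) (x₀ : ℂ) := by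
      have e : (fun z => s z * deriv s z) = fun z => (z - (x₀ : ℂ)) * W z := funext hW
      rw [e]
      exact ((hasDerivAt_id (x₀ : ℂ)).sub_const (x₀ : ℂ)).mul (hWd _).hasDerivAt
    have e := d1.unique d2
    rw [sub_self, zero_mul, add_zero, one_mul] at e
    rw [← e]
    rcases hnode x₀ hx₀ with h | ⟨h, h'⟩
    · rw [h, zero_mul, add_zero]
      exact mul_ne_zero (hz x₀ h) (hz x₀ h)
    · rw [h', zero_mul, zero_add]
      refine mul_ne_zero ?_ (hz' x₀ h')
      intro h2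
      rw [h2] at h
      norm_num at h
  have hWzero : ∀ x ∈ N, x ≠ x₀ → W (x : ℂ) = 0 := by
    intro x hx hxx
    have h2 := hW (x : ℂ)
    rw [hnode' x hx] at h2
    have h3 : ((x : ℂ) - x₀) ≠ 0 := by
      rw [sub_ne_zero]
      exact_mod_cast hxx
    exact (mul_eq_zero.1 h2.symm).resolve_left h3
  obtain ⟨g₁, ig₁, e₁, -⟩ := exists_density μ₁
  obtain ⟨g₂, ig₂, e₂, -⟩ := exists_density μ₂
  have r₁ : ∀ ξ : ℝ, |ξ| ≤ 1 →
      ∫ x, Complex.exp (-(Complex.I * ((x * ξ : ℝ) : ℂ))) * g₁ x ∂μ₁.variation =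
        (((1 - |ξ|) ^ α : ℝ) : ℂ) := by
    intro ξ hξ
    rw [← fourierStieltjes_withDensityV ig₁, ← e₁]
    exact h₁ ξ hξ
  have r₂ : ∀ ξ : ℝ, |ξ| ≤ 1 →
      ∫ x, Complex.exp (-(Complex.I * ((x * ξ : ℝ) : ℂ))) * g₂ x ∂μ₂.variation =
        (((1 - |ξ|) ^ α : ℝ) : ℂ) := by
    intro ξ hξ
    rw [← fourierStieltjes_withDensityV ig₂, ← e₂]
    exact h₂ ξ hξ
  have ht := transfer_two hWB ig₁ ig₂ (fun ξ hξ => by rw [r₁ ξ hξ, r₂ ξ hξ])
  have i₁ := E6.integral_eq ig₁ e₁ hNm (hzero μ₁ h₁ t₁) (g := fun x => W (x : ℂ)) hWzero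
  have i₂ := E6.integral_eq ig₂ e₂ hNm (hzero μ₂ h₂ t₂) (g := fun x => W (x : ℂ)) hWzero
  rw [i₁, i₂] at ht
  exact mul_left_cancel₀ hWne ht

end Pool.Agent.Helper30.FG
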