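import Pool.Agent.Helper30.FG.D4

/-!
# A maximiser has exact type `1/2`
-/

set_option autoImplicit false

namespace Pool.Agent.Helper30.FG

open Complex MeasureTheory Set Filter Topology
open Pool.Agent.Helper78.Bern Pool.Agent.Helper45.Bern

/-- functions of smaller type satisfy the growth condition -/
theorem HG_of_type {α : ℝ} (h0 : 0 < α) {σ C : ℝ} (hσ : σ < 1 / 2)
    {s : ℂ → ℂ} (hs : ∀ y : ℝ, 0 ≤ y → ‖s ((y : ℂ) * I)‖ ≤ C * Real.exp (σ * y)) :
    ∃ C' : ℝ, 0 < C' ∧ ∀ k : ℝ, 1 ≤ k → HG α C' s k := by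
  set δ : ℝ := 1 - 2 * σ with hδ
  have hδ0 : 0 < δ := by rw [hδ]; linarith
  have hC0 : 0 ≤ C := by
    have := hs 0 le_rfl
    simp only [mul_zero, Real.exp_zero, mul_one] at this
    exact (norm_nonneg _).trans this
  have hrho : ∀ t : ℝ, 0 < t → rho s t ≤ C ^ 2 * Real.exp (-(δ * t)) := by
    intro t ht
    have h1 : |Sv s t| ≤ C * Real.exp (σ * t) := by
      have h2 := hs t ht.le
      exact (Complex.abs_re_le_norm _).trans h2
    have h4 : Sv s t ^ 2 ≤ (C * Real.exp (σ * t)) ^ 2 := by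
      rw [← sq_abs (Sv s t)]
      exact pow_le_pow_left₀ (abs_nonneg _) h1 2
    unfold rho
    calc Real.exp (-t) * Sv s t ^ 2 ≤ Real.exp (-t) * (C * Real.exp (σ * t)) ^ 2 :=
          mul_le_mul_of_nonneg_left h4 (Real.exp_pos _).le
      _ = C ^ 2 * (Real.exp (-t) * (Real.exp (σ * t) * Real.exp (σ * t))) := by ring
      _ = C ^ 2 * Real.exp (-(δ * t)) := by
          rw [← Real.exp_add, ← Real.exp_add]
          congr 2
          rw [hδ]; ring
  refine ⟨C ^ 2 / δ + 1, by positivity, fun k hk => ?_⟩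
  unfold HG
  have hk0 : 0 < k := by linarith
  have hlog : 0 ≤ Real.log k := Real.log_nonneg hk
  have hint : IntegrableOn (fun t : ℝ => C ^ 2 / k ^ 2 * Real.exp (-(δ * t))) (Ioi (1 : ℝ)) := by
    refine Integrable.const_mul ?_ _
    have := integrableOn_exp_mul_Ioi (a := -δ) (by linarith) 1
    refine this.congr_fun (fun t _ => by ring_nf) measurableSet_Ioi
  have hle : ∫ t in Ioi (1 : ℝ), t ^ (-α) * rho s t / (t ^ 2 + k ^ 2) ≤
      ∫ t in Ioi (1 : ℝ), C ^ 2 / k ^ 2 * Real.exp (-(δ * t)) := by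
    refine integral_mono_of_nonneg ?_ hint ?_
    · refine (ae_restrict_mem measurableSet_Ioi).mono fun t ht => ?_
      have ht' : (1 : ℝ) < t := ht
      have : 0 ≤ rho s t := mul_nonneg (Real.exp_pos _).le (sq_nonneg _)
      have h5 : 0 ≤ t ^ (-α) := Real.rpow_nonneg (by linarith) _
      simp only [Pi.zero_apply]
      positivity
    · refine (ae_restrict_mem measurableSet_Ioi).mono fun t ht => ?_
      have ht' : (1 : ℝ) < t := ht
      have h6 : t ^ (-α) ≤ 1 := Real.rpow_le_one_of_one_le_of_nonpos ht'.le (by linarith)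
      have h7 : 0 ≤ rho s t := mul_nonneg (Real.exp_pos _).le (sq_nonneg _)
      have h8 := hrho t (by linarith)
      have h9 : t ^ (-α) * rho s t ≤ C ^ 2 * Real.exp (-(δ * t)) :=
        (mul_le_of_le_one_left h7 h6).trans h8
      show t ^ (-α) * rho s t / (t ^ 2 + k ^ 2) ≤ C ^ 2 / k ^ 2 * Real.exp (-(δ * t))
      calc t ^ (-α) * rho s t / (t ^ 2 + k ^ 2) ≤ C ^ 2 * Real.exp (-(δ * t)) / k ^ 2 := by
            refine div_le_div₀ (by positivity) h9 (by positivity) (by nlinarith)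
        _ = C ^ 2 / k ^ 2 * Real.exp (-(δ * t)) := by ring
  refine hle.trans ?_
  rw [integral_const_mul]
  have h10 : ∫ t in Ioi (1 : ℝ), Real.exp (-(δ * t)) ≤ 1 / δ := by
    have h11 : ∀ t : ℝ, Real.exp (-(δ * t)) = Real.exp ((-δ) * t) := fun t => by ring_nf
    simp_rw [h11]
    rw [integral_exp_mul_Ioi (by linarith)]
    rw [show -Real.exp (-δ * 1) / -δ = Real.exp (-δ) / δ by rw [neg_div_neg_eq]; ring_nf]
    gcongr
    exact Real.exp_le_one_iff.2 (by linarith)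
  calc C ^ 2 / k ^ 2 * ∫ t in Ioi (1 : ℝ), Real.exp (-(δ * t)) ≤ C ^ 2 / k ^ 2 * (1 / δ) :=
        mul_le_mul_of_nonneg_left h10 (by positivity)
    _ = (C ^ 2 / δ) * 1 / k ^ 2 := by ring
    _ ≤ (C ^ 2 / δ + 1) * (1 + Real.log k) / k ^ 2 := by
        gcongr
        · linarith
        · linarith

/-- a maximiser is not of type `< 1/2` -/
theorem exact_type {α : ℝ} (h0 : 0 < α) (h1 : α < 1) {s : ℂ → ℂ} (hs : IsE (1 / 2) 1 s)
    (hmax : ∀ s' : ℂ → ℂ, IsE (1 / 2) 1 s' → J α s' ≤ J α s) {σ : ℝ} (hσ : σ < 1 / 2) (C : ℝ) :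
    ¬ ∀ y : ℝ, 0 ≤ y → ‖s ((y : ℂ) * I)‖ ≤ C * Real.exp (σ * y) := by
  intro h
  obtain ⟨C', hC', hG⟩ := HG_of_type h0 hσ h
  obtain ⟨s', hs', hlt⟩ := competitor h0 h1 hs hC' (fun K =>
    ⟨max K 1, le_max_left _ _, hG _ (le_max_right _ _)⟩)
  exact absurd (hmax s' hs') (not_le.2 hlt)

end Pool.Agent.Helper30.FG
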