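import Pool.Agent.Helper30.FG.C0
import Pool.Agent.Helper30.FG.C5
import Pool.Agent.Helper30.FG.D1
import Pool.Agent.Helper30.FG.D2
import Pool.Agent.Helper30.FG.D3
import Pool.Agent.Helper30.FG.D4
import Pool.Agent.Helper30.FG.D5

set_option autoImplicit false

namespace Pool.Agent.Helper30.FG

open Complex MeasureTheory Set Filter Topology
open Pool.Agent.Helper78.Bern Pool.Agent.Helper45.Bern

private theorem Final.nonconst {α : ℝ} (h0 : 0 < α) (h1 : α < 1) {s : ℂ → ℂ}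
    (hs : IsE (1 / 2) 1 s) (hmax : ∀ s' : ℂ → ℂ, IsE (1 / 2) 1 s' → J α s' ≤ J α s) :
    ∃ z, deriv s z ≠ 0 := by
  by_contra hcon
  push Not at hcon
  have hc : s = fun _ => s 0 := by
    funext z
    exact is_const_of_deriv_eq_zero hs.b.diff hcon z 0
  obtain ⟨C, hC, hHG⟩ := HG_const h0 h1 (s 0)
  rw [← hc] at hHG
  obtain ⟨s', hs', hlt⟩ := competitor h0 h1 hs hC
    (fun K => ⟨max K 1, le_max_left _ _, hHG _ (le_max_right _ _)⟩)
  exact absurd (hmax s' hs') (not_le.2 hlt)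

private theorem Final.deriv_odd {s : ℂ → ℂ} (hev : ∀ z : ℂ, s (-z) = s z) (z : ℂ) :
    deriv s (-z) = -deriv s z := by
  have h : (fun z => s (-z)) = s := funext hev
  have h2 := deriv_comp_neg (f := s) z
  rw [h] at h2
  rw [h2, neg_neg]

private theorem Final.bdd_finite {s : ℂ → ℂ} (hs : Differentiable ℂ s)
    (hnc : ∃ z, deriv s z ≠ 0) {A : Set ℝ} (hA : ∀ k ∈ A, deriv s (k : ℂ) = 0) {K : ℝ}
    (hK : ∀ k ∈ A, |k| ≤ K) : A.Finite := by
  by_contra hinf
  have hinf' : A.Infinite := hinf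
  have hAK : A ⊆ Icc (-K) K := fun k hk => abs_le.1 (hK k hk)
  obtain ⟨x, -, hx⟩ := hinf'.exists_accPt_of_subset_isCompact isCompact_Icc hAK
  have hfr : ∃ᶠ y in 𝓝[≠] x, y ∈ A := accPt_iff_frequently_nhdsNE.1 hx
  have han : AnalyticOnNhd ℂ (deriv s) univ := by
    have h1 : DifferentiableOn ℂ s univ := hs.differentiableOn
    exact (h1.analyticOnNhd isOpen_univ).deriv
  have hmap : Tendsto (fun y : ℝ => (y : ℂ)) (𝓝[≠] x) (𝓝[≠] (x : ℂ)) := by
    apply tendsto_nhdsWithin_of_tendsto_nhds_of_eventually_within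
    · exact (Complex.continuous_ofReal.tendsto x).mono_left nhdsWithin_le_nhds
    · filter_upwards [self_mem_nhdsWithin] with y hy
      intro h
      exact hy (by simpa using h)
  have hfr2 : ∃ᶠ z in 𝓝[≠] (x : ℂ), deriv s z = 0 :=
    hmap.frequently (hfr.mono fun y hy => hA y hy)
  have hz := han.eqOn_zero_of_preconnected_of_frequently_eq_zero isPreconnected_univ
    (mem_univ (x : ℂ)) hfr2
  obtain ⟨z, hz'⟩ := hnc
  exact hz' (hz (mem_univ z))

/-- **The structure theorem.** -/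
theorem structure_all {α : ℝ} (h0 : 0 < α) (h1 : α < 1) :
    (∃ s : ℂ → ℂ, IsE (1 / 2) 1 s ∧ J α s = bernsteinNorm α) ∧
    (∀ s : ℂ → ℂ, IsE (1 / 2) 1 s → J α s ≤ bernsteinNorm α) ∧
    ∀ s : ℂ → ℂ, IsE (1 / 2) 1 s → J α s = bernsteinNorm α →
      s 0 ≠ 0 ∧ (∀ z : ℂ, s z = 0 → z.im = 0 ∧ deriv s z ≠ 0) ∧
      {k : ℝ | deriv s (k : ℂ) = 0 ∧ |(s (k : ℂ)).re| < 1}.Finite ∧
      ∀ k : ℝ, deriv s (k : ℂ) = 0 → |(s (k : ℂ)).re| < 1 →
        ∃ v : ℂ → ℂ, (∃ C : ℝ, IsE (1 / 2) C v) ∧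
          (∀ z : ℂ, v z * (z ^ 2 - (k : ℂ) ^ 2) = z * deriv s z) ∧
          Lf α (fun z => s z * v z) = 0 := by
  refine ⟨?_, fun s hs => J_le h0 h1 hs, ?_⟩
  · obtain ⟨s, hs, hmax⟩ := exists_max h0 h1
    exact ⟨s, hs, le_antisymm (J_le h0 h1 hs) (norm_le_of_J_le h0 h1 hmax)⟩
  · intro s hs hJ
    have hmax : ∀ s' : ℂ → ℂ, IsE (1 / 2) 1 s' → J α s' ≤ J α s := by
      intro s' hs'
      rw [hJ]
      exact J_le h0 h1 hs'
    have hnc := Final.nonconst h0 h1 hs hmax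
    have hne : ∃ z, s z ≠ 0 := by
      by_contra hcon
      push Not at hcon
      obtain ⟨z, hz⟩ := hnc
      apply hz
      have : s = fun _ => 0 := funext hcon
      rw [this]
      exact deriv_const z 0
    obtain ⟨z0, z1⟩ := zeros h0 h1 hs hmax hne
    have hfour : ∀ k : ℝ, deriv s (k : ℂ) = 0 → |(s (k : ℂ)).re| < 1 →
        ∃ v : ℂ → ℂ, (∃ C : ℝ, IsE (1 / 2) C v) ∧
          (∀ z : ℂ, v z * (z ^ 2 - (k : ℂ) ^ 2) = z * deriv s z) ∧
          Lf α (fun z => s z * v z) = 0 := by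
      intro k hk hk1
      obtain ⟨v, ⟨C, hv⟩, hvk⟩ := exists_v hs hk
      exact ⟨v, ⟨C, hv⟩, hvk, first_order h0 h1 hs hmax hk hk1 hv hvk⟩
    refine ⟨z0, z1, ?_, hfour⟩
    by_contra hinf
    have key : ∀ K : ℝ, ∃ k : ℝ, K ≤ k ∧ deriv s (k : ℂ) = 0 ∧ |(s (k : ℂ)).re| < 1 := by
      intro K
      by_contra hcon
      push Not at hcon
      apply hinf
      refine Final.bdd_finite hs.b.diff hnc (K := K) (fun k hk => hk.1) ?_
      intro k hk
      obtain ⟨hk1, hk2⟩ := hk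
      have e1 : k < K := by
        by_contra h
        exact absurd hk2 (not_lt.2 (hcon k (not_lt.1 h) hk1))
      have e2 : -k < K := by
        by_contra h
        have h3 : deriv s ((-k : ℝ) : ℂ) = 0 := by
          push_cast
          rw [Final.deriv_odd hs.even, hk1, neg_zero]
        have h4 : |(s ((-k : ℝ) : ℂ)).re| < 1 := by
          push_cast
          rw [hs.even]
          exact hk2
        exact absurd h4 (not_lt.2 (hcon (-k) (not_lt.1 h) h3))
      exact abs_le.2 ⟨by linarith, e1.le⟩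
    obtain ⟨C, hC, hgr⟩ := growth h0 h1 hs
    obtain ⟨s', hs', hlt⟩ := competitor h0 h1 hs hC (by
      intro K
      obtain ⟨k, hk, hk1, hk2⟩ := key (max K 2)
      obtain ⟨v, ⟨C', hv⟩, hvk, hL⟩ := hfour k hk1 hk2
      exact ⟨k, (le_max_left _ _).trans hk,
        hgr k ((le_max_right _ _).trans hk) v C' hv hvk hL⟩)
    exact absurd (hmax s' hs') (not_le.2 hlt)

end Pool.Agent.Helper30.FG
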