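import Mathlib

/-!
# The hyperelliptic formula `s = cos (θ₀ + ½ ∫ P/√Q)`

Put `β x = -2 u x √(Q x)`, `a = s`. Then `a² + β² = 1`, `a' = -θ' β` with `θ' = P/(2√Q)`, hence
`β β' = a θ' β`, so `β' = a θ'` off the zeros of `β` (isolated) and everywhere by continuity; so
`w = a + i β` satisfies `w' = i θ' w` and `w = w(0) exp (i ∫ θ')`.
-/

set_option autoImplicit false

namespace Pool.Agent.Helper30.FG

open Complex MeasureTheory Set Filter Topology Polynomial

namespace H1

theorem aeval_real (R : ℝ[X]) (x : ℝ) :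
    Polynomial.aeval (x : ℂ) R = ((R.eval x : ℝ) : ℂ) := by
  have h := Polynomial.aeval_algebraMap_apply (A := ℝ) ℂ x R
  rw [Polynomial.coe_aeval_eq_eval] at h
  exact h

theorem exists_angle {a b : ℝ} (h : a ^ 2 + b ^ 2 = 1) : ∃ θ : ℝ, Real.cos θ = a ∧ Real.sin θ = b := by
  have h1 : -1 ≤ a := by nlinarith [sq_nonneg b]
  have h2 : a ≤ 1 := by nlinarith [sq_nonneg b]
  have h3 : 1 - a ^ 2 = b ^ 2 := by linarith
  rcases le_total 0 b with hb | hb
  · refine ⟨Real.arccos a, Real.cos_arccos h1 h2, ?_⟩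
    rw [Real.sin_arccos, h3, Real.sqrt_sq hb]
  · refine ⟨-Real.arccos a, by rw [Real.cos_neg, Real.cos_arccos h1 h2], ?_⟩
    rw [Real.sin_neg, Real.sin_arccos, h3, Real.sqrt_sq_eq_abs, abs_of_nonpos hb, neg_neg]

end H1

theorem cos_rep {s u : ℂ → ℂ} (hs : Differentiable ℂ s) (hu : Differentiable ℂ u)
    (hreal : ∀ x : ℝ, (s (x : ℂ)).im = 0) (P Q : ℝ[X])
    (hPu : ∀ z : ℂ, deriv s z = Polynomial.aeval z P * u z)
    (hQ : ∀ x : ℝ, 0 < Q.eval x)
    (heq : ∀ z : ℂ, 4 * u z ^ 2 * Polynomial.aeval z Q = 1 - s z ^ 2)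
    (hnc : ∃ z, deriv s z ≠ 0) :
    ∃ θ₀ : ℝ, ∀ x : ℝ, (s (x : ℂ)).re =
      Real.cos (θ₀ + 1 / 2 * ∫ t in (0 : ℝ)..x, P.eval t / √(Q.eval t)) := by
  -- the real functions
  set a : ℝ → ℝ := fun x => (s (x : ℂ)).re with ha
  set v : ℝ → ℝ := fun x => (u (x : ℂ)).re with hv
  have hsa : ∀ x : ℝ, s (x : ℂ) = ((a x : ℝ) : ℂ) := fun x =>
    Complex.ext (by simp [ha]) (by simpa using hreal x)
  have hda : ∀ x : ℝ, HasDerivAt a (deriv s (x : ℂ)).re x := fun x =>
    (hs (x : ℂ)).hasDerivAt.real_of_complex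
  have hdr : ∀ x : ℝ, deriv s (x : ℂ) = (((deriv s (x : ℂ)).re : ℝ) : ℂ) := by
    intro x
    have h1 : HasDerivAt (fun y : ℝ => s (y : ℂ)) (deriv s (x : ℂ)) x :=
      (hs (x : ℂ)).hasDerivAt.comp_ofReal
    have h2 : HasDerivAt (fun y : ℝ => ((a y : ℝ) : ℂ)) (((deriv s (x : ℂ)).re : ℝ) : ℂ) x :=
      (hda x).ofReal_comp
    have h3 : (fun y : ℝ => s (y : ℂ)) = fun y : ℝ => ((a y : ℝ) : ℂ) := funext hsa
    rw [h3] at h1
    exact h1.unique h2
  -- P is not zero
  obtain ⟨z₀, hz₀⟩ := hnc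
  have hP0 : P ≠ 0 := by
    intro h
    apply hz₀
    rw [hPu, h]
    simp
  have hu0 : u z₀ ≠ 0 := by
    intro h
    apply hz₀
    rw [hPu, h, mul_zero]
  -- u is real on the real axis
  have huim : ∀ x : ℝ, (u (x : ℂ)).im = 0 := by
    have hfin : ({x : ℝ | P.eval x = 0} : Set ℝ).Finite := by
      refine (P.roots.toFinset.finite_toSet).subset (fun x hx => ?_)
      simp only [Finset.mem_coe, Multiset.mem_toFinset, Polynomial.mem_roots hP0]
      exact hx
    have hd : Dense ({x : ℝ | P.eval x = 0}ᶜ) := hfin.countable.dense_compl ℝ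
    have hc : Continuous (fun x : ℝ => (u (x : ℂ)).im) :=
      Complex.continuous_im.comp (hu.continuous.comp Complex.continuous_ofReal)
    have h := hc.ext_on hd continuous_const (g := fun _ => (0 : ℝ)) (fun x hx => by
      have h1 := hdr x
      rw [hPu, H1.aeval_real] at h1
      have h2 := congrArg Complex.im h1
      rw [Complex.ofReal_im, Complex.mul_im, Complex.ofReal_re, Complex.ofReal_im, zero_mul,
        add_zero] at h2
      exact (mul_eq_zero.1 h2).resolve_left hx)
    exact fun x => congrFun h x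
  have hua : ∀ x : ℝ, u (x : ℂ) = ((v x : ℝ) : ℂ) := fun x =>
    Complex.ext (by simp [hv]) (by simpa using huim x)
  have hdv : ∀ x : ℝ, HasDerivAt v (deriv u (x : ℂ)).re x := fun x =>
    (hu (x : ℂ)).hasDerivAt.real_of_complex
  have hda' : ∀ x : ℝ, HasDerivAt a (P.eval x * v x) x := by
    intro x
    have h := hda x
    rw [hPu, H1.aeval_real, hua, ← Complex.ofReal_mul, Complex.ofReal_re] at h
    exact h
  -- the differentiated identity
  have hF : ∀ z : ℂ, 4 * deriv u z * Polynomial.aeval z Q +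
      2 * u z * Polynomial.aeval z (derivative Q) + s z * Polynomial.aeval z P = 0 := by
    have hprod : ∀ z : ℂ, u z * (4 * deriv u z * Polynomial.aeval z Q +
      2 * u z * Polynomial.aeval z (derivative Q) + s z * Polynomial.aeval z P) = 0 := by
      intro z
      have h1 : HasDerivAt (fun z => 4 * u z ^ 2 * Polynomial.aeval z Q)
          (4 * (2 * u z * deriv u z) * Polynomial.aeval z Q +
            4 * u z ^ 2 * Polynomial.aeval z (derivative Q)) z := by
        have h2 := ((hu z).hasDerivAt.pow 2).const_mul 4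
        have h3 := Polynomial.hasDerivAt_aeval (q := Q) z
        refine (h2.mul h3).congr_deriv ?_
        simp
      have h4 : HasDerivAt (fun z => 1 - s z ^ 2) (-(2 * s z * deriv s z)) z := by
        have h2 := ((hs z).hasDerivAt.pow 2).const_sub 1
        refine h2.congr_deriv ?_
        simp
      have h5 : (fun z => 4 * u z ^ 2 * Polynomial.aeval z Q) = fun z => 1 - s z ^ 2 := funext heq
      rw [h5] at h1
      have h6 := h1.unique h4
      rw [hPu] at h6
      linear_combination (1 / 2 : ℂ) * h6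
    have hA : AnalyticOnNhd ℂ (fun z : ℂ => 4 * deriv u z * Polynomial.aeval z Q +
      2 * u z * Polynomial.aeval z (derivative Q) + s z * Polynomial.aeval z P) univ := by
      have hpoly : ∀ R : ℝ[X], AnalyticOnNhd ℂ (fun z : ℂ => Polynomial.aeval z R) univ := by
        intro R
        have : Differentiable ℂ (fun z : ℂ => Polynomial.aeval z R) :=
          R.differentiable_aeval
        exact fun z _ => this.analyticAt z
      have h1 : AnalyticOnNhd ℂ u univ := fun z _ => hu.analyticAt z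
      have h2 : AnalyticOnNhd ℂ s univ := fun z _ => hs.analyticAt z
      have h3 : AnalyticOnNhd ℂ (deriv u) univ := h1.deriv
      exact (((analyticOnNhd_const.mul h3).mul (hpoly Q)).add
        ((analyticOnNhd_const.mul h1).mul (hpoly _))).add (h2.mul (hpoly P))
    have hev : (fun z : ℂ => 4 * deriv u z * Polynomial.aeval z Q +
      2 * u z * Polynomial.aeval z (derivative Q) + s z * Polynomial.aeval z P) =ᶠ[𝓝 z₀] 0 := by
      filter_upwards [hu.continuous.continuousAt.eventually_ne hu0] with z hz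
      exact (mul_eq_zero.1 (hprod z)).resolve_left hz
    have h := hA.eqOn_zero_of_preconnected_of_eventuallyEq_zero isPreconnected_univ (mem_univ z₀) hev
    exact fun z => h (mem_univ z)
  -- real form
  have hFr : ∀ x : ℝ, 4 * (deriv u (x : ℂ)).re * Q.eval x + 2 * v x * (derivative Q).eval x +
      a x * P.eval x = 0 := by
    intro x
    have h := congrArg Complex.re (hF (x : ℂ))
    rw [H1.aeval_real, H1.aeval_real, H1.aeval_real, hua, hsa] at h
    have e : (4 * deriv u (x : ℂ) * ((Q.eval x : ℝ) : ℂ) +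
        2 * ((v x : ℝ) : ℂ) * (((derivative Q).eval x : ℝ) : ℂ) +
        ((a x : ℝ) : ℂ) * ((P.eval x : ℝ) : ℂ)).re =
        4 * (deriv u (x : ℂ)).re * Q.eval x + 2 * v x * (derivative Q).eval x +
          a x * P.eval x := by
      simp
    rw [e] at h
    simpa using h
  have heqr : ∀ x : ℝ, 4 * v x ^ 2 * Q.eval x = 1 - a x ^ 2 := by
    intro x
    have h := heq (x : ℂ)
    rw [H1.aeval_real, hua, hsa] at h
    exact_mod_cast h
  -- the function β
  have hsq : ∀ x : ℝ, 0 < √(Q.eval x) := fun x => Real.sqrt_pos.2 (hQ x)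
  have hsq2 : ∀ x : ℝ, √(Q.eval x) ^ 2 = Q.eval x := fun x => Real.sq_sqrt (hQ x).le
  set β : ℝ → ℝ := fun x => -2 * v x * √(Q.eval x) with hβ
  have hab : ∀ x, a x ^ 2 + β x ^ 2 = 1 := by
    intro x
    have h := heqr x
    simp only [hβ]
    rw [mul_pow, mul_pow, hsq2]
    linarith
  have hdβ : ∀ x : ℝ, HasDerivAt β (a x * (P.eval x / √(Q.eval x) / 2)) x := by
    intro x
    have h1 : HasDerivAt (fun y : ℝ => √(Q.eval y)) ((derivative Q).eval x / (2 * √(Q.eval x))) x :=
      (Polynomial.hasDerivAt Q x).sqrt (hQ x).ne'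
    have h2 := (((hdv x).const_mul (-2)).mul h1)
    refine h2.congr_deriv ?_
    have h3 := hFr x
    have h4 := (hsq x).ne'
    field_simp
    rw [hsq2]
    linear_combination -h3
  set Θ : ℝ → ℝ := fun x => 1 / 2 * ∫ t in (0 : ℝ)..x, P.eval t / √(Q.eval t) with hΘ
  have hcont : Continuous (fun t : ℝ => P.eval t / √(Q.eval t)) :=
    P.continuous.div (Real.continuous_sqrt.comp Q.continuous) (fun t => (hsq t).ne')
  have hdΘ : ∀ x : ℝ, HasDerivAt Θ (P.eval x / √(Q.eval x) / 2) x := by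
    intro x
    have h := (hcont.integral_hasStrictDerivAt 0 x).hasDerivAt.const_mul (1 / 2 : ℝ)
    refine h.congr_deriv ?_
    ring
  have hda2 : ∀ x : ℝ, HasDerivAt a (-(P.eval x / √(Q.eval x) / 2) * β x) x := by
    intro x
    refine (hda' x).congr_deriv ?_
    simp only [hβ]
    have h4 := (hsq x).ne'
    field_simp
  -- constants of motion
  have hcx : ∀ x : ℝ, HasDerivAt (fun y => a y * Real.cos (Θ y) + β y * Real.sin (Θ y)) 0 x := by
    intro x
    have h := ((hda2 x).mul (hdΘ x).cos).add ((hdβ x).mul (hdΘ x).sin)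
    refine h.congr_deriv ?_
    ring
  have hex : ∀ x : ℝ, HasDerivAt (fun y => β y * Real.cos (Θ y) - a y * Real.sin (Θ y)) 0 x := by
    intro x
    have h := ((hdβ x).mul (hdΘ x).cos).sub ((hda2 x).mul (hdΘ x).sin)
    refine h.congr_deriv ?_
    ring
  have hΘ0 : Θ 0 = 0 := by simp [hΘ]
  have hc0 : ∀ x : ℝ, a x * Real.cos (Θ x) + β x * Real.sin (Θ x) = a 0 := by
    intro x
    have h := is_const_of_deriv_eq_zero (fun y => (hcx y).differentiableAt)
      (fun y => (hcx y).deriv) x 0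
    rw [hΘ0] at h
    simpa using h
  have he0 : ∀ x : ℝ, β x * Real.cos (Θ x) - a x * Real.sin (Θ x) = β 0 := by
    intro x
    have h := is_const_of_deriv_eq_zero (fun y => (hex y).differentiableAt)
      (fun y => (hex y).deriv) x 0
    rw [hΘ0] at h
    simpa using h
  obtain ⟨θ₀, h1, h2⟩ := H1.exists_angle (hab 0)
  refine ⟨θ₀, fun x => ?_⟩
  show a x = Real.cos (θ₀ + Θ x)
  rw [Real.cos_add, h1, h2, ← hc0 x, ← he0 x]
  have h3 := Real.sin_sq_add_cos_sq (Θ x)
  linear_combination (-(a x)) * h3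

end Pool.Agent.Helper30.FG
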