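import Mathlib

/-!
# Division of `s'` by `P` and positivity of `Q` on the real axis

`K` = the finite set of real critical points with `|s| < 1`, `P = ∏ (X - k)`. As the zeros of `s'`
are simple, `u = s'/P` is entire and `u k ≠ 0` for `k ∈ K`. If `Q x = 0`, `x` real, then
`s x = ±1`, so `s' x = 0`, `u x = 0`, and `4 u² Q = 1 - s²` has a zero of order `≥ 3` at `x`, but
`(1 - s²)'' = -2 s s'' ≠ 0` there. `Q` is monic, hence positive on `ℝ`.
-/

set_option autoImplicit false

namespace Pool.Agent.Helper30.FG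

open Complex MeasureTheory Set Filter Topology Polynomial

namespace H2

theorem factor {f : ℂ → ℂ} (hf : Differentiable ℂ f) (K : Finset ℝ)
    (hK : ∀ k ∈ K, f (k : ℂ) = 0) :
    ∃ u : ℂ → ℂ, Differentiable ℂ u ∧ ∀ z : ℂ, f z = (∏ k ∈ K, (z - (k : ℂ))) * u z := by
  classical
  induction K using Finset.induction_on with
  | empty => exact ⟨f, hf, fun z => by simp⟩
  | insert k K hk ih =>
    obtain ⟨u, hu, hfu⟩ := ih (fun k' hk' => hK k' (Finset.mem_insert_of_mem hk'))
    have hu0 : u (k : ℂ) = 0 := by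
      have h1 := hfu (k : ℂ)
      rw [hK k (Finset.mem_insert_self _ _)] at h1
      rcases mul_eq_zero.1 h1.symm with h2 | h2
      · rw [Finset.prod_eq_zero_iff] at h2
        obtain ⟨k', hk', h3⟩ := h2
        have h4 : k = k' := by exact_mod_cast sub_eq_zero.1 h3
        rw [← h4] at hk'
        exact absurd hk' hk
      · exact h2
    refine ⟨dslope u (k : ℂ), ?_, ?_⟩
    · rw [← differentiableOn_univ] at hu ⊢
      exact (Complex.differentiableOn_dslope univ_mem).2 hu
    · intro z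
      have h1 := sub_smul_dslope u (k : ℂ) z
      rw [hu0, sub_zero, smul_eq_mul] at h1
      rw [Finset.prod_insert hk, hfu z, ← h1]
      ring

theorem aeval_prod (K : Finset ℝ) (z : ℂ) :
    Polynomial.aeval z (∏ k ∈ K, (X - C k) : ℝ[X]) = ∏ k ∈ K, (z - (k : ℂ)) := by
  rw [map_prod]
  refine Finset.prod_congr rfl fun k _ => ?_
  rw [map_sub, aeval_X, aeval_C]
  rfl

theorem differentiable_deriv {s : ℂ → ℂ} (hs : Differentiable ℂ s) :
    Differentiable ℂ (deriv s) := fun z => (hs.analyticAt z).deriv.differentiableAt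

end H2

theorem exists_u {s : ℂ → ℂ} (hs : Differentiable ℂ s) (K : Finset ℝ)
    (hK : ∀ k ∈ K, deriv s (k : ℂ) = 0) :
    ∃ u : ℂ → ℂ, Differentiable ℂ u ∧
      ∀ z : ℂ, deriv s z = Polynomial.aeval z (∏ k ∈ K, (X - C k) : ℝ[X]) * u z := by
  obtain ⟨u, hu, h⟩ := H2.factor (H2.differentiable_deriv hs) K hK
  exact ⟨u, hu, fun z => by rw [H2.aeval_prod, h z]⟩

theorem Q_pos {s u : ℂ → ℂ} (hs : Differentiable ℂ s) (hu : Differentiable ℂ u)
    (hreal : ∀ x : ℝ, (s (x : ℂ)).im = 0) (hle : ∀ x : ℝ, ‖s (x : ℂ)‖ ≤ 1)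
    (K : Finset ℝ) (hK : ∀ k ∈ K, ‖s (k : ℂ)‖ < 1)
    (hsimple : ∀ x : ℝ, deriv s (x : ℂ) = 0 → deriv (deriv s) (x : ℂ) ≠ 0) (Q : ℝ[X])
    (hQm : Q.Monic)
    (hu' : ∀ z : ℂ, deriv s z = Polynomial.aeval z (∏ k ∈ K, (X - C k) : ℝ[X]) * u z)
    (heq : ∀ z : ℂ, 4 * deriv s z ^ 2 * Polynomial.aeval z Q =
      (1 - s z ^ 2) * Polynomial.aeval z (∏ k ∈ K, (X - C k) : ℝ[X]) ^ 2) :
    (∀ x : ℝ, 0 < Q.eval x) ∧ ∀ z : ℂ, 4 * u z ^ 2 * Polynomial.aeval z Q = 1 - s z ^ 2 := by
  classical
  have hQc : Continuous fun z : ℂ => Polynomial.aeval z Q :=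
    (Polynomial.differentiable_aeval Q).continuous
  -- the second claim
  have h2 : ∀ z : ℂ, 4 * u z ^ 2 * Polynomial.aeval z Q = 1 - s z ^ 2 := by
    have hdense : Dense ((↑(K.image fun k : ℝ => (k : ℂ)) : Set ℂ)ᶜ) :=
      (Finset.countable_toSet (K.image fun k : ℝ => (k : ℂ))).dense_compl ℝ
    have hc1 : Continuous fun z : ℂ => 4 * u z ^ 2 * Polynomial.aeval z Q :=
      (continuous_const.mul (hu.continuous.pow 2)).mul hQc
    have hc2 : Continuous fun z : ℂ => 1 - s z ^ 2 :=
      continuous_const.sub (hs.continuous.pow 2)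
    have hon : EqOn (fun z : ℂ => 4 * u z ^ 2 * Polynomial.aeval z Q)
        (fun z : ℂ => 1 - s z ^ 2) ((↑(K.image fun k : ℝ => (k : ℂ)) : Set ℂ)ᶜ) := by
      intro z hz
      have hP : (∏ k ∈ K, (z - (k : ℂ))) ≠ 0 := by
        rw [Finset.prod_ne_zero_iff]
        intro k hk h0
        apply hz
        rw [Finset.mem_coe, Finset.mem_image]
        exact ⟨k, hk, (sub_eq_zero.1 h0).symm⟩
      have h3 := heq z
      rw [hu' z, H2.aeval_prod] at h3
      have h4 : (∏ k ∈ K, (z - (k : ℂ))) ^ 2 ≠ 0 := pow_ne_zero 2 hP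
      apply mul_right_cancel₀ h4
      change 4 * u z ^ 2 * Polynomial.aeval z Q * (∏ k ∈ K, (z - (k : ℂ))) ^ 2 = _
      rw [← h3]
      ring
    intro z
    exact congrFun (hc1.ext_on hdense hc2 hon) z
  refine ⟨?_, h2⟩
  -- no real zeros
  have hne : ∀ x : ℝ, Q.eval x ≠ 0 := by
    intro x hx
    have hQx : Polynomial.aeval (x : ℂ) Q = 0 := by
      have h3 : Polynomial.aeval (x : ℂ) Q = ((Q.eval x : ℝ) : ℂ) := by
        rw [← Complex.coe_algebraMap, Polynomial.aeval_algebraMap_apply, Polynomial.coe_aeval_eq_eval]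
      rw [h3, hx, Complex.ofReal_zero]
    have hs1 : s (x : ℂ) ^ 2 = 1 := by
      have h3 := h2 (x : ℂ)
      rw [hQx, mul_zero] at h3
      exact (sub_eq_zero.1 h3.symm).symm
    have hsre : ∀ y : ℝ, s (y : ℂ) = ((s (y : ℂ)).re : ℂ) := fun y =>
      Complex.ext (by simp) (by simp [hreal y])
    -- `s'` vanishes at `x`
    have hd : HasDerivAt s (deriv s (x : ℂ)) (x : ℂ) := (hs _).hasDerivAt
    have hre : HasDerivAt (fun y : ℝ => (s (y : ℂ)).re) (deriv s (x : ℂ)).re x := hd.real_of_complex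
    have him : (deriv s (x : ℂ)).im = 0 := by
      have h3 : HasDerivAt (fun y : ℝ => (s (y : ℂ)).im) (deriv s (x : ℂ)).im x := by
        have h4 : HasDerivAt (fun y : ℝ => s (y : ℂ)) (deriv s (x : ℂ)) x := hd.comp_ofReal
        exact (Complex.imCLM.hasFDerivAt.comp_hasDerivAt x h4)
      have h4 : HasDerivAt (fun y : ℝ => (s (y : ℂ)).im) 0 x := by
        have : (fun y : ℝ => (s (y : ℂ)).im) = fun _ => 0 := funext hreal
        rw [this]
        exact hasDerivAt_const x 0
      exact h3.unique h4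
    have hsx : (s (x : ℂ)).re ^ 2 = 1 := by
      have h3 := hs1
      rw [hsre x] at h3
      exact_mod_cast h3
    have hbd : ∀ y : ℝ, (s (y : ℂ)).re ^ 2 ≤ 1 := by
      intro y
      have h3 := hle y
      rw [hsre y, Complex.norm_real, Real.norm_eq_abs] at h3
      rw [← sq_abs]
      have h4 := abs_nonneg (s (y : ℂ)).re
      nlinarith
    have hmax : IsLocalMax (fun y : ℝ => (s (y : ℂ)).re ^ 2) x :=
      Eventually.of_forall fun y => by
        change (s (y : ℂ)).re ^ 2 ≤ (s (x : ℂ)).re ^ 2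
        rw [hsx]
        exact hbd y
    have hd2 : HasDerivAt (fun y : ℝ => (s (y : ℂ)).re ^ 2)
        (2 * (s (x : ℂ)).re * (deriv s (x : ℂ)).re) x := by
      have h3 : HasDerivAt (fun y : ℝ => (s (y : ℂ)).re ^ 2) _ x := hre.pow 2
      exact h3.congr_deriv (by simp)
    have h5 := hmax.hasDerivAt_eq_zero hd2
    have hsre0 : (s (x : ℂ)).re ≠ 0 := by
      intro h6
      rw [h6] at hsx
      norm_num at hsx
    have h6 : (deriv s (x : ℂ)).re = 0 := by
      rcases mul_eq_zero.1 h5 with h7 | h7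
      · rcases mul_eq_zero.1 h7 with h8 | h8
        · norm_num at h8
        · exact absurd h8 hsre0
      · exact h7
    have hds : deriv s (x : ℂ) = 0 := Complex.ext h6 him
    have hss := hsimple x hds
    -- `u x = 0`
    have hux : u (x : ℂ) = 0 := by
      have h7 := hu' (x : ℂ)
      rw [hds, H2.aeval_prod] at h7
      rcases mul_eq_zero.1 h7.symm with h8 | h8
      · rw [Finset.prod_eq_zero_iff] at h8
        obtain ⟨k, hk, h9⟩ := h8
        have h10 : x = k := by exact_mod_cast sub_eq_zero.1 h9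
        have h11 := hK k hk
        rw [← h10, hsre x, Complex.norm_real, Real.norm_eq_abs] at h11
        have h12 := abs_nonneg (s (x : ℂ)).re
        have h13 : |(s (x : ℂ)).re| ^ 2 = 1 := by rw [sq_abs, hsx]
        nlinarith
      · exact h8
    -- the first derivative of the identity
    have hD1 : ∀ z : ℂ, 8 * u z * deriv u z * Polynomial.aeval z Q +
        4 * u z ^ 2 * Polynomial.aeval z (derivative Q) = -(2 * s z * deriv s z) := by
      intro z
      have a1 : HasDerivAt (fun w : ℂ => 4 * u w ^ 2 * Polynomial.aeval w Q) _ z :=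
        (((hu z).hasDerivAt.pow 2).const_mul (4 : ℂ)).mul (Q.hasDerivAt_aeval z)
      have a2 : HasDerivAt (fun w : ℂ => 1 - s w ^ 2) _ z :=
        ((hs z).hasDerivAt.pow 2).const_sub 1
      have a3 : (fun w : ℂ => 4 * u w ^ 2 * Polynomial.aeval w Q) = fun w => 1 - s w ^ 2 :=
        funext h2
      rw [a3] at a1
      have a4 := a1.unique a2
      simp only [Nat.cast_ofNat, Nat.add_one_sub_one, pow_one, Pi.pow_apply] at a4
      linear_combination a4
    -- the second derivative at `x`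
    have b1 : HasDerivAt (fun z : ℂ => 8 * u z * deriv u z * Polynomial.aeval z Q +
        4 * u z ^ 2 * Polynomial.aeval z (derivative Q)) _ (x : ℂ) :=
      ((((hu _).hasDerivAt.const_mul (8 : ℂ)).mul
        ((H2.differentiable_deriv hu) _).hasDerivAt).mul (Q.hasDerivAt_aeval _)).add
        ((((hu (x : ℂ)).hasDerivAt.pow 2).const_mul (4 : ℂ)).mul
          ((derivative Q).hasDerivAt_aeval _))
    have b2 : HasDerivAt (fun z : ℂ => -(2 * s z * deriv s z)) _ (x : ℂ) :=
      (((hs _).hasDerivAt.const_mul (2 : ℂ)).mul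
        ((H2.differentiable_deriv hs) _).hasDerivAt).neg
    have b3 : (fun z : ℂ => 8 * u z * deriv u z * Polynomial.aeval z Q +
        4 * u z ^ 2 * Polynomial.aeval z (derivative Q)) = fun z => -(2 * s z * deriv s z) :=
      funext hD1
    rw [b3] at b1
    have b4 := b1.unique b2
    simp only [Nat.cast_ofNat, Nat.add_one_sub_one, pow_one, Pi.mul_apply, Pi.pow_apply] at b4
    rw [hux, hQx, hds] at b4
    have b5 : s (x : ℂ) * deriv (deriv s) (x : ℂ) = 0 := by
      linear_combination (1 / 2 : ℂ) * b4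
    rcases mul_eq_zero.1 b5 with b6 | b6
    · rw [b6] at hs1
      norm_num at hs1
    · exact hss b6
  -- sign
  intro x
  by_contra hx
  have hx' : Q.eval x ≤ 0 := not_lt.1 hx
  have hpos : ∃ y : ℝ, 0 ≤ Q.eval y := by
    rcases Nat.eq_zero_or_pos Q.natDegree with h | h
    · refine ⟨0, ?_⟩
      rw [(Polynomial.Monic.natDegree_eq_zero hQm).1 h]
      simp
    · have hdeg : 0 < Q.degree := Polynomial.natDegree_pos_iff_degree_pos.1 h
      have ht := Polynomial.tendsto_atTop_of_leadingCoeff_nonneg Q hdeg (by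
        rw [hQm.leadingCoeff]; exact zero_le_one)
      exact (ht.eventually_ge_atTop 0).exists
  obtain ⟨y, hy⟩ := mem_range_of_exists_le_of_exists_ge Q.continuous ⟨x, hx'⟩ hpos
  exact hne y hy

end Pool.Agent.Helper30.FG
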