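import Pool.Agent.Helper30.FG.Final
import Pool.Agent.Helper30.FG.ExactType
import Pool.Agent.Helper30.FG.H1
import Pool.Agent.Helper30.FG.H2
import Pool.Agent.Helper22.PA.PellAbel

/-!
# The extremal function `f = 1 - 2 s²`: gaps, Pell-Abel equation, hyperelliptic formula
-/

set_option autoImplicit false

namespace Pool.Agent.Helper30.FG

open Complex MeasureTheory Set Filter Topology Polynomial
open Pool.Agent.Helper78.Bern Pool.Agent.Helper45.Bern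

/-- All that is known about a maximiser `s`. -/
theorem max_facts {α : ℝ} (h0 : 0 < α) (h1 : α < 1) {s : ℂ → ℂ} (hs : IsE (1 / 2) 1 s)
    (hJ : J α s = bernsteinNorm α) :
    (∀ s' : ℂ → ℂ, IsE (1 / 2) 1 s' → J α s' ≤ J α s) ∧ s 0 ≠ 0 ∧
    (∀ z : ℂ, s z = 0 → z.im = 0 ∧ deriv s z ≠ 0) ∧
    (∀ z : ℂ, deriv s z = 0 → z.im = 0 ∧ deriv (deriv s) z ≠ 0) ∧
    ∃ (K : Finset ℝ) (Q : ℝ[X]) (θ₀ : ℝ),
      (∀ k : ℝ, k ∈ K ↔ deriv s (k : ℂ) = 0 ∧ ‖s (k : ℂ)‖ < 1) ∧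
      Q.Monic ∧ Q.natDegree = 2 * K.card ∧ (∀ x : ℝ, 0 < Q.eval x) ∧
      (∀ z : ℂ, 4 * deriv s z ^ 2 * Polynomial.aeval z Q =
        (1 - s z ^ 2) * Polynomial.aeval z (∏ k ∈ K, (X - C k) : ℝ[X]) ^ 2) ∧
      ∀ x : ℝ, (s (x : ℂ)).re = Real.cos (θ₀ + 1 / 2 * ∫ t in (0 : ℝ)..x,
        (∏ k ∈ K, (X - C k) : ℝ[X]).eval t / √(Q.eval t)) := by
  have hmax : ∀ s' : ℂ → ℂ, IsE (1 / 2) 1 s' → J α s' ≤ J α s := fun s' hs' => by
    rw [hJ]; exact J_le h0 h1 hs'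
  obtain ⟨hz0, hz, hfin, -⟩ := (structure_all h0 h1).2.2 s hs hJ
  have hnorm : ∀ x : ℝ, ‖s (x : ℂ)‖ = |(s (x : ℂ)).re| := by
    intro x
    have e : s (x : ℂ) = (((s (x : ℂ)).re : ℝ) : ℂ) :=
      Complex.ext (by simp) (by simpa using hs.real x)
    conv_lhs => rw [e]
    rw [Complex.norm_real, Real.norm_eq_abs]
  have hset : {k : ℝ | deriv s (k : ℂ) = 0 ∧ ‖s (k : ℂ)‖ < 1} =
      {k : ℝ | deriv s (k : ℂ) = 0 ∧ |(s (k : ℂ)).re| < 1} := by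
    ext k
    simp only [mem_setOf_eq, hnorm]
  have hfin' : {k : ℝ | deriv s (k : ℂ) = 0 ∧ ‖s (k : ℂ)‖ < 1}.Finite := by rw [hset]; exact hfin
  obtain ⟨hcrit, P, Q, hP, hQm, hQd, heq⟩ := Helper22.PA.pell_abel hs hz0 hz hfin'
    (fun σ hσ C => exact_type h0 h1 hs hmax hσ C)
  set K : Finset ℝ := hfin'.toFinset with hK
  have hKm : ∀ k : ℝ, k ∈ K ↔ deriv s (k : ℂ) = 0 ∧ ‖s (k : ℂ)‖ < 1 := by
    intro k
    rw [hK, Set.Finite.mem_toFinset]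
    rfl
  subst hP
  obtain ⟨u, hu, hPu⟩ := exists_u hs.b.diff K (fun k hk => ((hKm k).1 hk).1)
  obtain ⟨hQpos, hequ⟩ := Q_pos hs.b.diff hu hs.real (fun x => by simpa using hs.b.real_le x) K
    (fun k hk => ((hKm k).1 hk).2) (fun x hx => (hcrit (x : ℂ) hx).2) Q hQm hPu heq
  -- not constant
  have hnc : ∃ z, deriv s z ≠ 0 := by
    by_contra hcon
    push Not at hcon
    have h2 := (hcrit 0 (hcon 0)).2
    apply h2
    have h3 : deriv s = fun _ => 0 := funext hcon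
    rw [h3]
    simp
  obtain ⟨θ₀, hθ⟩ := cos_rep hs.b.diff hu hs.real _ Q hPu hQpos hequ hnc
  refine ⟨hmax, hz0, hz, hcrit, K, Q, θ₀, hKm, hQm, ?_, hQpos, heq, hθ⟩
  rw [hQd]
  congr 1
  rw [Polynomial.natDegree_prod_of_monic _ _ (fun k _ => monic_X_sub_C k)]
  simp

end Pool.Agent.Helper30.FG
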