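import Pool.Agent.Helper30.FG.G1

/-!
# The extremal function `f = 1 - 2 s²`
-/

set_option autoImplicit false

namespace Pool.Agent.Helper30.FG

open Complex MeasureTheory Set Filter Topology Polynomial
open Pool.Agent.Helper78.Bern Pool.Agent.Helper45.Bern

theorem deriv_one_sub {s : ℂ → ℂ} (hs : Differentiable ℂ s) :
    deriv (fun z => 1 - 2 * s z ^ 2) = fun z => -4 * (s z * deriv s z) := by
  funext z
  have h := ((((hs z).hasDerivAt.pow 2).const_mul (2 : ℂ)).const_sub 1).deriv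
  have e : (fun z => 1 - 2 * s z ^ 2) = fun z => 1 - 2 * (s ^ 2) z := by
    funext w; simp
  rw [e]
  refine (HasDerivAt.deriv (f' := -(2 * (2 * s z * deriv s z))) ?_).trans (by ring)
  have h2 := (((hs z).hasDerivAt.pow 2).const_mul (2 : ℂ)).const_sub 1
  convert h2 using 1
  simp

theorem f_facts {α : ℝ} (h0 : 0 < α) (h1 : α < 1) {s : ℂ → ℂ} (hs : IsE (1 / 2) 1 s)
    (hJ : J α s = bernsteinNorm α) {f : ℂ → ℂ} (hf : f = fun z => 1 - 2 * s z ^ 2) :
    (∀ z : ℂ, deriv f z = 0 → z.im = 0 ∧ deriv (deriv f) z ≠ 0) ∧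
    ∃ (K : Finset ℝ) (Q : ℝ[X]) (θ₀ : ℝ),
      (∀ k : ℝ, k ∈ K ↔ deriv f (k : ℂ) = 0 ∧ ‖f (k : ℂ)‖ < 1) ∧
      (∀ k : ℝ, k ∈ K ↔ deriv s (k : ℂ) = 0 ∧ ‖s (k : ℂ)‖ < 1) ∧
      Q.Monic ∧ Q.natDegree = 2 * K.card ∧ (∀ x : ℝ, 0 < Q.eval x) ∧
      (∀ z : ℂ, Polynomial.aeval z Q * deriv f z ^ 2 =
        (∏ k ∈ K, (z - (k : ℂ))) ^ 2 * (1 - f z ^ 2)) ∧
      ∀ x : ℝ, f (x : ℂ) = ((Real.cos (θ₀ + ∫ t in (0 : ℝ)..x,
        (∏ k ∈ K, (t - k)) / √(Q.eval t)) : ℝ) : ℂ) := by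
  obtain ⟨hmax, hz0, hz, hcrit, K, Q, θ₀, hK, hQm, hQd, hQpos, heq, hcos⟩ := max_facts h0 h1 hs hJ
  have hd : deriv f = fun z => -4 * (s z * deriv s z) := by rw [hf]; exact deriv_one_sub hs.b.diff
  have hds : Differentiable ℂ (deriv s) := by
    have := hs.b.diff.contDiff (n := 2)
    exact (this.iterate_deriv' 1 1).differentiable (by norm_num)
  have hreal : ∀ x : ℝ, s (x : ℂ) = (((s (x : ℂ)).re : ℝ) : ℂ) := fun x =>
    Complex.ext (by simp) (by simpa using hs.real x)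
  have hnorm : ∀ x : ℝ, ‖s (x : ℂ)‖ = |(s (x : ℂ)).re| := by
    intro x
    conv_lhs => rw [hreal x]
    rw [Complex.norm_real, Real.norm_eq_abs]
  have hfre : ∀ x : ℝ, f (x : ℂ) = ((1 - 2 * (s (x : ℂ)).re ^ 2 : ℝ) : ℂ) := by
    intro x
    rw [hf]
    simp only
    conv_lhs => rw [hreal x]
    push_cast
    ring
  have hfn : ∀ x : ℝ, ‖f (x : ℂ)‖ = |1 - 2 * (s (x : ℂ)).re ^ 2| := by
    intro x
    rw [hfre x, Complex.norm_real, Real.norm_eq_abs]
  refine ⟨?_, K, Q, 2 * θ₀ + Real.pi, ?_, hK, hQm, hQd, hQpos, ?_, ?_⟩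
  · intro z h
    have hdd : deriv (deriv f) z = -4 * (deriv s z * deriv s z + s z * deriv (deriv s) z) := by
      rw [hd]
      have h3 := (((hs.b.diff z).hasDerivAt.mul (hds z).hasDerivAt).const_mul (-4 : ℂ)).deriv
      exact h3
    rw [hd] at h
    simp only at h
    have h2 : s z = 0 ∨ deriv s z = 0 := by
      rcases mul_eq_zero.1 h with h3 | h3
      · norm_num at h3
      · exact mul_eq_zero.1 h3
    rcases h2 with h3 | h3
    · refine ⟨(hz z h3).1, ?_⟩
      rw [hdd, h3, zero_mul, add_zero]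
      have := (hz z h3).2
      exact mul_ne_zero (by norm_num) (mul_ne_zero this this)
    · refine ⟨(hcrit z h3).1, ?_⟩
      rw [hdd, h3, zero_mul, zero_add]
      have h4 := (hcrit z h3).2
      have h5 : s z ≠ 0 := fun h6 => (hz z h6).2 h3
      exact mul_ne_zero (by norm_num) (mul_ne_zero h5 h4)
  · intro k
    rw [hK k, hfn k, hnorm k, hd]
    simp only
    constructor
    · rintro ⟨h2, h3⟩
      have h4 : s (k : ℂ) ≠ 0 := fun h6 => (hz _ h6).2 h2
      have h5 : (s (k : ℂ)).re ≠ 0 := by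
        intro h6
        apply h4
        rw [hreal k, h6, Complex.ofReal_zero]
      refine ⟨by rw [h2]; ring, ?_⟩
      have h6 : 0 < (s (k : ℂ)).re ^ 2 := by positivity
      have h7 : (s (k : ℂ)).re ^ 2 < 1 := by
        rw [← sq_abs]
        nlinarith [abs_nonneg (s (k : ℂ)).re]
      rw [abs_lt]
      constructor <;> linarith
    · rintro ⟨h2, h3⟩
      rw [abs_lt] at h3
      have h4 : deriv s (k : ℂ) = 0 := by
        rcases mul_eq_zero.1 h2 with h5 | h5
        · norm_num at h5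
        · rcases mul_eq_zero.1 h5 with h6 | h6
          · rw [h6] at h3
            norm_num at h3
          · exact h6
      refine ⟨h4, ?_⟩
      have h5 : (s (k : ℂ)).re ^ 2 < 1 := by linarith
      rw [← sq_abs] at h5
      nlinarith [abs_nonneg (s (k : ℂ)).re]
  · intro z
    have h2 := heq z
    have h3 : Polynomial.aeval z (∏ k ∈ K, (X - C k) : ℝ[X]) = ∏ k ∈ K, (z - (k : ℂ)) := by
      rw [map_prod]
      refine Finset.prod_congr rfl fun k _ => ?_
      simp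
    rw [h3] at h2
    rw [hd, hf]
    simp only
    linear_combination (4 * s z ^ 2) * h2
  · intro x
    rw [hfre x, hcos x]
    congr 1
    have h3 : ∀ t : ℝ, (∏ k ∈ K, (X - C k) : ℝ[X]).eval t = ∏ k ∈ K, (t - k) := by
      intro t
      rw [Polynomial.eval_prod]
      refine Finset.prod_congr rfl fun k _ => ?_
      simp
    simp only [h3]
    set Y := ∫ t in (0 : ℝ)..x, (∏ k ∈ K, (t - k)) / √(Q.eval t) with hY
    rw [show 2 * θ₀ + Real.pi + Y = 2 * (θ₀ + 1 / 2 * Y) + Real.pi by ring, Real.cos_add_pi,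
      Real.cos_two_mul]
    ring

end Pool.Agent.Helper30.FG
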