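import Pool.Agent.Helper30.FG.G1
import Pool.Agent.Helper30.FG.E1

/-!
# Pairing with admissible measures and the critical equations
-/

set_option autoImplicit false

namespace Pool.Agent.Helper30.FG

open Complex MeasureTheory Set Filter Topology
open Pool.Agent.Helper78.Bern Pool.Agent.Helper45.Bern

/-- `∫ g dμ` -/
noncomputable def pairing (μ : ComplexMeasure ℝ) (g : ℂ → ℂ) : ℂ :=
  VectorMeasure.integral μ (fun x : ℝ => g (x : ℂ)) (ContinuousLinearMap.mul ℝ ℂ)

theorem exists_rep {α : ℝ} {μ : ComplexMeasure ℝ} (hμ : Admissible α μ) :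
    ∃ h : ℝ → ℂ, Integrable h μ.variation ∧
      (∀ ξ : ℝ, |ξ| ≤ 1 →
        ∫ x, Complex.exp (-(Complex.I * ((x * ξ : ℝ) : ℂ))) * h x ∂μ.variation =
          (((1 - |ξ|) ^ α : ℝ) : ℂ)) ∧
      ∀ (g : ℂ → ℂ) (M : ℝ), IsB 1 M g → pairing μ g = ∫ x, g (x : ℂ) * h x ∂μ.variation := by
  obtain ⟨h, ih, hμh, -⟩ := exists_density μ
  refine ⟨h, ih, fun ξ hξ => ?_, fun g M hg => ?_⟩
  · rw [← fourierStieltjes_withDensityV ih, ← hμh]
    exact hμ ξ hξ
  · have hcont : Continuous (fun x : ℝ => g (x : ℂ)) :=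
      hg.diff.continuous.comp Complex.continuous_ofReal
    have key := integral_withDensityV ih (f := fun x : ℝ => g (x : ℂ))
      hcont.stronglyMeasurable (fun x => hg.real_le x)
    rw [← hμh] at key
    exact key

theorem pairing_eq_Lf {α : ℝ} (h0 : 0 < α) (h1 : α < 1) {M : ℝ} {g : ℂ → ℂ} (hg : IsE 1 M g)
    {μ : ComplexMeasure ℝ} (hμ : Admissible α μ) : pairing μ g = ((Lf α g : ℝ) : ℂ) := by
  obtain ⟨h, ih, hrep, hint⟩ := exists_rep hμ
  rw [hint g M hg.b]
  exact transfer h0 h1 hg ih hrep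

theorem isB_neg {a M : ℝ} {g : ℂ → ℂ} (hg : IsB a M g) : IsB a M (fun z => g (-z)) :=
  ⟨hg.diff.comp differentiable_neg, fun z => by
    have := hg.bd (-z)
    rwa [Complex.neg_im, abs_neg] at this⟩

/-- the pairing is even -/
theorem pairing_neg {α : ℝ} {M : ℝ} {g : ℂ → ℂ} (hg : IsB 1 M g)
    {μ : ComplexMeasure ℝ} (hμ : Admissible α μ) :
    pairing μ (fun z => g (-z)) = pairing μ g := by
  obtain ⟨h, ih, hrep, hint⟩ := exists_rep hμ
  rw [hint g M hg, hint _ M (isB_neg hg)]
  set m := μ.variation with hm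
  have hmp : MeasurePreserving (fun x : ℝ => -x) m (m.map fun x : ℝ => -x) :=
    ⟨measurable_neg, rfl⟩
  have hemb : MeasurableEmbedding (fun x : ℝ => -x) := (MeasurableEquiv.neg ℝ).measurableEmbedding
  have ih2 : Integrable (fun x : ℝ => h (-x)) (m.map fun x : ℝ => -x) := by
    rw [← hmp.integrable_comp_emb hemb]
    simpa [Function.comp_def] using ih
  have hchg : ∀ φ : ℝ → ℂ, ∫ x, φ x * h (-x) ∂(m.map fun x : ℝ => -x) =
      ∫ x, φ (-x) * h x ∂m := by
    intro φ
    have := hmp.integral_comp hemb (fun x : ℝ => φ x * h (-x))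
    simp only [neg_neg] at this
    exact this.symm
  have key := transfer_two hg ih ih2 (fun ξ hξ => by
    rw [hchg (fun x : ℝ => Complex.exp (-(Complex.I * ((x * ξ : ℝ) : ℂ)))), hrep ξ hξ]
    have h2 := hrep (-ξ) (by rwa [abs_neg])
    rw [abs_neg] at h2
    rw [← h2]
    refine integral_congr_ae (Eventually.of_forall fun x => ?_)
    simp only
    congr 3
    push_cast
    ring)
  rw [key, hchg (fun x : ℝ => g (x : ℂ))]
  push_cast
  rfl

theorem pairing_add {μ : ComplexMeasure ℝ} {α M N : ℝ} (hμ : Admissible α μ) {f g : ℂ → ℂ}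
    (hf : IsB 1 M f) (hg : IsB 1 N g) :
    pairing μ (fun z => f z + g z) = pairing μ f + pairing μ g := by
  obtain ⟨h, ih, hrep, hint⟩ := exists_rep hμ
  rw [hint f M hf, hint g N hg, hint _ (M + N) (hf.add hg), ← integral_add]
  · refine integral_congr_ae (Eventually.of_forall fun x => ?_)
    simp only
    ring
  · exact ih.bdd_mul (c := M) ((hf.diff.continuous.comp
      Complex.continuous_ofReal).aestronglyMeasurable) (Eventually.of_forall fun x => hf.real_le x)
  · exact ih.bdd_mul (c := N) ((hg.diff.continuous.comp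
      Complex.continuous_ofReal).aestronglyMeasurable) (Eventually.of_forall fun x => hg.real_le x)

theorem pairing_const_mul {μ : ComplexMeasure ℝ} {α M : ℝ} (hμ : Admissible α μ) {f : ℂ → ℂ}
    (hf : IsB 1 M f) (c : ℂ) : pairing μ (fun z => c * f z) = c * pairing μ f := by
  obtain ⟨h, ih, hrep, hint⟩ := exists_rep hμ
  rw [hint f M hf, hint _ _ (hf.const_mul c), ← integral_const_mul]
  refine integral_congr_ae (Eventually.of_forall fun x => ?_)
  simp only
  ring

/-- the critical equation at a gap -/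
theorem crit_eq {α : ℝ} (h0 : 0 < α) (h1 : α < 1) {s : ℂ → ℂ} (hs : IsE (1 / 2) 1 s)
    (hJ : J α s = bernsteinNorm α) {f : ℂ → ℂ} (hf : IsE 1 1 f)
    (hd : deriv f = fun z => -4 * (s z * deriv s z)) {k : ℝ}
    (hk : deriv s (k : ℂ) = 0) (hk1 : ‖s (k : ℂ)‖ < 1)
    {μ : ComplexMeasure ℝ} (hμ : Admissible α μ) :
    pairing μ (dslope (deriv f) (k : ℂ)) = 0 := by
  have hmax : ∀ s' : ℂ → ℂ, IsE (1 / 2) 1 s' → J α s' ≤ J α s := fun s' hs' => by
    rw [hJ]; exact J_le h0 h1 hs'
  obtain ⟨v, ⟨C, hv⟩, hvk⟩ := exists_v hs hk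
  have hk2 : |(s (k : ℂ)).re| < 1 := (Complex.abs_re_le_norm _).trans_lt hk1
  have hL := first_order h0 h1 hs hmax hk hk2 hv hvk
  have hfk : deriv f (k : ℂ) = 0 := by rw [hd]; simp [hk]
  have hfodd := deriv_odd hf.b.diff hf.even
  have hB := bernstein one_pos hf.b
  -- the quotient is bounded
  obtain ⟨q, hqd, hq, D, hD0, hqD⟩ := exists_div zero_le_one hB hfk
  set g : ℂ → ℂ := dslope (deriv f) (k : ℂ) with hg
  have hgd : ∀ z, (z - (k : ℂ)) * g z = deriv f z := by
    intro z
    have := sub_smul_dslope (deriv f) (k : ℂ) z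
    rw [hfk, sub_zero, smul_eq_mul] at this
    exact this
  have hgdiff : Differentiable ℂ g := by
    rw [← differentiableOn_univ]
    exact (Complex.differentiableOn_dslope univ_mem).2 hB.diff.differentiableOn
  have hgq : g = q := by
    refine Continuous.ext_on (dense_compl_singleton (k : ℂ)) hgdiff.continuous hqd.continuous ?_
    intro z hz
    have hz' : z - (k : ℂ) ≠ 0 := sub_ne_zero.2 hz
    apply mul_left_cancel₀ hz'
    rw [hgd z, hq z]
  have hgB : IsB 1 D g := by
    refine ⟨hgdiff, fun z => ?_⟩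
    rw [hgq]
    refine (hqD z).trans (div_le_self (by positivity) ?_)
    linarith [norm_nonneg z]
  -- the even part
  have hsv : IsE 1 (1 * C) (fun z => s z * v z) := by
    refine ⟨?_, fun z => by simp only [hs.even, hv.even], fun x => ?_⟩
    · have := hs.b.mul hv.b
      norm_num at this ⊢
      exact this
    · rw [Complex.mul_im, hs.real, hv.real, mul_zero, zero_mul, add_zero]
  have hsum : (fun z => g z + g (-z)) = fun z => (-8 : ℂ) * (s z * v z) := by
    have hcount : ({(k : ℂ), -(k : ℂ)} : Set ℂ).Countable := (Set.toFinite _).countable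
    refine Continuous.ext_on (hcount.dense_compl ℂ)
      (hgdiff.continuous.add (hgdiff.continuous.comp continuous_neg))
      (continuous_const.mul hsv.b.diff.continuous) ?_
    intro z hz
    simp only [mem_compl_iff, mem_insert_iff, mem_singleton_iff, not_or] at hz
    have e1 : z ^ 2 - (k : ℂ) ^ 2 ≠ 0 := by
      rw [sq_sub_sq]
      refine mul_ne_zero ?_ (sub_ne_zero.2 hz.1)
      intro h
      exact hz.2 (eq_neg_of_add_eq_zero_left h)
    apply mul_left_cancel₀ e1
    have e2 := hgd z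
    have e3 := hgd (-z)
    rw [hfodd] at e3
    have e4 := hvk z
    have e5 : deriv f z = -4 * (s z * deriv s z) := by rw [hd]
    simp only
    linear_combination (z + (k : ℂ)) * e2 - (z - (k : ℂ)) * e3 + 2 * z * e5 + 8 * s z * e4
  have e6 := pairing_add hμ hgB (isB_neg hgB)
  rw [pairing_neg hgB hμ, hsum, pairing_const_mul hμ hsv.b, pairing_eq_Lf h0 h1 hsv hμ, hL] at e6
  have e7 : pairing μ g + pairing μ g = 0 := by rw [← e6]; simp
  have e8 : (2 : ℂ) * pairing μ g = 0 := by rw [two_mul]; exact e7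
  simpa using e8

end Pool.Agent.Helper30.FG
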