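import Pool.Agent.Helper30.FG.G2
import Pool.Agent.Helper30.FG.G4
import Pool.Agent.Helper30.FG.E2
import Pool.Agent.Helper30.FG.E5
import Pool.Agent.Helper30.FG.E6
import Pool.Agent.Helper22.PA.BallUnique

/-!
# The extremal pair `(f, μ)`
-/

set_option autoImplicit false

namespace Pool.Agent.Helper30.FG

open Complex MeasureTheory Set Filter Topology Polynomial
open Pool.Agent.Helper78.Bern Pool.Agent.Helper45.Bern

/-- The even real unit ball of the Bernstein space: even entire functions, real on the real axis,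
with `|g z| ≤ exp |Im z|` (equivalently: of exponential type `≤ 1` and `|g| ≤ 1` on `ℝ`). -/
def EvenBall (g : ℂ → ℂ) : Prop :=
  Differentiable ℂ g ∧ (∀ z, g (-z) = g z) ∧ (∀ x : ℝ, (g (x : ℂ)).im = 0) ∧
    ∀ z, ‖g z‖ ≤ Real.exp |z.im|

theorem evenBall_iff {g : ℂ → ℂ} : EvenBall g ↔ IsE 1 1 g := by
  constructor
  · rintro ⟨h1, h2, h3, h4⟩
    exact ⟨⟨h1, fun z => by simpa using h4 z⟩, h2, h3⟩
  · rintro ⟨⟨h1, h4⟩, h2, h3⟩
    exact ⟨h1, h2, h3, fun z => by simpa using h4 z⟩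

/-- The functional with symbol `(1 - |ξ|)^α` in integral form:
`α/Γ(1-α) ∫_0^∞ t^{-α-1} [g(0) - 2 e^{-t} g(it) + e^{-t} (P_t g)(0)] dt`, where `P_t g (0)` is the
Poisson integral. -/
noncomputable def lam (α : ℝ) (g : ℂ → ℂ) : ℝ :=
  α / Real.Gamma (1 - α) * ∫ t in Ioi (0 : ℝ), t ^ (-α - 1) *
    ((g 0).re - 2 * Real.exp (-t) * (g ((t : ℂ) * I)).re +
      Real.exp (-t) * ((1 / Real.pi) * ∫ x : ℝ, t / (x ^ 2 + t ^ 2) * (g (x : ℂ)).re))

theorem lam_eq (α : ℝ) (g : ℂ → ℂ) : lam α g = Lr α g := rfl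

theorem extremal_pair {α : ℝ} (h0 : 0 < α) (h1 : α < 1) :
    ∃ f : ℂ → ℂ, EvenBall f ∧ lam α f = bernsteinNorm α ∧
      (∀ g, EvenBall g → ∀ μ, Admissible α μ → pairing μ g = ((lam α g : ℝ) : ℂ) ∧
        lam α g ≤ bernsteinNorm α) ∧
      (∀ g, EvenBall g → lam α g = bernsteinNorm α → g = f) ∧
      (∀ z : ℂ, deriv f z = 0 → z.im = 0 ∧ deriv (deriv f) z ≠ 0) ∧
      (∃ (K : Finset ℝ) (Q : ℝ[X]) (θ : ℝ),
        (∀ k : ℝ, k ∈ K ↔ deriv f (k : ℂ) = 0 ∧ ‖f (k : ℂ)‖ < 1) ∧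
        Q.Monic ∧ Q.natDegree = 2 * K.card ∧ (∀ x : ℝ, 0 < Q.eval x) ∧
        (∀ z : ℂ, Polynomial.aeval z Q * deriv f z ^ 2 =
          (∏ k ∈ K, (z - (k : ℂ))) ^ 2 * (1 - f z ^ 2)) ∧
        (∀ x : ℝ, f (x : ℂ) = ((Real.cos (θ + ∫ t in (0 : ℝ)..x,
          (∏ k ∈ K, (t - k)) / √(Q.eval t)) : ℝ) : ℂ)) ∧
        ∀ k ∈ K, ∀ μ, Admissible α μ → pairing μ (dslope (deriv f) (k : ℂ)) = 0) ∧
      ∃ μ : ComplexMeasure ℝ, Admissible α μ ∧ totalVar μ = bernsteinNorm α ∧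
        (∀ ν : ComplexMeasure ℝ, Admissible α ν → totalVar ν = bernsteinNorm α → ν = μ) ∧
        (∀ A : Set ℝ, MeasurableSet A → (∀ x ∈ A, ‖f (x : ℂ)‖ ≠ 1) → μ A = 0) ∧
        ∀ x : ℝ, ∃ m : ℝ, 0 ≤ m ∧ μ {x} = (m : ℂ) * f (x : ℂ) := by
  obtain ⟨⟨s, hs, hJ⟩, -, -⟩ := structure_all h0 h1
  set f : ℂ → ℂ := fun z => 1 - 2 * s z ^ 2 with hf
  obtain ⟨hmax, hz0, hz, hcrit, -⟩ := max_facts h0 h1 hs hJ
  obtain ⟨hfE, hfL⟩ := J_eq h0 h1 hs
  have hd : deriv f = fun z => -4 * (s z * deriv s z) := deriv_one_sub hs.b.diff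
  obtain ⟨hfcrit, K, Q, θ, hK, hKs, hQm, hQd, hQpos, hPell, hcos⟩ := f_facts h0 h1 hs hJ hf
  have hnc : ∃ z, deriv s z ≠ 0 := by
    by_contra hcon
    push Not at hcon
    have h2 := (hcrit 0 (hcon 0)).2
    apply h2
    have h3 : deriv s = fun _ => 0 := funext hcon
    rw [h3]
    simp
  have hreal : ∀ x : ℝ, f (x : ℂ) = (((f (x : ℂ)).re : ℝ) : ℂ) := fun x =>
    Complex.ext rfl (by rw [Complex.ofReal_im]; exact hfE.real x)
  have hfre : ∀ x : ℝ, (f (x : ℂ)).re = 1 - 2 * (s (x : ℂ)).re ^ 2 := by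
    intro x
    have e : s (x : ℂ) = (((s (x : ℂ)).re : ℝ) : ℂ) :=
      Complex.ext (by simp) (by simpa using hs.real x)
    have e2 : f (x : ℂ) = ((1 - 2 * (s (x : ℂ)).re ^ 2 : ℝ) : ℂ) := by
      rw [hf]
      simp only
      conv_lhs => rw [e]
      push_cast
      ring
    rw [e2, Complex.ofReal_re]
  have hnorm : ∀ x : ℝ, ‖f (x : ℂ)‖ = |(f (x : ℂ)).re| := by
    intro x
    conv_lhs => rw [hreal x]
    rw [Complex.norm_real, Real.norm_eq_abs]
  refine ⟨f, evenBall_iff.2 hfE, ?_, ?_, ?_, hfcrit, ⟨K, Q, θ, hK, hQm, hQd, hQpos, hPell, hcos, ?_⟩,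
    ?_⟩
  · rw [lam_eq, ← Lf_eq_Lr h0 h1 hfE, hfL, hJ]
  · intro g hg μ hμ
    have hg' := evenBall_iff.1 hg
    rw [lam_eq, ← Lf_eq_Lr h0 h1 hg']
    exact ⟨pairing_eq_Lf h0 h1 hg' hμ, Lf_le h0 h1 hg'⟩
  · intro g hg hL
    have hg' := evenBall_iff.1 hg
    rw [lam_eq, ← Lf_eq_Lr h0 h1 hg'] at hL
    funext z
    exact Helper22.PA.ball_unique h0 h1 hs hmax hg' hL z
  · intro k hk μ hμ
    exact crit_eq h0 h1 hs hJ hfE hd ((hKs k).1 hk).1 ((hKs k).1 hk).2 hμ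
  · obtain ⟨μ, hμ, hμt⟩ := exists_extremal h0 h1 hs hJ hnc
    have hfc : Continuous (fun x : ℝ => (f (x : ℂ)).re) :=
      Complex.continuous_re.comp (hfE.b.diff.continuous.comp Complex.continuous_ofReal)
    have hf1 : ∀ x : ℝ, |(f (x : ℂ)).re| ≤ 1 := fun x => by
      rw [← hnorm]; exact hfE.b.real_le x
    have hint : VectorMeasure.integral μ (fun x : ℝ => (((f (x : ℂ)).re : ℝ) : ℂ))
        (ContinuousLinearMap.mul ℝ ℂ) = ((totalVar μ : ℝ) : ℂ) := by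
      have e : (fun x : ℝ => (((f (x : ℂ)).re : ℝ) : ℂ)) = fun x : ℝ => f (x : ℂ) :=
        funext fun x => (hreal x).symm
      rw [e, hμt, ← hJ]
      exact integral_eq_J h0 h1 hs hμ
    obtain ⟨hs1, hs2, hs3, hs4⟩ := extremal_structure hfc hf1 hint
    refine ⟨μ, hμ, hμt, ?_, ?_, ?_⟩
    · intro ν hν hνt
      exact extremal_unique h0 h1 hs hJ hnc (fun x hx => (hz (x : ℂ) hx).2)
        (fun x hx => (hcrit (x : ℂ) hx).2) hν hμ hνt hμt
    · intro A hA h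
      refine hs1 A hA fun x hx => ?_
      rw [← hnorm]
      exact h x hx
    · intro x
      have him := hs2 {x} (measurableSet_singleton x)
      have hre : μ {x} = (((μ {x}).re : ℝ) : ℂ) := Complex.ext (by simp) (by simpa using him)
      by_cases hx1 : (f (x : ℂ)).re = 1
      · refine ⟨(μ {x}).re, hs3 {x} (measurableSet_singleton x) (by simpa using hx1), ?_⟩
        rw [hreal x, hx1]
        simpa using hre
      · by_cases hx2 : (f (x : ℂ)).re = -1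
        · refine ⟨-(μ {x}).re, by
            have := hs4 {x} (measurableSet_singleton x) (by simpa using hx2)
            linarith, ?_⟩
          rw [hreal x, hx2]
          push_cast
          rw [neg_mul_neg, mul_one]
          exact hre
        · refine ⟨0, le_rfl, ?_⟩
          rw [hs1 {x} (measurableSet_singleton x) (by
            intro y hy
            rw [mem_singleton_iff.1 hy]
            intro h
            rcases abs_eq (zero_le_one) |>.1 h with h2 | h2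
            · exact hx1 h2
            · exact hx2 h2)]
          simp

end Pool.Agent.Helper30.FG
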