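import Pool.Agent.Helper30.FG.B1
import Pool.Agent.Helper30.FG.B2

/-!
# The functions `G_c(z) = z f'(z) / (z² - c²)` at the real critical points `c` of `f`
-/

set_option autoImplicit false

namespace Pool.Agent.Helper30.FG

open Complex MeasureTheory Set Filter Topology
open Pool.Agent.Helper78.Bern Pool.Agent.Helper45.Bern

/-- `G_c(z) = (f'(z)/(z-c) + f'(z)/(z+c)) / 2 = z f'(z)/(z² - c²)` (for `f' (c) = 0`, `f` even),
extended to all `z`. -/
noncomputable def Gc (f : ℂ → ℂ) (c : ℝ) (z : ℂ) : ℂ :=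
  (dslope (deriv f) (c : ℂ) z + dslope (deriv f) (-(c : ℂ)) z) / 2

section

variable {f : ℂ → ℂ} {c : ℝ}

theorem sub_mul_dslope' (hc : deriv f (c : ℂ) = 0) (z : ℂ) :
    (z - (c : ℂ)) * dslope (deriv f) (c : ℂ) z = deriv f z := by
  have := sub_smul_dslope (deriv f) (c : ℂ) z
  rw [hc, sub_zero, smul_eq_mul] at this
  exact this

/-- the quotient `f'/(z-c)` is bounded, with a bound decaying on the real axis -/
theorem dslope_isB {M : ℝ} (hf : IsB 1 M f) (hc : deriv f (c : ℂ) = 0) :
    ∃ D : ℝ, 0 ≤ D ∧ IsB 1 D (dslope (deriv f) (c : ℂ)) ∧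
      ∀ z : ℂ, ‖dslope (deriv f) (c : ℂ) z‖ ≤ D * Real.exp (1 * |z.im|) / (1 + ‖z‖) := by
  have hB := bernstein one_pos hf
  obtain ⟨q, hqd, hq, D, hD0, hqD⟩ := exists_div zero_le_one hB hc
  have hgdiff : Differentiable ℂ (dslope (deriv f) (c : ℂ)) := by
    rw [← differentiableOn_univ]
    exact (Complex.differentiableOn_dslope univ_mem).2 hB.diff.differentiableOn
  have hgq : dslope (deriv f) (c : ℂ) = q := by
    refine Continuous.ext_on (dense_compl_singleton (c : ℂ)) hgdiff.continuous hqd.continuous ?_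
    intro z hz
    have hz' : z - (c : ℂ) ≠ 0 := sub_ne_zero.2 hz
    apply mul_left_cancel₀ hz'
    rw [sub_mul_dslope' hc z, hq z]
  refine ⟨D, hD0, ⟨hgdiff, fun z => ?_⟩, fun z => ?_⟩
  · rw [hgq]
    refine (hqD z).trans (div_le_self (by positivity) ?_)
    linarith [norm_nonneg z]
  · rw [hgq]
    exact hqD z

variable (hd : Differentiable ℂ f) (heven : ∀ z : ℂ, f (-z) = f z)
include hd heven

theorem deriv_zero_neg (hc : deriv f (c : ℂ) = 0) : deriv f (-(c : ℂ)) = 0 := by
  rw [deriv_odd hd heven, hc, neg_zero]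

/-- reflection of the quotient -/
theorem dslope_neg (hc : deriv f (c : ℂ) = 0) (z : ℂ) :
    dslope (deriv f) (c : ℂ) (-z) = dslope (deriv f) (-(c : ℂ)) z := by
  have hd' : Differentiable ℂ (deriv f) := by
    have := hd.contDiff (n := 2)
    exact (this.iterate_deriv' 1 1).differentiable (by norm_num)
  have hds : ∀ w : ℂ, Differentiable ℂ (dslope (deriv f) w) := fun w => by
    rw [← differentiableOn_univ]
    exact (Complex.differentiableOn_dslope univ_mem).2 hd'.differentiableOn
  have h1 : (fun z => dslope (deriv f) (c : ℂ) (-z)) = dslope (deriv f) (-(c : ℂ)) := by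
    refine Continuous.ext_on (dense_compl_singleton (-(c : ℂ)))
      ((hds _).continuous.comp continuous_neg) (hds _).continuous ?_
    intro z hz
    have hz' : z - (-(c : ℂ)) ≠ 0 := sub_ne_zero.2 hz
    apply mul_left_cancel₀ hz'
    have e1 := sub_mul_dslope' hc (-z)
    have hcn := deriv_zero_neg hd heven hc
    have e2 := sub_smul_dslope (deriv f) (-(c : ℂ)) z
    rw [hcn, sub_zero, smul_eq_mul] at e2
    rw [e2]
    rw [deriv_odd hd heven] at e1
    linear_combination -e1
  exact congrFun h1 z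

theorem Gc_eq (hc : deriv f (c : ℂ) = 0) (z : ℂ) :
    Gc f c z = (dslope (deriv f) (c : ℂ) z + dslope (deriv f) (c : ℂ) (-z)) / 2 := by
  rw [dslope_neg hd heven hc z]
  rfl

theorem sub_mul_Gc (hc : deriv f (c : ℂ) = 0) (z : ℂ) :
    (z ^ 2 - (c : ℂ) ^ 2) * Gc f c z = z * deriv f z := by
  have e1 := sub_mul_dslope' hc z
  have hcn := deriv_zero_neg hd heven hc
  have e2 := sub_smul_dslope (deriv f) (-(c : ℂ)) z
  rw [hcn, sub_zero, smul_eq_mul] at e2
  unfold Gc
  linear_combination (z + (c : ℂ)) / 2 * e1 + (z - (c : ℂ)) / 2 * e2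

omit hd heven in
theorem Gc_isE {M : ℝ} (hf : IsE 1 M f) (hc : deriv f (c : ℂ) = 0) :
    ∃ D : ℝ, IsE 1 D (Gc f c) := by
  obtain ⟨D, hD0, hD, -⟩ := dslope_isB hf.b hc
  have hneg : IsB 1 D (fun z => dslope (deriv f) (c : ℂ) (-z)) :=
    ⟨hD.diff.comp differentiable_neg, fun z => by
      have := hD.bd (-z)
      rwa [Complex.neg_im, abs_neg] at this⟩
  have e : Gc f c = fun z => (1 / 2 : ℂ) *
      (dslope (deriv f) (c : ℂ) z + dslope (deriv f) (c : ℂ) (-z)) := by
    funext z
    rw [Gc_eq hf.b.diff hf.even hc]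
    ring
  have hB : IsB 1 (‖(1 / 2 : ℂ)‖ * (D + D)) (Gc f c) := by
    rw [e]
    exact (hD.add hneg).const_mul _
  refine ⟨_, hB, fun z => ?_, fun x => ?_⟩
  · rw [Gc_eq hf.b.diff hf.even hc, Gc_eq hf.b.diff hf.even hc, neg_neg, add_comm]
  · -- reality: by continuity from the points `x ≠ ± c`
    have hcont : Continuous fun x : ℝ => (Gc f c (x : ℂ)).im :=
      Complex.continuous_im.comp (hB.diff.continuous.comp Complex.continuous_ofReal)
    have hcount : ({c, -c} : Set ℝ).Countable := (Set.toFinite _).countable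
    have : (fun x : ℝ => (Gc f c (x : ℂ)).im) = fun _ => 0 := by
      refine Continuous.ext_on (hcount.dense_compl ℝ) hcont continuous_const ?_
      intro x hx
      simp only [mem_compl_iff, mem_insert_iff, mem_singleton_iff, not_or] at hx
      have h1 := sub_mul_Gc hf.b.diff hf.even hc (x : ℂ)
      have h2 : x ^ 2 - c ^ 2 ≠ 0 := by
        rw [sq_sub_sq]
        refine mul_ne_zero ?_ (sub_ne_zero.2 hx.1)
        intro h
        exact hx.2 (eq_neg_of_add_eq_zero_left h)
      have h3 := congrArg Complex.im h1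
      have e3 : ((x : ℂ) ^ 2 - (c : ℂ) ^ 2) = ((x ^ 2 - c ^ 2 : ℝ) : ℂ) := by push_cast; ring
      rw [e3, Complex.im_ofReal_mul, Complex.im_ofReal_mul,
        deriv_real hf.b.diff hf.real x, mul_zero] at h3
      exact (mul_eq_zero.1 h3).resolve_left h2
    exact congrFun this x

end

end Pool.Agent.Helper30.FG
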