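import Pool.Agent.Helper30.FG.G4
import Pool.Agent.Helper30.FG.Gc
import Pool.Agent.Helper30.FG.E6

/-!
# The weights of the extremal measure and the critical inequalities
-/

set_option autoImplicit false

namespace Pool.Agent.Helper30.FG

open Complex MeasureTheory Set Filter Topology
open Pool.Agent.Helper78.Bern Pool.Agent.Helper45.Bern

/-- `∫ f'(x)/(x-c) dμ = L(G_c)` for every admissible `μ` -/
theorem pairing_dslope {α : ℝ} (h0 : 0 < α) (h1 : α < 1) {M : ℝ} {f : ℂ → ℂ} (hf : IsE 1 M f)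
    {c : ℝ} (hc : deriv f (c : ℂ) = 0) {μ : ComplexMeasure ℝ} (hμ : Admissible α μ) :
    pairing μ (dslope (deriv f) (c : ℂ)) = ((Lf α (Gc f c) : ℝ) : ℂ) := by
  obtain ⟨D, hD0, hD, -⟩ := dslope_isB hf.b hc
  obtain ⟨E, hE⟩ := Gc_isE hf hc
  rw [← pairing_eq_Lf h0 h1 hE hμ]
  have e : Gc f c = fun z => (1 / 2 : ℂ) *
      (dslope (deriv f) (c : ℂ) z + dslope (deriv f) (c : ℂ) (-z)) := by
    funext z
    rw [Gc_eq hf.b.diff hf.even hc]
    ring
  rw [e, pairing_const_mul hμ (hD.add (isB_neg hD)), pairing_add hμ hD (isB_neg hD),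
    pairing_neg hD hμ]
  ring

/-- at a real point with `|f| = 1` the derivative of `f` vanishes -/
theorem deriv_zero_of_norm {f : ℂ → ℂ} (hf : IsE 1 1 f) {x : ℝ} (hx : ‖f (x : ℂ)‖ = 1) :
    deriv f (x : ℂ) = 0 := by
  have hreal : ∀ y : ℝ, f (y : ℂ) = (((f (y : ℂ)).re : ℝ) : ℂ) := fun y =>
    Complex.ext rfl (by rw [Complex.ofReal_im]; exact hf.real y)
  have hn : ∀ y : ℝ, ‖f (y : ℂ)‖ = |(f (y : ℂ)).re| := by
    intro y
    conv_lhs => rw [hreal y]
    rw [Complex.norm_real, Real.norm_eq_abs]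
  have hd : HasDerivAt (fun y : ℝ => (f (y : ℂ)).re) (deriv f (x : ℂ)).re x :=
    ((hf.b.diff (x : ℂ)).hasDerivAt).real_of_complex
  have hle : ∀ y : ℝ, |(f (y : ℂ)).re| ≤ 1 := fun y => by
    rw [← hn]; exact hf.b.real_le y
  rw [hn] at hx
  have hre : (deriv f (x : ℂ)).re = 0 := by
    rcases (abs_eq zero_le_one).1 hx with h | h
    · have hmax : IsLocalMax (fun y : ℝ => (f (y : ℂ)).re) x :=
        Eventually.of_forall fun y => by
          simp only
          rw [h]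
          exact (abs_le.1 (hle y)).2
      exact hmax.hasDerivAt_eq_zero hd
    · have hmin : IsLocalMin (fun y : ℝ => (f (y : ℂ)).re) x :=
        Eventually.of_forall fun y => by
          simp only
          rw [h]
          exact (abs_le.1 (hle y)).1
      exact hmin.hasDerivAt_eq_zero hd
  exact Complex.ext hre (by simpa using deriv_real hf.b.diff hf.real x)

/-- the weight of the extremal measure at a critical point of `f` -/
theorem weight_formula {α : ℝ} (h0 : 0 < α) (h1 : α < 1) {f : ℂ → ℂ} (hf : IsE 1 1 f)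
    {μ : ComplexMeasure ℝ} (hμ : Admissible α μ)
    (hnull : ∀ A : Set ℝ, MeasurableSet A → (∀ x ∈ A, ‖f (x : ℂ)‖ ≠ 1) → μ A = 0) {c : ℝ}
    (hc : deriv f (c : ℂ) = 0) :
    ((Lf α (Gc f c) : ℝ) : ℂ) = deriv (deriv f) (c : ℂ) * μ {c} := by
  rw [← pairing_dslope h0 h1 hf hc hμ]
  obtain ⟨D, hD0, hD, -⟩ := dslope_isB hf.b hc
  obtain ⟨h, ih, hμh, -⟩ := exists_density μ
  have hcont : Continuous (fun x : ℝ => dslope (deriv f) (c : ℂ) (x : ℂ)) :=
    hD.diff.continuous.comp Complex.continuous_ofReal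
  have key := integral_withDensityV ih (f := fun x : ℝ => dslope (deriv f) (c : ℂ) (x : ℂ))
    hcont.stronglyMeasurable (fun x => hD.real_le x)
  rw [← hμh] at key
  have hfc : Continuous (fun x : ℝ => ‖f (x : ℂ)‖) :=
    (hf.b.diff.continuous.comp Complex.continuous_ofReal).norm
  have hN : MeasurableSet {x : ℝ | ‖f (x : ℂ)‖ = 1} :=
    (isClosed_eq hfc continuous_const).measurableSet
  unfold pairing
  rw [key, E6.integral_eq ih hμh hN (fun A hA hAN => hnull A hA fun x hx => hAN hx)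
    (g := fun x : ℝ => dslope (deriv f) (c : ℂ) (x : ℂ)) (x₀ := c) ?_, dslope_same]
  intro x hx hxc
  have h2 := deriv_zero_of_norm hf hx
  have h3 := sub_mul_dslope' hc (x : ℂ)
  rw [h2] at h3
  refine (mul_eq_zero.1 h3).resolve_left ?_
  refine sub_ne_zero.2 ?_
  exact_mod_cast hxc

/-- a real function with a maximum has a nonpositive second derivative there -/
theorem second_nonpos {φ φ' φ'' : ℝ → ℝ} (h1 : ∀ y, HasDerivAt φ (φ' y) y)
    (h2 : ∀ y, HasDerivAt φ' (φ'' y) y) {x : ℝ} (hmax : ∀ y, φ y ≤ φ x) : φ'' x ≤ 0 := by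
  by_contra hcon
  push Not at hcon
  have e1 : deriv φ = φ' := funext fun y => (h1 y).deriv
  have e2 : deriv (deriv φ) x = φ'' x := by rw [e1]; exact (h2 x).deriv
  have hm : IsLocalMax φ x := Eventually.of_forall hmax
  have hd0 : deriv φ x = 0 := hm.deriv_eq_zero
  have hmin := isLocalMin_of_deriv_deriv_pos (f := φ) (x₀ := x) (by rw [e2]; exact hcon) hd0
    (h1 x).continuousAt
  have heq : φ =ᶠ[𝓝 x] fun _ => φ x := by
    filter_upwards [hmin] with y hy
    exact le_antisymm (hmax y) hy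
  have h3 : deriv φ =ᶠ[𝓝 x] fun _ => 0 := by
    have := heq.deriv
    refine this.trans ?_
    simp
  have h4 : deriv (deriv φ) x = 0 := by
    rw [h3.deriv_eq]
    simp
  rw [e2] at h4
  linarith

/-- at a real point with `f x = ±1`, `f x * f'' x ≤ 0` -/
theorem second_sign {f : ℂ → ℂ} (hf : IsE 1 1 f) {x : ℝ} (hx : ‖f (x : ℂ)‖ = 1) :
    (f (x : ℂ)).re * (deriv (deriv f) (x : ℂ)).re ≤ 0 := by
  have hd' : Differentiable ℂ (deriv f) := (bernstein one_pos hf.b).diff
  have hreal : ∀ y : ℝ, f (y : ℂ) = (((f (y : ℂ)).re : ℝ) : ℂ) := fun y =>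
    Complex.ext rfl (by rw [Complex.ofReal_im]; exact hf.real y)
  have hn : ∀ y : ℝ, ‖f (y : ℂ)‖ = |(f (y : ℂ)).re| := by
    intro y
    conv_lhs => rw [hreal y]
    rw [Complex.norm_real, Real.norm_eq_abs]
  have hd1 : ∀ y : ℝ, HasDerivAt (fun y : ℝ => (f (y : ℂ)).re) (deriv f (y : ℂ)).re y := fun y =>
    ((hf.b.diff (y : ℂ)).hasDerivAt).real_of_complex
  have hd2 : ∀ y : ℝ, HasDerivAt (fun y : ℝ => (deriv f (y : ℂ)).re)
      (deriv (deriv f) (y : ℂ)).re y := fun y => ((hd' (y : ℂ)).hasDerivAt).real_of_complex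
  have hle : ∀ y : ℝ, |(f (y : ℂ)).re| ≤ 1 := fun y => by
    rw [← hn]; exact hf.b.real_le y
  rw [hn] at hx
  rcases (abs_eq zero_le_one).1 hx with h | h
  · have := second_nonpos hd1 hd2 (x := x) (fun y => by
      rw [h]
      exact (abs_le.1 (hle y)).2)
    rw [h, one_mul]
    exact this
  · have := second_nonpos (φ := fun y : ℝ => -(f (y : ℂ)).re)
      (φ' := fun y : ℝ => -(deriv f (y : ℂ)).re) (φ'' := fun y : ℝ => -(deriv (deriv f) (y : ℂ)).re)
      (fun y => (hd1 y).neg) (fun y => (hd2 y).neg) (x := x) (fun y => by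
      rw [h]
      linarith [(abs_le.1 (hle y)).1])
    rw [h]
    linarith

/-- the critical inequalities: `L(G_c) ≤ 0` at every real critical point, with equality at the
gaps -/
theorem critical {α : ℝ} (h0 : 0 < α) (h1 : α < 1) {f : ℂ → ℂ} (hf : IsE 1 1 f)
    {μ : ComplexMeasure ℝ} (hμ : Admissible α μ)
    (hnull : ∀ A : Set ℝ, MeasurableSet A → (∀ x ∈ A, ‖f (x : ℂ)‖ ≠ 1) → μ A = 0)
    (hsign : ∀ x : ℝ, ∃ m : ℝ, 0 ≤ m ∧ μ {x} = (m : ℂ) * f (x : ℂ)) {c : ℝ}
    (hc : deriv f (c : ℂ) = 0) :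
    Lf α (Gc f c) ≤ 0 ∧ (‖f (c : ℂ)‖ < 1 → Lf α (Gc f c) = 0) := by
  have hw := weight_formula h0 h1 hf hμ hnull hc
  by_cases hx : ‖f (c : ℂ)‖ = 1
  · refine ⟨?_, fun h => absurd h (by rw [hx]; exact lt_irrefl _)⟩
    obtain ⟨m, hm, hmu⟩ := hsign c
    rw [hmu] at hw
    have hreal : f (c : ℂ) = (((f (c : ℂ)).re : ℝ) : ℂ) :=
      Complex.ext rfl (by rw [Complex.ofReal_im]; exact hf.real c)
    have h3 := congrArg Complex.re hw
    rw [Complex.ofReal_re] at h3
    rw [h3, hreal]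
    have e : (deriv (deriv f) (c : ℂ) * ((m : ℂ) * (((f (c : ℂ)).re : ℝ) : ℂ))).re =
        m * ((f (c : ℂ)).re * (deriv (deriv f) (c : ℂ)).re) := by
      have e2 : deriv (deriv f) (c : ℂ) * ((m : ℂ) * (((f (c : ℂ)).re : ℝ) : ℂ)) =
          ((m * (f (c : ℂ)).re : ℝ) : ℂ) * deriv (deriv f) (c : ℂ) := by push_cast; ring
      rw [e2, Complex.re_ofReal_mul]
      ring
    rw [e]
    exact mul_nonpos_of_nonneg_of_nonpos hm (second_sign hf hx)
  · have h2 : μ {c} = 0 := hnull {c} (measurableSet_singleton c) (by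
      intro x hx'
      rw [mem_singleton_iff.1 hx']
      exact hx)
    rw [h2, mul_zero] at hw
    have h3 : Lf α (Gc f c) = 0 := by exact_mod_cast hw
    exact ⟨h3.le, fun _ => h3⟩

end Pool.Agent.Helper30.FG
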