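import Pool.Agent.Helper22.PA.Prod
import Pool.Agent.Helper30.FG.U1
import Pool.Agent.Helper30.FG.D4
import Pool.Agent.Helper30.FG.D5

/-!
# Uniqueness of the maximiser, part 2

Two maximisers have the same zeros (U1, D5), so they are proportional by the product formula of
Helper22, and the factor is `±1` because `L (s²) < 0`.
-/

set_option autoImplicit false

namespace Pool.Agent.Helper30.FG

open Complex MeasureTheory Set Filter Topology
open Pool.Agent.Helper78.Bern Pool.Agent.Helper45.Bern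

/-- the value of a maximiser is larger than `1` -/
theorem one_lt_max {α : ℝ} (h0 : 0 < α) (h1 : α < 1) {s : ℂ → ℂ}
    (hmax : ∀ s' : ℂ → ℂ, IsE (1 / 2) 1 s' → J α s' ≤ J α s) : 1 < J α s := by
  have hz : IsE (1 / 2) 1 (fun _ : ℂ => (0 : ℂ)) := by
    refine ⟨?_, fun _ => rfl, fun _ => by simp⟩
    refine (isB_const (a := 1 / 2) (by norm_num) (0 : ℂ)).mono_M ?_
    simp
  obtain ⟨C, hC, hG⟩ := HG_const h0 h1 0
  obtain ⟨s', hs', hlt⟩ := competitor h0 h1 hz hC (fun K =>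
    ⟨max K 1, le_max_left _ _, hG _ (le_max_right _ _)⟩)
  have hJ0 : J α (fun _ : ℂ => (0 : ℂ)) = 1 := by
    unfold J Lf
    simp
  rw [hJ0] at hlt
  exact hlt.trans_le (hmax s' hs')

theorem maximiser_ne {α : ℝ} (h0 : 0 < α) (h1 : α < 1) {s : ℂ → ℂ}
    (hmax : ∀ s' : ℂ → ℂ, IsE (1 / 2) 1 s' → J α s' ≤ J α s) : ∃ z, s z ≠ 0 := by
  by_contra hcon
  push Not at hcon
  have h2 := one_lt_max h0 h1 hmax
  have h3 : s = fun _ => 0 := funext hcon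
  rw [h3] at h2
  unfold J Lf at h2
  simp at h2

theorem evenRR_of_max {α : ℝ} (h0 : 0 < α) (h1 : α < 1) {s : ℂ → ℂ} (hs : IsE (1 / 2) 1 s)
    (hmax : ∀ s' : ℂ → ℂ, IsE (1 / 2) 1 s' → J α s' ≤ J α s) :
    Helper22.PA.EvenRR s 1 (1 / 2) := by
  obtain ⟨hz0, hz⟩ := zeros h0 h1 hs hmax (maximiser_ne h0 h1 hmax)
  refine ⟨hs.b.diff, hs.even, fun z => (hs.b.bd z).trans ?_, by norm_num, hz0,
    fun z h => (hz z h).1, fun z h => (hz z h).2⟩
  have := Complex.abs_im_le_norm z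
  gcongr

theorem unique_max {α : ℝ} (h0 : 0 < α) (h1 : α < 1) {s₁ s₂ : ℂ → ℂ}
    (hs₁ : IsE (1 / 2) 1 s₁) (hs₂ : IsE (1 / 2) 1 s₂)
    (hm₁ : ∀ s' : ℂ → ℂ, IsE (1 / 2) 1 s' → J α s' ≤ J α s₁)
    (hm₂ : ∀ s' : ℂ → ℂ, IsE (1 / 2) 1 s' → J α s' ≤ J α s₂) :
    (∀ z, s₂ z = s₁ z) ∨ ∀ z, s₂ z = -s₁ z := by
  have hR₁ := evenRR_of_max h0 h1 hs₁ hm₁
  have hR₂ := evenRR_of_max h0 h1 hs₂ hm₂
  have hne₁ := maximiser_ne h0 h1 hm₁
  have hne₂ := maximiser_ne h0 h1 hm₂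
  have key : ∀ {a b : ℂ → ℂ}, Helper22.PA.EvenRR a 1 (1 / 2) →
      (∀ x : ℝ, x ≠ 0 → a (x : ℂ) = 0 → b (x : ℂ) = 0) → ∀ z, a z = 0 → b z = 0 := by
    intro a b ha hab z hz
    have him := ha.real z hz
    have hz0 := ha.zero_ne hz
    have e : z = ((z.re : ℝ) : ℂ) := Complex.ext (by simp) (by simpa using him)
    rw [e] at hz hz0 ⊢
    exact hab z.re (by exact_mod_cast hz0) hz
  have hzz : ∀ z, s₁ z = 0 ↔ s₂ z = 0 := fun z =>
    ⟨key hR₁ (fun x hx hz => common_zero h0 h1 hs₁ hs₂ hm₁ hm₂ hne₁ hx hz) z,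
      key hR₂ (fun x hx hz => common_zero h0 h1 hs₂ hs₁ hm₂ hm₁ hne₂ hx hz) z⟩
  have hZ : ∀ r, Helper22.PA.Z s₁ r = Helper22.PA.Z s₂ r := by
    intro r
    ext z
    rw [hR₁.mem_Z, hR₂.mem_Z, hzz]
  have hprop : ∀ z, s₂ z * s₁ 0 = s₂ 0 * s₁ z := by
    intro z
    have h3 := (hR₁.tendsto_prod z).const_mul (s₂ 0)
    have h4 := (hR₂.tendsto_prod z).mul_const (s₁ 0)
    have h5 : (fun r : ℝ => s₂ 0 * Helper22.PA.Pr s₂ r z * s₁ 0) =
        fun r : ℝ => s₂ 0 * (s₁ 0 * Helper22.PA.Pr s₁ r z) := by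
      funext r
      have : Helper22.PA.Pr s₂ r z = Helper22.PA.Pr s₁ r z := by
        unfold Helper22.PA.Pr
        rw [hZ]
      rw [this]
      ring
    rw [h5] at h4
    exact tendsto_nhds_unique h4 h3
  -- the factor
  set c : ℝ := (s₂ 0).re / (s₁ 0).re with hc
  have hr₁ : (s₁ 0).im = 0 := by simpa using hs₁.real 0
  have hr₂ : (s₂ 0).im = 0 := by simpa using hs₂.real 0
  have e₁ : s₁ 0 = (((s₁ 0).re : ℝ) : ℂ) := Complex.ext (by simp) (by simpa using hr₁)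
  have e₂ : s₂ 0 = (((s₂ 0).re : ℝ) : ℂ) := Complex.ext (by simp) (by simpa using hr₂)
  have hn₁ : (s₁ 0).re ≠ 0 := by
    intro h
    apply hR₁.nz
    rw [e₁, h, Complex.ofReal_zero]
  have hcz : ∀ z, s₂ z = (c : ℂ) * s₁ z := by
    intro z
    have h6 := hprop z
    have h7 : (c : ℂ) * s₁ 0 = s₂ 0 := by
      rw [e₁, e₂, hc]
      push_cast
      have : (((s₁ 0).re : ℝ) : ℂ) ≠ 0 := by exact_mod_cast hn₁
      field_simp
    apply mul_right_cancel₀ hR₁.nz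
    rw [h6, ← h7]
    ring
  have hJ : J α s₁ = J α s₂ := le_antisymm (hm₂ s₁ hs₁) (hm₁ s₂ hs₂)
  have hL : Lf α (fun z => s₂ z ^ 2) = c ^ 2 * Lf α (fun z => s₁ z ^ 2) := by
    rw [← Lf_const_mul]
    congr 1
    funext z
    rw [hcz z]
    push_cast
    ring
  have hJ1 : J α s₁ = 1 - 2 * Lf α (fun z => s₁ z ^ 2) := rfl
  have hJ2 : J α s₂ = 1 - 2 * Lf α (fun z => s₂ z ^ 2) := rfl
  have hgt := one_lt_max h0 h1 hm₁
  have hLne : Lf α (fun z => s₁ z ^ 2) ≠ 0 := by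
    intro h
    rw [hJ1, h] at hgt
    linarith
  have hc2 : c ^ 2 = 1 := by
    rw [hJ1, hJ2, hL] at hJ
    have h8 : Lf α (fun z => s₁ z ^ 2) * (c ^ 2 - 1) = 0 := by linarith
    rcases mul_eq_zero.1 h8 with h9 | h9
    · exact absurd h9 hLne
    · linarith
  have hc3 : (c - 1) * (c + 1) = 0 := by linear_combination hc2
  rcases mul_eq_zero.1 hc3 with h9 | h9
  · left
    intro z
    rw [hcz z, sub_eq_zero.1 h9]
    simp
  · right
    intro z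
    rw [hcz z, eq_neg_of_add_eq_zero_left h9]
    simp

end Pool.Agent.Helper30.FG
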