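import Pool.Agent.Helper30.FG.G5
import Pool.Agent.Helper30.FG.G6
import Pool.Agent.Helper30.FG.U2
import Pool.Agent.Helper22.SC.Suff
import Pool.Agent.Helper22.SC.Tail
import Pool.Agent.Helper22.SC.Gc
import Pool.Agent.Helper22.SC.Nodes

/-!
# The finite system for the extremal function
-/

set_option autoImplicit false

namespace Pool.Agent.Helper30.FG

open Complex MeasureTheory Set Filter Topology Polynomial
open Pool.Agent.Helper78.Bern Pool.Agent.Helper45.Bern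

/-- Even entire functions, real on the real axis, with `|g z| ≤ exp (a |Im z|)` (equivalently: of
exponential type `≤ a` and `|g| ≤ 1` on `ℝ`). -/
def Ball (a : ℝ) (g : ℂ → ℂ) : Prop :=
  Differentiable ℂ g ∧ (∀ z, g (-z) = g z) ∧ (∀ x : ℝ, (g (x : ℂ)).im = 0) ∧
    ∀ z, ‖g z‖ ≤ Real.exp (a * |z.im|)

theorem ball_iff {a : ℝ} {g : ℂ → ℂ} : Ball a g ↔ IsE a 1 g := by
  constructor
  · rintro ⟨h1, h2, h3, h4⟩
    exact ⟨⟨h1, fun z => by simpa using h4 z⟩, h2, h3⟩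
  · rintro ⟨⟨h1, h4⟩, h2, h3⟩
    exact ⟨h1, h2, h3, fun z => by simpa using h4 z⟩

/-- `z s(z) s'(z) / (z² - c²)`, for a real zero `c` of `s s'` (`s` even), as an entire function. -/
noncomputable def quot (s : ℂ → ℂ) (c : ℝ) : ℂ → ℂ :=
  dslope (dslope (fun z => z * (s z * deriv s z)) (c : ℂ)) (-(c : ℂ))

/-- A finite-gap function: `s` is in `Ball (1/2)`, `s` and `s'` have only real simple zeros,
`s 0 ≠ 0`, the set `K` of the real critical points `k` with `|s k| < 1` is finite, and `s` solves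
the Pell-Abel equation `4 Q s'² = P² (1 - s²)` with `P = ∏ (z - k)` and a monic real polynomial `Q`
of degree `2 deg P`. -/
def FiniteGap (s : ℂ → ℂ) (K : Finset ℝ) (Q : ℝ[X]) : Prop :=
  Ball (1 / 2) s ∧ s 0 ≠ 0 ∧ (∀ z, s z = 0 → z.im = 0 ∧ deriv s z ≠ 0) ∧
    (∀ z, deriv s z = 0 → z.im = 0 ∧ deriv (deriv s) z ≠ 0) ∧
    (∀ k : ℝ, k ∈ K ↔ deriv s (k : ℂ) = 0 ∧ ‖s (k : ℂ)‖ < 1) ∧
    Q.Monic ∧ Q.natDegree = 2 * K.card ∧
    ∀ z : ℂ, 4 * Polynomial.aeval z Q * deriv s z ^ 2 =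
      (∏ k ∈ K, (z - (k : ℂ))) ^ 2 * (1 - s z ^ 2)

/-- The critical system: `L (z s s'/(z² - c²)) ≥ 0` at every real zero `c` of `s s'`, with equality
at the critical points with `|s c| < 1`. -/
def Critical (α : ℝ) (s : ℂ → ℂ) : Prop :=
  ∀ c : ℝ, s (c : ℂ) * deriv s (c : ℂ) = 0 → 0 ≤ lam α (quot s c) ∧
    (deriv s (c : ℂ) = 0 → ‖s (c : ℂ)‖ < 1 → lam α (quot s c) = 0)

theorem aeval_prod (K : Finset ℝ) (z : ℂ) :
    Polynomial.aeval z (∏ k ∈ K, (X - C k) : ℝ[X]) = ∏ k ∈ K, (z - (k : ℂ)) := by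
  rw [map_prod]
  refine Finset.prod_congr rfl fun k _ => ?_
  simp

/-- `K` is symmetric -/
theorem symm_K {s : ℂ → ℂ} {K : Finset ℝ} (hs : IsE (1 / 2) 1 s)
    (hK : ∀ k : ℝ, k ∈ K ↔ deriv s (k : ℂ) = 0 ∧ ‖s (k : ℂ)‖ < 1) {k : ℝ} (hk : k ∈ K) :
    -k ∈ K := by
  rw [hK] at hk ⊢
  push_cast
  rw [deriv_odd hs.b.diff hs.even, hk.1, hs.even, neg_zero]
  exact ⟨rfl, hk.2⟩

theorem FiniteGap.pell {s : ℂ → ℂ} {K : Finset ℝ} {Q : ℝ[X]} (h : FiniteGap s K Q) :
    Helper22.SC.PellData s (∏ k ∈ K, (X - C k)) Q := by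
  obtain ⟨hs, hz0, hz, hcr, hK, hQm, hQd, heq⟩ := h
  have hs' := ball_iff.1 hs
  refine ⟨hs', hz0, hz, hcr, ?_, hQm, ?_, ?_, ?_⟩
  · exact monic_prod_of_monic _ _ fun k _ => monic_X_sub_C k
  · rw [hQd, Polynomial.natDegree_prod_of_monic _ _ (fun k _ => monic_X_sub_C k)]
    simp
  · intro x
    have hev : ∀ y : ℝ, (∏ k ∈ K, (X - C k) : ℝ[X]).eval y = ∏ k ∈ K, (y - k) := by
      intro y
      rw [Polynomial.eval_prod]
      refine Finset.prod_congr rfl fun k _ => ?_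
      simp
    rw [hev, hev, ← Finset.prod_pow, ← Finset.prod_pow]
    refine Finset.prod_nbij' (fun k => -k) (fun k => -k) ?_ ?_ ?_ ?_ ?_
    · exact fun k hk => symm_K hs' hK hk
    · exact fun k hk => symm_K hs' hK hk
    · intro k _; simp
    · intro k _; simp
    · intro k _; ring
  · intro z
    rw [aeval_prod]
    linear_combination heq z

theorem quot_eq (s : ℂ → ℂ) (c : ℝ) : quot s c = Helper22.SC.G s c := rfl

theorem quot_Gc {s : ℂ → ℂ} (hs : IsE (1 / 2) 1 s) {c : ℝ}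
    (hc : s (c : ℂ) * deriv s (c : ℂ) = 0) :
    (fun z => ((-4 : ℝ) : ℂ) * quot s c z) = Gc (fun z => 1 - 2 * s z ^ 2) c := by
  have hE : Helper22.SC.E s (c : ℂ) = 0 := hc
  set f : ℂ → ℂ := fun z => 1 - 2 * s z ^ 2 with hf
  have hd : deriv f = fun z => -4 * (s z * deriv s z) := deriv_one_sub hs.b.diff
  have hfE : IsE 1 1 f := (J_eq (α := 1 / 2) (by norm_num) (by norm_num) hs).1
  have hfc : deriv f (c : ℂ) = 0 := by
    rw [hd]
    simp only
    rw [hc, mul_zero]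
  obtain ⟨D, hD⟩ := Gc_isE hfE hfc
  have hcount : ({(c : ℂ), -(c : ℂ)} : Set ℂ).Countable := (Set.toFinite _).countable
  refine Continuous.ext_on (hcount.dense_compl ℂ)
    (continuous_const.mul (by
      rw [quot_eq]; exact (Helper22.SC.differentiable_G hs c).continuous)) hD.b.diff.continuous ?_
  intro z hz
  simp only [mem_compl_iff, mem_insert_iff, mem_singleton_iff, not_or] at hz
  have e1 : z ^ 2 - (c : ℂ) ^ 2 ≠ 0 := by
    rw [sq_sub_sq]
    refine mul_ne_zero ?_ (sub_ne_zero.2 hz.1)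
    intro h
    exact hz.2 (eq_neg_of_add_eq_zero_left h)
  apply mul_left_cancel₀ e1
  have e2 := sub_mul_Gc hfE.b.diff hfE.even hfc z
  have e3 := Helper22.SC.G_spec hs hE z
  have e4 : Helper22.SC.E s z = s z * deriv s z := rfl
  rw [e4] at e3
  have e5 : deriv f z = -4 * (s z * deriv s z) := by rw [hd]
  rw [quot_eq]
  push_cast
  linear_combination -e2 - 4 * e3 - z * e5

theorem lam_quot {α : ℝ} (h0 : 0 < α) (h1 : α < 1) {s : ℂ → ℂ} (hs : IsE (1 / 2) 1 s) {c : ℝ}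
    (hc : s (c : ℂ) * deriv s (c : ℂ) = 0) :
    lam α (quot s c) = Lf α (Helper22.SC.G s c) ∧
      Lf α (Gc (fun z => 1 - 2 * s z ^ 2) c) = -4 * lam α (quot s c) := by
  have hE : Helper22.SC.E s (c : ℂ) = 0 := hc
  obtain ⟨M, -, hM⟩ := Helper22.SC.G_isE hs
  have e1 : lam α (quot s c) = Lf α (Helper22.SC.G s c) := by
    rw [lam_eq, quot_eq, ← Lf_eq_Lr h0 h1 (hM c hE)]
  refine ⟨e1, ?_⟩
  rw [← quot_Gc hs hc, Lf_const_mul, e1]
  rfl

/-- sufficiency -/
theorem max_of_system {α : ℝ} (h0 : 0 < α) (h1 : α < 1) {s : ℂ → ℂ} {K : Finset ℝ} {Q : ℝ[X]}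
    (h : FiniteGap s K Q) (hc : Critical α s) : J α s = bernsteinNorm α := by
  have hs := ball_iff.1 h.1
  refine Helper22.SC.sufficient h0 h1 h.pell ?_ ?_
  · intro c hE
    rw [← (lam_quot h0 h1 hs hE).1]
    exact (hc c hE).1
  · intro c hd hn
    have hE : s (c : ℂ) * deriv s (c : ℂ) = 0 := by rw [hd, mul_zero]
    rw [← (lam_quot h0 h1 hs hE).1]
    exact (hc c hE).2 hd hn

/-- the extremal measure of a maximiser -/
theorem extremal_measure {α : ℝ} (h0 : 0 < α) (h1 : α < 1) {s : ℂ → ℂ} (hs : IsE (1 / 2) 1 s)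
    (hJ : J α s = bernsteinNorm α) (hnc : ∃ z, deriv s z ≠ 0)
    (hz : ∀ x : ℝ, s (x : ℂ) = 0 → deriv s (x : ℂ) ≠ 0)
    (hcrit : ∀ x : ℝ, deriv s (x : ℂ) = 0 → deriv (deriv s) (x : ℂ) ≠ 0) :
    ∃ μ : ComplexMeasure ℝ, Admissible α μ ∧ totalVar μ = bernsteinNorm α ∧
      (∀ ν : ComplexMeasure ℝ, Admissible α ν → totalVar ν = bernsteinNorm α → ν = μ) ∧
      (∀ A : Set ℝ, MeasurableSet A →
        (∀ x ∈ A, ‖(fun z => 1 - 2 * s z ^ 2) (x : ℂ)‖ ≠ 1) → μ A = 0) ∧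
      (∀ x : ℝ, ∃ m : ℝ, 0 ≤ m ∧ μ {x} = (m : ℂ) * (fun z => 1 - 2 * s z ^ 2) (x : ℂ)) := by
  set f : ℂ → ℂ := fun z => 1 - 2 * s z ^ 2 with hf
  obtain ⟨hfE, hfL⟩ := J_eq h0 h1 hs
  have hreal : ∀ x : ℝ, f (x : ℂ) = (((f (x : ℂ)).re : ℝ) : ℂ) := fun x =>
    Complex.ext rfl (by rw [Complex.ofReal_im]; exact hfE.real x)
  have hnorm : ∀ x : ℝ, ‖f (x : ℂ)‖ = |(f (x : ℂ)).re| := by
    intro x
    conv_lhs => rw [hreal x]
    rw [Complex.norm_real, Real.norm_eq_abs]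
  obtain ⟨μ, hμ, hμt⟩ := exists_extremal h0 h1 hs hJ hnc
  have hfc : Continuous (fun x : ℝ => (f (x : ℂ)).re) :=
    Complex.continuous_re.comp (hfE.b.diff.continuous.comp Complex.continuous_ofReal)
  have hf1 : ∀ x : ℝ, |(f (x : ℂ)).re| ≤ 1 := fun x => by
    rw [← hnorm]; exact hfE.b.real_le x
  have hint : VectorMeasure.integral μ (fun x : ℝ => (((f (x : ℂ)).re : ℝ) : ℂ))
      (ContinuousLinearMap.mul ℝ ℂ) = ((totalVar μ : ℝ) : ℂ) := by
    have e : (fun x : ℝ => (((f (x : ℂ)).re : ℝ) : ℂ)) = fun x : ℝ => f (x : ℂ) :=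
      funext fun x => (hreal x).symm
    rw [e, hμt, ← hJ]
    exact integral_eq_J h0 h1 hs hμ
  obtain ⟨hs1, hs2, hs3, hs4⟩ := extremal_structure hfc hf1 hint
  refine ⟨μ, hμ, hμt, ?_, ?_, ?_⟩
  · intro ν hν hνt
    exact extremal_unique h0 h1 hs hJ hnc hz hcrit hν hμ hνt hμt
  · intro A hA h
    refine hs1 A hA fun x hx => ?_
    rw [← hnorm]
    exact h x hx
  · intro x
    have him := hs2 {x} (measurableSet_singleton x)
    have hre : μ {x} = (((μ {x}).re : ℝ) : ℂ) := Complex.ext (by simp) (by simpa using him)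
    by_cases hx1 : (f (x : ℂ)).re = 1
    · refine ⟨(μ {x}).re, hs3 {x} (measurableSet_singleton x) (by simpa using hx1), ?_⟩
      rw [hreal x, hx1]
      simpa using hre
    · by_cases hx2 : (f (x : ℂ)).re = -1
      · refine ⟨-(μ {x}).re, by
          have := hs4 {x} (measurableSet_singleton x) (by simpa using hx2)
          linarith, ?_⟩
        rw [hreal x, hx2]
        push_cast
        rw [neg_mul_neg, mul_one]
        exact hre
      · refine ⟨0, le_rfl, ?_⟩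
        rw [hs1 {x} (measurableSet_singleton x) (by
          intro y hy
          rw [mem_singleton_iff.1 hy]
          intro h
          rcases abs_eq (zero_le_one) |>.1 h with h2 | h2
          · exact hx1 h2
          · exact hx2 h2)]
        simp

theorem finite_gap_theorem {α : ℝ} (h0 : 0 < α) (h1 : α < 1) :
    (∀ g, Ball 1 g → lam α g ≤ bernsteinNorm α ∧
      ∀ μ, Admissible α μ → pairing μ g = ((lam α g : ℝ) : ℂ)) ∧
    (∀ t L R, FiniteGap t L R →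
      {c : ℝ | t (c : ℂ) * deriv t (c : ℂ) = 0 ∧ lam α (quot t c) ≤ 0}.Finite) ∧
    ∃ (s : ℂ → ℂ) (K : Finset ℝ) (Q : ℝ[X]), FiniteGap s K Q ∧ Critical α s ∧
      (∀ t L R, FiniteGap t L R → Critical α t → t = s ∨ t = -s) ∧
      lam α (fun z => 1 - 2 * s z ^ 2) = bernsteinNorm α ∧
      (∀ g, Ball 1 g → lam α g = bernsteinNorm α → g = fun z => 1 - 2 * s z ^ 2) ∧
      (∀ x : ℝ, 0 < Q.eval x) ∧
      (∃ θ : ℝ, ∀ x : ℝ, s (x : ℂ) = ((Real.cos (θ + 1 / 2 * ∫ t in (0 : ℝ)..x,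
          (∏ k ∈ K, (t - k)) / √(Q.eval t)) : ℝ) : ℂ)) ∧
      ∃ μ : ComplexMeasure ℝ, Admissible α μ ∧ totalVar μ = bernsteinNorm α ∧
        (∀ ν : ComplexMeasure ℝ, Admissible α ν → totalVar ν = bernsteinNorm α → ν = μ) ∧
        (∀ A : Set ℝ, MeasurableSet A →
          (∀ x ∈ A, s (x : ℂ) ≠ 0 ∧ ‖s (x : ℂ)‖ < 1) → μ A = 0) ∧
        (∀ x : ℝ, ∃ m : ℝ, 0 ≤ m ∧ μ {x} = ((m : ℝ) : ℂ) * (1 - 2 * s (x : ℂ) ^ 2)) ∧
        ∀ c : ℝ, s (c : ℂ) * deriv s (c : ℂ) = 0 →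
          deriv (fun z => s z * deriv s z) (c : ℂ) * μ {c} = ((lam α (quot s c) : ℝ) : ℂ) := by
  refine ⟨?_, ?_, ?_⟩
  · intro g hg
    have hg' := ball_iff.1 hg
    rw [lam_eq, ← Lf_eq_Lr h0 h1 hg']
    exact ⟨Lf_le h0 h1 hg', fun μ hμ => pairing_eq_Lf h0 h1 hg' hμ⟩
  · intro t L R ht
    obtain ⟨C, hC, hpos⟩ := Helper22.SC.weight_pos h0 h1 ht.pell
    have hs := ball_iff.1 ht.1
    have hbig : ∀ c : ℝ, C ≤ |c| → t (c : ℂ) * deriv t (c : ℂ) = 0 → 0 < lam α (quot t c) := by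
      intro c hc hE
      rw [(lam_quot h0 h1 hs hE).1]
      rcases le_abs.1 hc with h | h
      · exact hpos c h hE
      · have hE' : Helper22.SC.E t ((-c : ℝ) : ℂ) = 0 := by
          push_cast
          rw [Helper22.SC.E_odd hs]
          show -(t (c : ℂ) * deriv t (c : ℂ)) = 0
          rw [hE, neg_zero]
        have h2 := hpos (-c) h hE'
        have h3 : Helper22.SC.G t (-c) = Helper22.SC.G t c :=
          funext fun z => Helper22.SC.G_neg hs hE z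
        rwa [h3] at h2
    refine (Helper22.SC.Nodes.finite_nodes ht.pell C).subset ?_
    rintro c ⟨hE, hle⟩
    refine ⟨hE, ?_⟩
    by_contra hcon
    exact absurd (hbig c (not_le.1 hcon).le hE) (not_lt.2 hle)
  obtain ⟨⟨s, hs, hJ⟩, -, -⟩ := structure_all h0 h1
  obtain ⟨hmax, hz0, hz, hcrit, K, Q, θ, hK, hQm, hQd, hQpos, heq, hcos⟩ := max_facts h0 h1 hs hJ
  obtain ⟨hfE, hfL⟩ := J_eq h0 h1 hs
  set f : ℂ → ℂ := fun z => 1 - 2 * s z ^ 2 with hf
  have hd : deriv f = fun z => -4 * (s z * deriv s z) := deriv_one_sub hs.b.diff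
  have hnc : ∃ z, deriv s z ≠ 0 := by
    by_contra hcon
    push Not at hcon
    have h2 := (hcrit 0 (hcon 0)).2
    apply h2
    have h3 : deriv s = fun _ => 0 := funext hcon
    rw [h3]
    simp
  have hreal : ∀ x : ℝ, s (x : ℂ) = (((s (x : ℂ)).re : ℝ) : ℂ) := fun x =>
    Complex.ext rfl (by rw [Complex.ofReal_im]; exact hs.real x)
  have hfg : FiniteGap s K Q := ⟨ball_iff.2 hs, hz0, hz, hcrit, hK, hQm, hQd, fun z => by
    have := heq z
    rw [aeval_prod] at this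
    linear_combination this⟩
  obtain ⟨μ, hμ, hμt, huniq, hnull, hsign⟩ := extremal_measure h0 h1 hs hJ hnc
    (fun x hx => (hz (x : ℂ) hx).2) (fun x hx => (hcrit (x : ℂ) hx).2)
  have hfd : ∀ c : ℝ, s (c : ℂ) * deriv s (c : ℂ) = 0 → deriv f (c : ℂ) = 0 := by
    intro c hc
    rw [hd]
    simp only
    rw [hc, mul_zero]
  have hcr : Critical α s := by
    intro c hc
    have h2 := critical h0 h1 hfE hμ hnull hsign (hfd c hc)
    have h3 := (lam_quot h0 h1 hs hc).2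
    rw [h3] at h2
    refine ⟨by linarith [h2.1], fun hdc hn => ?_⟩
    have h4 : s (c : ℂ) ≠ 0 := fun h => (hz _ h).2 hdc
    have h5 : ‖f (c : ℂ)‖ < 1 := by
      have e : f (c : ℂ) = ((1 - 2 * (s (c : ℂ)).re ^ 2 : ℝ) : ℂ) := by
        rw [hf]
        simp only
        conv_lhs => rw [hreal c]
        push_cast
        ring
      rw [e, Complex.norm_real, Real.norm_eq_abs, abs_lt]
      rw [hreal c, Complex.norm_real, Real.norm_eq_abs] at hn
      have h6 : (s (c : ℂ)).re ≠ 0 := by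
        intro h
        apply h4
        rw [hreal c, h, Complex.ofReal_zero]
      have h7 : 0 < (s (c : ℂ)).re ^ 2 := by positivity
      have h8 : (s (c : ℂ)).re ^ 2 < 1 := by
        rw [← sq_abs]
        nlinarith [abs_nonneg (s (c : ℂ)).re]
      constructor <;> linarith
    linarith [h2.2 h5]
  refine ⟨s, K, Q, hfg, hcr, ?_, ?_, ?_, hQpos, ?_, μ, hμ, hμt, huniq, ?_, hsign, ?_⟩
  · intro t L R ht htc
    have ht' := ball_iff.1 ht.1
    have hJt := max_of_system h0 h1 ht htc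
    have hmt : ∀ s' : ℂ → ℂ, IsE (1 / 2) 1 s' → J α s' ≤ J α t := fun s' hs' => by
      rw [hJt]; exact J_le h0 h1 hs'
    rcases unique_max h0 h1 hs ht' hmax hmt with h | h
    · left; exact funext h
    · right
      funext z
      rw [h z]
      rfl
  · rw [lam_eq, ← Lf_eq_Lr h0 h1 hfE, hfL, hJ]
  · intro g hg hL
    have hg' := ball_iff.1 hg
    rw [lam_eq, ← Lf_eq_Lr h0 h1 hg'] at hL
    funext z
    exact Helper22.PA.ball_unique h0 h1 hs hmax hg' hL z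
  · refine ⟨θ, fun x => ?_⟩
    rw [hreal x, hcos x]
    congr 1
    have h3 : ∀ t : ℝ, (∏ k ∈ K, (X - C k) : ℝ[X]).eval t = ∏ k ∈ K, (t - k) := by
      intro t
      rw [Polynomial.eval_prod]
      refine Finset.prod_congr rfl fun k _ => ?_
      simp
    simp only [h3]
  · intro A hA h
    refine hnull A hA fun x hx => ?_
    obtain ⟨h2, h3⟩ := h x hx
    have e : f (x : ℂ) = ((1 - 2 * (s (x : ℂ)).re ^ 2 : ℝ) : ℂ) := by
      rw [hf]
      simp only
      conv_lhs => rw [hreal x]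
      push_cast
      ring
    show ‖f (x : ℂ)‖ ≠ 1
    rw [e, Complex.norm_real, Real.norm_eq_abs]
    rw [hreal x, Complex.norm_real, Real.norm_eq_abs] at h3
    have h6 : (s (x : ℂ)).re ≠ 0 := by
      intro h
      apply h2
      rw [hreal x, h, Complex.ofReal_zero]
    have h7 : 0 < (s (x : ℂ)).re ^ 2 := by positivity
    have h8 : (s (x : ℂ)).re ^ 2 < 1 := by
      rw [← sq_abs]
      nlinarith [abs_nonneg (s (x : ℂ)).re]
    refine ne_of_lt ?_
    rw [abs_lt]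
    constructor <;> linarith
  · intro c hc
    have hw := weight_formula h0 h1 hfE hμ hnull (hfd c hc)
    have h3 := (lam_quot h0 h1 hs hc).2
    rw [h3] at hw
    have hdd : deriv (deriv f) (c : ℂ) = -4 * deriv (fun z => s z * deriv s z) (c : ℂ) := by
      rw [hd]
      exact deriv_const_mul _ ((Helper22.SC.differentiable_E hs) _)
    rw [hdd] at hw
    push_cast at hw
    linear_combination (1 / 4) * hw

end Pool.Agent.Helper30.FG
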