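import Pool.Agent.Helper30.FG.G7

/-!
# A finite-gap function is determined up to sign by its gaps `K` and the polynomial `Q`

With `u = s'/P` one has `4 Q u² = 1 - s²` and `s' = P u`, `4 Q u' + 2 Q' u + s P = 0`. For two such
functions the Wronskian-like expression `C = s₁ s₂ + 4 Q u₁ u₂` is constant. At a zero of `Q`
(or at `0` if `Q = 1`) it is `± 1`; then `(s₁ - C s₂)² + 4 Q (u₁ - C u₂)² = 0` on the real axis.
-/

set_option autoImplicit false

namespace Pool.Agent.Helper30.FG

open Complex MeasureTheory Set Filter Topology Polynomial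
open Pool.Agent.Helper78.Bern Pool.Agent.Helper45.Bern

namespace G8

theorem differentiable_aeval' (R : ℝ[X]) : Differentiable ℂ (fun z : ℂ => Polynomial.aeval z R) :=
  R.differentiable_aeval

/-- the differentiated identity -/
theorem second_identity {s u : ℂ → ℂ} (hs : Differentiable ℂ s) (hu : Differentiable ℂ u)
    (P Q : ℝ[X]) (hPu : ∀ z : ℂ, deriv s z = Polynomial.aeval z P * u z)
    (heq : ∀ z : ℂ, 4 * u z ^ 2 * Polynomial.aeval z Q = 1 - s z ^ 2)
    (hnc : ∃ z, deriv s z ≠ 0) (z : ℂ) :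
    4 * deriv u z * Polynomial.aeval z Q +
      2 * u z * Polynomial.aeval z (derivative Q) + s z * Polynomial.aeval z P = 0 := by
  obtain ⟨z₀, hz₀⟩ := hnc
  have hu0 : u z₀ ≠ 0 := by
    intro h
    apply hz₀
    rw [hPu, h, mul_zero]
  have hprod : ∀ z : ℂ, u z * (4 * deriv u z * Polynomial.aeval z Q +
      2 * u z * Polynomial.aeval z (derivative Q) + s z * Polynomial.aeval z P) = 0 := by
    intro z
    have h1 : HasDerivAt (fun z => 4 * u z ^ 2 * Polynomial.aeval z Q)
        (4 * (2 * u z * deriv u z) * Polynomial.aeval z Q +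
          4 * u z ^ 2 * Polynomial.aeval z (derivative Q)) z := by
      have h2 := ((hu z).hasDerivAt.pow 2).const_mul 4
      have h3 := Polynomial.hasDerivAt_aeval (q := Q) z
      refine (h2.mul h3).congr_deriv ?_
      simp
    have h4 : HasDerivAt (fun z => 1 - s z ^ 2) (-(2 * s z * deriv s z)) z := by
      have h2 := ((hs z).hasDerivAt.pow 2).const_sub 1
      refine h2.congr_deriv ?_
      simp
    have h5 : (fun z => 4 * u z ^ 2 * Polynomial.aeval z Q) = fun z => 1 - s z ^ 2 := funext heq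
    rw [h5] at h1
    have h6 := h1.unique h4
    rw [hPu] at h6
    linear_combination (1 / 2 : ℂ) * h6
  have hA : AnalyticOnNhd ℂ (fun z : ℂ => 4 * deriv u z * Polynomial.aeval z Q +
      2 * u z * Polynomial.aeval z (derivative Q) + s z * Polynomial.aeval z P) univ := by
    have hpoly : ∀ R : ℝ[X], AnalyticOnNhd ℂ (fun z : ℂ => Polynomial.aeval z R) univ := by
      intro R
      exact fun z _ => (differentiable_aeval' R).analyticAt z
    have h1 : AnalyticOnNhd ℂ u univ := fun z _ => hu.analyticAt z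
    have h2 : AnalyticOnNhd ℂ s univ := fun z _ => hs.analyticAt z
    have h3 : AnalyticOnNhd ℂ (deriv u) univ := h1.deriv
    exact (((analyticOnNhd_const.mul h3).mul (hpoly Q)).add
      ((analyticOnNhd_const.mul h1).mul (hpoly _))).add (h2.mul (hpoly P))
  have hev : (fun z : ℂ => 4 * deriv u z * Polynomial.aeval z Q +
      2 * u z * Polynomial.aeval z (derivative Q) + s z * Polynomial.aeval z P) =ᶠ[𝓝 z₀] 0 := by
    filter_upwards [hu.continuous.continuousAt.eventually_ne hu0] with z hz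
    exact (mul_eq_zero.1 (hprod z)).resolve_left hz
  have h := hA.eqOn_zero_of_preconnected_of_eventuallyEq_zero isPreconnected_univ (mem_univ z₀) hev
  exact h (mem_univ z)

/-- The data extracted from `FiniteGap`. -/
theorem extract {s : ℂ → ℂ} {K : Finset ℝ} {Q : ℝ[X]} (h : FiniteGap s K Q) :
    ∃ u : ℂ → ℂ, Differentiable ℂ u ∧
      (∀ z : ℂ, deriv s z = Polynomial.aeval z (∏ k ∈ K, (X - C k) : ℝ[X]) * u z) ∧
      (∀ x : ℝ, 0 < Q.eval x) ∧
      (∀ z : ℂ, 4 * u z ^ 2 * Polynomial.aeval z Q = 1 - s z ^ 2) ∧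
      (∃ z, deriv s z ≠ 0) ∧
      (∀ z : ℂ, 4 * deriv u z * Polynomial.aeval z Q +
        2 * u z * Polynomial.aeval z (derivative Q) +
          s z * Polynomial.aeval z (∏ k ∈ K, (X - C k) : ℝ[X]) = 0) ∧
      ∀ x : ℝ, (u (x : ℂ)).im = 0 := by
  obtain ⟨hB, hz0, hz, hcr, hK, hQm, hQd, heq⟩ := h
  have hs := ball_iff.1 hB
  have heq' : ∀ z : ℂ, 4 * deriv s z ^ 2 * Polynomial.aeval z Q =
      (1 - s z ^ 2) * Polynomial.aeval z (∏ k ∈ K, (X - C k) : ℝ[X]) ^ 2 := by
    intro z
    rw [aeval_prod]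
    linear_combination heq z
  obtain ⟨u, hu, hPu⟩ := exists_u hs.b.diff K (fun k hk => ((hK k).1 hk).1)
  obtain ⟨hQpos, hequ⟩ := Q_pos hs.b.diff hu hs.real (fun x => by simpa using hs.b.real_le x) K
    (fun k hk => ((hK k).1 hk).2) (fun x hx => (hcr (x : ℂ) hx).2) Q hQm hPu heq'
  have hnc : ∃ z, deriv s z ≠ 0 := by
    by_contra hcon
    push Not at hcon
    have h2 := (hcr 0 (hcon 0)).2
    apply h2
    have h3 : deriv s = fun _ => 0 := funext hcon
    rw [h3]
    simp
  refine ⟨u, hu, hPu, hQpos, hequ, hnc, second_identity hs.b.diff hu _ Q hPu hequ hnc, ?_⟩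
  -- reality
  set P : ℝ[X] := ∏ k ∈ K, (X - C k) with hP
  have hP0 : P ≠ 0 := (monic_prod_of_monic _ _ fun k _ => monic_X_sub_C k).ne_zero
  have hfin : ({x : ℝ | P.eval x = 0} : Set ℝ).Finite := by
    refine (P.roots.toFinset.finite_toSet).subset (fun x hx => ?_)
    simp only [Finset.mem_coe, Multiset.mem_toFinset, Polynomial.mem_roots hP0]
    exact hx
  have hd : Dense ({x : ℝ | P.eval x = 0}ᶜ) := hfin.countable.dense_compl ℝ
  have hc : Continuous (fun x : ℝ => (u (x : ℂ)).im) :=
    Complex.continuous_im.comp (hu.continuous.comp Complex.continuous_ofReal)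
  have h := hc.ext_on hd continuous_const (g := fun _ => (0 : ℝ)) (fun x hx => by
    have h1 := deriv_real hs.b.diff hs.real x
    rw [hPu, H1.aeval_real] at h1
    rw [Complex.im_ofReal_mul] at h1
    exact (mul_eq_zero.1 h1).resolve_left hx)
  exact fun x => congrFun h x

end G8

open G8 in
/-- A finite-gap function is determined by `(K, Q)` up to sign. -/
theorem determined {s₁ s₂ : ℂ → ℂ} {K : Finset ℝ} {Q : ℝ[X]} (h₁ : FiniteGap s₁ K Q)
    (h₂ : FiniteGap s₂ K Q) : s₂ = s₁ ∨ s₂ = -s₁ := by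
  obtain ⟨u₁, hu₁, hP₁, hQpos, he₁, hnc₁, hi₁, hr₁⟩ := extract h₁
  obtain ⟨u₂, hu₂, hP₂, -, he₂, hnc₂, hi₂, hr₂⟩ := extract h₂
  have hs₁ := ball_iff.1 h₁.1
  have hs₂ := ball_iff.1 h₂.1
  set P : ℝ[X] := ∏ k ∈ K, (X - C k) with hP
  -- the constant
  set F : ℂ → ℂ := fun z => s₁ z * s₂ z + 4 * (Polynomial.aeval z Q * (u₁ z * u₂ z)) with hF
  have hder : ∀ z, HasDerivAt F 0 z := by
    intro z
    have a1 := (hs₁.b.diff z).hasDerivAt
    have a2 := (hs₂.b.diff z).hasDerivAt
    have b1 := (hu₁ z).hasDerivAt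
    have b2 := (hu₂ z).hasDerivAt
    have q := Polynomial.hasDerivAt_aeval (q := Q) z
    have h := (a1.mul a2).add ((q.mul (b1.mul b2)).const_mul 4)
    refine h.congr_deriv ?_
    rw [hP₁, hP₂]
    simp only [Pi.mul_apply]
    linear_combination u₂ z * hi₁ z + u₁ z * hi₂ z
  have hconst : ∀ z w, F z = F w := fun z w =>
    is_const_of_deriv_eq_zero (fun z => (hder z).differentiableAt) (fun z => (hder z).deriv) z w
  -- its value
  have hval : ∃ c : ℝ, c ^ 2 = 1 ∧ F 0 = (c : ℂ) := by
    have hsq : ∀ w : ℂ, w ^ 2 = 1 → ∃ c : ℝ, c ^ 2 = 1 ∧ w = (c : ℂ) := by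
      intro w hw
      have : (w - 1) * (w + 1) = 0 := by linear_combination hw
      rcases mul_eq_zero.1 this with h | h
      · exact ⟨1, by norm_num, by rw [sub_eq_zero.1 h]; simp⟩
      · exact ⟨-1, by norm_num, by rw [eq_neg_of_add_eq_zero_left h]; simp⟩
    have hred : ∀ z, Polynomial.aeval z Q * (u₁ z * u₂ z) = 0 → s₁ z ^ 2 = 1 → s₂ z ^ 2 = 1 →
        ∃ c : ℝ, c ^ 2 = 1 ∧ F 0 = (c : ℂ) := by
      intro z hz e1 e2
      rw [hconst 0 z]
      apply hsq
      simp only [hF]
      rw [hz]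
      linear_combination s₂ z ^ 2 * e1 + e2
    by_cases hQd : Q.natDegree = 0
    · -- `K` is empty, `Q = 1`
      have hQm := h₁.2.2.2.2.2.1
      have hQ1 : Q = 1 := hQm.natDegree_eq_zero.1 hQd
      have hcard : K = ∅ := by
        have := h₁.2.2.2.2.2.2.1
        rw [hQd] at this
        exact Finset.card_eq_zero.1 (by omega)
      have hP1 : P = 1 := by rw [hP, hcard, Finset.prod_empty]
      have hd1 : deriv s₁ 0 = 0 := by
        have := deriv_odd hs₁.b.diff hs₁.even 0
        rw [neg_zero] at this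
        have h2 : (2 : ℂ) * deriv s₁ 0 = 0 := by linear_combination this
        simpa using h2
      have hd2 : deriv s₂ 0 = 0 := by
        have := deriv_odd hs₂.b.diff hs₂.even 0
        rw [neg_zero] at this
        have h2 : (2 : ℂ) * deriv s₂ 0 = 0 := by linear_combination this
        simpa using h2
      have hu1 : u₁ 0 = 0 := by
        have := hP₁ 0
        rw [hP1, hd1] at this
        simpa using this.symm
      have hu2 : u₂ 0 = 0 := by
        have := hP₂ 0
        rw [hP1, hd2] at this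
        simpa using this.symm
      refine hred 0 (by rw [hu1]; ring) ?_ ?_
      · have := he₁ 0
        rw [hu1] at this
        linear_combination this
      · have := he₂ 0
        rw [hu2] at this
        linear_combination this
    · -- a zero of `Q`
      have hdeg : (Q.map (algebraMap ℝ ℂ)).degree ≠ 0 := by
        intro h
        apply hQd
        have h2 : (Q.map (algebraMap ℝ ℂ)).natDegree = 0 := natDegree_eq_of_degree_eq_some h
        rwa [natDegree_map] at h2
      obtain ⟨z, hz⟩ := IsAlgClosed.exists_root _ hdeg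
      have hz' : Polynomial.aeval z Q = 0 := by
        rw [Polynomial.aeval_def, ← Polynomial.eval_map]
        exact hz
      refine hred z (by rw [hz']; ring) ?_ ?_
      · have := he₁ z
        rw [hz'] at this
        linear_combination this
      · have := he₂ z
        rw [hz'] at this
        linear_combination this
  obtain ⟨c, hc2, hc⟩ := hval
  -- on the real axis
  have hreal₁ : ∀ x : ℝ, s₁ (x : ℂ) = (((s₁ (x : ℂ)).re : ℝ) : ℂ) := fun x =>
    Complex.ext rfl (by rw [Complex.ofReal_im]; exact hs₁.real x)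
  have hreal₂ : ∀ x : ℝ, s₂ (x : ℂ) = (((s₂ (x : ℂ)).re : ℝ) : ℂ) := fun x =>
    Complex.ext rfl (by rw [Complex.ofReal_im]; exact hs₂.real x)
  have hru₁ : ∀ x : ℝ, u₁ (x : ℂ) = (((u₁ (x : ℂ)).re : ℝ) : ℂ) := fun x =>
    Complex.ext rfl (by rw [Complex.ofReal_im]; exact hr₁ x)
  have hru₂ : ∀ x : ℝ, u₂ (x : ℂ) = (((u₂ (x : ℂ)).re : ℝ) : ℂ) := fun x =>
    Complex.ext rfl (by rw [Complex.ofReal_im]; exact hr₂ x)
  have hx : ∀ x : ℝ, s₂ (x : ℂ) = (c : ℂ) * s₁ (x : ℂ) := by
    intro x
    set a := (s₁ (x : ℂ)).re with ha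
    set b := (s₂ (x : ℂ)).re with hb
    set p := (u₁ (x : ℂ)).re with hp
    set q := (u₂ (x : ℂ)).re with hq
    have e1 : 4 * p ^ 2 * Q.eval x = 1 - a ^ 2 := by
      have := he₁ (x : ℂ)
      rw [hru₁, hreal₁, H1.aeval_real] at this
      exact_mod_cast this
    have e2 : 4 * q ^ 2 * Q.eval x = 1 - b ^ 2 := by
      have := he₂ (x : ℂ)
      rw [hru₂, hreal₂, H1.aeval_real] at this
      exact_mod_cast this
    have e3 : a * b + 4 * (Q.eval x * (p * q)) = c := by
      have := (hconst (x : ℂ) 0).trans hc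
      simp only [hF] at this
      rw [hru₁, hru₂, hreal₁, hreal₂, H1.aeval_real] at this
      exact_mod_cast this
    have hQ := hQpos x
    have e4 : (b - c * a) ^ 2 + 4 * (Q.eval x * (q - c * p) ^ 2) = 0 := by
      have : (b - c * a) ^ 2 + 4 * (Q.eval x * (q - c * p) ^ 2) =
          (b ^ 2 + 4 * q ^ 2 * Q.eval x) + c ^ 2 * (a ^ 2 + 4 * p ^ 2 * Q.eval x) -
            2 * c * (a * b + 4 * (Q.eval x * (p * q))) := by ring
      rw [this, e1, e2, e3]
      nlinarith [hc2]
    have e5 : (b - c * a) ^ 2 = 0 := by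
      have h6 : 0 ≤ 4 * (Q.eval x * (q - c * p) ^ 2) := by positivity
      nlinarith [sq_nonneg (b - c * a)]
    have e6 : b = c * a := by
      have := pow_eq_zero_iff (n := 2) (by norm_num) |>.1 e5
      linarith
    rw [hreal₁, hreal₂, ← ha, ← hb, e6]
    push_cast
    ring
  have hfun : s₂ = fun z => (c : ℂ) * s₁ z :=
    A7.eq_of_real hs₂.b.diff (hs₁.b.diff.const_mul _) hx
  have hc3 : (c - 1) * (c + 1) = 0 := by linear_combination hc2
  rcases mul_eq_zero.1 hc3 with h9 | h9
  · left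
    rw [hfun, sub_eq_zero.1 h9]
    funext z
    simp
  · right
    rw [hfun, eq_neg_of_add_eq_zero_left h9]
    funext z
    simp

end Pool.Agent.Helper30.FG
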