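import Pool.Agent.Helper30.FG.G8

/-!
# The final statement
-/

set_option autoImplicit false

namespace Pool.Agent.Helper30.FG

open Complex MeasureTheory Set Filter Topology Polynomial
open Pool.Agent.Helper78.Bern Pool.Agent.Helper45.Bern

theorem one_lt_bernsteinNorm {α : ℝ} (h0 : 0 < α) (h1 : α < 1) : 1 < bernsteinNorm α := by
  obtain ⟨⟨s, hs, hJ⟩, -, -⟩ := structure_all h0 h1
  rw [← hJ]
  exact one_lt_max h0 h1 fun s' hs' => by rw [hJ]; exact J_le h0 h1 hs'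

theorem finite_gap_theorem' {α : ℝ} (h0 : 0 < α) (h1 : α < 1) :
    1 < bernsteinNorm α ∧
    (∀ g, Ball 1 g → lam α g ≤ bernsteinNorm α ∧
      ∀ μ, Admissible α μ → pairing μ g = ((lam α g : ℝ) : ℂ)) ∧
    (∀ t L R, FiniteGap t L R → (∀ u, FiniteGap u L R → u = t ∨ u = -t) ∧
      {c : ℝ | t (c : ℂ) * deriv t (c : ℂ) = 0 ∧ lam α (quot t c) ≤ 0}.Finite) ∧
    ∃ (s : ℂ → ℂ) (K : Finset ℝ) (Q : ℝ[X]), FiniteGap s K Q ∧ Critical α s ∧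
      (∀ t L R, FiniteGap t L R → Critical α t → t = s ∨ t = -s) ∧
      lam α (fun z => 1 - 2 * s z ^ 2) = bernsteinNorm α ∧
      (∀ g, Ball 1 g → lam α g = bernsteinNorm α → g = fun z => 1 - 2 * s z ^ 2) ∧
      (∀ x : ℝ, 0 < Q.eval x) ∧
      (∃ θ : ℝ, ∀ x : ℝ, s (x : ℂ) = ((Real.cos (θ + 1 / 2 * ∫ t in (0 : ℝ)..x,
          (∏ k ∈ K, (t - k)) / √(Q.eval t)) : ℝ) : ℂ)) ∧
      ∃ μ : ComplexMeasure ℝ, Admissible α μ ∧ totalVar μ = bernsteinNorm α ∧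
        (∀ ν : ComplexMeasure ℝ, Admissible α ν → totalVar ν = bernsteinNorm α → ν = μ) ∧
        (∀ A : Set ℝ, MeasurableSet A →
          (∀ x ∈ A, s (x : ℂ) ≠ 0 ∧ ‖s (x : ℂ)‖ < 1) → μ A = 0) ∧
        (∀ x : ℝ, ∃ m : ℝ, 0 ≤ m ∧ μ {x} = ((m : ℝ) : ℂ) * (1 - 2 * s (x : ℂ) ^ 2)) ∧
        ∀ c : ℝ, s (c : ℂ) * deriv s (c : ℂ) = 0 →
          deriv (fun z => s z * deriv s z) (c : ℂ) * μ {c} = ((lam α (quot s c) : ℝ) : ℂ) := by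
  obtain ⟨hA, hB, hC⟩ := finite_gap_theorem h0 h1
  exact ⟨one_lt_bernsteinNorm h0 h1, hA,
    fun t L R ht => ⟨fun u hu => determined ht hu, hB t L R ht⟩, hC⟩

end Pool.Agent.Helper30.FG
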